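import Pool.Agent.W2helper94.KC.I

set_option autoImplicit false

/-!
The number of close pairs of lines of a concurrent family.
-/

open MeasureTheory Set Metric
open scoped ENNReal NNReal

namespace Pool.Agent.W2helper94.KC

variable {k d : ℕ} {m : Fin (k + 1) → ℕ}

/-- Indicator of the pairs of directions whose lines are close at the height `s`. -/
noncomputable def PP (e : (Σ j, Fin (m j)) ≃ Fin d) (x : (Fin (k + 1) → ℝ) → E d)
    (σ : (Fin (k + 1) → ℝ) → ℝ) (lam δ s : ℝ) (z : E d × E d) : ℝ≥0∞ :=
  chi lam (s - σ (bn e z.1)) (s - σ (bn e z.2)) * (ic 1 z.1 * ic 1 z.2) *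
    ic δ ((x (bn e z.1) + (s - σ (bn e z.1)) • z.1) - (x (bn e z.2) + (s - σ (bn e z.2)) • z.2))

/-- The bound for the number of close pairs of lines. -/
def PairsBd (e : (Σ j, Fin (m j)) ≃ Fin d) : Prop := ∃ C : ℝ, 0 < C ∧
    ∀ (H δ lam : ℝ) (x : (Fin (k + 1) → ℝ) → E d) (σ : (Fin (k + 1) → ℝ) → ℝ),
      Measurable x → Measurable σ → 0 ≤ H → 0 < δ → 0 < lam → lam ≤ 1 →
      ∫⁻ s in Icc (-H) H, ∫⁻ z : E d × E d, PP e x σ lam δ s z ≤
        ENNReal.ofReal (C * (1 + 4 * H) * δ ^ d * lam⁻¹ ^ (d - 1) * ell δ ^ (k + 2))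

theorem pairs (e : (Σ j, Fin (m j)) ≃ Fin d) (hm : ∀ j, 3 ≤ m j) : PairsBd e := by
  choose Cb hCb hblock using fun j => block (hm j)
  set C0 : ℝ := ∏ j, Cb j with hC0
  have hC00 : 0 < C0 := Finset.prod_pos fun j _ => hCb j
  refine ⟨C0 * ((k + 1) * 16 * 4 ^ k), by positivity, ?_⟩
  intro H δ lam x σ hx hσ hH hδ hl hl1
  -- the functions
  set y : (j : Fin (k + 1)) → (Fin (k + 1) → ℝ × ℝ) → E (m j) :=
    fun j c => blk e (x (fsts c) - x (snds c)) j with hy
  have hym : ∀ j, Measurable (y j) := fun j =>
    (measurable_blk e j).comp ((hx.comp measurable_fsts).sub (hx.comp measurable_snds))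
  have hone : ∀ s : ℝ, ∫⁻ z : E d × E d, PP e x σ lam δ s z ≤
      ENNReal.ofReal (C0 * δ ^ d * lam⁻¹ ^ (d - (k + 1))) *
      ∫⁻ c : Fin (k + 1) → ℝ × ℝ, chi lam (s - σ (fsts c)) (s - σ (snds c)) *
        ∏ j, (bx (c j) * ker δ (s - σ (fsts c)) (s - σ (snds c)) (c j).1 (c j).2) := by
    intro s
    set A : (Fin (k + 1) → ℝ × ℝ) → ℝ := fun c => s - σ (fsts c) with hA
    set B : (Fin (k + 1) → ℝ × ℝ) → ℝ := fun c => s - σ (snds c) with hB
    have hAm : Measurable A := (hσ.comp measurable_fsts).const_sub s
    have hBm : Measurable B := (hσ.comp measurable_snds).const_sub s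
    have hchi : Measurable (fun c => chi lam (A c) (B c)) := measurable_chi hAm hBm
    set g : ∀ j, (Fin (k + 1) → ℝ × ℝ) × (Fin (m j) → ℝ × ℝ) → ℝ≥0∞ := fun j q =>
      chi lam (A q.1) (B q.1) * (box (nr q.2) *
        ic δ (y j q.1 + A q.1 • p1 q.2 - B q.1 • p2 q.2)) with hg
    have hgm : ∀ j, Measurable (g j) := by
      intro j
      refine (hchi.comp measurable_fst).mul
        ((measurable_box.comp (measurable_nr.comp measurable_snd)).mul
        ((measurable_ic δ).comp ?_))
      exact (((hym j).comp measurable_fst).add ((hAm.comp measurable_fst).smul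
        (measurable_p1.comp measurable_snd))).sub ((hBm.comp measurable_fst).smul
        (measurable_p2.comp measurable_snd))
    set κ : Fin (k + 1) → (Fin (k + 1) → ℝ × ℝ) → ℝ≥0∞ := fun j c =>
      ENNReal.ofReal (Cb j * δ ^ (m j) * lam⁻¹ ^ (m j - 1)) *
        (chi lam (A c) (B c) * (bx (c j) * ker δ (A c) (B c) (c j).1 (c j).2)) with hκ
    have hcj : ∀ j : Fin (k + 1), Measurable (fun c : Fin (k + 1) → ℝ × ℝ => c j) :=
      fun j => measurable_pi_apply j
    have hκm : ∀ j, Measurable (κ j) := by
      intro j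
      refine (hchi.mul ((measurable_bx.comp (hcj j)).mul ?_)).const_mul _
      exact measurable_ker hAm hBm (hcj j).fst (hcj j).snd
    have hh := hyb (k + 1) (fun j => Fin (m j) → ℝ × ℝ) (fun j => nr) (fun j => measurable_nr)
      g hgm κ hκm (by
        intro j c G hG
        have hup : Measurable (fun a : ℝ × ℝ => Function.update c j a) :=
          measurable_update c
        have h1 := hblock j δ lam hδ hl (fun a => y j (Function.update c j a))
          (fun a => A (Function.update c j a)) (fun a => B (Function.update c j a))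
          (fun a => G a * chi lam (A (Function.update c j a)) (B (Function.update c j a)))
          ((hym j).comp hup) (hAm.comp hup) (hBm.comp hup) (hG.mul (hchi.comp hup))
          (fun a ha => chi_ne (right_ne_zero_of_mul ha))
        calc ∫⁻ x, G (nr x) * g j (Function.update c j (nr x), x)
            = ∫⁻ x, G (nr x) * chi lam (A (Function.update c j (nr x)))
                (B (Function.update c j (nr x))) * (box (nr x) *
              ic δ (y j (Function.update c j (nr x)) + A (Function.update c j (nr x)) • p1 x -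
                B (Function.update c j (nr x)) • p2 x)) := by
              refine lintegral_congr fun x => ?_
              simp only [hg]
              ring
          _ ≤ _ := h1
          _ = _ := by
              refine lintegral_congr fun a => ?_
              simp only [hκ, Function.update_self]
              ring) (fun c => chi lam (A c) (B c)) hchi
    -- change of variables
    have hmΦ : Measurable (fun X : ∀ j, (Fin (m j) → ℝ × ℝ) =>
        chi lam (A fun j => nr (X j)) (B fun j => nr (X j)) *
          ∏ j, g j (fun i => nr (X i), X j)) := by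
      have hN : Measurable (fun X : ∀ j, (Fin (m j) → ℝ × ℝ) => (fun j => nr (X j))) := by
        apply measurable_pi_lambda
        intro j
        exact measurable_nr.comp (measurable_pi_apply j)
      refine (hchi.comp hN).mul (Finset.measurable_prod _ (fun j _ => ?_))
      exact (hgm j).comp (hN.prodMk (measurable_pi_apply j))
    have hcv := (T_mp e).lintegral_comp hmΦ
    have hNT1 : ∀ z : E d × E d, fsts (fun j => nr (T e z j)) = bn e z.1 := fun z => rfl
    have hNT2 : ∀ z : E d × E d, snds (fun j => nr (T e z j)) = bn e z.2 := fun z => rfl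
    calc ∫⁻ z : E d × E d, PP e x σ lam δ s z
        ≤ ∫⁻ z : E d × E d, chi lam (A fun j => nr (T e z j)) (B fun j => nr (T e z j)) *
          ∏ j, g j (fun i => nr (T e z i), T e z j) := by
          apply lintegral_mono
          intro z
          simp only [hg, hA, hB, hNT1, hNT2]
          unfold PP
          by_cases h1 : chi lam (s - σ (bn e z.1)) (s - σ (bn e z.2)) = 0
          · rw [h1]; simp
          have h1' := chi_ne h1
          rw [chi_one h1'.1 h1'.2, one_mul, one_mul]
          by_cases h2 : ‖z.1‖ ≤ 1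
          swap
          · rw [ic_of_not h2]; simp
          by_cases h3 : ‖z.2‖ ≤ 1
          swap
          · rw [ic_of_not h3]; simp
          rw [ic_of_le h2, ic_of_le h3, one_mul, one_mul]
          refine (ic_le_prod e δ _).trans ?_
          refine Finset.prod_le_prod' fun j _ => ?_
          have h4 : box (nr (T e z j)) = 1 := by
            apply box_of_mem
            refine ⟨⟨norm_nonneg _, ?_⟩, ⟨norm_nonneg _, ?_⟩⟩
            · exact (norm_blk_le e z.1 j).trans h2
            · exact (norm_blk_le e z.2 j).trans h3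
          rw [h4, one_mul, one_mul]
          apply le_of_eq
          congr 1
          simp only [hy, hNT1, hNT2]
          ext i
          simp only [blk, p1, p2, T, PiLp.add_apply, PiLp.sub_apply, PiLp.smul_apply, smul_eq_mul]
          ring
      _ = ∫⁻ X : ∀ j, (Fin (m j) → ℝ × ℝ), chi lam (A fun j => nr (X j)) (B fun j => nr (X j)) *
          ∏ j, g j (fun i => nr (X i), X j) := hcv
      _ ≤ ∫⁻ c, chi lam (A c) (B c) * ∏ j, κ j c := hh
      _ ≤ ∫⁻ c : Fin (k + 1) → ℝ × ℝ, ENNReal.ofReal (C0 * δ ^ d * lam⁻¹ ^ (d - (k + 1))) *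
          (chi lam (A c) (B c) *
          ∏ j, (bx (c j) * ker δ (A c) (B c) (c j).1 (c j).2)) := by
          apply lintegral_mono
          intro c
          simp only [hκ]
          rw [Finset.prod_mul_distrib]
          have h5 : ∏ j, ENNReal.ofReal (Cb j * δ ^ (m j) * lam⁻¹ ^ (m j - 1)) =
              ENNReal.ofReal (C0 * δ ^ d * lam⁻¹ ^ (d - (k + 1))) := by
            rw [← ENNReal.ofReal_prod_of_nonneg]
            · congr 1
              rw [Finset.prod_mul_distrib, Finset.prod_mul_distrib, Finset.prod_pow_eq_pow_sum,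
                Finset.prod_pow_eq_pow_sum]
              have h6 : ∑ j, m j = d := (dim_eq e).symm
              have h7 : ∑ j, (m j - 1) = d - (k + 1) := by
                have h8 : ∑ j, (m j - 1) + (k + 1) = d := by
                  rw [← h6]
                  have h9 : ∑ j : Fin (k + 1), m j = ∑ j : Fin (k + 1), ((m j - 1) + 1) :=
                    Finset.sum_congr rfl fun j _ => by have := hm j; omega
                  rw [h9, Finset.sum_add_distrib]
                  simp
                omega
              rw [h6, h7]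
            · intro j _
              have := hCb j
              positivity
          rw [h5]
          have h10 : ∏ j, (chi lam (A c) (B c) * (bx (c j) * ker δ (A c) (B c) (c j).1 (c j).2)) ≤
              ∏ j, (bx (c j) * ker δ (A c) (B c) (c j).1 (c j).2) := by
            refine Finset.prod_le_prod' fun j _ => ?_
            calc _ ≤ 1 * (bx (c j) * ker δ (A c) (B c) (c j).1 (c j).2) := by
                  gcongr
                  exact chi_le _ _ _
              _ = _ := one_mul _
          calc chi lam (A c) (B c) * (ENNReal.ofReal (C0 * δ ^ d * lam⁻¹ ^ (d - (k + 1))) *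
                ∏ j, (chi lam (A c) (B c) * (bx (c j) * ker δ (A c) (B c) (c j).1 (c j).2)))
              ≤ chi lam (A c) (B c) * (ENNReal.ofReal (C0 * δ ^ d * lam⁻¹ ^ (d - (k + 1))) *
                ∏ j, (bx (c j) * ker δ (A c) (B c) (c j).1 (c j).2)) := by gcongr
            _ = _ := by ring
      _ = _ := by rw [lintegral_const_mul' _ _ ENNReal.ofReal_ne_top]
  have hkd : k + 1 ≤ d := by
    rw [dim_eq e]
    calc k + 1 = ∑ _j : Fin (k + 1), 1 := by simp
      _ ≤ ∑ j, m j := Finset.sum_le_sum fun j _ => by have := hm j; omega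
  calc ∫⁻ s in Icc (-H) H, ∫⁻ z : E d × E d, PP e x σ lam δ s z
      ≤ ∫⁻ s in Icc (-H) H, ENNReal.ofReal (C0 * δ ^ d * lam⁻¹ ^ (d - (k + 1))) *
        ∫⁻ c : Fin (k + 1) → ℝ × ℝ, chi lam (s - σ (fsts c)) (s - σ (snds c)) *
        ∏ j, (bx (c j) * ker δ (s - σ (fsts c)) (s - σ (snds c)) (c j).1 (c j).2) :=
        lintegral_mono hone
    _ = ENNReal.ofReal (C0 * δ ^ d * lam⁻¹ ^ (d - (k + 1))) * ∫⁻ s in Icc (-H) H,
        ∫⁻ c : Fin (k + 1) → ℝ × ℝ, chi lam (s - σ (fsts c)) (s - σ (snds c)) *
        ∏ j, (bx (c j) * ker δ (s - σ (fsts c)) (s - σ (snds c)) (c j).1 (c j).2) :=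
        lintegral_const_mul' _ _ ENNReal.ofReal_ne_top
    _ ≤ ENNReal.ofReal (C0 * δ ^ d * lam⁻¹ ^ (d - (k + 1))) *
        ENNReal.ofReal ((k + 1) * (16 * (1 + 4 * H)) * 4 ^ k * ell δ ^ (k + 2) * lam⁻¹ ^ k) := by
        gcongr
        exact energy k hH hδ hl hl1 hσ
    _ = _ := by
        have hell := one_le_ell hδ
        rw [← ENNReal.ofReal_mul (by positivity)]
        congr 1
        have e1 : d - 1 = (d - (k + 1)) + k := by omega
        rw [e1, pow_add]
        ring

end Pool.Agent.W2helper94.KC
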