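import Pool.Agent.W2helper94.KC.P4
import Pool.Agent.W2helper94.KC.J

set_option autoImplicit false

/-!
The pair bound for one block of two coordinates.
-/

open MeasureTheory Set Metric
open scoped ENNReal NNReal

namespace Pool.Agent.W2helper94.KC

variable {m : Fin (0 + 1) → ℕ}

theorem bn_one (e : (Σ j : Fin (0 + 1), Fin (m j)) ≃ Fin 2) (v : E 2) :
    bn e v = fun _ => ‖v‖ := by
  funext j
  have h := norm_sq_blk e v
  rw [Fin.sum_univ_one] at h
  have hj : j = 0 := Fin.fin_one_eq_zero j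
  subst hj
  unfold bn
  have h1 : ‖v‖ = ‖blk e v 0‖ := by
    rwa [sq_eq_sq₀ (norm_nonneg _) (norm_nonneg _)] at h
  exact h1.symm

theorem measurable_PP {k d : ℕ} {m : Fin (k + 1) → ℕ} (e : (Σ j, Fin (m j)) ≃ Fin d)
    {x : (Fin (k + 1) → ℝ) → E d}
    (hx : Measurable x) (lam δ : ℝ) {σ : (Fin (k + 1) → ℝ) → ℝ} (hσ : Measurable σ) :
    Measurable (fun q : ℝ × (E d × E d) => PP e x σ lam δ q.1 q.2) := by
  unfold PP
  have m1 : Measurable (fun q : ℝ × (E d × E d) => q.2.1) := measurable_fst.comp measurable_snd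
  have m2 : Measurable (fun q : ℝ × (E d × E d) => q.2.2) := measurable_snd.comp measurable_snd
  have c1 : Measurable (fun q : ℝ × (E d × E d) => bn e q.2.1) := (measurable_bn e).comp m1
  have c2 : Measurable (fun q : ℝ × (E d × E d) => bn e q.2.2) := (measurable_bn e).comp m2
  have a1 : Measurable (fun q : ℝ × (E d × E d) => q.1 - σ (bn e q.2.1)) :=
    measurable_fst.sub (hσ.comp c1)
  have a2 : Measurable (fun q : ℝ × (E d × E d) => q.1 - σ (bn e q.2.2)) :=
    measurable_fst.sub (hσ.comp c2)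
  refine (((measurable_chi a1 a2).mul (((measurable_ic 1).comp m1).mul ((measurable_ic 1).comp m2))).mul
    ((measurable_ic δ).comp ?_))
  exact ((hx.comp c1).add (a1.smul m1)).sub ((hx.comp c2).add (a2.smul m2))

theorem pairs2 (e : (Σ j : Fin (0 + 1), Fin (m j)) ≃ Fin 2) : PairsBd e := by
  obtain ⟨C, hC, hpair⟩ := pair2
  set ω : ℝ := (volume (closedBall (0 : E 2) 1)).toReal with hω
  have hω0 : 0 ≤ ω := ENNReal.toReal_nonneg
  refine ⟨2 * C + ω ^ 2, by positivity, ?_⟩
  intro H δ lam x σ hx hσ hH hδ hl hl1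
  have hell := one_le_ell hδ
  have hlinv : 1 ≤ lam⁻¹ := (one_le_inv₀ hl).2 hl1
  rcases le_or_gt δ 1 with hδ1 | hδ1
  swap
  · -- large tubes
    have h1 : ∀ s : ℝ, ∫⁻ z : E 2 × E 2, PP e x σ lam δ s z ≤ ENNReal.ofReal (ω ^ 2) := by
      intro s
      calc ∫⁻ z : E 2 × E 2, PP e x σ lam δ s z
          ≤ ∫⁻ z : E 2 × E 2, ic 1 z.1 * ic 1 z.2 := by
            apply lintegral_mono
            intro z
            show PP e x σ lam δ s z ≤ ic 1 z.1 * ic 1 z.2
            unfold PP
            calc _ ≤ 1 * (ic 1 z.1 * ic 1 z.2) * 1 := by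
                  gcongr
                  · exact chi_le _ _ _
                  · exact indicator_le_self' (fun _ _ => zero_le_one) _
              _ = _ := by rw [one_mul, mul_one]
        _ = ENNReal.ofReal (ω ^ 2) := by
            rw [Measure.volume_eq_prod, lintegral_prod_mul (measurable_ic 1).aemeasurable
              (measurable_ic 1).aemeasurable]
            have h2 : ∫⁻ v : E 2, ic 1 v = ENNReal.ofReal ω := by
              unfold ic
              rw [lintegral_indicator_const measurableSet_closedBall, one_mul, hω,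
                ENNReal.ofReal_toReal measure_closedBall_lt_top.ne]
            rw [h2, ← ENNReal.ofReal_mul hω0, sq]
    calc ∫⁻ s in Icc (-H) H, ∫⁻ z : E 2 × E 2, PP e x σ lam δ s z
        ≤ ∫⁻ _s in Icc (-H) H, ENNReal.ofReal (ω ^ 2) := lintegral_mono h1
      _ = ENNReal.ofReal (ω ^ 2 * (2 * H)) := by
          rw [lintegral_const, Measure.restrict_apply_univ, Real.volume_Icc,
            ← ENNReal.ofReal_mul (by positivity)]
          congr 1
          ring
      _ ≤ _ := by
          apply ENNReal.ofReal_le_ofReal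
          have e1 : 1 ≤ δ ^ 2 := one_le_pow₀ hδ1.le
          have e2 : 1 ≤ lam⁻¹ ^ (2 - 1) := one_le_pow₀ hlinv
          have e3 : 1 ≤ ell δ ^ (0 + 2) := one_le_pow₀ hell
          calc ω ^ 2 * (2 * H) = ω ^ 2 * (2 * H) * 1 * 1 * 1 := by ring
            _ ≤ (2 * C + ω ^ 2) * (1 + 4 * H) * δ ^ 2 * lam⁻¹ ^ (2 - 1) * ell δ ^ (0 + 2) := by
                gcongr
                · linarith
                · linarith
  -- small tubes
  have hPm := measurable_PP e hx lam δ hσ
  set F : E 2 × E 2 → ℝ≥0∞ := fun z => ∫⁻ s in Icc (-H) H, PP e x σ lam δ s z with hF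
  have hFm : Measurable F := hPm.lintegral_prod_left'
  set X : ℝ → E 2 := fun a => x (fun _ => a) with hX
  set hgt : ℝ → ℝ := fun a => σ (fun _ => a) with hhg
  set K : ℝ := C * (1 + 4 * H) * δ ^ 2 * lam⁻¹ * ell δ with hK
  have hK0 : 0 ≤ K := by positivity
  have hsph : ∀ a b : ℝ, 0 < a → 0 < b → ENNReal.ofReal (a ^ 1 * b ^ 1) *
      ∫⁻ p : sphere (0 : E (1 + 1)) 1 × sphere (0 : E (1 + 1)) 1,
        F (a • (p.1 : E (1 + 1)), b • (p.2 : E (1 + 1))) ∂((sg (1 + 1)).prod (sg (1 + 1))) ≤
      (Icc (0:ℝ) 1).indicator (fun _ => 1) a * ((Icc (0:ℝ) 1).indicator (fun _ => 1) b *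
        ENNReal.ofReal (K * (|a - b| + δ)⁻¹)) := by
    intro a b ha hb
    have n1 : ∀ p : sphere (0 : E 2) 1, ‖a • (p : E 2)‖ = a := fun p => by
      rw [norm_smul, Real.norm_eq_abs, abs_of_pos ha]; simp
    have n2 : ∀ p : sphere (0 : E 2) 1, ‖b • (p : E 2)‖ = b := fun p => by
      rw [norm_smul, Real.norm_eq_abs, abs_of_pos hb]; simp
    have hPP : ∀ (s : ℝ) (p : sphere (0 : E 2) 1 × sphere (0 : E 2) 1),
        PP e x σ lam δ s (a • (p.1 : E 2), b • (p.2 : E 2)) =
        chi lam (s - hgt a) (s - hgt b) *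
          (ic 1 (a • (p.1 : E 2)) * ic 1 (b • (p.2 : E 2))) *
          ic δ ((X a - X b) + ((s - hgt a) * a) • (p.1 : E 2) - ((s - hgt b) * b) • (p.2 : E 2)) := by
      intro s p
      unfold PP
      simp only [bn_one, n1, n2, hX, hhg]
      congr 2
      rw [mul_smul, mul_smul]
      abel
    by_cases ha1 : a ≤ 1
    swap
    · have hz : ∀ p : sphere (0 : E 2) 1 × sphere (0 : E 2) 1,
          F (a • (p.1 : E 2), b • (p.2 : E 2)) = 0 := by
        intro p
        simp only [hF, hPP]
        rw [ic_of_not (m := 2) (δ := 1) (x := a • (p.1 : E 2)) (by rw [n1]; exact ha1)]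
        simp
      simp only [hz, lintegral_zero, mul_zero]
      exact zero_le
    by_cases hb1 : b ≤ 1
    swap
    · have hz : ∀ p : sphere (0 : E 2) 1 × sphere (0 : E 2) 1,
          F (a • (p.1 : E 2), b • (p.2 : E 2)) = 0 := by
        intro p
        simp only [hF, hPP]
        rw [ic_of_not (m := 2) (δ := 1) (x := b • (p.2 : E 2)) (by rw [n2]; exact hb1)]
        simp
      simp only [hz, lintegral_zero, mul_zero]
      exact zero_le
    have hai : a ∈ Icc (0:ℝ) 1 := ⟨ha.le, ha1⟩
    have hbi : b ∈ Icc (0:ℝ) 1 := ⟨hb.le, hb1⟩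
    rw [indicator_of_mem hai, indicator_of_mem hbi, one_mul, one_mul]
    have hPP1 : ∀ (s : ℝ) (p : sphere (0 : E 2) 1 × sphere (0 : E 2) 1),
        PP e x σ lam δ s (a • (p.1 : E 2), b • (p.2 : E 2)) =
        chi lam (s - hgt a) (s - hgt b) *
          ic δ ((X a - X b) + ((s - hgt a) * a) • (p.1 : E 2) -
            ((s - hgt b) * b) • (p.2 : E 2)) := by
      intro s p
      rw [hPP, ic_of_le (m := 2) (δ := 1) (x := a • (p.1 : E 2)) (by rw [n1]; exact ha1),
        ic_of_le (m := 2) (δ := 1) (x := b • (p.2 : E 2)) (by rw [n2]; exact hb1), mul_one, mul_one]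
    have hms : Measurable (fun q : (sphere (0 : E 2) 1 × sphere (0 : E 2) 1) × ℝ =>
        PP e x σ lam δ q.2 (a • (q.1.1 : E 2), b • (q.1.2 : E 2))) := by
      have c1 : Measurable (fun q : (sphere (0 : E 2) 1 × sphere (0 : E 2) 1) × ℝ =>
          (q.1.1 : E 2)) := measurable_subtype_coe.comp (measurable_fst.comp measurable_fst)
      have c2 : Measurable (fun q : (sphere (0 : E 2) 1 × sphere (0 : E 2) 1) × ℝ =>
          (q.1.2 : E 2)) := measurable_subtype_coe.comp (measurable_snd.comp measurable_fst)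
      have h := hPm.comp (measurable_snd.prodMk ((c1.const_smul a).prodMk (c2.const_smul b)))
      simp only [Function.comp_def] at h
      exact h
    calc ENNReal.ofReal (a ^ 1 * b ^ 1) *
        ∫⁻ p : sphere (0 : E 2) 1 × sphere (0 : E 2) 1,
          F (a • (p.1 : E 2), b • (p.2 : E 2)) ∂((sg 2).prod (sg 2))
        = ENNReal.ofReal (a * b) * ∫⁻ s in Icc (-H) H,
          ∫⁻ p : sphere (0 : E 2) 1 × sphere (0 : E 2) 1,
            PP e x σ lam δ s (a • (p.1 : E 2), b • (p.2 : E 2)) ∂((sg 2).prod (sg 2)) := by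
          rw [pow_one, pow_one]
          congr 1
          simp only [hF]
          exact lintegral_lintegral_swap hms.aemeasurable
      _ = ∫⁻ s in Icc (-H) H, chi lam (s - hgt a) (s - hgt b) * (ENNReal.ofReal (a * b) *
            NN (X a - X b) ((s - hgt a) * a) ((s - hgt b) * b) δ) := by
          rw [← lintegral_const_mul' _ _ ENNReal.ofReal_ne_top]
          refine lintegral_congr fun s => ?_
          simp only [hPP1]
          have hne : chi lam (s - hgt a) (s - hgt b) ≠ ⊤ :=
            ((chi_le _ _ _).trans_lt ENNReal.one_lt_top).ne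
          rw [lintegral_const_mul' _ _ hne]
          unfold NN
          ring
      _ ≤ ENNReal.ofReal (K * (|a - b| + δ)⁻¹) :=
          hpair (X a - X b) (hgt a) (hgt b) a b δ lam H ha ha1 hb hb1 hδ hδ1 hl hH
  calc ∫⁻ s in Icc (-H) H, ∫⁻ z : E 2 × E 2, PP e x σ lam δ s z
      = ∫⁻ z : E 2 × E 2, F z := by
        simp only [hF]
        exact lintegral_lintegral_swap hPm.aemeasurable
    _ = ∫⁻ a in Ioi (0:ℝ), ∫⁻ b in Ioi (0:ℝ), ENNReal.ofReal (a ^ 1 * b ^ 1) *
      ∫⁻ p : sphere (0 : E (1 + 1)) 1 × sphere (0 : E (1 + 1)) 1,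
        F (a • (p.1 : E (1 + 1)), b • (p.2 : E (1 + 1))) ∂((sg (1 + 1)).prod (sg (1 + 1))) :=
        polar2 (m := 1) hFm
    _ ≤ ∫⁻ a in Ioi (0:ℝ), ∫⁻ b in Ioi (0:ℝ),
        (Icc (0:ℝ) 1).indicator (fun _ => 1) a * ((Icc (0:ℝ) 1).indicator (fun _ => 1) b *
        ENNReal.ofReal (K * (|a - b| + δ)⁻¹)) := by
        refine setLIntegral_mono' measurableSet_Ioi fun a ha => ?_
        refine setLIntegral_mono' measurableSet_Ioi fun b hb => ?_
        exact hsph a b ha hb
    _ ≤ ∫⁻ a : ℝ, (Icc (0:ℝ) 1).indicator (fun _ => ENNReal.ofReal (K * (2 * ell δ))) a := by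
        refine (setLIntegral_le_lintegral _ _).trans (lintegral_mono fun a => ?_)
        by_cases ha : a ∈ Icc (0:ℝ) 1
        · show ∫⁻ b in Ioi (0:ℝ), (Icc (0:ℝ) 1).indicator (fun _ => 1) a *
            ((Icc (0:ℝ) 1).indicator (fun _ => 1) b * ENNReal.ofReal (K * (|a - b| + δ)⁻¹)) ≤
              (Icc (0:ℝ) 1).indicator (fun _ => ENNReal.ofReal (K * (2 * ell δ))) a
          rw [indicator_of_mem ha, indicator_of_mem ha]
          calc ∫⁻ b in Ioi (0:ℝ), 1 * ((Icc (0:ℝ) 1).indicator (fun _ => 1) b *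
                ENNReal.ofReal (K * (|a - b| + δ)⁻¹))
              ≤ ∫⁻ b, (Icc (0:ℝ) 1).indicator
                  (fun b => ENNReal.ofReal K * ENNReal.ofReal ((1 * |b - a| + δ)⁻¹)) b := by
                refine (setLIntegral_le_lintegral _ _).trans (lintegral_mono fun b => ?_)
                by_cases hb : b ∈ Icc (0:ℝ) 1
                · simp only [indicator_of_mem hb]
                  rw [one_mul, one_mul, one_mul, abs_sub_comm a b, ENNReal.ofReal_mul hK0]
                · simp only [indicator_of_notMem hb]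
                  simp
            _ = ENNReal.ofReal K * ∫⁻ b in Icc (0:ℝ) 1, ENNReal.ofReal ((1 * |b - a| + δ)⁻¹) := by
                rw [lintegral_indicator measurableSet_Icc,
                  lintegral_const_mul' _ _ ENNReal.ofReal_ne_top]
            _ ≤ ENNReal.ofReal K * ENNReal.ofReal (2 * 1⁻¹ * ell δ) := by
                gcongr
                exact lint_unit one_pos le_rfl hδ a
            _ = _ := by
                rw [← ENNReal.ofReal_mul hK0, inv_one, mul_one]
        · show ∫⁻ b in Ioi (0:ℝ), (Icc (0:ℝ) 1).indicator (fun _ => 1) a *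
            ((Icc (0:ℝ) 1).indicator (fun _ => 1) b * ENNReal.ofReal (K * (|a - b| + δ)⁻¹)) ≤
              (Icc (0:ℝ) 1).indicator (fun _ => ENNReal.ofReal (K * (2 * ell δ))) a
          rw [indicator_of_notMem ha]
          simp
    _ = ENNReal.ofReal (K * (2 * ell δ)) := by
        rw [lintegral_indicator_const measurableSet_Icc, Real.volume_Icc]
        simp
    _ ≤ _ := by
        apply ENNReal.ofReal_le_ofReal
        have e1 : K * (2 * ell δ) = (2 * C) * (1 + 4 * H) * δ ^ 2 * lam⁻¹ ^ (2 - 1) *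
            ell δ ^ (0 + 2) := by
          rw [hK, show 2 - 1 = 1 from rfl, pow_one]
          ring
        rw [e1]
        have : 0 ≤ ω ^ 2 := sq_nonneg _
        gcongr
        linarith

end Pool.Agent.W2helper94.KC
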