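import Pool.Agent.W2helper94.KC.Y

set_option autoImplicit false

/-!
From the critical moment to all exponents.
-/

open MeasureTheory Set Metric
open scoped ENNReal NNReal

namespace Pool.Agent.W2helper94.KC

open Pool.Agent.H810R3

/-- The conclusion for all exponents from a bound for the critical moment. -/
theorem finish (d : ℕ) (hd : 1 ≤ d) {κ E : ℝ} (hκ : 0 < κ) (hE : 0 < E) : ∃ C : ℝ, 0 < C ∧
    ∀ N : ℝ, 1 ≤ N → ∀ (ι : Type) [Fintype ι] (ω : ι → Tub.Vec d) (f : ι → Fin d → Tub.Space d)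
      (a : ι → Tub.Space d) (X : ℝ), 1 ≤ X → κ * N ^ d ≤ (Fintype.card ι : ℝ) →
      (∀ i, Orthonormal ℝ (Fin.cons (Tub.nor (ω i)) (f i) : Fin (d + 1) → Tub.Space d)) →
      ∫⁻ y, Tub.Fb N ω f a y ^ (1 + 1 / (d : ℝ)) ≤
        ENNReal.ofReal (E * N ^ (2 * (d + 1)) * X ^ (1 / (d : ℝ))) →
      ∀ p : ℝ≥0∞, 1 ≤ p →
        eLpNorm (fun y : Tub.Space d => ∑ i,
          (Tub.box N (Tub.nor (ω i)) (f i) (a i)).indicator (fun _ => (1 : ℝ)) y) p volume ≤
        ENNReal.ofReal (C * X ^ (1 / ((d : ℝ) + 1))) *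
          eLpNorm (fun y : Tub.Space d => ∑ i,
            (Tub.box N (Tub.nor (ω i)) (f i) 0).indicator (fun _ => (1 : ℝ)) y) p volume := by
  have hd0 : (0 : ℝ) < d := by exact_mod_cast hd
  have hw0 : 0 < Tub.wv d := Tub.wv_pos d
  set q : ℝ := 1 + 1 / (d : ℝ) with hq
  have hq1 : 1 < q := by
    have : 0 < 1 / (d : ℝ) := by positivity
    linarith
  have hq1' : q - 1 = 1 / d := by rw [hq]; ring
  set b : ℝ := (1 + (d : ℝ)) ^ (d + 1) * Tub.wv d with hb
  have hb0 : 0 < b := by positivity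
  set Y : ℝ := 1 + E * b ^ (1 / (d : ℝ)) + E * 2 ^ (d + 1) / Tub.wv d with hY
  have hY0 : 1 ≤ Y := by
    have h1 : 0 ≤ E * b ^ (1 / (d : ℝ)) := by positivity
    have h2 : 0 ≤ E * 2 ^ (d + 1) / Tub.wv d := by positivity
    linarith
  set C : ℝ := 1 + Y / κ with hC
  have hC1 : 1 ≤ C := by
    have : 0 ≤ Y / κ := by positivity
    linarith
  have hCκ : Y ≤ C * κ := by
    rw [hC, add_mul, one_mul, div_mul_cancel₀ _ hκ.ne']
    linarith
  have hCq : Y ≤ (C * κ) ^ q := by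
    calc Y = Y ^ (1 : ℝ) := (Real.rpow_one _).symm
      _ ≤ Y ^ q := Real.rpow_le_rpow_of_exponent_le hY0 hq1.le
      _ ≤ (C * κ) ^ q := Real.rpow_le_rpow (by linarith) hCκ (by linarith)
  refine ⟨C, by linarith, ?_⟩
  intro N hN ι _ ω f a X hX1 hcard hf hQi p hp
  have hN0 : 0 < N := by linarith
  have hc0 : (0 : ℝ) < (Fintype.card ι : ℝ) := lt_of_lt_of_le (by positivity) hcard
  have hne : Nonempty ι := by
    rw [← Fintype.card_pos_iff]
    exact_mod_cast hc0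
  have hX0 : 0 < X := by linarith
  set D : ℝ := C * X ^ (1 / ((d : ℝ) + 1)) with hD
  have hD1 : 1 ≤ D := by
    have h1 : 1 ≤ X ^ (1 / ((d : ℝ) + 1)) := Real.one_le_rpow hX1 (by positivity)
    calc (1 : ℝ) = 1 * 1 := by norm_num
      _ ≤ D := by rw [hD]; gcongr
  have hC0 : 0 < C := by linarith
  have hDq : D ^ q = C ^ q * X ^ (1 / (d : ℝ)) := by
    rw [hD, Real.mul_rpow hC0.le (by positivity), ← Real.rpow_mul hX0.le]
    congr 2
    rw [hq]; field_simp
  have hCq' : (C * κ) ^ q = C ^ q * κ ^ q := Real.mul_rpow hC0.le hκ.le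
  have hXd : 0 < X ^ (1 / (d : ℝ)) := by positivity
  refine Tub.compare d hN hq1 (Q := E * N ^ (2 * (d + 1)) * X ^ (1 / (d : ℝ))) (by positivity) hD1
    ω f hf a hQi ?_ ?_ p hp
  · -- first condition
    have hNN : N ^ (2 * (d + 1)) * (N ^ (2 * (d + 1))) ^ (1 / (d : ℝ)) = (N ^ (2 * (d + 1))) ^ q := by
      have h0 : 0 < N ^ (2 * (d + 1)) := by positivity
      rw [hq, Real.rpow_add h0, Real.rpow_one]
    have h1 : E * b ^ (1 / (d : ℝ)) ≤ C ^ q * κ ^ q := by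
      rw [← hCq']
      refine le_trans ?_ hCq
      have h2 : 0 ≤ E * 2 ^ (d + 1) / Tub.wv d := by positivity
      linarith
    calc E * N ^ (2 * (d + 1)) * X ^ (1 / (d : ℝ)) * (b * N ^ (2 * (d + 1))) ^ (q - 1)
        = (E * b ^ (1 / (d : ℝ))) * X ^ (1 / (d : ℝ)) *
          (N ^ (2 * (d + 1)) * (N ^ (2 * (d + 1))) ^ (1 / (d : ℝ))) := by
          rw [hq1', Real.mul_rpow hb0.le (by positivity)]
          ring
      _ ≤ (C ^ q * κ ^ q) * X ^ (1 / (d : ℝ)) * (N ^ (2 * (d + 1))) ^ q := by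
          rw [hNN]
          gcongr
      _ = D ^ q * ((κ * N ^ d) * N ^ (d + 2)) ^ q := by
          have h2 : (κ * N ^ d) * N ^ (d + 2) = κ * N ^ (2 * (d + 1)) := by ring
          rw [h2, hDq, Real.mul_rpow hκ.le (by positivity)]
          ring
      _ ≤ D ^ q * ((Fintype.card ι : ℝ) * N ^ (d + 2)) ^ q := by
          gcongr
  · -- second condition
    have h1 : E * 2 ^ (d + 1) / Tub.wv d ≤ C ^ q * κ ^ q := by
      rw [← hCq']
      refine le_trans ?_ hCq
      have h2 : 0 ≤ E * b ^ (1 / (d : ℝ)) := by positivity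
      linarith
    have h2 : E ≤ (C ^ q * κ ^ q) * (Tub.wv d / 2 ^ (d + 1)) := by
      rw [div_le_iff₀ hw0] at h1
      rw [mul_div_assoc', le_div_iff₀ (by positivity)]
      exact h1
    have hNd : (N ^ d) ^ q = N ^ (d + 1) := by
      rw [← Real.rpow_natCast, ← Real.rpow_mul hN0.le, ← Real.rpow_natCast N (d + 1)]
      congr 1
      rw [hq]; push_cast; field_simp
    calc E * N ^ (2 * (d + 1)) * X ^ (1 / (d : ℝ))
        ≤ ((C ^ q * κ ^ q) * (Tub.wv d / 2 ^ (d + 1))) * N ^ (2 * (d + 1)) * X ^ (1 / (d : ℝ)) := by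
          gcongr
      _ = D ^ q * ((κ * N ^ d) ^ q * ((N / 2) ^ (d + 1) * Tub.wv d)) := by
          rw [hDq, Real.mul_rpow hκ.le (by positivity), hNd, div_pow]
          ring
      _ ≤ D ^ q * ((Fintype.card ι : ℝ) ^ q * ((N / 2) ^ (d + 1) * Tub.wv d)) := by
          gcongr

end Pool.Agent.W2helper94.KC
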