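import Mathlib

set_option autoImplicit false

/-!
One-dimensional integrals, and products.
-/

open MeasureTheory Set Metric
open scoped ENNReal NNReal

namespace Pool.Agent.W2helper94.KC

theorem lint_prod' {α : Type} [MeasureSpace α] [SigmaFinite (volume : Measure α)] :
    ∀ (n : ℕ) (f : Fin n → α → ℝ≥0∞), (∀ i, Measurable (f i)) →
    ∫⁻ x : Fin n → α, ∏ i, f i (x i) = ∏ i, ∫⁻ x, f i x := by
  intro n
  induction n with
  | zero =>
    intro f _
    simp only [Finset.univ_eq_empty, Finset.prod_empty, lintegral_one]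
    rw [volume_pi, Measure.pi_univ]
    simp
  | succ n ih =>
    intro f hf
    have hmp := (measurePreserving_piFinSuccAbove (fun _ : Fin (n + 1) => (volume : Measure α)) 0).symm
    rw [volume_pi, ← hmp.lintegral_comp_emb (MeasurableEquiv.measurableEmbedding _)]
    simp_rw [MeasurableEquiv.piFinSuccAbove_symm_apply, Fin.insertNthEquiv,
      Fin.prod_univ_succ, Fin.insertNth_zero]
    simp only [Equiv.coe_fn_mk, Fin.cons_succ, Fin.cons_zero, cast_eq]
    have h := lintegral_prod_mul (μ := (volume : Measure α))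
      (ν := Measure.pi fun _ : Fin n => (volume : Measure α))
      (f := fun x => f 0 x) (g := fun y => ∏ i : Fin n, f i.succ (y i))
      (hf 0).aemeasurable
      (Finset.measurable_prod _ (fun i _ => (hf i.succ).comp (measurable_pi_apply i))).aemeasurable
    rw [← ih (fun i => f i.succ) (fun i => hf i.succ)]
    exact h

theorem lint_half {κ δ L : ℝ} (hκ : 0 < κ) (hδ : 0 < δ) (hL : 0 ≤ L) :
    ∫⁻ x in Icc 0 L, ENNReal.ofReal ((κ * x + δ)⁻¹) =
      ENNReal.ofReal (κ⁻¹ * Real.log (1 + κ * L / δ)) := by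
  have hcont : ContinuousOn (fun x : ℝ => (κ * x + δ)⁻¹) (Icc 0 L) := by
    apply ContinuousOn.inv₀ (by fun_prop)
    intro x hx
    have : 0 ≤ κ * x := mul_nonneg hκ.le hx.1
    positivity
  have hint : IntegrableOn (fun x : ℝ => (κ * x + δ)⁻¹) (Icc 0 L) :=
    hcont.integrableOn_Icc
  rw [← ofReal_integral_eq_lintegral_ofReal hint]
  · congr 1
    rw [integral_Icc_eq_integral_Ioc, ← intervalIntegral.integral_of_le hL]
    have h1 := intervalIntegral.integral_comp_mul_add (a := 0) (b := L) (fun x : ℝ => x⁻¹) hκ.ne' δ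
    rw [h1, mul_zero, zero_add, integral_inv_of_pos hδ (by positivity), smul_eq_mul]
    congr 2
    field_simp
    ring
  · filter_upwards [ae_restrict_mem measurableSet_Icc] with x hx
    have : 0 ≤ κ * x := mul_nonneg hκ.le hx.1
    positivity

/-- Clamping. -/
theorem lint_interval {κ δ L : ℝ} (hκ : 0 < κ) (hδ : 0 < δ) (hL : 0 ≤ L) (p z : ℝ) :
    ∫⁻ x in Icc p (p + L), ENNReal.ofReal ((κ * |x - z| + δ)⁻¹) ≤
      ENNReal.ofReal (2 * κ⁻¹ * Real.log (1 + κ * L / δ)) := by
  set z' : ℝ := max p (min z (p + L)) with hz'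
  have h1 : p ≤ z' := le_max_left _ _
  have h2 : z' ≤ p + L := max_le (by linarith) (min_le_right _ _)
  have h3 : ∀ x ∈ Icc p (p + L), |x - z'| ≤ |x - z| := by
    intro x hx
    rcases le_total z p with h | h
    · have : z' = p := by
        rw [hz', min_eq_left (by linarith), max_eq_left h]
      rw [this, abs_of_nonneg (by linarith [hx.1]), abs_of_nonneg (by linarith [hx.1])]
      linarith
    · rcases le_total z (p + L) with h' | h'
      · have : z' = z := by
          rw [hz', min_eq_left h', max_eq_right h]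
        rw [this]
      · have : z' = p + L := by
          rw [hz', min_eq_right h', max_eq_right (by linarith)]
        rw [this, abs_of_nonpos (by linarith [hx.2]), abs_of_nonpos (by linarith [hx.2])]
        linarith
  have hm1 : Measurable (fun x : ℝ => ENNReal.ofReal ((κ * |x - z'| + δ)⁻¹)) := by fun_prop
  have hlog : 0 ≤ Real.log (1 + κ * L / δ) := Real.log_nonneg (by
    have : 0 ≤ κ * L / δ := by positivity
    linarith)
  have hh := lint_half hκ hδ hL
  -- right part
  have hr : ∫⁻ x in Icc z' (z' + L), ENNReal.ofReal ((κ * |x - z'| + δ)⁻¹) =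
      ENNReal.ofReal (κ⁻¹ * Real.log (1 + κ * L / δ)) := by
    rw [← hh]
    have hmp : MeasurePreserving (fun x : ℝ => x + z') := measurePreserving_add_right volume z'
    have hemb : MeasurableEmbedding (fun x : ℝ => x + z') :=
      (Homeomorph.addRight z').measurableEmbedding
    rw [← hmp.setLIntegral_comp_preimage_emb hemb]
    have e : (fun x : ℝ => x + z') ⁻¹' Icc z' (z' + L) = Icc 0 L := by
      ext x
      simp only [mem_preimage, mem_Icc]
      constructor <;> rintro ⟨h4, h5⟩ <;> constructor <;> linarith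
    rw [e]
    refine setLIntegral_congr_fun measurableSet_Icc fun x hx => ?_
    simp only [add_sub_cancel_right]
    rw [abs_of_nonneg hx.1]
  have hl : ∫⁻ x in Icc (z' - L) z', ENNReal.ofReal ((κ * |x - z'| + δ)⁻¹) =
      ENNReal.ofReal (κ⁻¹ * Real.log (1 + κ * L / δ)) := by
    rw [← hh]
    have hmp : MeasurePreserving (fun x : ℝ => z' - x) := Measure.measurePreserving_sub_left volume z'
    have hemb : MeasurableEmbedding (fun x : ℝ => z' - x) :=
      (Homeomorph.subLeft z').measurableEmbedding
    rw [← hmp.setLIntegral_comp_preimage_emb hemb]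
    have e : (fun x : ℝ => z' - x) ⁻¹' Icc (z' - L) z' = Icc 0 L := by
      ext x
      simp only [mem_preimage, mem_Icc]
      constructor <;> rintro ⟨h4, h5⟩ <;> constructor <;> linarith
    rw [e]
    refine setLIntegral_congr_fun measurableSet_Icc fun x hx => ?_
    have e2 : z' - x - z' = -x := by ring
    simp only [e2, abs_neg]
    rw [abs_of_nonneg hx.1]
  calc ∫⁻ x in Icc p (p + L), ENNReal.ofReal ((κ * |x - z| + δ)⁻¹)
      ≤ ∫⁻ x in Icc p (p + L), ENNReal.ofReal ((κ * |x - z'| + δ)⁻¹) := by
        refine setLIntegral_mono' measurableSet_Icc fun x hx => ?_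
        apply ENNReal.ofReal_le_ofReal
        apply inv_anti₀ (by positivity)
        have := h3 x hx
        gcongr
    _ ≤ ∫⁻ x in Icc (z' - L) z' ∪ Icc z' (z' + L), ENNReal.ofReal ((κ * |x - z'| + δ)⁻¹) := by
        apply lintegral_mono_set
        intro x hx
        rcases le_total x z' with h | h
        · left; exact ⟨by linarith [hx.1], h⟩
        · right; exact ⟨h, by linarith [hx.2]⟩
    _ ≤ ENNReal.ofReal (κ⁻¹ * Real.log (1 + κ * L / δ)) +
        ENNReal.ofReal (κ⁻¹ * Real.log (1 + κ * L / δ)) := by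
        refine (lintegral_union_le _ _ _).trans ?_
        rw [hr, hl]
    _ = _ := by
        rw [← ENNReal.ofReal_add (by positivity) (by positivity)]
        congr 1
        ring

/-- The logarithmic factor. -/
noncomputable def ell (δ : ℝ) : ℝ := 1 + Real.log (1 + 1 / δ)

theorem one_le_ell {δ : ℝ} (hδ : 0 < δ) : 1 ≤ ell δ := by
  unfold ell
  have : 0 ≤ Real.log (1 + 1 / δ) := Real.log_nonneg (by
    have : 0 < 1 / δ := by positivity
    linarith)
  linarith

theorem lint_unit {κ δ : ℝ} (hκ : 0 < κ) (hκ1 : κ ≤ 1) (hδ : 0 < δ) (z : ℝ) :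
    ∫⁻ x in Icc (0:ℝ) 1, ENNReal.ofReal ((κ * |x - z| + δ)⁻¹) ≤
      ENNReal.ofReal (2 * κ⁻¹ * ell δ) := by
  have h := lint_interval hκ hδ zero_le_one 0 z
  rw [zero_add] at h
  refine h.trans (ENNReal.ofReal_le_ofReal ?_)
  have h1 : Real.log (1 + κ * 1 / δ) ≤ ell δ := by
    unfold ell
    have : Real.log (1 + κ * 1 / δ) ≤ Real.log (1 + 1 / δ) := by
      apply Real.log_le_log (by positivity)
      have : κ * 1 / δ ≤ 1 / δ := by
        rw [mul_one]
        gcongr
      linarith
    linarith
  gcongr

/-- The integral in the height. -/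
theorem lint_height {a b α β δ H : ℝ} (ha : 0 ≤ a) (ha1 : a ≤ 1) (hb : 0 ≤ b) (hb1 : b ≤ 1)
    (hδ : 0 < δ) (hH : 0 ≤ H) :
    ∫⁻ s in Icc (-H) H, ENNReal.ofReal ((|(|s - α| * a - |s - β| * b)| + δ)⁻¹) ≤
      ENNReal.ofReal (8 * (1 + 4 * H) * ell δ * (|a - b| + δ)⁻¹) := by
  have hl1 := one_le_ell hδ
  have hab := abs_nonneg (a - b)
  -- one linear function
  have key : ∀ κ z : ℝ, |a - b| ≤ |κ| → |κ| ≤ 2 →
      ∫⁻ s in Icc (-H) H, ENNReal.ofReal ((|κ * s - z| + δ)⁻¹) ≤
        ENNReal.ofReal (4 * (1 + 4 * H) * ell δ * (|a - b| + δ)⁻¹) := by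
    intro κ z h1 h2
    rcases le_total |a - b| δ with h | h
    · calc ∫⁻ s in Icc (-H) H, ENNReal.ofReal ((|κ * s - z| + δ)⁻¹)
          ≤ ∫⁻ _s in Icc (-H) H, ENNReal.ofReal (δ⁻¹) := by
            apply lintegral_mono
            intro s
            apply ENNReal.ofReal_le_ofReal
            apply inv_anti₀ hδ
            linarith [abs_nonneg (κ * s - z)]
        _ = ENNReal.ofReal (2 * H * δ⁻¹) := by
            rw [lintegral_const, Measure.restrict_apply_univ, Real.volume_Icc,
              ← ENNReal.ofReal_mul (by positivity)]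
            congr 1
            ring
        _ ≤ _ := by
            apply ENNReal.ofReal_le_ofReal
            have h3 : δ⁻¹ ≤ 2 * (|a - b| + δ)⁻¹ := by
              rw [← div_eq_mul_inv, le_div_iff₀ (by positivity), inv_mul_le_iff₀ hδ]
              linarith
            calc 2 * H * δ⁻¹ ≤ 2 * H * (2 * (|a - b| + δ)⁻¹) := by gcongr
              _ = (4 * H) * 1 * (|a - b| + δ)⁻¹ := by ring
              _ ≤ _ := by
                gcongr
                linarith
    · have hκ : 0 < |κ| := by linarith
      have hκ0 : κ ≠ 0 := abs_pos.1 hκ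
      have e1 : ∀ s : ℝ, |κ * s - z| = |κ| * |s - z / κ| := by
        intro s
        rw [← abs_mul]
        congr 1
        field_simp
      simp only [e1]
      have h3 := lint_interval hκ hδ (by linarith : 0 ≤ 2 * H) (-H) (z / κ)
      have e2 : -H + 2 * H = H := by ring
      rw [e2] at h3
      refine h3.trans (ENNReal.ofReal_le_ofReal ?_)
      have h4 : |κ|⁻¹ ≤ 2 * (|a - b| + δ)⁻¹ := by
        have : 0 < |a - b| := by linarith
        calc |κ|⁻¹ ≤ |a - b|⁻¹ := inv_anti₀ this h1
          _ ≤ 2 * (|a - b| + δ)⁻¹ := by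
            rw [← div_eq_mul_inv, le_div_iff₀ (by positivity), inv_mul_le_iff₀ this]
            linarith
      have h5 : Real.log (1 + |κ| * (2 * H) / δ) ≤ (1 + 4 * H) * ell δ := by
        have h6 : Real.log (1 + |κ| * (2 * H) / δ) ≤ Real.log ((1 + 4 * H) * (1 + 1 / δ)) := by
          apply Real.log_le_log (by positivity)
          have : |κ| * (2 * H) / δ ≤ 4 * H / δ := by
            apply div_le_div_of_nonneg_right _ hδ.le
            nlinarith
          have e3 : (1 + 4 * H) * (1 + 1 / δ) = 1 + 4 * H + 1 / δ + 4 * H / δ := by ring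
          rw [e3]
          have : 0 < 1 / δ := by positivity
          linarith
        rw [Real.log_mul (by positivity) (by positivity)] at h6
        have h7 : Real.log (1 + 4 * H) ≤ 4 * H := by
          have := Real.log_le_sub_one_of_pos (by positivity : 0 < 1 + 4 * H)
          linarith
        unfold ell
        have h8 : 0 ≤ Real.log (1 + 1 / δ) := Real.log_nonneg (by
          have : 0 < 1 / δ := by positivity
          linarith)
        nlinarith
      have h9 : 0 ≤ Real.log (1 + |κ| * (2 * H) / δ) := Real.log_nonneg (by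
        have : 0 ≤ |κ| * (2 * H) / δ := by positivity
        linarith)
      calc 2 * |κ|⁻¹ * Real.log (1 + |κ| * (2 * H) / δ)
          ≤ 2 * (2 * (|a - b| + δ)⁻¹) * ((1 + 4 * H) * ell δ) := by gcongr
        _ = _ := by ring
  have hpt : ∀ s : ℝ, ENNReal.ofReal ((|(|s - α| * a - |s - β| * b)| + δ)⁻¹) ≤
      ENNReal.ofReal ((|(a - b) * s - (α * a - β * b)| + δ)⁻¹) +
      ENNReal.ofReal ((|(a + b) * s - (α * a + β * b)| + δ)⁻¹) := by
    intro s
    rw [← ENNReal.ofReal_add (by positivity) (by positivity)]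
    apply ENNReal.ofReal_le_ofReal
    have e1 : (a - b) * s - (α * a - β * b) = (s - α) * a - (s - β) * b := by ring
    have e2 : (a + b) * s - (α * a + β * b) = (s - α) * a + (s - β) * b := by ring
    rw [e1, e2]
    have h3 : |(|s - α| * a - |s - β| * b)| = |(s - α) * a - (s - β) * b| ∨
        |(|s - α| * a - |s - β| * b)| = |(s - α) * a + (s - β) * b| := by
      rcases abs_choice (s - α) with h4 | h4 <;> rcases abs_choice (s - β) with h5 | h5 <;>
        rw [h4, h5]
      · left; rfl
      · right; congr 1; ring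
      · right; rw [← abs_neg]; congr 1; ring
      · left; rw [← abs_neg]; congr 1; ring
    rcases h3 with h3 | h3
    · rw [h3]
      have : 0 ≤ (|(s - α) * a + (s - β) * b| + δ)⁻¹ := by positivity
      linarith
    · rw [h3]
      have : 0 ≤ (|(s - α) * a - (s - β) * b| + δ)⁻¹ := by positivity
      linarith
  calc ∫⁻ s in Icc (-H) H, ENNReal.ofReal ((|(|s - α| * a - |s - β| * b)| + δ)⁻¹)
      ≤ ∫⁻ s in Icc (-H) H, (ENNReal.ofReal ((|(a - b) * s - (α * a - β * b)| + δ)⁻¹) +
        ENNReal.ofReal ((|(a + b) * s - (α * a + β * b)| + δ)⁻¹)) := lintegral_mono hpt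
    _ = (∫⁻ s in Icc (-H) H, ENNReal.ofReal ((|(a - b) * s - (α * a - β * b)| + δ)⁻¹)) +
        ∫⁻ s in Icc (-H) H, ENNReal.ofReal ((|(a + b) * s - (α * a + β * b)| + δ)⁻¹) := by
        apply lintegral_add_left
        fun_prop
    _ ≤ ENNReal.ofReal (4 * (1 + 4 * H) * ell δ * (|a - b| + δ)⁻¹) +
        ENNReal.ofReal (4 * (1 + 4 * H) * ell δ * (|a - b| + δ)⁻¹) := by
        apply add_le_add
        · apply key _ _ (le_refl _)
          rw [abs_le]; constructor <;> linarith
        · apply key
          · rw [abs_of_nonneg (by linarith : 0 ≤ a + b), abs_le]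
            constructor <;> linarith
          · rw [abs_of_nonneg (by linarith : 0 ≤ a + b)]; linarith
    _ = _ := by
        rw [← ENNReal.ofReal_add (by positivity) (by positivity)]
        congr 1
        ring

end Pool.Agent.W2helper94.KC
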