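import Pool.Agent.H805R3.Kk.Final
import Pool.Agent.W2helper94.KC.J

set_option autoImplicit false

/-!
The weighted Schur estimate with heights depending on the line.
-/

open MeasureTheory Set Filter Topology ENNReal NNReal Metric

namespace Pool.Agent.W2helper94.KC

open Pool.Agent.H803R2.Kak Pool.Agent.H803R2.KakFTO Pool.Agent.H805R3.Kk
open Pool.Agent.H805R3.Kk.Gen (ind JJ rad rad_pos measurable_ind_comp ind_of_le ind_of_not JJ_def'
  schur_slice cauchy one_le_JJ JJ_ne_top lintegral_rpow_le1 moll_rpow_le1 sum_ne_top)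

variable {d : ℕ}

/-- Indicator of `lam ≤ |x|`. -/
noncomputable def oo (lam x : ℝ) : ℝ≥0∞ := chi lam x x

theorem oo_one {lam x : ℝ} (h : lam ≤ |x|) : oo lam x = 1 := chi_one h h

theorem oo_zero {lam x : ℝ} (h : ¬ lam ≤ |x|) : oo lam x = 0 := by
  by_contra h2
  exact h (chi_ne h2).1

theorem measurable_oo {α : Type} [MeasurableSpace α] {lam : ℝ} {f : α → ℝ} (hf : Measurable f) :
    Measurable (fun x => oo lam (f x)) := measurable_chi hf hf

/-- Directions whose vertex is far from the height `t`. -/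
def Bt (τ : Vec d → ℝ) (lam t : ℝ) : Set (Vec d) := closedBall 0 1 ∩ {v | lam ≤ |t - τ v|}

/-- Heights far from the vertex of the line `v`. -/
def Tt (τ : Vec d → ℝ) (H lam : ℝ) (v : Vec d) : Set ℝ := Icc (-H) H ∩ {t | lam ≤ |t - τ v|}

theorem measurableSet_Bt {τ : Vec d → ℝ} (hτ : Measurable τ) (lam t : ℝ) :
    MeasurableSet (Bt τ lam t) :=
  measurableSet_closedBall.inter (measurableSet_le measurable_const (hτ.const_sub t).abs)

theorem measurableSet_Tt {τ : Vec d → ℝ} (H lam : ℝ) (v : Vec d) : MeasurableSet (Tt τ H lam v) :=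
  measurableSet_Icc.inter (measurableSet_le measurable_const (measurable_id.sub_const _).abs)

theorem int_Bt {τ : Vec d → ℝ} (hτ : Measurable τ) (lam t : ℝ) (f : Vec d → ℝ≥0∞) :
    ∫⁻ v in Bt τ lam t, f v = ∫⁻ v in closedBall (0:Vec d) 1, oo lam (t - τ v) * f v := by
  unfold Bt
  rw [inter_comm, ← Measure.restrict_restrict
    (measurableSet_le measurable_const (hτ.const_sub t).abs),
    ← lintegral_indicator (measurableSet_le measurable_const (hτ.const_sub t).abs)]
  refine lintegral_congr fun v => ?_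
  by_cases h : lam ≤ |t - τ v|
  · rw [oo_one h, one_mul, indicator_of_mem (show v ∈ {v | lam ≤ |t - τ v|} from h)]
  · rw [oo_zero h, zero_mul, indicator_of_notMem (show v ∉ {v | lam ≤ |t - τ v|} from h)]

theorem int_Tt {τ : Vec d → ℝ} (H lam : ℝ) (v : Vec d) (f : ℝ → ℝ≥0∞) :
    ∫⁻ t in Tt τ H lam v, f t = ∫⁻ t in Icc (-H) H, oo lam (t - τ v) * f t := by
  have hms : MeasurableSet {t : ℝ | lam ≤ |t - τ v|} :=
    measurableSet_le measurable_const (measurable_id.sub_const _).abs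
  unfold Tt
  rw [inter_comm, ← Measure.restrict_restrict hms, ← lintegral_indicator hms]
  refine lintegral_congr fun t => ?_
  by_cases h : lam ≤ |t - τ v|
  · rw [oo_one h, one_mul, indicator_of_mem (show t ∈ {t | lam ≤ |t - τ v|} from h)]
  · rw [oo_zero h, zero_mul, indicator_of_notMem (show t ∉ {t | lam ≤ |t - τ v|} from h)]

/-- The multiplicity. -/
noncomputable def mult (b : Vec d → Vec d) (τ : Vec d → ℝ) (lam r : ℝ) (v : Vec d) (t : ℝ) :
    ℝ≥0∞ := JJ r b (Bt τ lam t) (b v + t • v) t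

theorem mult_eq {b : Vec d → Vec d} {τ : Vec d → ℝ} (hτ : Measurable τ) (lam r : ℝ) (v : Vec d)
    (t : ℝ) : mult b τ lam r v t = 1 + (volume (closedBall (0:Vec d) r))⁻¹ *
      ∫⁻ w in closedBall (0:Vec d) 1, oo lam (t - τ w) *
        ind (2 * r) ((b v + t • v) - (b w + t • w)) := by
  unfold mult
  rw [JJ_def', int_Bt hτ]

theorem measurable_mult {b : Vec d → Vec d} (hb : Measurable b) {τ : Vec d → ℝ}
    (hτ : Measurable τ) (lam r : ℝ) :
    Measurable (fun q : Vec d × ℝ => mult b τ lam r q.1 q.2) := by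
  simp only [mult_eq hτ]
  apply Measurable.const_add
  apply Measurable.const_mul
  have : Measurable (fun q : (Vec d × ℝ) × Vec d => oo lam (q.1.2 - τ q.2) *
      ind (2 * r) ((b q.1.1 + q.1.2 • q.1.1) - (b q.2 + q.1.2 • q.2))) := by
    have m1 : Measurable (fun q : (Vec d × ℝ) × Vec d => q.1.1) := measurable_fst.comp measurable_fst
    have m2 : Measurable (fun q : (Vec d × ℝ) × Vec d => q.1.2) := measurable_snd.comp measurable_fst
    refine (measurable_oo (m2.sub (hτ.comp measurable_snd))).mul (measurable_ind_comp ?_)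
    exact ((hb.comp m1).add (m2.smul m1)).sub ((hb.comp measurable_snd).add (m2.smul measurable_snd))
  exact this.lintegral_prod_right'

theorem one_le_mult {b : Vec d → Vec d} {τ : Vec d → ℝ} {lam r : ℝ} {v : Vec d} {t : ℝ} :
    1 ≤ mult b τ lam r v t := one_le_JJ

theorem mult_ne_top {b : Vec d → Vec d} {τ : Vec d → ℝ} {lam r : ℝ} (hr : 0 < r) {v : Vec d}
    {t : ℝ} : mult b τ lam r v t ≠ ∞ := by
  apply JJ_ne_top hr
  exact ne_top_of_le_ne_top measure_closedBall_lt_top.ne (measure_mono inter_subset_left)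

/-- The total multiplicity on a line. -/
noncomputable def Mu (b : Vec d → Vec d) (τ : Vec d → ℝ) (H lam r : ℝ) (v : Vec d) : ℝ≥0∞ :=
  ∫⁻ t in Tt τ H lam v, mult b τ lam r v t

theorem measurable_Mu {b : Vec d → Vec d} (hb : Measurable b) {τ : Vec d → ℝ}
    (hτ : Measurable τ) (H lam r : ℝ) : Measurable (Mu b τ H lam r) := by
  unfold Mu
  simp only [int_Tt]
  have : Measurable (fun q : Vec d × ℝ => oo lam (q.2 - τ q.1) * mult b τ lam r q.1 q.2) :=
    (measurable_oo (measurable_snd.sub (hτ.comp measurable_fst))).mul (measurable_mult hb hτ lam r)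
  exact this.lintegral_prod_right'

/-- The estimate on one line. -/
theorem line_cs {T : Set ℝ} {G J : ℝ → ℝ≥0∞} (hG : Measurable G)
    (hJ : Measurable J) (hJ0 : ∀ t, J t ≠ 0) (hJt : ∀ t, J t ≠ ∞)
    {w : ℝ≥0∞} (hw : w * ∫⁻ t in T, J t ≤ 1) :
    w * (∫⁻ t in T, G t) ^ 2 ≤ ∫⁻ t in T, G t ^ 2 * (J t)⁻¹ := by
  have h2 : ∫⁻ t in T, G t = ∫⁻ t in T, (G t * (J t) ^ (-(1/2:ℝ))) * (J t) ^ (1/2:ℝ) := by
    congr 1
    ext t
    rw [mul_assoc, ← ENNReal.rpow_add _ _ (hJ0 t) (hJt t)]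
    simp
  have h3 := cauchy (volume.restrict T)
    (f := fun t => G t * (J t) ^ (-(1/2:ℝ))) (g := fun t => (J t) ^ (1/2:ℝ))
    (hG.mul (hJ.pow_const _)).aemeasurable (hJ.pow_const _).aemeasurable
  have h4 : ∀ t, (G t * (J t) ^ (-(1/2:ℝ))) ^ 2 = G t ^ 2 * (J t)⁻¹ := by
    intro t
    rw [mul_pow]
    congr 1
    rw [← ENNReal.rpow_natCast, ← ENNReal.rpow_mul]
    have : -(1/2:ℝ) * ((2:ℕ):ℝ) = -1 := by norm_num
    rw [this, ENNReal.rpow_neg_one]
  have h5 : ∀ t, ((J t) ^ (1/2:ℝ)) ^ 2 = J t := by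
    intro t
    rw [← ENNReal.rpow_natCast, ← ENNReal.rpow_mul]
    have : (1/2:ℝ) * ((2:ℕ):ℝ) = 1 := by norm_num
    rw [this, ENNReal.rpow_one]
  simp only [h4, h5] at h3
  calc w * (∫⁻ t in T, G t) ^ 2
      ≤ w * ((∫⁻ t in T, G t ^ 2 * (J t)⁻¹) * ∫⁻ t in T, J t) := by
        rw [h2]
        gcongr
    _ = (w * ∫⁻ t in T, J t) * (∫⁻ t in T, G t ^ 2 * (J t)⁻¹) := by ring
    _ ≤ 1 * (∫⁻ t in T, G t ^ 2 * (J t)⁻¹) := by gcongr
    _ = _ := one_mul _

/-- **The weighted Schur estimate.** -/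
theorem schur' {r : ℝ} (hr : 0 < r) {b : Vec d → Vec d} (hb : Measurable b) {τ : Vec d → ℝ}
    (hτ : Measurable τ) (H lam : ℝ) {ω : Vec d → ℝ≥0∞}
    (hω : ∀ v ∈ closedBall (0:Vec d) 1, ω v * Mu b τ H lam r v ≤ 1)
    {F : Vec d × ℝ → ℝ≥0∞} (hF : Measurable F) :
    ∫⁻ v in closedBall (0:Vec d) 1, ω v *
      (∫⁻ t in Tt τ H lam v, moll r F (b v + t • v, t)) ^ 2 ≤ ∫⁻ q, F q ^ 2 := by
  have hs1 : Measurable (fun q : Vec d × ℝ => b q.1 + q.2 • q.1) :=
    (hb.comp measurable_fst).add (measurable_snd.smul measurable_fst)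
  have hGm : Measurable (fun q : Vec d × ℝ => moll r F (b q.1 + q.2 • q.1, q.2)) :=
    (measurable_moll hF).comp (hs1.prodMk measurable_snd)
  have hJm := measurable_mult hb hτ lam r
  have hpt : ∀ v ∈ closedBall (0:Vec d) 1, ω v *
      (∫⁻ t in Tt τ H lam v, moll r F (b v + t • v, t)) ^ 2
      ≤ ∫⁻ t in Tt τ H lam v, moll r F (b v + t • v, t) ^ 2 * (mult b τ lam r v t)⁻¹ := by
    intro v hv
    exact line_cs (hGm.comp measurable_prodMk_left) (hJm.comp measurable_prodMk_left)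
      (fun t => (lt_of_lt_of_le one_pos one_le_mult).ne') (fun t => mult_ne_top hr) (hω v hv)
  have hF2 : Measurable (fun q => F q ^ 2) := hF.pow_const 2
  refine (setLIntegral_mono' measurableSet_closedBall hpt).trans ?_
  simp only [int_Tt]
  have hbig : Measurable (fun q : Vec d × ℝ => oo lam (q.2 - τ q.1) *
      (moll r F (b q.1 + q.2 • q.1, q.2) ^ 2 * (mult b τ lam r q.1 q.2)⁻¹)) :=
    (measurable_oo (measurable_snd.sub (hτ.comp measurable_fst))).mul
      ((hGm.pow_const 2).mul hJm.inv)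
  rw [lintegral_lintegral_swap hbig.aemeasurable]
  rw [Measure.volume_eq_prod, lintegral_prod_symm _ hF2.aemeasurable]
  refine (setLIntegral_le_lintegral _ _).trans (lintegral_mono fun t => ?_)
  have h1 := schur_slice hr hb (B := Bt τ lam t) hF t
  rw [int_Bt hτ] at h1
  exact h1

end Pool.Agent.W2helper94.KC
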