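import Pool.Agent.W2helper94.KC.V

set_option autoImplicit false

/-!
The critical moment of the sum of the tubes of a concurrent family: shells.
-/

open MeasureTheory Set Metric
open scoped ENNReal NNReal

namespace Pool.Agent.W2helper94.KC

open Pool.Agent.H803R2.Kak Pool.Agent.H803R2.KakFTO Pool.Agent.H805R3.Kk

variable {k d : ℕ} {m : Fin (k + 1) → ℕ}

/-- The volume of the unit ball. -/
noncomputable def omg (d : ℕ) : ℝ := (volume (closedBall (0 : E d) 1)).toReal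

theorem omg_pos (d : ℕ) : 0 < omg d :=
  ENNReal.toReal_pos (vol_pos (d := d) one_pos).ne' (vol_lt_top (d := d)).ne

theorem omg_eq (d : ℕ) : volume (closedBall (0 : E d) 1) = ENNReal.ofReal (omg d) := by
  rw [omg, ENNReal.ofReal_toReal (vol_lt_top (d := d)).ne]

theorem omg_scale (d : ℕ) {δ : ℝ} (hδ : 0 < δ) :
    volume (closedBall (0 : E d) δ) = ENNReal.ofReal (δ ^ d * omg d) := by
  rw [vol_ball_scale hδ, omg_eq, ENNReal.ofReal_mul (by positivity), ENNReal.ofReal_pow hδ.le]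

theorem ell_anti {δ δ' : ℝ} (hδ : 0 < δ) (h : δ ≤ δ') : ell δ' ≤ ell δ := by
  unfold ell
  have h1 : 1 / δ' ≤ 1 / δ := one_div_le_one_div_of_le hδ h
  have h2 : 0 < 1 / δ' := by
    have : 0 < δ' := by linarith
    positivity
  have := Real.log_le_log (by linarith : 0 < 1 + 1 / δ') (by linarith : 1 + 1 / δ' ≤ 1 + 1 / δ)
  linarith

theorem shells_exist {δ : ℝ} (hδ : 0 < δ) : ∃ I : ℕ, (1 / 2 : ℝ) ^ I ≤ δ ∧ (I : ℝ) + 1 ≤ 2 * ell δ := by
  have hell := one_le_ell hδ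
  rcases le_or_gt 1 δ with h | h
  · refine ⟨0, by simpa using h, ?_⟩
    push_cast
    linarith
  · obtain ⟨n, hn1, hn2⟩ := exists_nat_pow_near_of_lt_one hδ h.le (by norm_num : (0:ℝ) < 1/2)
      (by norm_num)
    refine ⟨n + 1, hn1.le, ?_⟩
    have h1 : (2 : ℝ) ^ n ≤ 1 / δ := by
      rw [le_div_iff₀ hδ]
      have h2 : (2 : ℝ) ^ n * (1 / 2) ^ n = 1 := by rw [← mul_pow]; norm_num
      calc (2 : ℝ) ^ n * δ ≤ 2 ^ n * (1 / 2) ^ n := by gcongr
        _ = 1 := h2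
    have h3 : Real.log ((2 : ℝ) ^ n) ≤ Real.log (1 + 1 / δ) :=
      Real.log_le_log (by positivity) (by linarith)
    rw [Real.log_pow] at h3
    have h4 := Real.log_two_gt_d9
    have hn0 : (0:ℝ) ≤ n := Nat.cast_nonneg n
    unfold ell
    push_cast
    nlinarith

/-- A shell of heights. -/
def shl (lam : ℝ) : Set ℝ := {s | lam ≤ |s| ∧ |s| ≤ 2 * lam}

theorem measurableSet_shl (lam : ℝ) : MeasurableSet (shl lam) :=
  (measurableSet_le measurable_const measurable_id.abs).inter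
    (measurableSet_le measurable_id.abs measurable_const)

theorem vol_shl {lam : ℝ} : volume (shl lam) ≤ ENNReal.ofReal (4 * lam) := by
  have h : shl lam ⊆ Icc (-(2 * lam)) (2 * lam) := fun s hs => abs_le.1 hs.2
  refine (measure_mono h).trans (le_of_eq ?_)
  rw [Real.volume_Icc]
  congr 1
  ring

theorem real_shell {A B K δ L lam : ℝ} {d c : ℕ} (hd : 1 ≤ d) (hδ : 0 < δ) (hL : 0 < L)
    (hlam : 0 < lam) {a b : ℝ} (ha : 0 < a) (hb : 0 < b)
    (hA : A = a * δ ^ d * lam) (hB : B = b * δ ^ (2 * d) * lam⁻¹ ^ (d - 1) * L ^ c)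
    (hK : K = (a ^ (d - 1) * b) ^ (1 / (d : ℝ))) :
    A ^ (1 - 1 / (d : ℝ)) * B ^ (1 / (d : ℝ)) = K * δ ^ (d + 1) * L ^ ((c : ℝ) / d) := by
  have hd0 : (0 : ℝ) < d := by exact_mod_cast hd
  have hA0 : 0 < A := by rw [hA]; positivity
  have hB0 : 0 < B := by rw [hB]; positivity
  have e1 : A ^ (1 - 1 / (d : ℝ)) = (A ^ (d - 1)) ^ (1 / (d : ℝ)) := by
    rw [← Real.rpow_natCast A (d - 1), ← Real.rpow_mul hA0.le]
    congr 1
    rw [Nat.cast_sub hd]
    field_simp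
    push_cast
    ring
  rw [e1, ← Real.mul_rpow (by positivity) hB0.le]
  have e2 : A ^ (d - 1) * B = (a ^ (d - 1) * b) * ((δ ^ (d + 1)) ^ d * L ^ c) := by
    rw [hA, hB, mul_pow, mul_pow, ← pow_mul, ← pow_mul]
    have h1 : lam ^ (d - 1) * lam⁻¹ ^ (d - 1) = 1 := by
      rw [← mul_pow, mul_inv_cancel₀ hlam.ne', one_pow]
    have h2 : δ ^ (d * (d - 1)) * δ ^ (2 * d) = δ ^ ((d + 1) * d) := by
      rw [← pow_add]
      congr 1
      obtain ⟨n, rfl⟩ : ∃ n, d = n + 1 := ⟨d - 1, by omega⟩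
      simp only [Nat.add_sub_cancel]
      ring
    calc a ^ (d - 1) * δ ^ (d * (d - 1)) * lam ^ (d - 1) *
          (b * δ ^ (2 * d) * lam⁻¹ ^ (d - 1) * L ^ c)
        = (a ^ (d - 1) * b) * ((δ ^ (d * (d - 1)) * δ ^ (2 * d)) *
          (lam ^ (d - 1) * lam⁻¹ ^ (d - 1)) * L ^ c) := by ring
      _ = _ := by rw [h1, h2, mul_one]
  rw [e2, Real.mul_rpow (by positivity) (by positivity), ← hK, Real.mul_rpow (by positivity)
    (by positivity)]
  have e3 : ((δ ^ (d + 1)) ^ d) ^ (1 / (d : ℝ)) = δ ^ (d + 1) := by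
    rw [← Real.rpow_natCast (δ ^ (d + 1)) d, ← Real.rpow_mul (by positivity),
      mul_one_div_cancel hd0.ne', Real.rpow_one]
  have e4 : (L ^ c) ^ (1 / (d : ℝ)) = L ^ ((c : ℝ) / d) := by
    rw [← Real.rpow_natCast L c, ← Real.rpow_mul hL.le]
    congr 1
    ring
  rw [e3, e4]
  ring

theorem shell_moment {e : (Σ j, Fin (m j)) ≃ Fin d} (hp : PairsBd e) (hd : 1 ≤ d) :
    ∃ K : ℝ, 0 < K ∧ ∀ (δ lam : ℝ) (x : (Fin (k + 1) → ℝ) → E d) (σ : (Fin (k + 1) → ℝ) → ℝ),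
      Measurable x → Measurable σ → 0 < δ → 0 < lam → 2 * lam ≤ 1 →
      ∫⁻ q, GG e x σ δ (shl lam) q ^ (1 + 1 / (d : ℝ)) ≤
        ENNReal.ofReal (K * δ ^ (d + 1) * ell δ ^ (((k + 2 : ℕ) : ℝ) / d)) := by
  obtain ⟨C, hC, hpair⟩ := pairs_unb hp
  have hω := omg_pos d
  have hd0 : (0 : ℝ) < d := by exact_mod_cast hd
  have hd1 : (1 : ℝ) ≤ d := by exact_mod_cast hd
  set a : ℝ := 4 * omg d ^ 2 with ha
  set b : ℝ := omg d * C * 2 ^ d with hb
  have ha0 : 0 < a := by positivity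
  have hb0 : 0 < b := by positivity
  refine ⟨(a ^ (d - 1) * b) ^ (1 / (d : ℝ)), by positivity, ?_⟩
  intro δ lam x σ hx hσ hδ hlam hlam2
  have hL := one_le_ell hδ
  have hL0 : 0 < ell δ := by linarith
  have hGm := measurable_GG e hx hσ δ (measurableSet_shl lam)
  have hint : ∫⁻ q, GG e x σ δ (shl lam) q ≤ ENNReal.ofReal (a * δ ^ d * lam) := by
    rw [GG_int e hx hσ δ (measurableSet_shl lam), omg_eq, omg_scale d hδ]
    calc ENNReal.ofReal (omg d) * (ENNReal.ofReal (δ ^ d * omg d) * volume (shl lam))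
        ≤ ENNReal.ofReal (omg d) * (ENNReal.ofReal (δ ^ d * omg d) * ENNReal.ofReal (4 * lam)) := by
          gcongr
          exact vol_shl
      _ = _ := by
          rw [← ENNReal.ofReal_mul (by positivity), ← ENNReal.ofReal_mul hω.le]
          congr 1
          rw [ha]
          ring
  have hsq : ∫⁻ q, GG e x σ δ (shl lam) q ^ (2 : ℝ) ≤
      ENNReal.ofReal (b * δ ^ (2 * d) * lam⁻¹ ^ (d - 1) * ell δ ^ (k + 2)) := by
    refine (GG_sq e hx hσ (lam := lam) (measurableSet_shl lam)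
      (fun s hs => ⟨hs.1, hs.2.trans hlam2⟩)).trans ?_
    rw [omg_scale d hδ]
    calc ENNReal.ofReal (δ ^ d * omg d) * ∫⁻ s, ∫⁻ z : E d × E d,
          RR e x lam (2 * δ) (s - σ (bn e z.1)) (s - σ (bn e z.2)) z
        ≤ ENNReal.ofReal (δ ^ d * omg d) * ENNReal.ofReal (C * (2 * δ) ^ d * lam⁻¹ ^ (d - 1) *
          ell (2 * δ) ^ (k + 2)) := by
          gcongr
          exact hpair (2 * δ) lam x σ hx hσ (by positivity) hlam (by linarith)
      _ = ENNReal.ofReal ((δ ^ d * omg d) * (C * (2 * δ) ^ d * lam⁻¹ ^ (d - 1) *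
          ell (2 * δ) ^ (k + 2))) := (ENNReal.ofReal_mul (by positivity)).symm
      _ ≤ _ := by
          apply ENNReal.ofReal_le_ofReal
          have h1 := ell_anti hδ (by linarith : δ ≤ 2 * δ)
          have h2 := one_le_ell (by positivity : 0 < 2 * δ)
          calc (δ ^ d * omg d) * (C * (2 * δ) ^ d * lam⁻¹ ^ (d - 1) * ell (2 * δ) ^ (k + 2))
              ≤ (δ ^ d * omg d) * (C * (2 * δ) ^ d * lam⁻¹ ^ (d - 1) * ell δ ^ (k + 2)) := by
                gcongr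
            _ = _ := by
                rw [mul_pow, hb, two_mul d, pow_add δ d d]
                ring
  have hq : (1 : ℝ) + 1 / d ≤ 2 := by
    have : 1 / (d : ℝ) ≤ 1 := by rw [div_le_one hd0]; exact hd1
    linarith
  have h := Pool.Agent.H810R3.Tub.interp (μ := volume) hGm (p := 1 + 1 / (d : ℝ)) (q := 2)
    (by norm_num) (by have : 0 < 1 / (d : ℝ) := by positivity
                      linarith) hq
  have e1 : (1 + 1 / (d : ℝ) - 1) / (2 - 1) = 1 / (d : ℝ) := by ring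
  rw [e1] at h
  have h0 : 0 ≤ 1 - 1 / (d : ℝ) := by
    have : 1 / (d : ℝ) ≤ 1 := by rw [div_le_one hd0]; exact hd1
    linarith
  refine h.trans ?_
  calc (∫⁻ q, GG e x σ δ (shl lam) q) ^ (1 - 1 / (d : ℝ)) *
        (∫⁻ q, GG e x σ δ (shl lam) q ^ (2 : ℝ)) ^ (1 / (d : ℝ))
      ≤ ENNReal.ofReal (a * δ ^ d * lam) ^ (1 - 1 / (d : ℝ)) *
        ENNReal.ofReal (b * δ ^ (2 * d) * lam⁻¹ ^ (d - 1) * ell δ ^ (k + 2)) ^ (1 / (d : ℝ)) := by
        gcongr
    _ = ENNReal.ofReal ((a * δ ^ d * lam) ^ (1 - 1 / (d : ℝ)) *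
        (b * δ ^ (2 * d) * lam⁻¹ ^ (d - 1) * ell δ ^ (k + 2)) ^ (1 / (d : ℝ))) := by
        rw [ENNReal.ofReal_rpow_of_nonneg (by positivity) h0,
          ENNReal.ofReal_rpow_of_nonneg (by positivity) (by positivity),
          ← ENNReal.ofReal_mul (by positivity)]
    _ = _ := by
        rw [real_shell hd hδ hL0 hlam ha0 hb0 rfl rfl rfl]

theorem end_moment (e : (Σ j, Fin (m j)) ≃ Fin d) (hd : 1 ≤ d) {x : (Fin (k + 1) → ℝ) → E d}
    (hx : Measurable x) {σ : (Fin (k + 1) → ℝ) → ℝ} (hσ : Measurable σ) {δ μ : ℝ} (hδ : 0 < δ)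
    (hμδ : μ ≤ δ) :
    ∫⁻ q, GG e x σ δ (Icc (-μ) μ) q ^ (1 + 1 / (d : ℝ)) ≤
      ENNReal.ofReal (2 * omg d ^ 2 * omg d ^ (1 / (d : ℝ)) * δ ^ (d + 1)) := by
  have hω := omg_pos d
  have hd0 : (0 : ℝ) < d := by exact_mod_cast hd
  have hp0 : 0 < 1 / (d : ℝ) := by positivity
  calc ∫⁻ q, GG e x σ δ (Icc (-μ) μ) q ^ (1 + 1 / (d : ℝ))
      ≤ ∫⁻ q, ENNReal.ofReal (omg d ^ (1 / (d : ℝ))) * GG e x σ δ (Icc (-μ) μ) q := by
        apply lintegral_mono
        intro q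
        show GG e x σ δ (Icc (-μ) μ) q ^ (1 + 1 / (d : ℝ)) ≤
          ENNReal.ofReal (omg d ^ (1 / (d : ℝ))) * GG e x σ δ (Icc (-μ) μ) q
        rw [ENNReal.rpow_add_of_nonneg _ _ zero_le_one hp0.le, ENNReal.rpow_one, mul_comm,
          ← ENNReal.ofReal_rpow_of_nonneg hω.le hp0.le, ← omg_eq]
        gcongr
        exact GG_le e x σ δ _ q
    _ = ENNReal.ofReal (omg d ^ (1 / (d : ℝ))) * ∫⁻ q, GG e x σ δ (Icc (-μ) μ) q :=
        lintegral_const_mul' _ _ ENNReal.ofReal_ne_top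
    _ ≤ _ := by
        rw [GG_int e hx hσ δ measurableSet_Icc, omg_eq, omg_scale d hδ, Real.volume_Icc,
          ← ENNReal.ofReal_mul (by positivity), ← ENNReal.ofReal_mul (by positivity),
          ← ENNReal.ofReal_mul (by positivity)]
        apply ENNReal.ofReal_le_ofReal
        have h1 : μ - -μ = 2 * μ := by ring
        rw [h1]
        calc omg d ^ (1 / (d : ℝ)) * (omg d * (δ ^ d * omg d * (2 * μ)))
            ≤ omg d ^ (1 / (d : ℝ)) * (omg d * (δ ^ d * omg d * (2 * δ))) := by gcongr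
          _ = _ := by rw [pow_succ]; ring

theorem GG_cover (e : (Σ j, Fin (m j)) ≃ Fin d) (x : (Fin (k + 1) → ℝ) → E d)
    (σ : (Fin (k + 1) → ℝ) → ℝ) {δ : ℝ} {S : Set ℝ} {I : ℕ} {T : ℕ → Set ℝ}
    (hx : Measurable x) (hσ : Measurable σ) (hT : ∀ i, MeasurableSet (T i))
    (h : S ⊆ ⋃ i ∈ Finset.range I, T i) (q : E d × ℝ) :
    GG e x σ δ S q ≤ ∑ i ∈ Finset.range I, GG e x σ δ (T i) q := by
  unfold GG
  rw [← lintegral_finsetSum]
  · apply lintegral_mono
    intro u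
    show ic 1 u * sI S (q.2 - σ (bn e u)) * ic δ (q.1 - zz e x σ q.2 u) ≤
      ∑ i ∈ Finset.range I, ic 1 u * sI (T i) (q.2 - σ (bn e u)) * ic δ (q.1 - zz e x σ q.2 u)
    rw [← Finset.sum_mul, ← Finset.mul_sum]
    gcongr
    by_cases hs : q.2 - σ (bn e u) ∈ S
    · obtain ⟨i, hi, hi2⟩ := mem_iUnion₂.1 (h hs)
      have h1 : sI S (q.2 - σ (bn e u)) = 1 := indicator_of_mem hs _
      have h2 : sI (T i) (q.2 - σ (bn e u)) = 1 := indicator_of_mem hi2 _
      rw [h1, ← h2]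
      exact Finset.single_le_sum (f := fun i => sI (T i) (q.2 - σ (bn e u)))
            (fun _ _ => zero_le) hi
    · have : sI S (q.2 - σ (bn e u)) = 0 := indicator_of_notMem hs _
      rw [this]
      exact zero_le
  · intro i _
    have hpm : Measurable (fun u : E d => (q, u)) := measurable_const.prodMk measurable_id
    have h := (meas_core e hx hσ δ (hT i)).comp hpm
    simp only [Function.comp_def] at h
    exact h

theorem moment {e : (Σ j, Fin (m j)) ≃ Fin d} (hp : PairsBd e) (hd : 1 ≤ d) :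
    ∃ K : ℝ, 0 < K ∧ ∀ (δ : ℝ) (x : (Fin (k + 1) → ℝ) → E d) (σ : (Fin (k + 1) → ℝ) → ℝ),
      Measurable x → Measurable σ → 0 < δ →
      ∫⁻ q, GG e x σ δ (Icc (-1) 1) q ^ (1 + 1 / (d : ℝ)) ≤
        ENNReal.ofReal (K * δ ^ (d + 1) * ell δ ^ (((d : ℝ) + k + 3) / d)) := by
  obtain ⟨K1, hK1, hshell⟩ := shell_moment hp hd
  have hω := omg_pos d
  have hd0 : (0 : ℝ) < d := by exact_mod_cast hd
  set K2 : ℝ := 2 * omg d ^ 2 * omg d ^ (1 / (d : ℝ)) with hK2
  have hK20 : 0 < K2 := by positivity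
  set p : ℝ := 1 + 1 / (d : ℝ) with hp'
  have hp1 : 1 ≤ p := by
    have : 0 < 1 / (d : ℝ) := by positivity
    linarith
  refine ⟨2 ^ p * (K1 + K2), by positivity, ?_⟩
  intro δ x σ hx hσ hδ
  obtain ⟨I, hI1, hI2⟩ := shells_exist hδ
  have hL := one_le_ell hδ
  have hL0 : 0 < ell δ := by linarith
  set T : ℕ → Set ℝ := fun i => if i = I then Icc (-(1/2:ℝ)^I) ((1/2:ℝ)^I)
    else shl ((1/2:ℝ)^(i+1)) with hT
  have hTm : ∀ i, MeasurableSet (T i) := by
    intro i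
    rw [hT]
    dsimp only
    split_ifs
    · exact measurableSet_Icc
    · exact measurableSet_shl _
  have hcov : Icc (-1 : ℝ) 1 ⊆ ⋃ i ∈ Finset.range (I + 1), T i := by
    intro s hs
    have hs1 : |s| ≤ 1 := abs_le.2 hs
    rw [mem_iUnion₂]
    rcases le_or_gt |s| ((1/2:ℝ)^I) with h | h
    · refine ⟨I, by simp, ?_⟩
      rw [hT]
      simp only [if_true]
      exact abs_le.1 h
    · have hs0 : 0 < |s| := lt_trans (by positivity) h
      obtain ⟨n, hn1, hn2⟩ := exists_nat_pow_near_of_lt_one hs0 hs1 (by norm_num : (0:ℝ) < 1/2)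
        (by norm_num)
      have hnI : n < I := by
        by_contra hcon
        push Not at hcon
        have : (1/2:ℝ)^n ≤ (1/2:ℝ)^I := pow_le_pow_of_le_one (by norm_num) (by norm_num) hcon
        linarith
      refine ⟨n, by simp; omega, ?_⟩
      rw [hT]
      simp only [hnI.ne, if_false]
      refine ⟨hn1.le, hn2.trans (le_of_eq ?_)⟩
      rw [pow_succ]
      ring
  have hone : ∀ i ∈ Finset.range (I + 1), ∫⁻ q, GG e x σ δ (T i) q ^ p ≤
      ENNReal.ofReal ((K1 + K2) * δ ^ (d + 1) * ell δ ^ (((k + 2 : ℕ) : ℝ) / d)) := by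
    intro i hi
    have hLp : 1 ≤ ell δ ^ (((k + 2 : ℕ) : ℝ) / d) := Real.one_le_rpow hL (by positivity)
    by_cases h : i = I
    · have : T i = Icc (-(1/2:ℝ)^I) ((1/2:ℝ)^I) := by rw [hT]; simp [h]
      rw [this]
      refine (end_moment e hd hx hσ hδ hI1).trans (ENNReal.ofReal_le_ofReal ?_)
      rw [← hK2]
      have h1 : 0 < δ ^ (d + 1) := by positivity
      calc K2 * δ ^ (d + 1) = K2 * δ ^ (d + 1) * 1 := by ring
        _ ≤ (K1 + K2) * δ ^ (d + 1) * ell δ ^ (((k + 2 : ℕ) : ℝ) / d) := by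
            gcongr
            linarith
    · have : T i = shl ((1/2:ℝ)^(i+1)) := by rw [hT]; simp [h]
      rw [this]
      refine (hshell δ _ x σ hx hσ hδ (by positivity) ?_).trans (ENNReal.ofReal_le_ofReal ?_)
      · rw [pow_succ]
        have : (1/2:ℝ)^i ≤ 1 := pow_le_one₀ (by norm_num) (by norm_num)
        linarith
      · gcongr
        linarith
  have hGm : ∀ i, Measurable (GG e x σ δ (T i)) := fun i => measurable_GG e hx hσ δ (hTm i)
  calc ∫⁻ q, GG e x σ δ (Icc (-1) 1) q ^ p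
      ≤ ∫⁻ q, ((Finset.range (I + 1)).card : ℝ≥0∞) ^ (p - 1) *
        ∑ i ∈ Finset.range (I + 1), GG e x σ δ (T i) q ^ p := by
        apply lintegral_mono
        intro q
        exact le_trans (ENNReal.rpow_le_rpow (GG_cover e x σ hx hσ hTm hcov q) (by linarith))
          (ENNReal.rpow_sum_le_const_mul_sum_rpow _ _ hp1)
    _ = ((Finset.range (I + 1)).card : ℝ≥0∞) ^ (p - 1) *
        ∑ i ∈ Finset.range (I + 1), ∫⁻ q, GG e x σ δ (T i) q ^ p := by
        rw [lintegral_const_mul _ (Finset.measurable_sum _ (fun i _ => (hGm i).pow_const _)),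
          lintegral_finsetSum _ (fun i _ => (hGm i).pow_const _)]
    _ ≤ ((Finset.range (I + 1)).card : ℝ≥0∞) ^ (p - 1) *
        ∑ i ∈ Finset.range (I + 1),
          ENNReal.ofReal ((K1 + K2) * δ ^ (d + 1) * ell δ ^ (((k + 2 : ℕ) : ℝ) / d)) := by
        gcongr with i hi
        exact hone i hi
    _ = ENNReal.ofReal (((I : ℝ) + 1) ^ p *
        ((K1 + K2) * δ ^ (d + 1) * ell δ ^ (((k + 2 : ℕ) : ℝ) / d))) := by
        rw [Finset.sum_const, Finset.card_range, nsmul_eq_mul, ← mul_assoc]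
        have e1 : ((I + 1 : ℕ) : ℝ≥0∞) = ENNReal.ofReal ((I : ℝ) + 1) := by
          rw [← ENNReal.ofReal_natCast]
          push_cast
          rfl
        rw [e1, ENNReal.ofReal_mul (by positivity : (0:ℝ) ≤ ((I : ℝ) + 1) ^ p)]
        congr 1
        rw [← ENNReal.ofReal_rpow_of_nonneg (by positivity : (0:ℝ) ≤ (I : ℝ) + 1)
          (by linarith : (0:ℝ) ≤ p)]
        conv_lhs => rw [← ENNReal.rpow_one (ENNReal.ofReal ((I : ℝ) + 1)), ← ENNReal.rpow_mul]
        rw [← ENNReal.rpow_add_of_nonneg _ _ (by linarith) zero_le_one]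
        congr 1
        ring
    _ ≤ _ := by
        apply ENNReal.ofReal_le_ofReal
        have h1 : ((I : ℝ) + 1) ^ p ≤ 2 ^ p * ell δ ^ p := by
          rw [← Real.mul_rpow (by norm_num) hL0.le]
          exact Real.rpow_le_rpow (by positivity) hI2 (by linarith)
        calc ((I : ℝ) + 1) ^ p * ((K1 + K2) * δ ^ (d + 1) * ell δ ^ (((k + 2 : ℕ) : ℝ) / d))
            ≤ (2 ^ p * ell δ ^ p) *
              ((K1 + K2) * δ ^ (d + 1) * ell δ ^ (((k + 2 : ℕ) : ℝ) / d)) := by gcongr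
          _ = 2 ^ p * (K1 + K2) * δ ^ (d + 1) *
              (ell δ ^ p * ell δ ^ (((k + 2 : ℕ) : ℝ) / d)) := by ring
          _ = _ := by
              rw [← Real.rpow_add hL0]
              congr 2
              rw [hp']
              push_cast
              field_simp
              ring

end Pool.Agent.W2helper94.KC
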