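import Pool.Agent.W2helper94.KC.N

set_option autoImplicit false

/-!
The weighted estimate for concurrent families.
-/

open MeasureTheory Set Filter Topology ENNReal NNReal Metric

namespace Pool.Agent.W2helper94.KC

open Pool.Agent.H803R2.Kak Pool.Agent.H803R2.KakFTO Pool.Agent.H805R3.Kk
open Pool.Agent.H805R3.Kk.Gen (ind JJ rad rad_pos measurable_ind_comp ind_of_le ind_of_not JJ_def'
  schur_slice cauchy one_le_JJ JJ_ne_top lintegral_rpow_le1 moll_rpow_le1 sum_ne_top moll_compare)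

variable {k d : ℕ} {m : Fin (k + 1) → ℕ}

/-- The loss. -/
noncomputable def loss (d : ℕ) (p D : ℝ) : ℝ := D ^ (-(max 0 ((d:ℝ) + 1 - p)))

theorem loss_pos {p D : ℝ} (hD : 0 < D) : 0 < loss d p D := Real.rpow_pos_of_pos hD _

theorem loss_i {p D lam : ℝ} (hp : 0 ≤ p) (hD : 0 < D) (h1 : D / 2 ≤ lam) (h2 : lam ≤ 1) :
    lam ^ (p - ((d:ℝ) + 1)) ≤ 2 ^ ((d:ℝ) + 1) * loss d p D := by
  have hl : 0 < lam := by linarith
  have hd : (0:ℝ) ≤ d := Nat.cast_nonneg d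
  unfold loss
  rcases le_total ((d:ℝ) + 1) p with h | h
  · rw [max_eq_left (by linarith), neg_zero, Real.rpow_zero, mul_one]
    calc lam ^ (p - ((d:ℝ) + 1)) ≤ 1 := Real.rpow_le_one hl.le h2 (by linarith)
      _ ≤ _ := Real.one_le_rpow (by norm_num) (by linarith)
  · rw [max_eq_right (by linarith)]
    have e1 : p - ((d:ℝ) + 1) = -((d:ℝ) + 1 - p) := by ring
    rw [e1]
    calc lam ^ (-((d:ℝ) + 1 - p)) ≤ (D / 2) ^ (-((d:ℝ) + 1 - p)) :=
          Real.rpow_le_rpow_of_nonpos (by positivity) h1 (by linarith)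
      _ = 2 ^ ((d:ℝ) + 1 - p) * D ^ (-((d:ℝ) + 1 - p)) := by
          rw [Real.div_rpow hD.le (by norm_num), Real.rpow_neg (by norm_num : (0:ℝ) ≤ 2),
            div_inv_eq_mul, mul_comm]
      _ ≤ _ := by
          apply mul_le_mul_of_nonneg_right _ (by positivity)
          exact Real.rpow_le_rpow_of_exponent_le (by norm_num) (by linarith)

theorem loss_r {p D r : ℝ} (hp : 0 ≤ p) (hD : 0 < D) (h1 : D ≤ r) (h2 : r ≤ 2) :
    r ^ (p - ((d:ℝ) + 1)) ≤ 2 ^ p * loss d p D := by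
  have hr : 0 < r := by linarith
  have hd : (0:ℝ) ≤ d := Nat.cast_nonneg d
  unfold loss
  rcases le_total ((d:ℝ) + 1) p with h | h
  · rw [max_eq_left (by linarith), neg_zero, Real.rpow_zero, mul_one]
    calc r ^ (p - ((d:ℝ) + 1)) ≤ 2 ^ (p - ((d:ℝ) + 1)) :=
          Real.rpow_le_rpow hr.le h2 (by linarith)
      _ ≤ _ := Real.rpow_le_rpow_of_exponent_le (by norm_num) (by linarith)
  · rw [max_eq_right (by linarith)]
    have e1 : p - ((d:ℝ) + 1) = -((d:ℝ) + 1 - p) := by ring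
    rw [e1]
    calc r ^ (-((d:ℝ) + 1 - p)) ≤ D ^ (-((d:ℝ) + 1 - p)) :=
          Real.rpow_le_rpow_of_nonpos hD h1 (by linarith)
      _ = 1 * D ^ (-((d:ℝ) + 1 - p)) := (one_mul _).symm
      _ ≤ _ := by
          apply mul_le_mul_of_nonneg_right _ (by positivity)
          exact Real.one_le_rpow (by norm_num) hp

/-- One shell. -/
theorem shell {b : Vec d → Vec d} (hb : Measurable b) {τ : Vec d → ℝ} (hτ : Measurable τ)
    (hd : 1 ≤ d) {H : ℝ} (hH : 0 ≤ H) {W : Vec d → ℝ≥0∞} {κ i : ℕ}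
    (hWi : ∀ v, (((κ:ℝ≥0∞) + 1) ^ (k + 5))⁻¹ * (ENNReal.ofReal (((1/2:ℝ) ^ i) ^ (d - 1)) *
            Mu b τ H ((1/2:ℝ) ^ i) (rad κ) v) ≤ W v)
    {p : ℝ} (hp : 2 ≤ p) {F : Vec d × ℝ → ℝ≥0∞} (hF : Measurable F) {D : ℝ} (hD : 0 < D)
    (hiD : D / 2 ≤ (1/2:ℝ) ^ i) :
    ∫⁻ v in closedBall (0:Vec d) 1, (W v)⁻¹ *
      (∫⁻ t in Sh τ H v i, moll (rad κ) F (b v + t • v, t)) ^ p ≤
      ENNReal.ofReal ((2 * H + 4) ^ (p - 2) * 2 ^ ((d:ℝ) + 1) * ((κ:ℝ) + 1) ^ (k + 5) * loss d p D) *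
        ∫⁻ q, F q ^ p := by
  set lam : ℝ := (1/2:ℝ) ^ i with hlam
  have hl0 : 0 < lam := by positivity
  have hl1 : lam ≤ 1 := pow_le_one₀ (by norm_num) (by norm_num)
  set a : ℝ≥0∞ := (((κ:ℝ≥0∞) + 1) ^ (k + 5))⁻¹ with ha
  set c : ℝ≥0∞ := ENNReal.ofReal (lam ^ (d - 1)) with hc
  have hκ1 : ((κ:ℝ≥0∞)+1) = ENNReal.ofReal ((κ:ℝ)+1) := by
    rw [ENNReal.ofReal_add (by positivity) (by norm_num)]
    simp
  have hac : a * c = ENNReal.ofReal ((((κ:ℝ) + 1) ^ (k + 5))⁻¹ * lam ^ (d - 1)) := by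
    rw [ha, hc, hκ1, ← ENNReal.ofReal_pow (by positivity), ← ENNReal.ofReal_inv_of_pos (by positivity),
      ← ENNReal.ofReal_mul (by positivity)]
  have hacpos : 0 < (((κ:ℝ) + 1) ^ (k + 5))⁻¹ * lam ^ (d - 1) := by positivity
  have hac0 : a * c ≠ 0 := by
    rw [hac, Ne, ENNReal.ofReal_eq_zero, not_le]
    exact hacpos
  have hact : a * c ≠ ∞ := by rw [hac]; exact ENNReal.ofReal_ne_top
  set L : ℝ≥0∞ := ENNReal.ofReal ((2 * H + 4) * lam) with hL
  have hp2 : 0 ≤ p - 2 := by linarith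
  have hLt : L ^ (p - 2) ≠ ∞ := ENNReal.rpow_ne_top_of_nonneg hp2 ENNReal.ofReal_ne_top
  have hFp : Measurable (fun z => F z ^ (p/2)) := hF.pow_const _
  have hsch := schur' (rad_pos κ) hb hτ H lam (ω := fun v => a * c * (W v)⁻¹) (by
    intro v _
    calc a * c * (W v)⁻¹ * Mu b τ H lam (rad κ) v = (a * (c * Mu b τ H lam (rad κ) v)) * (W v)⁻¹ := by
          ring
      _ ≤ W v * (W v)⁻¹ := by
          gcongr
          exact hWi v
      _ ≤ 1 := ENNReal.mul_inv_le_one _) hFp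
  have hS : ∫⁻ q : Vec d × ℝ, (F q ^ (p/2)) ^ 2 = ∫⁻ q, F q ^ p := by
    refine lintegral_congr fun q => ?_
    rw [← ENNReal.rpow_natCast, ← ENNReal.rpow_mul]
    have : p / 2 * ((2:ℕ):ℝ) = p := by push_cast; ring
    rw [this]
  rw [hS] at hsch
  calc ∫⁻ v in closedBall (0:Vec d) 1, (W v)⁻¹ *
      (∫⁻ t in Sh τ H v i, moll (rad κ) F (b v + t • v, t)) ^ p
      ≤ ∫⁻ v in closedBall (0:Vec d) 1, (L ^ (p - 2) * (a * c)⁻¹) * (a * c * (W v)⁻¹ *
        (∫⁻ t in Tt τ H lam v, moll (rad κ) (fun z => F z ^ (p/2)) (b v + t • v, t)) ^ 2) := by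
        apply lintegral_mono
        intro v
        have h1 := pow_two_of hp (rad_pos κ) (b := b) hF v (T := Tt τ H lam v) (T' := Sh τ H v i)
          inter_subset_left (vol_Sh τ hH v i)
        calc (W v)⁻¹ * (∫⁻ t in Sh τ H v i, moll (rad κ) F (b v + t • v, t)) ^ p
            ≤ (W v)⁻¹ * (L ^ (p - 2) * (∫⁻ t in Tt τ H lam v,
              moll (rad κ) (fun z => F z ^ (p/2)) (b v + t • v, t)) ^ 2) := by gcongr
          _ = L ^ (p - 2) * 1 * ((W v)⁻¹ * (∫⁻ t in Tt τ H lam v,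
              moll (rad κ) (fun z => F z ^ (p/2)) (b v + t • v, t)) ^ 2) := by ring
          _ = L ^ (p - 2) * ((a * c)⁻¹ * (a * c)) * ((W v)⁻¹ * (∫⁻ t in Tt τ H lam v,
              moll (rad κ) (fun z => F z ^ (p/2)) (b v + t • v, t)) ^ 2) := by
              rw [ENNReal.inv_mul_cancel hac0 hact]
          _ = _ := by ring
    _ = (L ^ (p - 2) * (a * c)⁻¹) * ∫⁻ v in closedBall (0:Vec d) 1, (a * c * (W v)⁻¹ *
        (∫⁻ t in Tt τ H lam v, moll (rad κ) (fun z => F z ^ (p/2)) (b v + t • v, t)) ^ 2) :=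
        lintegral_const_mul' _ _ (ENNReal.mul_ne_top hLt (ENNReal.inv_ne_top.2 hac0))
    _ ≤ (L ^ (p - 2) * (a * c)⁻¹) * ∫⁻ q, F q ^ p := by gcongr
    _ ≤ _ := by
        gcongr
        rw [hac, hL, ENNReal.ofReal_rpow_of_pos (by positivity),
          ← ENNReal.ofReal_inv_of_pos hacpos, ← ENNReal.ofReal_mul (by positivity)]
        apply ENNReal.ofReal_le_ofReal
        have h2 := loss_i (d := d) (by linarith : 0 ≤ p) hD hiD hl1
        have h3 : lam ^ (p - 2) * (lam ^ (d - 1))⁻¹ = lam ^ (p - ((d:ℝ) + 1)) := by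
          rw [← Real.rpow_natCast, ← Real.rpow_neg hl0.le, ← Real.rpow_add hl0]
          congr 1
          rw [Nat.cast_sub hd]
          push_cast
          ring
        calc ((2 * H + 4) * lam) ^ (p - 2) * ((((κ:ℝ) + 1) ^ (k + 5))⁻¹ * lam ^ (d - 1))⁻¹
            = (2 * H + 4) ^ (p - 2) * ((κ:ℝ) + 1) ^ (k + 5) *
              (lam ^ (p - 2) * (lam ^ (d - 1))⁻¹) := by
              rw [Real.mul_rpow (by positivity) hl0.le, mul_inv, inv_inv]
              ring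
          _ ≤ (2 * H + 4) ^ (p - 2) * ((κ:ℝ) + 1) ^ (k + 5) *
              (2 ^ ((d:ℝ) + 1) * loss d p D) := by
              rw [h3]
              gcongr
          _ = _ := by ring

/-- The part of the lines near the vertices. -/
theorem nearpart {b : Vec d → Vec d} {τ : Vec d → ℝ} {W : Vec d → ℝ≥0∞}
    (hW1 : ∀ v, 1 ≤ W v) {κ : ℕ} {p : ℝ} (hp : 2 ≤ p) {F : Vec d × ℝ → ℝ≥0∞} (hF : Measurable F)
    {D : ℝ} (hD : 0 < D) (hDr : D ≤ rad κ) :
    ∫⁻ v in closedBall (0:Vec d) 1, (W v)⁻¹ *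
      (∫⁻ t in {t | |t - τ v| < (1/2:ℝ) ^ (κ + 1)}, moll (rad κ) F (b v + t • v, t)) ^ p ≤
      ENNReal.ofReal (2 ^ p * loss d p D) * ∫⁻ q, F q ^ p := by
  have hr := rad_pos κ
  have hr2 : rad κ ≤ 2 := by
    unfold rad
    have : (1/2:ℝ) ^ κ ≤ 1 := pow_le_one₀ (by norm_num) (by norm_num)
    linarith
  have hlr : 2 * (1/2:ℝ) ^ (κ + 1) ≤ rad κ := by
    unfold rad
    rw [pow_succ]
    have : (0:ℝ) < (1/2:ℝ) ^ κ := by positivity
    linarith
  have hp1 : 0 ≤ p - 1 := by linarith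
  set V := volume (closedBall (0:Vec d) (rad κ)) with hV
  have hV0 : V ≠ 0 := (vol_pos hr).ne'
  set ω := volume (closedBall (0:Vec d) 1) with hω
  have hω0 : ω ≠ 0 := (vol_pos one_pos).ne'
  have hωt : ω ≠ ∞ := (vol_lt_top).ne
  calc ∫⁻ v in closedBall (0:Vec d) 1, (W v)⁻¹ *
      (∫⁻ t in {t | |t - τ v| < (1/2:ℝ) ^ (κ + 1)}, moll (rad κ) F (b v + t • v, t)) ^ p
      ≤ ∫⁻ _v in closedBall (0:Vec d) 1, 1 * (ENNReal.ofReal (rad κ) ^ (p - 1) *
          (V⁻¹ * ∫⁻ q, F q ^ p)) := by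
        apply lintegral_mono
        intro v
        simp only
        gcongr
        · exact ENNReal.inv_le_one.2 (hW1 v)
        · exact pow_near (by linarith) hr hF v
            ((vol_Z τ v _).trans (ENNReal.ofReal_le_ofReal hlr))
    _ = ENNReal.ofReal (rad κ) ^ (p - 1) * (V⁻¹ * ∫⁻ q, F q ^ p) * ω := by
        rw [lintegral_const, Measure.restrict_apply_univ, one_mul]
    _ = ENNReal.ofReal (rad κ) ^ (p - 1) * (ENNReal.ofReal (rad κ) ^ d)⁻¹ *
          (ω⁻¹ * ω) * ∫⁻ q, F q ^ p := by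
        have h1 : (ENNReal.ofReal (rad κ)) ^ d ≠ 0 := by
          apply pow_ne_zero
          simpa using hr
        have h2 : (ENNReal.ofReal (rad κ)) ^ d ≠ ∞ := ENNReal.pow_ne_top ENNReal.ofReal_ne_top
        rw [hV, vol_ball_scale hr, ENNReal.mul_inv (Or.inl h1) (Or.inl h2)]
        ring
    _ = ENNReal.ofReal ((rad κ) ^ (p - ((d:ℝ) + 1))) * ∫⁻ q, F q ^ p := by
        rw [ENNReal.inv_mul_cancel hω0 hωt, mul_one, ENNReal.ofReal_rpow_of_pos hr,
          ← ENNReal.ofReal_pow hr.le, ← ENNReal.ofReal_inv_of_pos (by positivity),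
          ← ENNReal.ofReal_mul (by positivity)]
        congr 2
        rw [← Real.rpow_natCast, ← Real.rpow_neg hr.le, ← Real.rpow_add hr]
        congr 1
        ring
    _ ≤ _ := by
        gcongr
        exact loss_r (by linarith) hD hDr hr2

end Pool.Agent.W2helper94.KC
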