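import Pool.Agent.W2helper94.KC.O

set_option autoImplicit false

/-!
The weighted maximal estimate for concurrent families.
-/

open MeasureTheory Set Filter Topology ENNReal NNReal Metric

namespace Pool.Agent.W2helper94.KC

open Pool.Agent.H803R2.Kak Pool.Agent.H803R2.KakFTO Pool.Agent.H805R3.Kk
open Pool.Agent.H805R3.Kk.Gen (ind JJ rad rad_pos measurable_ind_comp ind_of_le ind_of_not JJ_def'
  schur_slice cauchy one_le_JJ JJ_ne_top lintegral_rpow_le1 moll_rpow_le1 sum_ne_top moll_compare)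

variable {k d : ℕ} {m : Fin (k + 1) → ℕ}

theorem meas_setint {S : Vec d → Set ℝ} (hS : MeasurableSet {q : Vec d × ℝ | q.2 ∈ S q.1})
    {G : Vec d × ℝ → ℝ≥0∞} (hG : Measurable G) : Measurable (fun v => ∫⁻ t in S v, G (v, t)) := by
  have h : ∀ v, ∫⁻ t in S v, G (v, t) = ∫⁻ t, ({q : Vec d × ℝ | q.2 ∈ S q.1}.indicator G) (v, t) := by
    intro v
    have hSv : MeasurableSet (S v) := measurable_prodMk_left hS
    rw [← lintegral_indicator hSv]
    rfl
  simp only [h]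
  exact (hG.indicator hS).lintegral_prod_right'

theorem lint_biUnion_le (s : Finset ℕ) (S : ℕ → Set ℝ) (G : ℝ → ℝ≥0∞) :
    ∫⁻ t in ⋃ i ∈ s, S i, G t ≤ ∑ i ∈ s, ∫⁻ t in S i, G t := by
  classical
  induction s using Finset.induction_on with
  | empty => simp
  | insert a s ha ih =>
    rw [Finset.set_biUnion_insert, Finset.sum_insert ha]
    exact (lintegral_union_le _ _ _).trans (by gcongr)

theorem ofReal_comb {P Q R S A T : ℝ} (hP : 0 ≤ P) (hQ : 0 ≤ Q) (hR : 0 ≤ R) (hS : 0 ≤ S)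
    (hA : 0 ≤ A) (hT : 0 ≤ T) : ENNReal.ofReal (P * Q * (R * (S * A) + T)) =
    ENNReal.ofReal P * ENNReal.ofReal Q * (ENNReal.ofReal R *
      (ENNReal.ofReal S * ENNReal.ofReal A) + ENNReal.ofReal T) := by
  rw [ENNReal.ofReal_mul (mul_nonneg hP hQ), ENNReal.ofReal_mul hP,
    ENNReal.ofReal_add (mul_nonneg hR (mul_nonneg hS hA)) hT, ENNReal.ofReal_mul hR,
    ENNReal.ofReal_mul hS]

/-- The constant. -/
noncomputable def cst (d k : ℕ) (H p : ℝ) : ℝ :=
  (4 * 16 ^ d) ^ p * 2 ^ (p - 1) * ((2 * H + 4) ^ (p - 2) * 2 ^ ((d:ℝ) + 1) + 2 ^ p) *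
    4 ^ (p + ((k:ℝ) + 5))

/-- The admissible heights. -/
def TT (τ : Vec d → ℝ) (H ρ : ℝ) : Set ℝ := {t | |t| ≤ H ∧ ∀ v : Vec d, ‖v‖ ≤ 1 → ρ ≤ |t - τ v|}

theorem measurableSet_TT (τ : Vec d → ℝ) (H ρ : ℝ) : MeasurableSet (TT τ H ρ) := by
  apply IsClosed.measurableSet
  have : TT τ H ρ = {t | |t| ≤ H} ∩ ⋂ v : Vec d, ⋂ _ : ‖v‖ ≤ 1, {t | ρ ≤ |t - τ v|} := by
    ext t
    simp [TT]
  rw [this]
  refine (isClosed_le (by fun_prop) (by fun_prop)).inter ?_
  refine isClosed_iInter fun v => isClosed_iInter fun _ => ?_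
  exact isClosed_le (by fun_prop) (by fun_prop)

theorem main_meas {b : Vec d → Vec d} (hb : Measurable b) {τ : Vec d → ℝ} (hτ : Measurable τ)
    (hd : 1 ≤ d) {H : ℝ} (hH : 0 ≤ H) {W : Vec d → ℝ≥0∞} (hW : Measurable W) (hW1 : ∀ v, 1 ≤ W v)
    (hWi : ∀ (κ i : ℕ), i < κ + 2 → ∀ v, (((κ:ℝ≥0∞) + 1) ^ (k + 5))⁻¹ *
          (ENNReal.ofReal (((1/2:ℝ) ^ i) ^ (d - 1)) *
            Mu b τ H ((1/2:ℝ) ^ i) (rad κ) v) ≤ W v)
    {p δ ρ : ℝ} (hp : 2 ≤ p) (hδ : 0 < δ) (hδ1 : δ < 1) (hρ1 : ρ ≤ 1)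
    {f : Space d → ℝ} (hf : Measurable f)
    (hfT : ∀ (y : Vec d) (t : ℝ), t ∉ TT τ H ρ → f (WithLp.toLp 2 (y, t)) = 0) :
    ∫⁻ v in closedBall (0:Vec d) 1, (W v)⁻¹ * lineMax δ b f v ^ p ≤
      ENNReal.ofReal (cst d k H p * (1 + Real.log (1 / δ)) ^ (p + ((k:ℝ) + 5)) *
        loss d p (max ρ δ)) * ∫⁻ y, ‖f y‖ₑ ^ p := by
  obtain ⟨κ, hk1, hk2⟩ := exists_nat_pow_near_of_lt_one hδ hδ1.le (by norm_num : (0:ℝ) < 1/2)
    (by norm_num)
  have hp0 : 0 < p := by linarith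
  have hp1 : 0 ≤ p - 1 := by linarith
  have hr1 : 2 * δ ≤ rad κ := by unfold rad; linarith
  have hr2 : rad κ ≤ 4 * δ := by
    unfold rad
    rw [pow_succ] at hk1
    linarith
  set D : ℝ := max ρ δ with hDdef
  have hD : 0 < D := lt_max_of_lt_right hδ
  have hloss := loss_pos (d := d) (p := p) hD
  have hmp := WithLp.volume_preserving_toLp (Vec d) ℝ
  set F : Vec d × ℝ → ℝ≥0∞ := fun q => ‖f (WithLp.toLp 2 q)‖ₑ with hFdef
  have hFm : Measurable F := (hf.comp hmp.measurable).enorm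
  have hFT : ∀ y t, t ∉ TT τ H ρ → F (y, t) = 0 := fun y t ht => by simp [hFdef, hfT y t ht]
  have hIF : ∫⁻ q, F q ^ p = ∫⁻ y, ‖f y‖ₑ ^ p :=
    hmp.lintegral_comp (f := fun y : Space d => ‖f y‖ₑ ^ p) (hf.enorm.pow_const _)
  rw [← hIF]
  set IF : ℝ≥0∞ := ∫⁻ q, F q ^ p with hIFdef
  set X : ℕ → Vec d → ℝ≥0∞ := fun i v =>
    ∫⁻ t in Sh τ H v i, moll (rad κ) F (b v + t • v, t) with hX
  set Z : Vec d → ℝ≥0∞ := fun v =>
    ∫⁻ t in {t | |t - τ v| < (1/2:ℝ) ^ (κ + 1)}, moll (rad κ) F (b v + t • v, t) with hZ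
  -- measurability
  have hGm : Measurable (fun q : Vec d × ℝ => moll (rad κ) F (b q.1 + q.2 • q.1, q.2)) :=
    (measurable_moll hFm).comp
      (((hb.comp measurable_fst).add (measurable_snd.smul measurable_fst)).prodMk measurable_snd)
  have hdist : Measurable (fun q : Vec d × ℝ => |q.2 - τ q.1|) :=
    (measurable_snd.sub (hτ.comp measurable_fst)).abs
  have hXm : ∀ i, Measurable (X i) := by
    intro i
    refine meas_setint (S := fun v => Sh τ H v i)
      (G := fun q : Vec d × ℝ => moll (rad κ) F (b q.1 + q.2 • q.1, q.2)) ?_ hGm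
    have e1 : {q : Vec d × ℝ | q.2 ∈ Sh τ H q.1 i} =
        ({q : Vec d × ℝ | q.2 ∈ Icc (-H) H} ∩ {q : Vec d × ℝ | (1/2:ℝ) ^ i ≤ |q.2 - τ q.1|}) ∩
        ({_q : Vec d × ℝ | i = 0} ∪ {q : Vec d × ℝ | |q.2 - τ q.1| ≤ 2 * (1/2:ℝ) ^ i}) := by
      ext q
      rfl
    rw [e1]
    refine ((measurable_snd measurableSet_Icc).inter
      (measurableSet_le measurable_const hdist)).inter ?_
    exact (MeasurableSet.const _).union (measurableSet_le hdist measurable_const)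
  have hZm : Measurable Z := by
    refine meas_setint (S := fun v => {t | |t - τ v| < (1/2:ℝ) ^ (κ + 1)})
      (G := fun q : Vec d × ℝ => moll (rad κ) F (b q.1 + q.2 • q.1, q.2)) ?_ hGm
    exact measurableSet_lt hdist measurable_const
  -- vanishing
  have hvan : ∀ v ∈ closedBall (0:Vec d) 1, ∀ S : Set ℝ, MeasurableSet S →
      (∀ t ∈ S, |t - τ v| < ρ) → ∫⁻ t in S, moll (rad κ) F (b v + t • v, t) = 0 := by
    intro v hv S hSm hS
    have hv1 : ‖v‖ ≤ 1 := by simpa using hv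
    have h1 : ∀ t ∈ S, moll (rad κ) F (b v + t • v, t) = 0 := by
      intro t ht
      apply moll_zero'
      intro y
      apply hFT
      intro h2
      exact absurd (h2.2 v hv1) (not_le.2 (hS t ht))
    rw [setLIntegral_congr_fun hSm h1, lintegral_zero]
  have hSv : ∀ (i : ℕ) (v : Vec d), MeasurableSet (Sh τ H v i) := by
    intro i v
    refine (measurableSet_Tt H _ v).inter ?_
    exact (MeasurableSet.const _).union
      (measurableSet_le (measurable_id.sub_const _).abs measurable_const)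
  have hZv : ∀ v : Vec d, MeasurableSet {t : ℝ | |t - τ v| < (1/2:ℝ) ^ (κ + 1)} := fun v =>
    measurableSet_lt (measurable_id.sub_const _).abs measurable_const
  -- the pieces
  set A : ℝ := (2 * H + 4) ^ (p - 2) * 2 ^ ((d:ℝ) + 1) * ((κ:ℝ) + 1) ^ (k + 5) * loss d p D with hA
  have hA0 : 0 ≤ A := by positivity
  have hXi : ∀ i ∈ Finset.range (κ + 2), ∫⁻ v in closedBall (0:Vec d) 1, (W v)⁻¹ * X i v ^ p ≤
      ENNReal.ofReal A * IF := by
    intro i hi
    have hi' : i < κ + 2 := Finset.mem_range.1 hi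
    by_cases hiD : D / 2 ≤ (1/2:ℝ) ^ i
    · exact shell hb hτ hd hH (hWi κ i hi') hp hFm hD hiD
    · push Not at hiD
      have h1 : (1/2:ℝ) ^ (κ + 1) ≤ (1/2:ℝ) ^ i :=
        pow_le_pow_of_le_one (by norm_num) (by norm_num) (by omega)
      have h2 : δ ≤ 2 * (1/2:ℝ) ^ i := by
        rw [pow_succ] at h1
        linarith
      have h3 : D = ρ := by
        rcases max_choice ρ δ with h | h
        · exact h
        · exfalso
          rw [hDdef, h] at hiD
          linarith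
      have h4 : i ≠ 0 := by
        rintro rfl
        rw [pow_zero, h3] at hiD
        linarith
      have h5 : ∀ v ∈ closedBall (0:Vec d) 1, (W v)⁻¹ * X i v ^ p = 0 := by
        intro v hv
        have h6 : X i v = 0 := by
          apply hvan v hv _ (hSv i v)
          rintro t ⟨_, ht | ht⟩
          · exact absurd ht h4
          · rw [h3] at hiD
            linarith
        rw [h6, ENNReal.zero_rpow_of_pos hp0, mul_zero]
      rw [setLIntegral_congr_fun measurableSet_closedBall h5, lintegral_zero]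
      exact zero_le
  have hZi : ∫⁻ v in closedBall (0:Vec d) 1, (W v)⁻¹ * Z v ^ p ≤
      ENNReal.ofReal (2 ^ p * loss d p D) * IF := by
    by_cases hDr : D ≤ rad κ
    · exact nearpart hW1 hp hFm hD hDr
    · push Not at hDr
      have h3 : D = ρ := by
        rcases max_choice ρ δ with h | h
        · exact h
        · exfalso
          rw [hDdef, h] at hDr
          linarith
      have h5 : ∀ v ∈ closedBall (0:Vec d) 1, (W v)⁻¹ * Z v ^ p = 0 := by
        intro v hv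
        have h6 : Z v = 0 := by
          apply hvan v hv _ (hZv v)
          intro t ht
          have h7 : |t - τ v| < (1/2:ℝ) ^ (κ + 1) := ht
          have h8 : (1/2:ℝ) ^ (κ + 1) ≤ rad κ := by
            unfold rad
            rw [pow_succ]
            have : (0:ℝ) < (1/2:ℝ) ^ κ := by positivity
            linarith
          rw [h3] at hDr
          linarith
        rw [h6, ENNReal.zero_rpow_of_pos hp0, mul_zero]
      rw [setLIntegral_congr_fun measurableSet_closedBall h5, lintegral_zero]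
      exact zero_le
  -- pointwise
  set c1 : ℝ≥0∞ := (4 * 16 ^ d : ℝ≥0∞) ^ p with hc1
  set c2 : ℝ≥0∞ := (2:ℝ≥0∞) ^ (p - 1) with hc2
  set c3 : ℝ≥0∞ := ((κ + 2 : ℕ) : ℝ≥0∞) ^ (p - 1) with hc3
  have hpt : ∀ v ∈ closedBall (0:Vec d) 1, (W v)⁻¹ * lineMax δ b f v ^ p ≤
      c1 * c2 * (c3 * ∑ i ∈ Finset.range (κ + 2), (W v)⁻¹ * X i v ^ p + (W v)⁻¹ * Z v ^ p) := by
    intro v hv
    have hv1 : ‖v‖ ≤ 1 := by simpa using hv
    have h1 : lineMax δ b f v ≤ (4 * 16 ^ d) * (∑ i ∈ Finset.range (κ + 2), X i v + Z v) := by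
      refine (lineMax_le' hδ hδ1 hr1 hr2 b hv1 hf (H := H) (fun y t ht => ?_)).trans ?_
      · apply hfT
        intro h2
        exact absurd h2.1 (not_le.2 ht)
      · gcongr
        refine (lintegral_mono_set (shell_cover τ H v κ)).trans ?_
        refine (lintegral_union_le _ _ _).trans ?_
        gcongr
        exact lint_biUnion_le _ _ _
    calc (W v)⁻¹ * lineMax δ b f v ^ p
        ≤ (W v)⁻¹ * ((4 * 16 ^ d) * (∑ i ∈ Finset.range (κ + 2), X i v + Z v)) ^ p := by gcongr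
      _ = (W v)⁻¹ * (c1 * (∑ i ∈ Finset.range (κ + 2), X i v + Z v) ^ p) := by
          rw [ENNReal.mul_rpow_of_nonneg _ _ hp0.le]
      _ ≤ (W v)⁻¹ * (c1 * (c2 * ((∑ i ∈ Finset.range (κ + 2), X i v) ^ p + Z v ^ p))) := by
          gcongr
          exact ENNReal.rpow_add_le_mul_rpow_add_rpow _ _ (by linarith)
      _ ≤ (W v)⁻¹ * (c1 * (c2 * (c3 * ∑ i ∈ Finset.range (κ + 2), X i v ^ p + Z v ^ p))) := by
          gcongr
          have h2 := ENNReal.rpow_sum_le_const_mul_sum_rpow (s := Finset.range (κ + 2))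
            (f := fun i => X i v) (p := p) (by linarith)
          rwa [Finset.card_range] at h2
      _ = _ := by
          rw [← Finset.mul_sum]
          ring
  have hWm : Measurable (fun v => (W v)⁻¹) := hW.inv
  have hc1t : c1 ≠ ∞ := ENNReal.rpow_ne_top_of_nonneg hp0.le
    (ENNReal.mul_ne_top (by simp) (ENNReal.pow_ne_top (by simp)))
  have hc2t : c2 ≠ ∞ := ENNReal.rpow_ne_top_of_nonneg hp1 (by simp)
  have hc3t : c3 ≠ ∞ := ENNReal.rpow_ne_top_of_nonneg hp1 (by simp)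
  have hsum : ∫⁻ v in closedBall (0:Vec d) 1, (W v)⁻¹ * lineMax δ b f v ^ p ≤
      c1 * c2 * (c3 * (((κ + 2 : ℕ) : ℝ≥0∞) * (ENNReal.ofReal A * IF)) +
        ENNReal.ofReal (2 ^ p * loss d p D) * IF) := by
    calc ∫⁻ v in closedBall (0:Vec d) 1, (W v)⁻¹ * lineMax δ b f v ^ p
        ≤ ∫⁻ v in closedBall (0:Vec d) 1, c1 * c2 * (c3 * ∑ i ∈ Finset.range (κ + 2),
            (W v)⁻¹ * X i v ^ p + (W v)⁻¹ * Z v ^ p) :=
          setLIntegral_mono' measurableSet_closedBall hpt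
      _ = c1 * c2 * (c3 * ∑ i ∈ Finset.range (κ + 2), (∫⁻ v in closedBall (0:Vec d) 1,
            (W v)⁻¹ * X i v ^ p) + ∫⁻ v in closedBall (0:Vec d) 1, (W v)⁻¹ * Z v ^ p) := by
          rw [lintegral_const_mul' _ _ (ENNReal.mul_ne_top hc1t hc2t), lintegral_add_left,
            lintegral_const_mul' _ _ hc3t, lintegral_finsetSum]
          · intro i _
            exact hWm.mul ((hXm i).pow_const p)
          · refine Measurable.const_mul ?_ _
            exact Finset.measurable_sum _ (fun i _ => hWm.mul ((hXm i).pow_const p))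
      _ ≤ c1 * c2 * (c3 * ∑ _i ∈ Finset.range (κ + 2), (ENNReal.ofReal A * IF) +
            ENNReal.ofReal (2 ^ p * loss d p D) * IF) := by
          gcongr with i hi
          exact hXi i hi
      _ = _ := by
          rw [Finset.sum_const, Finset.card_range, nsmul_eq_mul]
  refine hsum.trans ?_
  -- constants
  have hlog0 : 0 ≤ Real.log (1 / δ) := Real.log_nonneg (by rw [le_div_iff₀ hδ]; linarith)
  set Lam : ℝ := 1 + Real.log (1 / δ) with hLam
  have hLam1 : 1 ≤ Lam := by linarith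
  have hklog : (κ:ℝ) + 2 ≤ 4 * Lam := by
    have h1 : (2:ℝ)^κ ≤ 1/δ := by
      rw [le_div_iff₀ hδ]
      have : δ ≤ ((2:ℝ)^κ)⁻¹ := by
        rw [← inv_pow]; simpa [one_div] using hk2
      calc (2:ℝ)^κ * δ ≤ 2^κ * ((2:ℝ)^κ)⁻¹ := by gcongr
        _ = 1 := mul_inv_cancel₀ (by positivity)
    have h2 := Real.log_le_log (by positivity) h1
    rw [Real.log_pow] at h2
    have h3 := Real.log_two_gt_d9
    have h4 : (κ:ℝ) * (1/2) ≤ κ * Real.log 2 := by
      apply mul_le_mul_of_nonneg_left _ (Nat.cast_nonneg κ)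
      linarith
    rw [hLam]
    linarith
  have hκ2 : ((κ + 2 : ℕ) : ℝ≥0∞) = ENNReal.ofReal ((κ:ℝ) + 2) := by
    rw [← ENNReal.ofReal_natCast]
    push_cast
    rfl
  have e1 : c1 = ENNReal.ofReal ((4 * 16 ^ d) ^ p) := by
    rw [hc1, ← ENNReal.ofReal_rpow_of_pos (by positivity), ENNReal.ofReal_mul (by norm_num),
      ENNReal.ofReal_pow (by norm_num)]
    simp
  have e2 : c2 = ENNReal.ofReal (2 ^ (p - 1)) := by
    rw [hc2, ← ENNReal.ofReal_rpow_of_pos (by norm_num)]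
    simp
  have e3 : c3 = ENNReal.ofReal (((κ:ℝ) + 2) ^ (p - 1)) := by
    rw [hc3, hκ2, ENNReal.ofReal_rpow_of_pos (by positivity)]
  have e4 : c1 * c2 * (c3 * (((κ + 2 : ℕ) : ℝ≥0∞) * (ENNReal.ofReal A * IF)) +
        ENNReal.ofReal (2 ^ p * loss d p D) * IF) =
      ENNReal.ofReal ((4 * 16 ^ d) ^ p * 2 ^ (p - 1) * (((κ:ℝ) + 2) ^ (p - 1) * (((κ:ℝ) + 2) * A) +
        2 ^ p * loss d p D)) * IF := by
    rw [ofReal_comb (by positivity) (by positivity) (by positivity) (by positivity) hA0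
      (by positivity), e1, e2, e3, hκ2]
    ring
  rw [e4]
  refine mul_le_mul' (ENNReal.ofReal_le_ofReal ?_) le_rfl
  have hκ0 : (0:ℝ) ≤ κ := Nat.cast_nonneg κ
  have h1 : ((κ:ℝ) + 2) ^ (p - 1) * (((κ:ℝ) + 2) * A) ≤
      (2 * H + 4) ^ (p - 2) * 2 ^ ((d:ℝ) + 1) * (4 ^ (p + ((k:ℝ) + 5)) * Lam ^ (p + ((k:ℝ) + 5))) *
        loss d p D := by
    have h2 : ((κ:ℝ) + 2) ^ (p - 1) * ((κ:ℝ) + 2) * ((κ:ℝ) + 1) ^ (k + 5) ≤
        (4 * Lam) ^ (p + ((k:ℝ) + 5)) := by
      calc ((κ:ℝ) + 2) ^ (p - 1) * ((κ:ℝ) + 2) * ((κ:ℝ) + 1) ^ (k + 5)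
          ≤ ((κ:ℝ) + 2) ^ (p - 1) * ((κ:ℝ) + 2) * ((κ:ℝ) + 2) ^ (k + 5) := by
            gcongr
            norm_num
        _ = ((κ:ℝ) + 2) ^ (p + ((k:ℝ) + 5)) := by
            have h3 : (0:ℝ) < (κ:ℝ) + 2 := by positivity
            rw [← Real.rpow_natCast ((κ:ℝ) + 2) (k + 5)]
            nth_rw 2 [← Real.rpow_one ((κ:ℝ) + 2)]
            rw [← Real.rpow_add h3, ← Real.rpow_add h3]
            congr 1
            push_cast
            ring
        _ ≤ _ := Real.rpow_le_rpow (by positivity) hklog (by positivity)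
    rw [Real.mul_rpow (by norm_num) (by positivity)] at h2
    calc ((κ:ℝ) + 2) ^ (p - 1) * (((κ:ℝ) + 2) * A)
        = (2 * H + 4) ^ (p - 2) * 2 ^ ((d:ℝ) + 1) *
          (((κ:ℝ) + 2) ^ (p - 1) * ((κ:ℝ) + 2) * ((κ:ℝ) + 1) ^ (k + 5)) * loss d p D := by
          rw [hA]; ring
      _ ≤ _ := by gcongr
  have h5 : 2 ^ p * loss d p D ≤ 2 ^ p * (4 ^ (p + ((k:ℝ) + 5)) * Lam ^ (p + ((k:ℝ) + 5))) *
      loss d p D := by
    have h6 : 1 ≤ (4:ℝ) ^ (p + ((k:ℝ) + 5)) * Lam ^ (p + ((k:ℝ) + 5)) := by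
      apply one_le_mul_of_one_le_of_one_le
      · exact Real.one_le_rpow (by norm_num) (by positivity)
      · exact Real.one_le_rpow hLam1 (by positivity)
    calc 2 ^ p * loss d p D = 2 ^ p * 1 * loss d p D := by ring
      _ ≤ _ := by gcongr
  calc (4 * 16 ^ d) ^ p * 2 ^ (p - 1) * (((κ:ℝ) + 2) ^ (p - 1) * (((κ:ℝ) + 2) * A) +
        2 ^ p * loss d p D)
      ≤ (4 * 16 ^ d) ^ p * 2 ^ (p - 1) * ((2 * H + 4) ^ (p - 2) * 2 ^ ((d:ℝ) + 1) *
        (4 ^ (p + ((k:ℝ) + 5)) * Lam ^ (p + ((k:ℝ) + 5))) * loss d p D +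
        2 ^ p * (4 ^ (p + ((k:ℝ) + 5)) * Lam ^ (p + ((k:ℝ) + 5))) * loss d p D) := by gcongr
    _ = _ := by
        unfold cst
        ring

end Pool.Agent.W2helper94.KC
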