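import Mathlib

set_option autoImplicit false

/-!
Polar coordinates; the surface measure of caps and bands.
-/

open MeasureTheory Set Metric
open scoped ENNReal NNReal

namespace Pool.Agent.W2helper94.KC

/-- Euclidean space. -/
abbrev E (m : ℕ) : Type := EuclideanSpace ℝ (Fin m)

/-- Surface measure of the unit sphere. -/
noncomputable def sg (m : ℕ) : Measure (sphere (0 : E m) 1) := (volume : Measure (E m)).toSphere

instance (m : ℕ) : IsFiniteMeasure (sg m) := by unfold sg; infer_instance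

theorem polar (m : ℕ) (f : E (m + 1) → ℝ≥0∞) (hf : Measurable f) :
    ∫⁻ x, f x = ∫⁻ θ : sphere (0 : E (m + 1)) 1,
      (∫⁻ r in Ioi (0:ℝ), ENNReal.ofReal (r ^ m) * f (r • (θ : E (m + 1)))) ∂(sg (m + 1)) := by
  have hfr : Module.finrank ℝ (E (m + 1)) - 1 = m := by
    rw [finrank_euclideanSpace_fin]; rfl
  have h1 : ∫⁻ x, f x =
      ∫⁻ x : ({0}ᶜ : Set (E (m + 1))), f x ∂((volume : Measure (E (m + 1))).comap (↑)) := by
    rw [lintegral_subtype_comap (measurableSet_singleton (0 : E (m + 1))).compl,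
      restrict_compl_singleton]
  have hmp := (volume : Measure (E (m + 1))).measurePreserving_homeomorphUnitSphereProd
  rw [hfr] at hmp
  have h2 := hmp.lintegral_comp_emb (Homeomorph.measurableEmbedding _)
    (fun p => f ((p.2 : ℝ) • (p.1 : E (m + 1))))
  have h3 : ∀ x : ({0}ᶜ : Set (E (m + 1))), f (((homeomorphUnitSphereProd (E (m + 1)) x).2 : ℝ) •
      ((homeomorphUnitSphereProd (E (m + 1)) x).1 : E (m + 1))) = f x := by
    intro x
    have := (homeomorphUnitSphereProd (E (m + 1))).symm_apply_apply x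
    have h4 : ((homeomorphUnitSphereProd (E (m + 1)) x).2 : ℝ) •
        ((homeomorphUnitSphereProd (E (m + 1)) x).1 : E (m + 1)) = x := by
      conv_rhs => rw [← this]
      rfl
    simp only [h4]
  simp only [h3] at h2
  have hm2 : Measurable (fun p : sphere (0 : E (m + 1)) 1 × Ioi (0:ℝ) =>
      f ((p.2 : ℝ) • (p.1 : E (m + 1)))) := by
    apply hf.comp
    exact (measurable_subtype_coe.comp measurable_snd).smul
      (measurable_subtype_coe.comp measurable_fst)
  rw [h1, h2, lintegral_prod _ hm2.aemeasurable]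
  unfold sg
  refine lintegral_congr fun θ => ?_
  unfold Measure.volumeIoiPow
  have hm3 : Measurable (fun r : Ioi (0:ℝ) => f ((r : ℝ) • (θ : E (m + 1)))) :=
    hf.comp (measurable_subtype_coe.smul_const _)
  rw [lintegral_withDensity_eq_lintegral_mul _ (by fun_prop) hm3]
  rw [← lintegral_subtype_comap measurableSet_Ioi]
  rfl

/-- Thickening a set on the sphere. -/
theorem thicken (m : ℕ) {b : Set (sphere (0 : E (m + 1)) 1)} (hb : MeasurableSet b)
    {X : Set (E (m + 1))} (hX : MeasurableSet X) {ε : ℝ} (hε : 0 < ε) (hε1 : ε ≤ 1 / 2)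
    (h : ∀ φ ∈ b, ∀ r : ℝ, 1 - ε ≤ r → r ≤ 1 → r • (φ : E (m + 1)) ∈ X) :
    sg (m + 1) b * ENNReal.ofReal (ε / 2 ^ m) ≤ volume X := by
  have h0 : volume X = ∫⁻ x, X.indicator (fun _ => (1:ℝ≥0∞)) x := by
    rw [lintegral_indicator_const hX, one_mul]
  rw [h0, polar m _ (measurable_const.indicator hX)]
  have h1 : sg (m + 1) b * ENNReal.ofReal (ε / 2 ^ m) =
      ∫⁻ θ : sphere (0 : E (m + 1)) 1, b.indicator (fun _ => ENNReal.ofReal (ε / 2 ^ m)) θ
        ∂(sg (m + 1)) := by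
    rw [lintegral_indicator_const hb, mul_comm]
  rw [h1]
  apply lintegral_mono
  intro θ
  show b.indicator (fun _ => ENNReal.ofReal (ε / 2 ^ m)) θ ≤ _
  by_cases hθ : θ ∈ b
  · rw [indicator_of_mem hθ]
    calc ENNReal.ofReal (ε / 2 ^ m)
        = ∫⁻ _r in Icc (1 - ε) 1, ENNReal.ofReal (1 / 2 ^ m) := by
          rw [lintegral_const, Measure.restrict_apply_univ, Real.volume_Icc,
            ← ENNReal.ofReal_mul (by positivity)]
          congr 1
          ring
      _ ≤ ∫⁻ r in Icc (1 - ε) 1, ENNReal.ofReal (r ^ m) *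
            X.indicator (fun _ => (1:ℝ≥0∞)) (r • (θ : E (m + 1))) := by
          apply setLIntegral_mono' measurableSet_Icc
          intro r hr
          rw [indicator_of_mem (h θ hθ r hr.1 hr.2), mul_one]
          apply ENNReal.ofReal_le_ofReal
          have h2 : (1/2:ℝ) ≤ r := by linarith [hr.1]
          calc (1:ℝ) / 2 ^ m = (1/2) ^ m := by rw [div_pow, one_pow]
            _ ≤ r ^ m := by gcongr
      _ ≤ _ := by
          apply lintegral_mono_set
          intro r hr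
          rw [mem_Ioi]
          linarith [hr.1]
  · rw [indicator_of_notMem hθ]
    exact zero_le

theorem sg_univ_le (m : ℕ) : sg (m + 1) univ ≤ ENNReal.ofReal ((sg (m + 1)).real univ) := by
  rw [Measure.real, ENNReal.ofReal_toReal (measure_ne_top _ _)]

/-- Caps. -/
theorem cap (m : ℕ) : ∃ C : ℝ, 0 < C ∧ ∀ (c : E (m + 1)) (ε : ℝ), 0 < ε →
    sg (m + 1) {θ | ‖(θ : E (m + 1)) - c‖ ≤ ε} ≤ ENNReal.ofReal (C * ε ^ m) := by
  set ω : ℝ := (volume (closedBall (0 : E (m + 1)) 1)).toReal with hω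
  set A : ℝ := (sg (m + 1)).real univ with hA
  have hω0 : 0 ≤ ω := ENNReal.toReal_nonneg
  have hA0 : 0 ≤ A := measureReal_nonneg
  refine ⟨2 ^ m * A + 2 ^ m * 2 ^ (m + 1) * ω + 1, by positivity, fun c ε hε => ?_⟩
  rcases le_total ε (1/2) with h1 | h1
  · have hms : MeasurableSet {θ : sphere (0 : E (m + 1)) 1 | ‖(θ : E (m + 1)) - c‖ ≤ ε} := by
      have m1 : Measurable (fun w : sphere (0 : E (m + 1)) 1 => ‖(w : E (m + 1)) - c‖) := by fun_prop
      exact measurableSet_le m1 measurable_const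
    have h2 := thicken m hms (X := closedBall c (2 * ε)) measurableSet_closedBall hε h1 (by
      intro φ hφ r hr0 hr1
      have hφ1 : ‖(φ : E (m + 1))‖ = 1 := by simp
      have hφ2 : ‖(φ : E (m + 1)) - c‖ ≤ ε := hφ
      rw [mem_closedBall, dist_eq_norm]
      have e : r • (φ : E (m + 1)) - c = ((φ : E (m + 1)) - c) - (1 - r) • (φ : E (m + 1)) := by
        rw [sub_smul, one_smul]; abel
      rw [e]
      calc _ ≤ ‖(φ : E (m + 1)) - c‖ + ‖(1 - r) • (φ : E (m + 1))‖ := norm_sub_le _ _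
        _ ≤ ε + ε := by
            apply add_le_add hφ2
            rw [norm_smul, hφ1, mul_one, Real.norm_eq_abs, abs_of_nonneg (by linarith)]
            linarith
        _ = 2 * ε := by ring)
    have h3 : volume (closedBall c (2 * ε)) = ENNReal.ofReal ((2 * ε) ^ (m + 1) * ω) := by
      rw [Measure.addHaar_closedBall _ _ (by positivity), finrank_euclideanSpace_fin, hω,
        ENNReal.ofReal_mul (by positivity),
        ENNReal.ofReal_toReal (measure_closedBall_lt_top.ne), Measure.addHaar_unitClosedBall_eq_addHaar_unitBall]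
    rw [h3] at h2
    have h4 : ENNReal.ofReal (ε / 2 ^ m) ≠ 0 := by
      rw [Ne, ENNReal.ofReal_eq_zero, not_le]; positivity
    rw [← ENNReal.le_div_iff_mul_le (Or.inl h4) (Or.inl ENNReal.ofReal_ne_top),
      ← ENNReal.ofReal_div_of_pos (by positivity)] at h2
    refine h2.trans (ENNReal.ofReal_le_ofReal ?_)
    have e : (2 * ε) ^ (m + 1) * ω / (ε / 2 ^ m) = (2 ^ m * 2 ^ (m + 1) * ω) * ε ^ m := by
      field_simp
      ring
    rw [e]
    have : 0 ≤ 2 ^ m * A := by positivity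
    gcongr
    linarith
  · refine (measure_mono (subset_univ _)).trans ((sg_univ_le m).trans
      (ENNReal.ofReal_le_ofReal ?_))
    have h2 : (1:ℝ) ≤ 2 ^ m * ε ^ m := by
      rw [← mul_pow]
      exact one_le_pow₀ (by linarith)
    calc A ≤ A * (2 ^ m * ε ^ m) := le_mul_of_one_le_right hA0 h2
      _ = (2 ^ m * A) * ε ^ m := by ring
      _ ≤ _ := by
        gcongr
        have : 0 ≤ 2 ^ m * 2 ^ (m + 1) * ω := by positivity
        linarith

theorem pow_diff {x y : ℝ} (hy : 0 ≤ y) (hyx : y ≤ x) (hx : x ≤ 1) {m : ℕ} (hm : 2 ≤ m) :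
    x ^ m - y ^ m ≤ m * (x ^ 2 - y ^ 2) := by
  induction m, hm using Nat.le_induction with
  | base => push_cast; nlinarith
  | succ m hm ih =>
    have h0 : 0 ≤ x ^ 2 - y ^ 2 := by nlinarith
    have h1 : 0 ≤ x ^ m - y ^ m := sub_nonneg.2 (pow_le_pow_left₀ hy hyx m)
    have h2 : y ^ m ≤ y := by
      calc y ^ m ≤ y ^ 1 := pow_le_pow_of_le_one hy (hyx.trans hx) (by omega)
        _ = y := pow_one y
    have e : x ^ (m + 1) - y ^ (m + 1) = x * (x ^ m - y ^ m) + y ^ m * (x - y) := by ring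
    rw [e]
    push_cast
    have h3 : x * (x ^ m - y ^ m) ≤ m * (x ^ 2 - y ^ 2) := by nlinarith
    have h4 : y ^ m * (x - y) ≤ (x + y) * (x - y) := by
      apply mul_le_mul_of_nonneg_right _ (by linarith)
      linarith
    nlinarith

/-- Annuli. -/
theorem annulus {m : ℕ} (hm : 2 ≤ m) : ∃ C : ℝ, 0 < C ∧ ∀ (α β : ℝ), 0 ≤ β →
    volume {x : E m | α ≤ ‖x‖ ^ 2 ∧ ‖x‖ ^ 2 ≤ α + β ∧ ‖x‖ ≤ 1} ≤ ENNReal.ofReal (C * β) := by
  set ω : ℝ := (volume (closedBall (0 : E m) 1)).toReal with hω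
  have hω0 : 0 ≤ ω := ENNReal.toReal_nonneg
  refine ⟨m * ω + 1, by positivity, fun α β hβ => ?_⟩
  by_cases h1 : α + β < 0
  · have : {x : E m | α ≤ ‖x‖ ^ 2 ∧ ‖x‖ ^ 2 ≤ α + β ∧ ‖x‖ ≤ 1} = ∅ := by
      ext x
      simp only [mem_ofPred_eq, mem_empty_iff_false, iff_false, not_and]
      intro _ h3
      nlinarith [sq_nonneg ‖x‖]
    rw [this, measure_empty]
    exact zero_le
  push Not at h1
  by_cases h1' : 1 < α
  · have : {x : E m | α ≤ ‖x‖ ^ 2 ∧ ‖x‖ ^ 2 ≤ α + β ∧ ‖x‖ ≤ 1} = ∅ := by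
      ext x
      simp only [mem_ofPred_eq, mem_empty_iff_false, iff_false, not_and]
      intro h2 _ h3
      nlinarith [norm_nonneg x]
    rw [this, measure_empty]
    exact zero_le
  push Not at h1'
  set R2 : ℝ := √(min (α + β) 1) with hR2
  set R1 : ℝ := √(max α 0) with hR1
  have hR1' : R1 ^ 2 = max α 0 := Real.sq_sqrt (le_max_right _ _)
  have hR2' : R2 ^ 2 = min (α + β) 1 := Real.sq_sqrt (le_min h1 zero_le_one)
  have hR10 : 0 ≤ R1 := Real.sqrt_nonneg _
  have hR20 : 0 ≤ R2 := Real.sqrt_nonneg _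
  have hR21 : R2 ≤ 1 := by
    rw [hR2]
    exact Real.sqrt_le_one.mpr (min_le_right _ _)
  have hR12 : R1 ≤ R2 := by
    apply Real.sqrt_le_sqrt
    exact max_le (le_min (by linarith) h1') (le_min h1 zero_le_one)
  have hsub : {x : E m | α ≤ ‖x‖ ^ 2 ∧ ‖x‖ ^ 2 ≤ α + β ∧ ‖x‖ ≤ 1} ⊆
      closedBall (0 : E m) R2 \ ball (0 : E m) R1 := by
    rintro x ⟨h2, h3, h4⟩
    refine ⟨?_, ?_⟩
    · rw [mem_closedBall_zero_iff]
      apply Real.le_sqrt_of_sq_le
      refine le_min h3 ?_
      nlinarith [norm_nonneg x]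
    · rw [mem_ball_zero_iff, not_lt]
      rw [hR1]
      apply Real.sqrt_le_iff.2 ⟨norm_nonneg x, max_le h2 (sq_nonneg _)⟩
  refine (measure_mono hsub).trans ?_
  have hb : ball (0 : E m) R1 ⊆ closedBall (0 : E m) R2 :=
    (ball_subset_ball hR12).trans ball_subset_closedBall
  have hnt : Nontrivial (E m) := by
    have : Nonempty (Fin m) := ⟨⟨0, by omega⟩⟩
    infer_instance
  rw [measure_sdiff hb measurableSet_ball.nullMeasurableSet measure_ball_lt_top.ne,
    Measure.addHaar_closedBall _ _ hR20, Measure.addHaar_ball _ _ hR10,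
    finrank_euclideanSpace_fin]
  have e1 : volume (ball (0 : E m) 1) = ENNReal.ofReal ω := by
    rw [hω, ENNReal.ofReal_toReal (measure_closedBall_lt_top.ne),
      Measure.addHaar_unitClosedBall_eq_addHaar_unitBall]
  rw [e1, ← ENNReal.ofReal_mul (by positivity), ← ENNReal.ofReal_mul (by positivity),
    ← ENNReal.ofReal_sub _ (by positivity)]
  apply ENNReal.ofReal_le_ofReal
  have h5 := pow_diff hR10 hR12 hR21 hm
  have h6 : R2 ^ 2 - R1 ^ 2 ≤ β := by
    rw [hR1', hR2']
    have := min_le_left (α + β) 1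
    have := le_max_left α 0
    linarith
  have hm0 : (0:ℝ) ≤ m := Nat.cast_nonneg m
  calc R2 ^ m * ω - R1 ^ m * ω = (R2 ^ m - R1 ^ m) * ω := by ring
    _ ≤ (m * (R2 ^ 2 - R1 ^ 2)) * ω := by gcongr
    _ ≤ (m * β) * ω := by gcongr
    _ = (m * ω) * β := by ring
    _ ≤ (m * ω + 1) * β := by gcongr; linarith

end Pool.Agent.W2helper94.KC
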