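import Pool.Agent.W2helper94.KC.A

set_option autoImplicit false

/-!
Bands on the sphere.
-/

open MeasureTheory Set Metric
open scoped ENNReal NNReal

namespace Pool.Agent.W2helper94.KC

/-- Splitting off the first coordinate. -/
noncomputable def split (m : ℕ) (x : E (m + 1)) : ℝ × E m :=
  (x 0, WithLp.toLp 2 (fun i => x i.succ))

theorem split_mp (m : ℕ) : MeasurePreserving (split m) := by
  have h1 : MeasurePreserving (fun x : E (m + 1) => (WithLp.ofLp x : Fin (m + 1) → ℝ)) :=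
    PiLp.volume_preserving_ofLp (Fin (m + 1))
  have h2 := volume_preserving_piFinSuccAbove (fun _ : Fin (m + 1) => ℝ) 0
  have h3 : MeasurePreserving (fun x : Fin m → ℝ => (WithLp.toLp 2 x : E m)) :=
    PiLp.volume_preserving_toLp (Fin m)
  have h4 := ((MeasurePreserving.id (volume : Measure ℝ)).prod h3).comp (h2.comp h1)
  exact h4

theorem split_norm (m : ℕ) (x : E (m + 1)) : ‖x‖ ^ 2 = (split m x).1 ^ 2 + ‖(split m x).2‖ ^ 2 := by
  rw [EuclideanSpace.norm_sq_eq, EuclideanSpace.norm_sq_eq, Fin.sum_univ_succ]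
  simp [split]

theorem slab_annulus0 {m : ℕ} (hm : 2 ≤ m) : ∃ C : ℝ, 0 < C ∧ ∀ (τ η ε : ℝ), 0 ≤ η → 0 ≤ ε →
    ε ≤ 1 → volume {x : E (m + 1) | 1 - ε ≤ ‖x‖ ∧ ‖x‖ ≤ 1 ∧ |x 0 - τ| ≤ η} ≤
      ENNReal.ofReal (C * η * ε) := by
  obtain ⟨C, hC, hann⟩ := annulus hm
  refine ⟨4 * C, by positivity, fun τ η ε hη hε hε1 => ?_⟩
  set Y : Set (ℝ × E m) := {p | |p.1 - τ| ≤ η ∧ (1 - ε) ^ 2 - p.1 ^ 2 ≤ ‖p.2‖ ^ 2 ∧
    ‖p.2‖ ^ 2 ≤ ((1 - ε) ^ 2 - p.1 ^ 2) + 2 * ε ∧ ‖p.2‖ ≤ 1} with hY
  have hYm : MeasurableSet Y := by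
    rw [hY]
    simp only [Set.ofPred_and]
    refine MeasurableSet.inter ?_ (MeasurableSet.inter ?_ (MeasurableSet.inter ?_ ?_))
    · exact measurableSet_le (by fun_prop) (by fun_prop)
    · exact measurableSet_le (by fun_prop) (by fun_prop)
    · exact measurableSet_le (by fun_prop) (by fun_prop)
    · exact measurableSet_le (by fun_prop) (by fun_prop)
  have hsub : {x : E (m + 1) | 1 - ε ≤ ‖x‖ ∧ ‖x‖ ≤ 1 ∧ |x 0 - τ| ≤ η} ⊆ split m ⁻¹' Y := by
    rintro x ⟨h1, h2, h3⟩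
    have h4 := split_norm m x
    have h5 : (split m x).1 = x 0 := rfl
    have h6 : ‖x‖ ^ 2 ≤ 1 := by nlinarith [norm_nonneg x]
    have h7 : (1 - ε) ^ 2 ≤ ‖x‖ ^ 2 := by
      apply pow_le_pow_left₀ (by linarith) h1
    refine ⟨by rw [h5]; exact h3, by linarith, by nlinarith, ?_⟩
    have h8 : ‖(split m x).2‖ ^ 2 ≤ 1 := by nlinarith [sq_nonneg (split m x).1]
    nlinarith [norm_nonneg (split m x).2]
  refine (measure_mono hsub).trans ?_
  rw [(split_mp m).measure_preimage hYm.nullMeasurableSet]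
  rw [Measure.volume_eq_prod, Measure.prod_apply hYm]
  calc ∫⁻ t, volume (Prod.mk t ⁻¹' Y)
      ≤ ∫⁻ t, (Icc (τ - η) (τ + η)).indicator (fun _ => ENNReal.ofReal (C * (2 * ε))) t := by
        apply lintegral_mono
        intro t
        show volume (Prod.mk t ⁻¹' Y) ≤ (Icc (τ - η) (τ + η)).indicator
          (fun _ => ENNReal.ofReal (C * (2 * ε))) t
        by_cases ht : t ∈ Icc (τ - η) (τ + η)
        · rw [indicator_of_mem ht]
          refine le_trans (measure_mono ?_) (hann ((1 - ε) ^ 2 - t ^ 2) (2 * ε) (by positivity))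
          rintro y ⟨_, h2, h3, h4⟩
          exact ⟨h2, h3, h4⟩
        · have : Prod.mk t ⁻¹' Y = ∅ := by
            ext y
            simp only [mem_preimage, mem_empty_iff_false, iff_false]
            rintro ⟨h1, _⟩
            apply ht
            have := abs_le.1 h1
            constructor <;> simp only at this <;> linarith [this.1, this.2]
          rw [this, measure_empty]
          exact zero_le
    _ = ENNReal.ofReal (4 * C * η * ε) := by
        rw [lintegral_indicator_const measurableSet_Icc, Real.volume_Icc,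
          ← ENNReal.ofReal_mul (by positivity)]
        congr 1
        ring

theorem exists_rot {m : ℕ} {e f : E m} (he : ‖e‖ = ‖f‖) : ∃ T : E m ≃ₗᵢ[ℝ] E m, T e = f :=
  ⟨(ℝ ∙ (e - f))ᗮ.reflection, Submodule.reflection_sub he⟩

theorem slab_annulus {m : ℕ} (hm : 2 ≤ m) : ∃ C : ℝ, 0 < C ∧ ∀ (e : E (m + 1)) (τ η ε : ℝ),
    ‖e‖ = 1 → 0 ≤ η → 0 ≤ ε → ε ≤ 1 →
    volume {x : E (m + 1) | 1 - ε ≤ ‖x‖ ∧ ‖x‖ ≤ 1 ∧ |inner ℝ e x - τ| ≤ η} ≤
      ENNReal.ofReal (C * η * ε) := by
  obtain ⟨C, hC, h⟩ := slab_annulus0 hm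
  refine ⟨C, hC, fun e τ η ε he hη hε hε1 => ?_⟩
  set e0 : E (m + 1) := EuclideanSpace.single 0 1 with he0
  have hn : ‖e0‖ = ‖e‖ := by rw [he, he0]; simp
  obtain ⟨T, hT⟩ := exists_rot hn
  have hmp := T.measurePreserving
  have hms : MeasurableSet {x : E (m + 1) | 1 - ε ≤ ‖x‖ ∧ ‖x‖ ≤ 1 ∧ |inner ℝ e x - τ| ≤ η} := by
    simp only [Set.ofPred_and]
    refine MeasurableSet.inter ?_ (MeasurableSet.inter ?_ ?_)
    · exact measurableSet_le (by fun_prop) (by fun_prop)
    · exact measurableSet_le (by fun_prop) (by fun_prop)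
    · exact measurableSet_le (by fun_prop) (by fun_prop)
  rw [← hmp.measure_preimage hms.nullMeasurableSet]
  refine le_trans (measure_mono ?_) (h τ η ε hη hε hε1)
  rintro x ⟨h1, h2, h3⟩
  rw [LinearIsometryEquiv.norm_map] at h1 h2
  refine ⟨h1, h2, ?_⟩
  rw [← hT, LinearIsometryEquiv.inner_map_map, he0, EuclideanSpace.inner_single_left] at h3
  simpa using h3

/-- Bands. -/
theorem band {m : ℕ} (hm : 2 ≤ m) : ∃ C : ℝ, 0 < C ∧ ∀ (e : E (m + 1)) (τ ε : ℝ), ‖e‖ = 1 → 0 < ε →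
    sg (m + 1) {φ | |inner ℝ e (φ : E (m + 1)) - τ| ≤ ε} ≤ ENNReal.ofReal (C * ε) := by
  obtain ⟨C, hC, hsl⟩ := slab_annulus hm
  set A : ℝ := (sg (m + 1)).real univ with hA
  have hA0 : 0 ≤ A := measureReal_nonneg
  refine ⟨2 * A + 2 ^ m * C * 2, by positivity, fun e τ ε he hε => ?_⟩
  rcases le_total ε (1/2) with h1 | h1
  · have hms : MeasurableSet {φ : sphere (0 : E (m + 1)) 1 | |inner ℝ e (φ : E (m + 1)) - τ| ≤ ε} := by
      have m1 : Measurable (fun w : sphere (0 : E (m + 1)) 1 => |inner ℝ e (w : E (m + 1)) - τ|) := by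
        fun_prop
      exact measurableSet_le m1 measurable_const
    have hX : MeasurableSet {x : E (m + 1) | 1 - ε ≤ ‖x‖ ∧ ‖x‖ ≤ 1 ∧
        |inner ℝ e x - τ| ≤ 2 * ε} := by
      simp only [Set.ofPred_and]
      refine MeasurableSet.inter ?_ (MeasurableSet.inter ?_ ?_)
      · exact measurableSet_le (by fun_prop) (by fun_prop)
      · exact measurableSet_le (by fun_prop) (by fun_prop)
      · exact measurableSet_le (by fun_prop) (by fun_prop)
    have h2 := thicken m hms hX hε h1 (by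
      intro φ hφ r hr0 hr1
      have hφ1 : ‖(φ : E (m + 1))‖ = 1 := by simp
      have hφ2 : |inner ℝ e (φ : E (m + 1)) - τ| ≤ ε := hφ
      have hr : 0 ≤ r := by linarith
      refine ⟨?_, ?_, ?_⟩
      · rw [norm_smul, hφ1, mul_one, Real.norm_eq_abs, abs_of_nonneg hr]; exact hr0
      · rw [norm_smul, hφ1, mul_one, Real.norm_eq_abs, abs_of_nonneg hr]; exact hr1
      · rw [inner_smul_right]
        have h3 : |inner ℝ e (φ : E (m + 1))| ≤ 1 := by
          have := abs_real_inner_le_norm e (φ : E (m + 1))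
          rwa [he, hφ1, mul_one] at this
        have e1 : r * inner ℝ e (φ : E (m + 1)) - τ =
            (inner ℝ e (φ : E (m + 1)) - τ) - (1 - r) * inner ℝ e (φ : E (m + 1)) := by ring
        rw [e1]
        calc _ ≤ |inner ℝ e (φ : E (m + 1)) - τ| + |(1 - r) * inner ℝ e (φ : E (m + 1))| :=
              abs_sub _ _
          _ ≤ ε + ε * 1 := by
              apply add_le_add hφ2
              rw [abs_mul, abs_of_nonneg (by linarith : 0 ≤ 1 - r)]
              apply mul_le_mul (by linarith) h3 (abs_nonneg _) hε.le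
          _ = 2 * ε := by ring)
    have h3 := h2.trans (hsl e τ (2 * ε) ε he (by positivity) hε.le (by linarith))
    have h4 : ENNReal.ofReal (ε / 2 ^ m) ≠ 0 := by
      rw [Ne, ENNReal.ofReal_eq_zero, not_le]; positivity
    rw [← ENNReal.le_div_iff_mul_le (Or.inl h4) (Or.inl ENNReal.ofReal_ne_top),
      ← ENNReal.ofReal_div_of_pos (by positivity)] at h3
    refine h3.trans (ENNReal.ofReal_le_ofReal ?_)
    have e : C * (2 * ε) * ε / (ε / 2 ^ m) = (2 ^ m * C * 2) * ε := by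
      field_simp
    rw [e]
    gcongr
    linarith
  · refine (measure_mono (subset_univ _)).trans ((sg_univ_le m).trans
      (ENNReal.ofReal_le_ofReal ?_))
    have : 0 ≤ 2 ^ m * C * 2 * ε := by positivity
    nlinarith

end Pool.Agent.W2helper94.KC
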