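import Pool.Agent.W2helper94.KC.B

set_option autoImplicit false

/-!
Pairs of spheres.
-/

open MeasureTheory Set Metric
open scoped ENNReal NNReal

namespace Pool.Agent.W2helper94.KC

/-- Indicator of the closed ball. -/
noncomputable def ic {m : ℕ} (δ : ℝ) (x : E m) : ℝ≥0∞ :=
  (closedBall (0 : E m) δ).indicator (fun _ => (1:ℝ≥0∞)) x

theorem measurable_ic {m : ℕ} (δ : ℝ) : Measurable (ic (m := m) δ) :=
  measurable_const.indicator measurableSet_closedBall

theorem ic_of_le {m : ℕ} {δ : ℝ} {x : E m} (h : ‖x‖ ≤ δ) : ic δ x = 1 :=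
  indicator_of_mem (by simpa using h) _

theorem ic_of_not {m : ℕ} {δ : ℝ} {x : E m} (h : ¬ ‖x‖ ≤ δ) : ic δ x = 0 :=
  indicator_of_notMem (by simpa using h) _

theorem ic_neg {m : ℕ} (δ : ℝ) (x : E m) : ic δ (-x) = ic δ x := by
  by_cases h : ‖x‖ ≤ δ
  · rw [ic_of_le h, ic_of_le (by rwa [norm_neg])]
  · rw [ic_of_not h, ic_of_not (by rwa [norm_neg])]

/-- Measure of the pairs of points of two spheres at distance at most `δ`. -/
noncomputable def NN {m : ℕ} (y : E m) (α β δ : ℝ) : ℝ≥0∞ :=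
  ∫⁻ p : sphere (0 : E m) 1 × sphere (0 : E m) 1, ic δ (y + α • (p.1 : E m) - β • (p.2 : E m))
    ∂((sg m).prod (sg m))

theorem meas_arg {m : ℕ} (y : E m) (α β δ : ℝ) :
    Measurable (fun p : sphere (0 : E m) 1 × sphere (0 : E m) 1 =>
      ic δ (y + α • (p.1 : E m) - β • (p.2 : E m))) := by
  apply (measurable_ic δ).comp
  have h1 : Measurable (fun p : sphere (0 : E m) 1 × sphere (0 : E m) 1 => (p.1 : E m)) :=
    measurable_subtype_coe.comp measurable_fst
  have h2 : Measurable (fun p : sphere (0 : E m) 1 × sphere (0 : E m) 1 => (p.2 : E m)) :=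
    measurable_subtype_coe.comp measurable_snd
  exact ((h1.const_smul α).const_add y).sub (h2.const_smul β)

theorem NN_swap {m : ℕ} (y : E m) (α β δ : ℝ) : NN y α β δ = NN (-y) β α δ := by
  unfold NN
  rw [lintegral_prod _ (meas_arg y α β δ).aemeasurable,
    lintegral_prod_symm _ (meas_arg (-y) β α δ).aemeasurable]
  congr 1
  ext θ
  congr 1
  ext φ
  rw [← ic_neg]
  congr 1
  simp only
  abel

theorem cap_int {m : ℕ} : ∃ C : ℝ, 0 < C ∧ ∀ (z : E (m + 1)) (α δ : ℝ), α ≠ 0 → 0 < δ →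
    ∫⁻ θ, ic δ (z + α • (θ : E (m + 1))) ∂(sg (m + 1)) ≤ ENNReal.ofReal (C * (δ / |α|) ^ m) := by
  obtain ⟨C, hC, hcap⟩ := cap m
  refine ⟨C, hC, fun z α δ hα hδ => ?_⟩
  have hα' : 0 < |α| := abs_pos.2 hα
  refine le_trans ?_ (hcap (-(α⁻¹ • z)) (δ / |α|) (by positivity))
  have hms : MeasurableSet {θ : sphere (0 : E (m + 1)) 1 |
      ‖(θ : E (m + 1)) - -(α⁻¹ • z)‖ ≤ δ / |α|} := by
    have m1 : Measurable (fun w : sphere (0 : E (m + 1)) 1 => ‖(w : E (m + 1)) - -(α⁻¹ • z)‖) := by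
      fun_prop
    exact measurableSet_le m1 measurable_const
  rw [← lintegral_indicator_one hms]
  apply lintegral_mono
  intro θ
  show ic δ (z + α • (θ : E (m + 1))) ≤ _
  by_cases h : ‖z + α • (θ : E (m + 1))‖ ≤ δ
  · rw [ic_of_le h, indicator_of_mem]
    · exact le_refl _
    · show ‖(θ : E (m + 1)) - -(α⁻¹ • z)‖ ≤ δ / |α|
      rw [le_div_iff₀ hα', mul_comm, ← Real.norm_eq_abs, ← norm_smul]
      have : α • ((θ : E (m + 1)) - -(α⁻¹ • z)) = z + α • (θ : E (m + 1)) := by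
        rw [sub_neg_eq_add, smul_add, smul_smul, mul_inv_cancel₀ hα, one_smul]
        exact add_comm _ _
      rw [this]
      exact h
  · rw [ic_of_not h]; exact zero_le

theorem P1 {m : ℕ} : ∃ C : ℝ, 0 < C ∧ ∀ (y : E (m + 1)) (α β δ : ℝ), α ≠ 0 → 0 < δ →
    NN y α β δ ≤ ENNReal.ofReal (C * (δ / |α|) ^ m) := by
  obtain ⟨C, hC, hcap⟩ := cap_int (m := m)
  set A : ℝ := (sg (m + 1)).real univ with hA
  have hA0 : 0 ≤ A := measureReal_nonneg
  refine ⟨C * A + 1, by positivity, fun y α β δ hα hδ => ?_⟩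
  have hα' : 0 < |α| := abs_pos.2 hα
  unfold NN
  rw [lintegral_prod_symm _ (meas_arg y α β δ).aemeasurable]
  calc ∫⁻ φ, ∫⁻ θ, ic δ (y + α • (θ : E (m + 1)) - β • (φ : E (m + 1))) ∂(sg (m + 1))
        ∂(sg (m + 1))
      ≤ ∫⁻ _φ, ENNReal.ofReal (C * (δ / |α|) ^ m) ∂(sg (m + 1)) := by
        apply lintegral_mono
        intro φ
        have e : ∀ θ : sphere (0 : E (m + 1)) 1, y + α • (θ : E (m + 1)) - β • (φ : E (m + 1)) =
            (y - β • (φ : E (m + 1))) + α • (θ : E (m + 1)) := fun θ => by abel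
        simp only [e]
        exact hcap _ α δ hα hδ
    _ ≤ ENNReal.ofReal (C * (δ / |α|) ^ m) * ENNReal.ofReal A := by
        rw [lintegral_const]
        gcongr
        exact sg_univ_le m
    _ = ENNReal.ofReal (C * A * (δ / |α|) ^ m) := by
        rw [← ENNReal.ofReal_mul (by positivity)]
        congr 1
        ring
    _ ≤ _ := by
        apply ENNReal.ofReal_le_ofReal
        gcongr
        linarith

theorem P2 {m : ℕ} (hm : 2 ≤ m) : ∃ C : ℝ, 0 < C ∧ ∀ (y : E (m + 1)) (α β δ : ℝ), α ≠ 0 → β ≠ 0 →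
    0 < δ → δ ≤ |α| → 2 * δ ≤ |(|α| - |β|)| →
    NN y α β δ ≤ ENNReal.ofReal (C * (δ / |α|) ^ m * (δ * |α| / (|β| * |(|α| - |β|)|))) := by
  obtain ⟨C, hC, hcap⟩ := cap_int (m := m)
  obtain ⟨C2, hC2, hband⟩ := band hm
  refine ⟨C * (C2 * 3), by positivity, fun y α β δ hα hβ hδ hδα hD => ?_⟩
  have hα' : 0 < |α| := abs_pos.2 hα
  have hβ' : 0 < |β| := abs_pos.2 hβ
  set D : ℝ := |(|α| - |β|)| with hDdef
  have hD0 : 0 < D := by linarith
  have hn1 : ∀ θ : sphere (0 : E (m + 1)) 1, ‖(θ : E (m + 1))‖ = 1 := fun θ => by simp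
  unfold NN
  rw [lintegral_prod_symm _ (meas_arg y α β δ).aemeasurable]
  -- the triangle inequality
  have htri : ∀ θ φ : sphere (0 : E (m + 1)) 1,
      ‖y + α • (θ : E (m + 1)) - β • (φ : E (m + 1))‖ ≤ δ →
      |(‖y - β • (φ : E (m + 1))‖ - |α|)| ≤ δ ∧ D / 2 ≤ ‖y‖ := by
    intro θ φ h
    have hα1 : ‖α • (θ : E (m + 1))‖ = |α| := by rw [norm_smul, hn1, mul_one, Real.norm_eq_abs]
    have hβ1 : ‖β • (φ : E (m + 1))‖ = |β| := by rw [norm_smul, hn1, mul_one, Real.norm_eq_abs]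
    have h1 : |(‖y - β • (φ : E (m + 1))‖ - |α|)| ≤ δ := by
      rw [← hα1, ← norm_neg (α • (θ : E (m + 1)))]
      refine (abs_norm_sub_norm_le _ _).trans ?_
      have : y - β • (φ : E (m + 1)) - -(α • (θ : E (m + 1))) =
          y + α • (θ : E (m + 1)) - β • (φ : E (m + 1)) := by abel
      rw [this]
      exact h
    refine ⟨h1, ?_⟩
    have h2 : |(‖y - β • (φ : E (m + 1))‖ - |β|)| ≤ ‖y‖ := by
      rw [← hβ1, ← norm_neg (β • (φ : E (m + 1)))]
      refine (abs_norm_sub_norm_le _ _).trans ?_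
      have : y - β • (φ : E (m + 1)) - -(β • (φ : E (m + 1))) = y := by abel
      rw [this]
    have h3 : D ≤ |(‖y - β • (φ : E (m + 1))‖ - |α|)| + |(‖y - β • (φ : E (m + 1))‖ - |β|)| := by
      rw [hDdef]
      have e : |α| - |β| = (‖y - β • (φ : E (m + 1))‖ - |β|) - (‖y - β • (φ : E (m + 1))‖ - |α|) := by
        ring
      rw [e]
      refine (abs_sub _ _).trans ?_
      rw [add_comm]
    linarith
  by_cases hy : D / 2 ≤ ‖y‖
  · have hy0 : 0 < ‖y‖ := by linarith
    set e : E (m + 1) := ‖y‖⁻¹ • y with he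
    have he1 : ‖e‖ = 1 := by
      rw [he, norm_smul, norm_inv, norm_norm, inv_mul_cancel₀ hy0.ne']
    set τ : ℝ := (‖y‖ ^ 2 + β ^ 2 - α ^ 2) / (2 * β * ‖y‖) with hτ
    set ε : ℝ := 3 * δ * |α| / (2 * |β| * ‖y‖) with hε
    have hε0 : 0 < ε := by positivity
    have hbd := hband e τ ε he1 hε0
    have hms : MeasurableSet {φ : sphere (0 : E (m + 1)) 1 | |inner ℝ e (φ : E (m + 1)) - τ| ≤ ε} := by
      have m1 : Measurable (fun w : sphere (0 : E (m + 1)) 1 => |inner ℝ e (w : E (m + 1)) - τ|) := by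
        fun_prop
      exact measurableSet_le m1 measurable_const
    have hin : ∀ θ φ : sphere (0 : E (m + 1)) 1,
        ‖y + α • (θ : E (m + 1)) - β • (φ : E (m + 1))‖ ≤ δ →
        |inner ℝ e (φ : E (m + 1)) - τ| ≤ ε := by
      intro θ φ h
      obtain ⟨h1, _⟩ := htri θ φ h
      have h2 := abs_le.1 h1
      have h3 : |‖y - β • (φ : E (m + 1))‖ ^ 2 - α ^ 2| ≤ 3 * δ * |α| := by
        have e1 : ‖y - β • (φ : E (m + 1))‖ ^ 2 - α ^ 2 =
            (‖y - β • (φ : E (m + 1))‖ - |α|) * (‖y - β • (φ : E (m + 1))‖ + |α|) := by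
          rw [← sq_abs α]; ring
        rw [e1, abs_mul, abs_of_nonneg (by positivity : 0 ≤ ‖y - β • (φ : E (m + 1))‖ + |α|)]
        calc _ ≤ δ * (3 * |α|) := by
              apply mul_le_mul h1 _ (by positivity) hδ.le
              linarith [h2.2]
          _ = _ := by ring
      have h4 : ‖y - β • (φ : E (m + 1))‖ ^ 2 =
          ‖y‖ ^ 2 - 2 * (β * inner ℝ y (φ : E (m + 1))) + β ^ 2 := by
        rw [@norm_sub_sq_real, inner_smul_right, norm_smul, hn1, mul_one, Real.norm_eq_abs, sq_abs]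
      have h5 : inner ℝ e (φ : E (m + 1)) = ‖y‖⁻¹ * inner ℝ y (φ : E (m + 1)) := by
        rw [he, inner_smul_left]
        simp
      rw [hε, le_div_iff₀ (by positivity)]
      have e2 : (2 * |β| * ‖y‖) = |2 * β * ‖y‖| := by
        rw [abs_mul, abs_mul, abs_of_pos (by norm_num : (0:ℝ) < 2), abs_of_pos hy0]
      rw [e2, ← abs_mul]
      have e3 : (inner ℝ e (φ : E (m + 1)) - τ) * (2 * β * ‖y‖) =
          -(‖y - β • (φ : E (m + 1))‖ ^ 2 - α ^ 2) := by
        rw [h4, h5, hτ]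
        field_simp
        ring
      rw [e3, abs_neg]
      exact h3
    calc ∫⁻ φ, ∫⁻ θ, ic δ (y + α • (θ : E (m + 1)) - β • (φ : E (m + 1))) ∂(sg (m + 1))
          ∂(sg (m + 1))
        ≤ ∫⁻ φ, {φ : sphere (0 : E (m + 1)) 1 | |inner ℝ e (φ : E (m + 1)) - τ| ≤ ε}.indicator
            (fun _ => ENNReal.ofReal (C * (δ / |α|) ^ m)) φ ∂(sg (m + 1)) := by
          apply lintegral_mono
          intro φ
          by_cases hφ : φ ∈ {φ : sphere (0 : E (m + 1)) 1 | |inner ℝ e (φ : E (m + 1)) - τ| ≤ ε}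
          · simp only
            rw [indicator_of_mem hφ]
            have e : ∀ θ : sphere (0 : E (m + 1)) 1,
                y + α • (θ : E (m + 1)) - β • (φ : E (m + 1)) =
                (y - β • (φ : E (m + 1))) + α • (θ : E (m + 1)) := fun θ => by abel
            simp only [e]
            exact hcap _ α δ hα hδ
          · simp only
            rw [indicator_of_notMem hφ]
            have hz : ∀ θ : sphere (0 : E (m + 1)) 1,
                ic δ (y + α • (θ : E (m + 1)) - β • (φ : E (m + 1))) = 0 :=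
              fun θ => ic_of_not (fun h => hφ (hin θ φ h))
            simp only [hz, lintegral_zero, le_refl]
      _ ≤ ENNReal.ofReal (C * (δ / |α|) ^ m) * ENNReal.ofReal (C2 * ε) := by
          rw [lintegral_indicator_const hms]
          gcongr
      _ = ENNReal.ofReal (C * (δ / |α|) ^ m * (C2 * ε)) := by
          rw [← ENNReal.ofReal_mul (by positivity)]
      _ ≤ _ := by
          apply ENNReal.ofReal_le_ofReal
          have h6 : ε ≤ 3 * (δ * |α| / (|β| * D)) := by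
            rw [hε]
            have e1 : 3 * (δ * |α| / (|β| * D)) = 3 * δ * |α| / (|β| * D) := by ring
            rw [e1]
            apply div_le_div_of_nonneg_left (by positivity) (by positivity)
            nlinarith
          calc C * (δ / |α|) ^ m * (C2 * ε)
              ≤ C * (δ / |α|) ^ m * (C2 * (3 * (δ * |α| / (|β| * D)))) := by gcongr
            _ = _ := by ring
  · have : ∀ φ : sphere (0 : E (m + 1)) 1, ∫⁻ θ, ic δ (y + α • (θ : E (m + 1)) -
        β • (φ : E (m + 1))) ∂(sg (m + 1)) = 0 := by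
      intro φ
      have hz : ∀ θ : sphere (0 : E (m + 1)) 1,
          ic δ (y + α • (θ : E (m + 1)) - β • (φ : E (m + 1))) = 0 :=
        fun θ => ic_of_not (fun h => hy (htri θ φ h).2)
      simp only [hz, lintegral_zero]
    simp only [this, lintegral_zero]
    exact zero_le

/-- **Pairs of spheres.** -/
theorem pair {m : ℕ} (hm : 2 ≤ m) : ∃ C : ℝ, 0 < C ∧ ∀ (y : E (m + 1)) (A B a b δ lam : ℝ),
    0 < lam → lam ≤ |A| → lam ≤ |B| → 0 < a → a ≤ 1 → 0 < b → b ≤ 1 → 0 < δ →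
    ENNReal.ofReal (a ^ m * b ^ m) * NN y (A * a) (B * b) δ ≤
      ENNReal.ofReal (C * δ ^ (m + 1) * lam⁻¹ ^ m * (|(|A| * a - |B| * b)| + δ)⁻¹) := by
  obtain ⟨C1, hC1, h1⟩ := P1 (m := m)
  obtain ⟨C2, hC2, h2⟩ := P2 hm
  refine ⟨3 * C1 + 3 * C2, by positivity, ?_⟩
  -- the main case
  have key : ∀ (y : E (m + 1)) (A B a b δ lam : ℝ),
      0 < lam → lam ≤ |A| → lam ≤ |B| → 0 < a → a ≤ 1 → 0 < b → b ≤ 1 → 0 < δ →
      2 * δ ≤ |(|A| * a - |B| * b)| → |B| * b ≤ |A| * a →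
      ENNReal.ofReal (a ^ m * b ^ m) * NN y (A * a) (B * b) δ ≤
      ENNReal.ofReal ((3 * C1 + 3 * C2) * δ ^ (m + 1) * lam⁻¹ ^ m *
        (|(|A| * a - |B| * b)| + δ)⁻¹) := by
    intro y A B a b δ lam hl hA hB ha ha1 hb hb1 hδ hD hBA
    have hA0 : 0 < |A| := by linarith
    have hB0 : 0 < |B| := by linarith
    have hA' : A ≠ 0 := abs_pos.1 hA0
    have hB' : B ≠ 0 := abs_pos.1 hB0
    have eA : |A * a| = |A| * a := by rw [abs_mul, abs_of_pos ha]
    have eB : |B * b| = |B| * b := by rw [abs_mul, abs_of_pos hb]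
    set D : ℝ := |(|A| * a - |B| * b)| with hDdef
    have hDle : D ≤ |A| * a := by
      rw [hDdef, abs_of_nonneg (by linarith)]
      have : 0 < |B| * b := by positivity
      linarith
    have hD0 : 0 < D := by linarith
    have h3 := h2 y (A * a) (B * b) δ (mul_ne_zero hA' ha.ne') (mul_ne_zero hB' hb.ne') hδ
      (by rw [eA]; linarith) (by rw [eA, eB]; exact hD)
    rw [eA, eB, ← hDdef] at h3
    calc ENNReal.ofReal (a ^ m * b ^ m) * NN y (A * a) (B * b) δ
        ≤ ENNReal.ofReal (a ^ m * b ^ m) * ENNReal.ofReal (C2 * (δ / (|A| * a)) ^ m *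
            (δ * (|A| * a) / (|B| * b * D))) := by gcongr
      _ = ENNReal.ofReal (a ^ m * b ^ m * (C2 * (δ / (|A| * a)) ^ m *
            (δ * (|A| * a) / (|B| * b * D)))) := by rw [← ENNReal.ofReal_mul (by positivity)]
      _ ≤ _ := by
          apply ENNReal.ofReal_le_ofReal
          obtain ⟨j, rfl⟩ : ∃ j, m = j + 1 := ⟨m - 1, by omega⟩
          have e1 : a ^ (j + 1) * b ^ (j + 1) * (C2 * (δ / (|A| * a)) ^ (j + 1) *
            (δ * (|A| * a) / (|B| * b * D))) =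
            C2 * δ ^ (j + 1 + 1) * ((|A|⁻¹) ^ j * |B|⁻¹) * (a * b ^ j) * D⁻¹ := by
            rw [div_pow, mul_pow, inv_pow]
            field_simp
            ring
          rw [e1]
          have h4 : (|A|⁻¹) ^ j * |B|⁻¹ ≤ lam⁻¹ ^ (j + 1) := by
            rw [pow_succ]
            gcongr
          have h5 : a * b ^ j ≤ 1 := by
            calc a * b ^ j ≤ 1 * 1 := by
                  apply mul_le_mul ha1 (pow_le_one₀ hb.le hb1) (by positivity) zero_le_one
              _ = 1 := one_mul 1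
          have h6 : D⁻¹ ≤ 3 * (D + δ)⁻¹ := by
            rw [← one_div, ← div_eq_mul_inv, div_le_div_iff₀ hD0 (by positivity)]
            linarith
          calc C2 * δ ^ (j + 1 + 1) * ((|A|⁻¹) ^ j * |B|⁻¹) * (a * b ^ j) * D⁻¹
              ≤ C2 * δ ^ (j + 1 + 1) * (lam⁻¹ ^ (j + 1)) * 1 * (3 * (D + δ)⁻¹) := by gcongr
            _ = (3 * C2) * δ ^ (j + 1 + 1) * (lam⁻¹ ^ (j + 1)) * (D + δ)⁻¹ := by ring
            _ ≤ _ := by gcongr; linarith
  intro y A B a b δ lam hl hA hB ha ha1 hb hb1 hδ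
  have hA0 : 0 < |A| := by linarith
  have hB0 : 0 < |B| := by linarith
  have hA' : A ≠ 0 := abs_pos.1 hA0
  have hB' : B ≠ 0 := abs_pos.1 hB0
  have eA : |A * a| = |A| * a := by rw [abs_mul, abs_of_pos ha]
  rcases le_total (2 * δ) |(|A| * a - |B| * b)| with hD | hD
  · rcases le_total (|B| * b) (|A| * a) with hBA | hBA
    · exact key y A B a b δ lam hl hA hB ha ha1 hb hb1 hδ hD hBA
    · have h3 := key (-y) B A b a δ lam hl hB hA hb hb1 ha ha1 hδ (by rwa [abs_sub_comm]) hBA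
      rw [NN_swap, abs_sub_comm, mul_comm (a ^ m)]
      exact h3
  · have h3 := h1 y (A * a) (B * b) δ (mul_ne_zero hA' ha.ne') hδ
    rw [eA] at h3
    set D : ℝ := |(|A| * a - |B| * b)| with hDdef
    have hD0 : 0 ≤ D := abs_nonneg _
    calc ENNReal.ofReal (a ^ m * b ^ m) * NN y (A * a) (B * b) δ
        ≤ ENNReal.ofReal (a ^ m * b ^ m) * ENNReal.ofReal (C1 * (δ / (|A| * a)) ^ m) := by gcongr
      _ = ENNReal.ofReal (a ^ m * b ^ m * (C1 * (δ / (|A| * a)) ^ m)) := by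
          rw [← ENNReal.ofReal_mul (by positivity)]
      _ ≤ _ := by
          apply ENNReal.ofReal_le_ofReal
          have e1 : a ^ m * b ^ m * (C1 * (δ / (|A| * a)) ^ m) =
              C1 * δ ^ m * (|A|⁻¹) ^ m * b ^ m * 1 := by
            rw [div_pow, mul_pow, inv_pow]
            field_simp
          rw [e1]
          have h5 : b ^ m ≤ 1 := pow_le_one₀ hb.le hb1
          have h6 : 1 ≤ 3 * δ * (D + δ)⁻¹ := by
            rw [← div_eq_mul_inv, le_div_iff₀ (by positivity)]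
            linarith
          calc C1 * δ ^ m * (|A|⁻¹) ^ m * b ^ m * 1
              ≤ C1 * δ ^ m * (lam⁻¹) ^ m * 1 * (3 * δ * (D + δ)⁻¹) := by gcongr
            _ = (3 * C1) * δ ^ (m + 1) * (lam⁻¹) ^ m * (D + δ)⁻¹ := by ring
            _ ≤ _ := by gcongr; linarith

end Pool.Agent.W2helper94.KC
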