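import Pool.Agent.W2helper94.KC.C

set_option autoImplicit false

/-!
The inequality for one block.
-/

open MeasureTheory Set Metric
open scoped ENNReal NNReal

namespace Pool.Agent.W2helper94.KC

/-- Indicator of the unit square. -/
noncomputable def box (c : ℝ × ℝ) : ℝ≥0∞ :=
  (Icc (0:ℝ) 1 ×ˢ Icc (0:ℝ) 1).indicator (fun _ => (1:ℝ≥0∞)) c

theorem measurable_box : Measurable box :=
  measurable_const.indicator (measurableSet_Icc.prod measurableSet_Icc)

theorem box_of_mem {c : ℝ × ℝ} (h : c ∈ Icc (0:ℝ) 1 ×ˢ Icc (0:ℝ) 1) : box c = 1 :=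
  indicator_of_mem h _

theorem box_of_not {c : ℝ × ℝ} (h : c ∉ Icc (0:ℝ) 1 ×ˢ Icc (0:ℝ) 1) : box c = 0 :=
  indicator_of_notMem h _

/-- Indicator of the half open unit square. -/
noncomputable def bx (c : ℝ × ℝ) : ℝ≥0∞ :=
  (Ioc (0:ℝ) 1 ×ˢ Ioc (0:ℝ) 1).indicator (fun _ => (1:ℝ≥0∞)) c

theorem measurable_bx : Measurable bx :=
  measurable_const.indicator (measurableSet_Ioc.prod measurableSet_Ioc)

theorem bx_of_mem {c : ℝ × ℝ} (h : c ∈ Ioc (0:ℝ) 1 ×ˢ Ioc (0:ℝ) 1) : bx c = 1 :=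
  indicator_of_mem h _

theorem bx_of_not {c : ℝ × ℝ} (h : c ∉ Ioc (0:ℝ) 1 ×ˢ Ioc (0:ℝ) 1) : bx c = 0 :=
  indicator_of_notMem h _

/-- First components of a point of `(ℝ × ℝ)^m`. -/
def p1 {m : ℕ} (x : Fin m → ℝ × ℝ) : E m := WithLp.toLp 2 (fun i => (x i).1)

/-- Second components of a point of `(ℝ × ℝ)^m`. -/
def p2 {m : ℕ} (x : Fin m → ℝ × ℝ) : E m := WithLp.toLp 2 (fun i => (x i).2)

theorem measurable_p1 {m : ℕ} : Measurable (p1 (m := m)) := by
  unfold p1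
  apply (WithLp.measurable_toLp 2 (Fin m → ℝ)).comp
  fun_prop

theorem measurable_p2 {m : ℕ} : Measurable (p2 (m := m)) := by
  unfold p2
  apply (WithLp.measurable_toLp 2 (Fin m → ℝ)).comp
  fun_prop

/-- Norms of the components. -/
noncomputable def nr {m : ℕ} (x : Fin m → ℝ × ℝ) : ℝ × ℝ := (‖p1 x‖, ‖p2 x‖)

theorem measurable_nr {m : ℕ} : Measurable (nr (m := m)) :=
  measurable_p1.norm.prodMk measurable_p2.norm

theorem pair_mp (m : ℕ) : MeasurePreserving (fun x : Fin m → ℝ × ℝ => (p1 x, p2 x)) := by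
  have h1 : MeasurePreserving (MeasurableEquiv.arrowProdEquivProdArrow ℝ ℝ (Fin m))
      (Measure.pi fun _ => (volume : Measure ℝ).prod (volume : Measure ℝ))
      ((Measure.pi fun _ => volume).prod (Measure.pi fun _ => volume)) :=
    measurePreserving_arrowProdEquivProdArrow ℝ ℝ (Fin m) (fun _ => volume) (fun _ => volume)
  have h3 : MeasurePreserving (fun x : Fin m → ℝ => (WithLp.toLp 2 x : E m)) :=
    PiLp.volume_preserving_toLp (Fin m)
  exact (h3.prod h3).comp h1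

/-- A product of spheres and half lines: polar coordinates for pairs. -/
theorem polar2 {m : ℕ} {F : E (m + 1) × E (m + 1) → ℝ≥0∞} (hF : Measurable F) :
    ∫⁻ z, F z = ∫⁻ a in Ioi (0:ℝ), ∫⁻ b in Ioi (0:ℝ), ENNReal.ofReal (a ^ m * b ^ m) *
      ∫⁻ p : sphere (0 : E (m + 1)) 1 × sphere (0 : E (m + 1)) 1,
        F (a • (p.1 : E (m + 1)), b • (p.2 : E (m + 1))) ∂((sg (m + 1)).prod (sg (m + 1))) := by
  set S := sphere (0 : E (m + 1)) 1
  set μ := sg (m + 1)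
  set ν : Measure ℝ := volume.restrict (Ioi (0:ℝ))
  set Φ : S → ℝ → S → ℝ → ℝ≥0∞ := fun θ a φ b =>
    ENNReal.ofReal (a ^ m) * (ENNReal.ofReal (b ^ m) *
      F (a • (θ : E (m + 1)), b • (φ : E (m + 1)))) with hΦ
  have hΦm : Measurable (fun q : (S × ℝ) × (S × ℝ) => Φ q.1.1 q.1.2 q.2.1 q.2.2) := by
    have c1 : Measurable (fun q : (S × ℝ) × (S × ℝ) => (q.1.1 : E (m + 1))) :=
      measurable_subtype_coe.comp (measurable_fst.comp measurable_fst)
    have c2 : Measurable (fun q : (S × ℝ) × (S × ℝ) => (q.2.1 : E (m + 1))) :=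
      measurable_subtype_coe.comp (measurable_fst.comp measurable_snd)
    have c3 : Measurable (fun q : (S × ℝ) × (S × ℝ) => q.1.2) := measurable_snd.comp measurable_fst
    have c4 : Measurable (fun q : (S × ℝ) × (S × ℝ) => q.2.2) := measurable_snd.comp measurable_snd
    exact (c3.pow_const m).ennreal_ofReal.mul ((c4.pow_const m).ennreal_ofReal.mul
      (hF.comp ((c3.smul c1).prodMk (c4.smul c2))))
  have e1 : ∫⁻ z, F z = ∫⁻ θ, ∫⁻ a, ∫⁻ φ, ∫⁻ b, Φ θ a φ b ∂ν ∂μ ∂ν ∂μ := by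
    rw [Measure.volume_eq_prod, lintegral_prod _ hF.aemeasurable]
    rw [polar m _ hF.lintegral_prod_right']
    refine lintegral_congr fun θ => lintegral_congr fun a => ?_
    rw [polar m (fun y => F (a • (θ : E (m + 1)), y)) (hF.comp measurable_prodMk_left)]
    rw [← lintegral_const_mul' _ _ ENNReal.ofReal_ne_top]
    refine lintegral_congr fun φ => ?_
    rw [← lintegral_const_mul' _ _ ENNReal.ofReal_ne_top]
  rw [e1]
  have e2 : ∀ θ a, ∫⁻ φ, ∫⁻ b, Φ θ a φ b ∂ν ∂μ = ∫⁻ b, ∫⁻ φ, Φ θ a φ b ∂μ ∂ν := by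
    intro θ a
    apply lintegral_lintegral_swap
    exact (hΦm.comp (measurable_const.prodMk measurable_id :
      Measurable (fun q : S × ℝ => (((θ, a), q) : (S × ℝ) × (S × ℝ))))).aemeasurable
  simp_rw [e2]
  have hm3 : Measurable (fun q : (S × ℝ) × ℝ => ∫⁻ φ, Φ q.1.1 q.1.2 φ q.2 ∂μ) := by
    have : Measurable (fun q : ((S × ℝ) × ℝ) × S => Φ q.1.1.1 q.1.1.2 q.2 q.1.2) :=
      hΦm.comp ((measurable_fst.comp measurable_fst).prodMk
        (measurable_snd.prodMk (measurable_snd.comp measurable_fst)))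
    exact this.lintegral_prod_right'
  have e3 : ∫⁻ θ, ∫⁻ a, ∫⁻ b, ∫⁻ φ, Φ θ a φ b ∂μ ∂ν ∂ν ∂μ =
      ∫⁻ a, ∫⁻ θ, ∫⁻ b, ∫⁻ φ, Φ θ a φ b ∂μ ∂ν ∂μ ∂ν := by
    apply lintegral_lintegral_swap
    exact hm3.lintegral_prod_right'.aemeasurable
  rw [e3]
  refine lintegral_congr fun a => ?_
  have e4 : ∫⁻ θ, ∫⁻ b, ∫⁻ φ, Φ θ a φ b ∂μ ∂ν ∂μ = ∫⁻ b, ∫⁻ θ, ∫⁻ φ, Φ θ a φ b ∂μ ∂μ ∂ν := by
    apply lintegral_lintegral_swap
    exact (hm3.comp ((measurable_fst.prodMk measurable_const).prodMk measurable_snd :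
      Measurable (fun q : S × ℝ => (((q.1, a), q.2) : (S × ℝ) × ℝ)))).aemeasurable
  rw [e4]
  refine setLIntegral_congr_fun measurableSet_Ioi fun b hb => ?_
  have hb0 : (0:ℝ) < b := hb
  rw [lintegral_prod]
  · have e5 : ENNReal.ofReal (a ^ m * b ^ m) = ENNReal.ofReal (a ^ m) * ENNReal.ofReal (b ^ m) :=
      ENNReal.ofReal_mul' (by positivity)
    rw [e5, mul_assoc, ← lintegral_const_mul' _ _ ENNReal.ofReal_ne_top,
      ← lintegral_const_mul' _ _ ENNReal.ofReal_ne_top]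
    refine lintegral_congr fun θ => ?_
    rw [← lintegral_const_mul' _ _ ENNReal.ofReal_ne_top,
      ← lintegral_const_mul' _ _ ENNReal.ofReal_ne_top]
  · apply Measurable.aemeasurable
    apply hF.comp
    have c1 : Measurable (fun q : S × S => (q.1 : E (m + 1))) :=
      measurable_subtype_coe.comp measurable_fst
    have c2 : Measurable (fun q : S × S => (q.2 : E (m + 1))) :=
      measurable_subtype_coe.comp measurable_snd
    exact (c1.const_smul a).prodMk (c2.const_smul b)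

/-- The kernel of a block. -/
noncomputable def ker (δ A B a b : ℝ) : ℝ≥0∞ := ENNReal.ofReal ((|(|A| * a - |B| * b)| + δ)⁻¹)

/-- **The inequality for one block.** -/
theorem block {q : ℕ} (hq : 3 ≤ q) : ∃ C : ℝ, 0 < C ∧ ∀ (δ lam : ℝ), 0 < δ → 0 < lam →
    ∀ (y : ℝ × ℝ → E q) (A B : ℝ × ℝ → ℝ) (G : ℝ × ℝ → ℝ≥0∞), Measurable y → Measurable A →
      Measurable B → Measurable G → (∀ c, G c ≠ 0 → lam ≤ |A c| ∧ lam ≤ |B c|) →
      ∫⁻ x : Fin q → ℝ × ℝ, G (nr x) * (box (nr x) *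
          ic δ (y (nr x) + A (nr x) • p1 x - B (nr x) • p2 x)) ≤
        ∫⁻ c, G c * (ENNReal.ofReal (C * δ ^ q * lam⁻¹ ^ (q - 1)) *
          (bx c * ker δ (A c) (B c) c.1 c.2)) := by
  obtain ⟨m, rfl⟩ : ∃ m, q = m + 1 := ⟨q - 1, by omega⟩
  obtain ⟨C, hC, hpair⟩ := pair (m := m) (by omega)
  refine ⟨C, hC, fun δ lam hδ hl y A B G hy hA hB hG hGs => ?_⟩
  rw [Nat.add_sub_cancel]
  set F : E (m + 1) × E (m + 1) → ℝ≥0∞ := fun z => G (‖z.1‖, ‖z.2‖) * (box (‖z.1‖, ‖z.2‖) *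
    ic δ (y (‖z.1‖, ‖z.2‖) + A (‖z.1‖, ‖z.2‖) • z.1 - B (‖z.1‖, ‖z.2‖) • z.2)) with hF
  have hn : Measurable (fun z : E (m + 1) × E (m + 1) => ((‖z.1‖, ‖z.2‖) : ℝ × ℝ)) :=
    measurable_fst.norm.prodMk measurable_snd.norm
  have hFm : Measurable F := by
    refine (hG.comp hn).mul ((measurable_box.comp hn).mul ((measurable_ic δ).comp ?_))
    exact ((hy.comp hn).add ((hA.comp hn).smul measurable_fst)).sub
      ((hB.comp hn).smul measurable_snd)
  have e1 : ∫⁻ x : Fin (m + 1) → ℝ × ℝ, G (nr x) * (box (nr x) *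
      ic δ (y (nr x) + A (nr x) • p1 x - B (nr x) • p2 x)) = ∫⁻ z, F z :=
    (pair_mp (m + 1)).lintegral_comp (f := F) hFm
  rw [e1, polar2 hFm]
  have hm0 : Measurable (fun c : ℝ × ℝ => G c * (ENNReal.ofReal (C * δ ^ (m + 1) * lam⁻¹ ^ m) *
      (bx c * ker δ (A c) (B c) c.1 c.2))) := by
    refine hG.mul ((measurable_bx.mul ?_).const_mul _)
    unfold ker
    fun_prop
  calc ∫⁻ a in Ioi (0:ℝ), ∫⁻ b in Ioi (0:ℝ), ENNReal.ofReal (a ^ m * b ^ m) *
      ∫⁻ p : sphere (0 : E (m + 1)) 1 × sphere (0 : E (m + 1)) 1,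
        F (a • (p.1 : E (m + 1)), b • (p.2 : E (m + 1))) ∂((sg (m + 1)).prod (sg (m + 1)))
      ≤ ∫⁻ a in Ioi (0:ℝ), ∫⁻ b in Ioi (0:ℝ), G (a, b) *
          (ENNReal.ofReal (C * δ ^ (m + 1) * lam⁻¹ ^ m) *
          (bx (a, b) * ker δ (A (a, b)) (B (a, b)) a b)) := by
        refine setLIntegral_mono' measurableSet_Ioi fun a ha => ?_
        refine setLIntegral_mono' measurableSet_Ioi fun b hb => ?_
        have ha0 : (0:ℝ) < a := ha
        have hb0 : (0:ℝ) < b := hb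
        have e2 : ∀ p : sphere (0 : E (m + 1)) 1 × sphere (0 : E (m + 1)) 1,
            F (a • (p.1 : E (m + 1)), b • (p.2 : E (m + 1))) = (G (a, b) * box (a, b)) *
              ic δ (y (a, b) + (A (a, b) * a) • (p.1 : E (m + 1)) -
                (B (a, b) * b) • (p.2 : E (m + 1))) := by
          intro p
          have n1 : ‖a • (p.1 : E (m + 1))‖ = a := by
            rw [norm_smul, Real.norm_eq_abs, abs_of_pos ha0]; simp
          have n2 : ‖b • (p.2 : E (m + 1))‖ = b := by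
            rw [norm_smul, Real.norm_eq_abs, abs_of_pos hb0]; simp
          simp only [hF, n1, n2, smul_smul]
          ring
        simp only [e2]
        rw [lintegral_const_mul _ (meas_arg _ _ _ _)]
        change ENNReal.ofReal (a ^ m * b ^ m) * (G (a, b) * box (a, b) *
          NN (y (a, b)) (A (a, b) * a) (B (a, b) * b) δ) ≤ _
        by_cases hG0 : G (a, b) = 0
        · rw [hG0]; simp
        by_cases hbx : (a, b) ∈ Icc (0:ℝ) 1 ×ˢ Icc (0:ℝ) 1
        · obtain ⟨h1, h2⟩ := hGs _ hG0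
          have h3 := hpair (y (a, b)) (A (a, b)) (B (a, b)) a b δ lam hl h1 h2 ha0 hbx.1.2 hb0
            hbx.2.2 hδ
          have h4 : ENNReal.ofReal (C * δ ^ (m + 1) * lam⁻¹ ^ m) *
              ker δ (A (a, b)) (B (a, b)) a b = ENNReal.ofReal (C * δ ^ (m + 1) * lam⁻¹ ^ m *
              (|(|A (a, b)| * a - |B (a, b)| * b)| + δ)⁻¹) := by
            unfold ker
            rw [← ENNReal.ofReal_mul (by positivity)]
          have hbx' : (a, b) ∈ Ioc (0:ℝ) 1 ×ˢ Ioc (0:ℝ) 1 := ⟨⟨ha0, hbx.1.2⟩, ⟨hb0, hbx.2.2⟩⟩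
          rw [box_of_mem hbx, bx_of_mem hbx', mul_one, one_mul, h4]
          calc ENNReal.ofReal (a ^ m * b ^ m) * (G (a, b) *
                NN (y (a, b)) (A (a, b) * a) (B (a, b) * b) δ)
              = G (a, b) * (ENNReal.ofReal (a ^ m * b ^ m) *
                NN (y (a, b)) (A (a, b) * a) (B (a, b) * b) δ) := by ring
            _ ≤ _ := by gcongr
        · rw [box_of_not hbx]; simp
    _ ≤ ∫⁻ a, ∫⁻ b, G (a, b) *
          (ENNReal.ofReal (C * δ ^ (m + 1) * lam⁻¹ ^ m) *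
          (bx (a, b) * ker δ (A (a, b)) (B (a, b)) a b)) :=
        (setLIntegral_le_lintegral _ _).trans
          (lintegral_mono fun a => setLIntegral_le_lintegral _ _)
    _ = _ := by
        rw [Measure.volume_eq_prod, lintegral_prod _ hm0.aemeasurable]

end Pool.Agent.W2helper94.KC
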