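import Mathlib

set_option autoImplicit false

/-!
Inequalities for blocks multiply.
-/

open MeasureTheory Set Metric
open scoped ENNReal NNReal

namespace Pool.Agent.W2helper94.KC

theorem hyb : ∀ (k : ℕ) (X : Fin k → Type) [∀ j, MeasureSpace (X j)]
    [∀ j, SigmaFinite (volume : Measure (X j))] (N : ∀ j, X j → ℝ × ℝ)
    (_ : ∀ j, Measurable (N j)) (g : ∀ j, (Fin k → ℝ × ℝ) × X j → ℝ≥0∞)
    (_ : ∀ j, Measurable (g j)) (κ : Fin k → (Fin k → ℝ × ℝ) → ℝ≥0∞)
    (_ : ∀ j, Measurable (κ j))
    (_ : ∀ j (c : Fin k → ℝ × ℝ) (G : ℝ × ℝ → ℝ≥0∞), Measurable G →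
      ∫⁻ x, G (N j x) * g j (Function.update c j (N j x), x) ≤
        ∫⁻ a, G a * κ j (Function.update c j a))
    (G : (Fin k → ℝ × ℝ) → ℝ≥0∞) (_ : Measurable G),
    ∫⁻ x : ∀ j, X j, G (fun j => N j (x j)) * ∏ j, g j (fun i => N i (x i), x j) ≤
      ∫⁻ c, G c * ∏ j, κ j c := by
  intro k
  induction k with
  | zero =>
    intro X _ _ N hN g hg κ hκ h G hG
    simp only [Finset.univ_eq_empty, Finset.prod_empty, mul_one]
    rw [lintegral_unique, lintegral_unique]
    have e1 : (volume : Measure (∀ j : Fin 0, X j)) univ = 1 := by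
      rw [volume_pi, Measure.pi_univ]; simp
    have e2 : (volume : Measure (Fin 0 → ℝ × ℝ)) univ = 1 := by
      rw [volume_pi, Measure.pi_univ]; simp
    rw [e1, e2]
    apply le_of_eq
    congr 2
    exact Subsingleton.elim _ _
  | succ k ih =>
    intro X _ _ N hN g hg κ hκ h G hG
    set e := MeasurableEquiv.piFinSuccAbove X 0 with he
    set e' := MeasurableEquiv.piFinSuccAbove (fun _ : Fin (k + 1) => ℝ × ℝ) 0 with he'
    have hmp := (volume_preserving_piFinSuccAbove X 0).symm e
    have hmp' := (volume_preserving_piFinSuccAbove (fun _ : Fin (k + 1) => ℝ × ℝ) 0).symm e'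
    -- facts about tuples
    have hs0 : ∀ p : X 0 × (∀ j : Fin k, X ((0 : Fin (k + 1)).succAbove j)), e.symm p 0 = p.1 :=
      fun p => rfl
    have hs1 : ∀ (p : X 0 × (∀ j : Fin k, X ((0 : Fin (k + 1)).succAbove j))) (j : Fin k),
        e.symm p ((0 : Fin (k + 1)).succAbove j) = p.2 j := by
      intro p j
      rw [he]
      simp only [MeasurableEquiv.piFinSuccAbove_symm_apply, Fin.insertNthEquiv, Equiv.coe_fn_mk]
      exact Fin.insertNth_apply_succAbove (α := X) 0 p.1 p.2 j
    have hc1 : ∀ (p : (ℝ × ℝ) × (Fin k → ℝ × ℝ)) (j : Fin k),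
        e'.symm p ((0 : Fin (k + 1)).succAbove j) = p.2 j := by
      intro p j
      rw [he']
      simp only [MeasurableEquiv.piFinSuccAbove_symm_apply, Fin.insertNthEquiv, Equiv.coe_fn_mk]
      exact Fin.insertNth_apply_succAbove (α := fun _ => ℝ × ℝ) 0 p.1 p.2 j
    have hc0 : ∀ p : (ℝ × ℝ) × (Fin k → ℝ × ℝ), e'.symm p 0 = p.1 := fun p => rfl
    have hNv : ∀ p : X 0 × (∀ j : Fin k, X ((0 : Fin (k + 1)).succAbove j)),
        (fun j => N j (e.symm p j)) = e'.symm (N 0 p.1, fun j => N _ (p.2 j)) := by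
      intro p
      funext j
      refine Fin.succAboveCases 0 ?_ (fun j => ?_) j
      · rw [hs0, hc0]
      · rw [hs1, hc1]
    have hu0 : ∀ (p : (ℝ × ℝ) × (Fin k → ℝ × ℝ)) (a : ℝ × ℝ),
        Function.update (e'.symm p) 0 a = e'.symm (a, p.2) := by
      intro p a
      funext j
      refine Fin.succAboveCases 0 ?_ (fun j => ?_) j
      · rw [Function.update_self, hc0]
      · rw [Function.update_of_ne (Fin.succAbove_ne 0 j), hc1, hc1]
    have hu1 : ∀ (p : (ℝ × ℝ) × (Fin k → ℝ × ℝ)) (i : Fin k) (a : ℝ × ℝ),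
        Function.update (e'.symm p) ((0 : Fin (k + 1)).succAbove i) a =
          e'.symm (p.1, Function.update p.2 i a) := by
      intro p i a
      funext j
      refine Fin.succAboveCases 0 ?_ (fun j => ?_) j
      · rw [Function.update_of_ne (Fin.succAbove_ne 0 i).symm, hc0, hc0]
      · rw [hc1]
        by_cases hij : j = i
        · subst hij
          rw [Function.update_self]
          show a = Function.update p.2 j a j
          rw [Function.update_self]
        · show _ = Function.update p.2 i a j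
          rw [Function.update_of_ne hij, Function.update_of_ne, hc1]
          intro h2
          exact hij (Fin.succAbove_right_injective h2)
    -- measurability
    have hemb : Measurable (fun x : ∀ j, X j => (fun j => N j (x j))) := by
      apply measurable_pi_lambda
      intro j
      exact (hN j).comp (measurable_pi_apply j)
    have hΦ : Measurable (fun x : ∀ j, X j => G (fun j => N j (x j)) *
        ∏ j, g j (fun i => N i (x i), x j)) := by
      refine (hG.comp hemb).mul (Finset.measurable_prod _ (fun j _ => ?_))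
      exact (hg j).comp (hemb.prodMk (measurable_pi_apply j))
    have hΨ : Measurable (fun c : Fin (k + 1) → ℝ × ℝ => G c * ∏ j, κ j c) :=
      hG.mul (Finset.measurable_prod _ (fun j _ => hκ j))
    rw [← hmp.lintegral_comp hΦ, ← hmp'.lintegral_comp hΨ]
    have hΦ' : Measurable (fun p : X 0 × (∀ j : Fin k, X ((0 : Fin (k + 1)).succAbove j)) =>
        G (fun j => N j (e.symm p j)) * ∏ j, g j (fun i => N i (e.symm p i), e.symm p j)) :=
      hΦ.comp hmp.measurable
    have hΨ' : Measurable (fun p : (ℝ × ℝ) × (Fin k → ℝ × ℝ) =>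
        G (e'.symm p) * ∏ j, κ j (e'.symm p)) := hΨ.comp hmp'.measurable
    rw [Measure.volume_eq_prod, Measure.volume_eq_prod,
      lintegral_prod _ hΦ'.aemeasurable, lintegral_prod_symm _ hΨ'.aemeasurable]
    -- first step
    set K : (ℝ × ℝ) → (Fin k → ℝ × ℝ) → ℝ≥0∞ := fun c0 c' =>
      ∏ j, κ ((0 : Fin (k + 1)).succAbove j) (e'.symm (c0, c')) with hK
    have hKm : Measurable (fun p : (ℝ × ℝ) × (Fin k → ℝ × ℝ) => K p.1 p.2) :=
      Finset.measurable_prod _ (fun j _ => (hκ _).comp hmp'.measurable)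
    have step1 : ∀ x0 : X 0, ∫⁻ x' : (∀ j : Fin k, X ((0 : Fin (k + 1)).succAbove j)),
        G (fun j => N j (e.symm (x0, x') j)) *
          ∏ j, g j (fun i => N i (e.symm (x0, x') i), e.symm (x0, x') j) ≤
        ∫⁻ c' : Fin k → ℝ × ℝ, (G (e'.symm (N 0 x0, c')) * g 0 (e'.symm (N 0 x0, c'), x0)) *
          K (N 0 x0) c' := by
      intro x0
      have hec : Measurable (fun c' : Fin k → ℝ × ℝ => e'.symm (N 0 x0, c')) :=
        e'.symm.measurable.comp (measurable_const.prodMk measurable_id)
      have h1 := ih (fun j => X ((0 : Fin (k + 1)).succAbove j)) (fun j => N _) (fun j => hN _)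
        (fun j p => g ((0 : Fin (k + 1)).succAbove j) (e'.symm (N 0 x0, p.1), p.2))
        (fun j => (hg _).comp ((hec.comp measurable_fst).prodMk measurable_snd))
        (fun j c' => κ ((0 : Fin (k + 1)).succAbove j) (e'.symm (N 0 x0, c')))
        (fun j => (hκ _).comp hec)
        (by
          intro j c' H hH
          have h2 := h ((0 : Fin (k + 1)).succAbove j) (e'.symm (N 0 x0, c')) H hH
          simp only [hu1] at h2
          exact h2)
        (fun c' => G (e'.symm (N 0 x0, c')) * g 0 (e'.symm (N 0 x0, c'), x0))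
        ((hG.comp hec).mul ((hg 0).comp (hec.prodMk measurable_const)))
      refine le_trans (le_of_eq ?_) h1
      refine lintegral_congr fun x' => ?_
      rw [Fin.prod_univ_succAbove _ 0, hNv (x0, x'), hs0]
      simp only [hs1]
      ring
    have hm2 : Measurable (fun p : X 0 × (Fin k → ℝ × ℝ) =>
        (G (e'.symm (N 0 p.1, p.2)) * g 0 (e'.symm (N 0 p.1, p.2), p.1)) * K (N 0 p.1) p.2) := by
      have hec : Measurable (fun p : X 0 × (Fin k → ℝ × ℝ) => e'.symm (N 0 p.1, p.2)) :=
        e'.symm.measurable.comp (((hN 0).comp measurable_fst).prodMk measurable_snd)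
      refine ((hG.comp hec).mul ((hg 0).comp (hec.prodMk measurable_fst))).mul ?_
      exact hKm.comp (((hN 0).comp measurable_fst).prodMk measurable_snd)
    calc ∫⁻ x0 : X 0, ∫⁻ x' : (∀ j : Fin k, X ((0 : Fin (k + 1)).succAbove j)),
          G (fun j => N j (e.symm (x0, x') j)) *
          ∏ j, g j (fun i => N i (e.symm (x0, x') i), e.symm (x0, x') j)
        ≤ ∫⁻ x0 : X 0, ∫⁻ c' : Fin k → ℝ × ℝ,
          (G (e'.symm (N 0 x0, c')) * g 0 (e'.symm (N 0 x0, c'), x0)) * K (N 0 x0) c' :=
          lintegral_mono step1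
      _ = ∫⁻ c' : Fin k → ℝ × ℝ, ∫⁻ x0 : X 0,
          (G (e'.symm (N 0 x0, c')) * g 0 (e'.symm (N 0 x0, c'), x0)) * K (N 0 x0) c' :=
          lintegral_lintegral_swap hm2.aemeasurable
      _ ≤ ∫⁻ c' : Fin k → ℝ × ℝ, ∫⁻ c0 : ℝ × ℝ, G (e'.symm (c0, c')) *
            ∏ j, κ j (e'.symm (c0, c')) := by
          apply lintegral_mono
          intro c'
          have h2 := h 0 (e'.symm ((0, 0), c')) (fun c0 => G (e'.symm (c0, c')) * K c0 c')
            (by
              have hec : Measurable (fun c0 : ℝ × ℝ => e'.symm (c0, c')) :=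
                e'.symm.measurable.comp (measurable_id.prodMk measurable_const)
              exact (hG.comp hec).mul (hKm.comp (measurable_id.prodMk measurable_const)))
          simp only [hu0] at h2
          calc ∫⁻ x0 : X 0, (G (e'.symm (N 0 x0, c')) * g 0 (e'.symm (N 0 x0, c'), x0)) *
                K (N 0 x0) c'
              = ∫⁻ x0 : X 0, G (e'.symm (N 0 x0, c')) * K (N 0 x0) c' *
                g 0 (e'.symm (N 0 x0, c'), x0) := by
                refine lintegral_congr fun x0 => ?_
                ring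
            _ ≤ _ := h2
            _ = _ := by
                refine lintegral_congr fun c0 => ?_
                rw [Fin.prod_univ_succAbove _ 0]
                ring

end Pool.Agent.W2helper94.KC
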