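import Pool.Agent.W2helper94.KC.D
import Pool.Agent.W2helper94.KC.F
import Pool.Agent.W2helper94.KC.G

set_option autoImplicit false

/-!
The integral over heights and over pairs of block norms.
-/

open MeasureTheory Set Metric
open scoped ENNReal NNReal

namespace Pool.Agent.W2helper94.KC

theorem bx_int {f : ℝ × ℝ → ℝ≥0∞} (hf : Measurable f) {M : ℝ≥0∞}
    (h : ∀ a ∈ Icc (0:ℝ) 1, ∫⁻ b in Icc (0:ℝ) 1, f (a, b) ≤ M) : ∫⁻ c, bx c * f c ≤ M := by
  rw [Measure.volume_eq_prod,
    lintegral_prod (fun c => bx c * f c) (measurable_bx.mul hf).aemeasurable]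
  calc ∫⁻ a, ∫⁻ b, bx (a, b) * f (a, b)
      ≤ ∫⁻ a, (Icc (0:ℝ) 1).indicator (fun _ => M) a := by
        apply lintegral_mono
        intro a
        show ∫⁻ b, bx (a, b) * f (a, b) ≤ (Icc (0:ℝ) 1).indicator (fun _ => M) a
        by_cases ha : a ∈ Icc (0:ℝ) 1
        · rw [indicator_of_mem ha]
          refine le_trans ?_ (h a ha)
          rw [← lintegral_indicator measurableSet_Icc]
          apply lintegral_mono
          intro b
          show bx (a, b) * f (a, b) ≤ (Icc (0:ℝ) 1).indicator (fun b => f (a, b)) b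
          by_cases hb : (a, b) ∈ Ioc (0:ℝ) 1 ×ˢ Ioc (0:ℝ) 1
          · rw [bx_of_mem hb, one_mul, indicator_of_mem]
            exact ⟨hb.2.1.le, hb.2.2⟩
          · rw [bx_of_not hb, zero_mul]; exact zero_le
        · have : ∀ b, bx (a, b) * f (a, b) = 0 := by
            intro b
            rw [bx_of_not, zero_mul]
            rintro ⟨h1, _⟩
            exact ha ⟨h1.1.le, h1.2⟩
          simp only [this, lintegral_zero]
          exact zero_le
    _ = M := by
        rw [lintegral_indicator_const measurableSet_Icc, Real.volume_Icc]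
        simp

/-- The star kernel. -/
noncomputable def hh (lam δ : ℝ) (c c' : ℝ × ℝ) : ℝ≥0∞ :=
  ENNReal.ofReal ((lam / 2 * |c.2 - c.1 * (c'.2 / c'.1)| + δ)⁻¹)

/-- The star inequality. -/
theorem star {k : ℕ} {lam δ A B : ℝ} (hl : 0 < lam) (hδ : 0 < δ) (hB : lam ≤ |B|)
    {c : Fin (k + 1) → ℝ × ℝ} (hc : ∀ j, 0 < (c j).1) :
    ∏ j, ker δ A B (c j).1 (c j).2 ≤ ∑ r, (ker δ A B (c r).1 (c r).2 *
      ∏ i, hh lam δ (c (r.succAbove i)) (c r)) := by
  obtain ⟨r, hr⟩ := Finite.exists_min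
    (fun j : Fin (k + 1) => |(|A| * (c j).1 - |B| * (c j).2)| / (c j).1)
  refine le_trans ?_ (Finset.single_le_sum (f := fun r => ker δ A B (c r).1 (c r).2 *
      ∏ i, hh lam δ (c (r.succAbove i)) (c r)) (fun _ _ => zero_le) (Finset.mem_univ r))
  rw [Fin.prod_univ_succAbove _ r]
  gcongr with i
  unfold ker hh
  apply ENNReal.ofReal_le_ofReal
  set j := r.succAbove i with hj
  have hr' := hr j
  have hj0 := hc j
  have hr0 := hc r
  set aj := (c j).1
  set bj := (c j).2
  set ar := (c r).1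
  set br := (c r).2
  have h1 : aj * (|(|A| * ar - |B| * br)| / ar) ≤ |(|A| * aj - |B| * bj)| := by
    have := mul_le_mul_of_nonneg_left hr' hj0.le
    simpa [mul_div_cancel₀, hj0.ne'] using this
  have h2 : |B| * |bj - aj * (br / ar)| ≤ 2 * |(|A| * aj - |B| * bj)| := by
    have e1 : |B| * |bj - aj * (br / ar)| = |(|B| * (bj - aj * (br / ar)))| := by
      rw [abs_mul, abs_abs]
    have e2 : |B| * (bj - aj * (br / ar)) =
        -(|A| * aj - |B| * bj) + aj * ((|A| * ar - |B| * br) / ar) := by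
      field_simp
      ring
    rw [e1, e2]
    calc _ ≤ |(-(|A| * aj - |B| * bj))| + |aj * ((|A| * ar - |B| * br) / ar)| := abs_add_le _ _
      _ = |(|A| * aj - |B| * bj)| + aj * (|(|A| * ar - |B| * br)| / ar) := by
          rw [abs_neg, abs_mul, abs_of_pos hj0, abs_div, abs_of_pos hr0]
      _ ≤ _ := by linarith
  apply inv_anti₀ (by positivity)
  have h3 : lam * |bj - aj * (br / ar)| ≤ |B| * |bj - aj * (br / ar)| := by gcongr
  linarith

/-- Indicator of `lam ≤ |A|` and `lam ≤ |B|`. -/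
noncomputable def chi (lam A B : ℝ) : ℝ≥0∞ := by
  classical
  exact if lam ≤ |A| ∧ lam ≤ |B| then 1 else 0

theorem chi_ne {lam A B : ℝ} (h : chi lam A B ≠ 0) : lam ≤ |A| ∧ lam ≤ |B| := by
  unfold chi at h
  by_contra h2
  rw [if_neg h2] at h
  exact h rfl

theorem chi_le (lam A B : ℝ) : chi lam A B ≤ 1 := by
  unfold chi
  split_ifs
  · exact le_refl _
  · exact zero_le

theorem chi_one {lam A B : ℝ} (h1 : lam ≤ |A|) (h2 : lam ≤ |B|) : chi lam A B = 1 := by
  unfold chi
  rw [if_pos ⟨h1, h2⟩]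

theorem measurable_chi {α : Type} [MeasurableSpace α] {lam : ℝ} {f g : α → ℝ} (hf : Measurable f)
    (hg : Measurable g) : Measurable (fun x => chi lam (f x) (g x)) := by
  unfold chi
  apply Measurable.ite _ measurable_const measurable_const
  exact (measurableSet_le measurable_const hf.abs).inter (measurableSet_le measurable_const hg.abs)

theorem measurable_ker {α : Type} [MeasurableSpace α] {δ : ℝ} {f g a b : α → ℝ} (hf : Measurable f)
    (hg : Measurable g) (ha : Measurable a) (hb : Measurable b) :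
    Measurable (fun x => ker δ (f x) (g x) (a x) (b x)) := by
  unfold ker
  exact ((((hf.abs.mul ha).sub (hg.abs.mul hb)).abs.add_const δ).inv).ennreal_ofReal

theorem measurable_hh {lam δ : ℝ} : Measurable (fun q : (ℝ × ℝ) × (ℝ × ℝ) => hh lam δ q.1 q.2) := by
  unfold hh
  fun_prop

/-- First components of the pairs. -/
def fsts {k : ℕ} (c : Fin k → ℝ × ℝ) (j : Fin k) : ℝ := (c j).1

/-- Second components of the pairs. -/
def snds {k : ℕ} (c : Fin k → ℝ × ℝ) (j : Fin k) : ℝ := (c j).2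

theorem measurable_fsts {k : ℕ} : Measurable (fsts (k := k)) := by
  unfold fsts; fun_prop

theorem measurable_snds {k : ℕ} : Measurable (snds (k := k)) := by
  unfold snds; fun_prop

/-- **The energy integral.** -/
theorem energy (k : ℕ) {H δ lam : ℝ} (hH : 0 ≤ H) (hδ : 0 < δ) (hl : 0 < lam) (hl1 : lam ≤ 1)
    {σ : (Fin (k + 1) → ℝ) → ℝ} (hσ : Measurable σ) :
    ∫⁻ s in Icc (-H) H, ∫⁻ c : Fin (k + 1) → ℝ × ℝ,
      chi lam (s - σ (fsts c)) (s - σ (snds c)) *
        ∏ j, (bx (c j) * ker δ (s - σ (fsts c)) (s - σ (snds c)) (c j).1 (c j).2) ≤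
      ENNReal.ofReal ((k + 1) * (16 * (1 + 4 * H)) * 4 ^ k * ell δ ^ (k + 2) * lam⁻¹ ^ k) := by
  have hl1' := one_le_ell hδ
  set K1 : ℝ := 8 * (1 + 4 * H) * ell δ with hK1
  have hK10 : 0 ≤ K1 := by positivity
  set Q : Fin (k + 1) → (Fin (k + 1) → ℝ × ℝ) → ℝ≥0∞ := fun r c =>
    bx (c r) * ∏ i, (bx (c (r.succAbove i)) * hh lam δ (c (r.succAbove i)) (c r)) with hQ
  have hcr : ∀ r : Fin (k + 1), Measurable (fun c : Fin (k + 1) → ℝ × ℝ => c r) :=
    fun r => measurable_pi_apply r
  have hQm : ∀ r, Measurable (Q r) := by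
    intro r
    refine (measurable_bx.comp (hcr r)).mul (Finset.measurable_prod _ (fun i _ => ?_))
    exact (measurable_bx.comp (hcr _)).mul (measurable_hh.comp ((hcr _).prodMk (hcr r)))
  have hAm : Measurable (fun q : ℝ × (Fin (k + 1) → ℝ × ℝ) => q.1 - σ (fsts q.2)) :=
    measurable_fst.sub (hσ.comp (measurable_fsts.comp measurable_snd))
  have hBm : Measurable (fun q : ℝ × (Fin (k + 1) → ℝ × ℝ) => q.1 - σ (snds q.2)) :=
    measurable_fst.sub (hσ.comp (measurable_snds.comp measurable_snd))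
  have hkm : ∀ r : Fin (k + 1), Measurable (fun q : ℝ × (Fin (k + 1) → ℝ × ℝ) =>
      ker δ (q.1 - σ (fsts q.2)) (q.1 - σ (snds q.2)) (q.2 r).1 (q.2 r).2) := by
    intro r
    exact measurable_ker hAm hBm (((hcr r).comp measurable_snd).fst)
      (((hcr r).comp measurable_snd).snd)
  -- pointwise
  have hpt : ∀ (s : ℝ) (c : Fin (k + 1) → ℝ × ℝ),
      chi lam (s - σ (fsts c)) (s - σ (snds c)) *
        ∏ j, (bx (c j) * ker δ (s - σ (fsts c)) (s - σ (snds c)) (c j).1 (c j).2) ≤
      ∑ r, ker δ (s - σ (fsts c)) (s - σ (snds c)) (c r).1 (c r).2 * Q r c := by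
    intro s c
    by_cases h1 : chi lam (s - σ (fsts c)) (s - σ (snds c)) = 0
    · rw [h1, zero_mul]; exact zero_le
    by_cases h2 : ∀ j, c j ∈ Ioc (0:ℝ) 1 ×ˢ Ioc (0:ℝ) 1
    · have h3 := star hl hδ (chi_ne h1).2 (A := s - σ (fsts c)) (fun j => (h2 j).1.1)
      calc chi lam (s - σ (fsts c)) (s - σ (snds c)) *
            ∏ j, (bx (c j) * ker δ (s - σ (fsts c)) (s - σ (snds c)) (c j).1 (c j).2)
          ≤ 1 * ∏ j, ker δ (s - σ (fsts c)) (s - σ (snds c)) (c j).1 (c j).2 := by
            gcongr with j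
            · exact chi_le _ _ _
            · rw [bx_of_mem (h2 j), one_mul]
        _ ≤ _ := by
            rw [one_mul]
            refine h3.trans (le_of_eq ?_)
            refine Finset.sum_congr rfl fun r _ => ?_
            simp only [hQ]
            rw [bx_of_mem (h2 r), one_mul]
            congr 1
            refine Finset.prod_congr rfl fun i _ => ?_
            rw [bx_of_mem (h2 _), one_mul]
    · push Not at h2
      obtain ⟨j, hj⟩ := h2
      rw [Finset.prod_eq_zero (Finset.mem_univ j) (by rw [bx_of_not hj, zero_mul]), mul_zero]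
      exact zero_le
  -- one term
  have hterm : ∀ r : Fin (k + 1), ∫⁻ c : Fin (k + 1) → ℝ × ℝ, ∫⁻ s in Icc (-H) H,
      ker δ (s - σ (fsts c)) (s - σ (snds c)) (c r).1 (c r).2 * Q r c ≤
      ENNReal.ofReal (K1 * (2 * ell δ)) * ENNReal.ofReal (4 * lam⁻¹ * ell δ) ^ k := by
    intro r
    set f : ℝ × ℝ → ℝ≥0∞ := fun c => ENNReal.ofReal (K1 * (|c.1 - c.2| + δ)⁻¹) with hf
    have hfm : Measurable f := by rw [hf]; fun_prop
    have h1 : ∀ c : Fin (k + 1) → ℝ × ℝ, ∫⁻ s in Icc (-H) H,
        ker δ (s - σ (fsts c)) (s - σ (snds c)) (c r).1 (c r).2 * Q r c ≤ f (c r) * Q r c := by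
      intro c
      rw [lintegral_mul_const]
      · by_cases h2 : c r ∈ Ioc (0:ℝ) 1 ×ˢ Ioc (0:ℝ) 1
        · gcongr
          exact lint_height h2.1.1.le h2.1.2 h2.2.1.le h2.2.2 hδ hH
        · simp only [hQ]
          rw [bx_of_not h2]; simp
      · exact (hkm r).comp (measurable_id.prodMk measurable_const)
    refine (lintegral_mono h1).trans ?_
    set e := MeasurableEquiv.piFinSuccAbove (fun _ : Fin (k + 1) => ℝ × ℝ) r with he
    have hmp := (volume_preserving_piFinSuccAbove (fun _ : Fin (k + 1) => ℝ × ℝ) r).symm e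
    have hc0 : ∀ p : (ℝ × ℝ) × (Fin k → ℝ × ℝ), e.symm p r = p.1 := by
      intro p
      rw [he]
      simp only [MeasurableEquiv.piFinSuccAbove_symm_apply, Fin.insertNthEquiv, Equiv.coe_fn_mk]
      exact Fin.insertNth_apply_same (α := fun _ => ℝ × ℝ) r p.1 p.2
    have hc1 : ∀ (p : (ℝ × ℝ) × (Fin k → ℝ × ℝ)) (j : Fin k),
        e.symm p (r.succAbove j) = p.2 j := by
      intro p j
      rw [he]
      simp only [MeasurableEquiv.piFinSuccAbove_symm_apply, Fin.insertNthEquiv, Equiv.coe_fn_mk]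
      exact Fin.insertNth_apply_succAbove (α := fun _ => ℝ × ℝ) r p.1 p.2 j
    have hm : Measurable (fun c : Fin (k + 1) → ℝ × ℝ => f (c r) * Q r c) :=
      (hfm.comp (hcr r)).mul (hQm r)
    rw [← hmp.lintegral_comp hm]
    have hm' : Measurable (fun p : (ℝ × ℝ) × (Fin k → ℝ × ℝ) => f (e.symm p r) * Q r (e.symm p)) :=
      hm.comp hmp.measurable
    rw [Measure.volume_eq_prod, lintegral_prod _ hm'.aemeasurable]
    have h2 : ∀ c0 : ℝ × ℝ, ∫⁻ c' : Fin k → ℝ × ℝ,
        f (e.symm (c0, c') r) * Q r (e.symm (c0, c')) ≤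
        bx c0 * f c0 * ENNReal.ofReal (4 * lam⁻¹ * ell δ) ^ k := by
      intro c0
      simp only [hQ, hc0, hc1]
      have hmi : ∀ i : Fin k, Measurable (fun c : ℝ × ℝ => bx c * hh lam δ c c0) := fun _ =>
        measurable_bx.mul (measurable_hh.comp (measurable_id.prodMk measurable_const))
      calc ∫⁻ c' : Fin k → ℝ × ℝ, f c0 * (bx c0 * ∏ i, (bx (c' i) * hh lam δ (c' i) c0))
          = ∫⁻ c' : Fin k → ℝ × ℝ, (bx c0 * f c0) * ∏ i, (bx (c' i) * hh lam δ (c' i) c0) := by
            refine lintegral_congr fun c' => ?_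
            ring
        _ = (bx c0 * f c0) * ∏ _i : Fin k, ∫⁻ c : ℝ × ℝ, bx c * hh lam δ c c0 := by
            rw [lintegral_const_mul, lint_prod' k (fun _ c => bx c * hh lam δ c c0) hmi]
            exact Finset.measurable_prod _ (fun i _ => (hmi i).comp (measurable_pi_apply i))
        _ ≤ (bx c0 * f c0) * ∏ _i : Fin k, ENNReal.ofReal (4 * lam⁻¹ * ell δ) := by
            gcongr
            apply bx_int (measurable_hh.comp (measurable_id.prodMk measurable_const))
            intro a _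
            have h3 := lint_unit (κ := lam / 2) (by positivity) (by linarith) hδ (a * (c0.2 / c0.1))
            refine h3.trans (ENNReal.ofReal_le_ofReal (le_of_eq ?_))
            field_simp
            ring
        _ = _ := by simp
    calc ∫⁻ c0 : ℝ × ℝ, ∫⁻ c' : Fin k → ℝ × ℝ, f (e.symm (c0, c') r) * Q r (e.symm (c0, c'))
        ≤ ∫⁻ c0 : ℝ × ℝ, bx c0 * f c0 * ENNReal.ofReal (4 * lam⁻¹ * ell δ) ^ k :=
          lintegral_mono h2
      _ = (∫⁻ c0 : ℝ × ℝ, bx c0 * f c0) * ENNReal.ofReal (4 * lam⁻¹ * ell δ) ^ k := by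
          rw [lintegral_mul_const]
          exact measurable_bx.mul hfm
      _ ≤ _ := by
          gcongr
          apply bx_int hfm
          intro a _
          have e3 : ∀ b : ℝ, f (a, b) = ENNReal.ofReal K1 * ENNReal.ofReal ((1 * |b - a| + δ)⁻¹) := by
            intro b
            simp only [hf]
            rw [ENNReal.ofReal_mul hK10, one_mul, abs_sub_comm]
          simp only [e3]
          rw [lintegral_const_mul' _ _ ENNReal.ofReal_ne_top, ENNReal.ofReal_mul hK10]
          gcongr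
          refine (lint_unit one_pos le_rfl hδ a).trans (ENNReal.ofReal_le_ofReal (le_of_eq ?_))
          ring
  calc ∫⁻ s in Icc (-H) H, ∫⁻ c : Fin (k + 1) → ℝ × ℝ,
      chi lam (s - σ (fsts c)) (s - σ (snds c)) *
        ∏ j, (bx (c j) * ker δ (s - σ (fsts c)) (s - σ (snds c)) (c j).1 (c j).2)
      ≤ ∫⁻ s in Icc (-H) H, ∫⁻ c : Fin (k + 1) → ℝ × ℝ,
        ∑ r, ker δ (s - σ (fsts c)) (s - σ (snds c)) (c r).1 (c r).2 * Q r c :=
        lintegral_mono fun s => lintegral_mono fun c => hpt s c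
    _ = ∑ r, ∫⁻ s in Icc (-H) H, ∫⁻ c : Fin (k + 1) → ℝ × ℝ,
        ker δ (s - σ (fsts c)) (s - σ (snds c)) (c r).1 (c r).2 * Q r c := by
        have h1 : ∀ s : ℝ, ∫⁻ c : Fin (k + 1) → ℝ × ℝ,
            ∑ r, ker δ (s - σ (fsts c)) (s - σ (snds c)) (c r).1 (c r).2 * Q r c =
            ∑ r, ∫⁻ c : Fin (k + 1) → ℝ × ℝ,
              ker δ (s - σ (fsts c)) (s - σ (snds c)) (c r).1 (c r).2 * Q r c := by
          intro s
          apply lintegral_finsetSum
          intro r _
          exact ((hkm r).comp (measurable_const.prodMk measurable_id)).mul (hQm r)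
        simp only [h1]
        apply lintegral_finsetSum
        intro r _
        have : Measurable (fun q : ℝ × (Fin (k + 1) → ℝ × ℝ) =>
            ker δ (q.1 - σ (fsts q.2)) (q.1 - σ (snds q.2)) (q.2 r).1 (q.2 r).2 * Q r q.2) :=
          (hkm r).mul ((hQm r).comp measurable_snd)
        exact this.lintegral_prod_right'
    _ = ∑ r, ∫⁻ c : Fin (k + 1) → ℝ × ℝ, ∫⁻ s in Icc (-H) H,
        ker δ (s - σ (fsts c)) (s - σ (snds c)) (c r).1 (c r).2 * Q r c := by
        refine Finset.sum_congr rfl fun r _ => ?_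
        apply lintegral_lintegral_swap
        exact ((hkm r).mul ((hQm r).comp measurable_snd)).aemeasurable
    _ ≤ ∑ _r : Fin (k + 1), ENNReal.ofReal (K1 * (2 * ell δ)) *
          ENNReal.ofReal (4 * lam⁻¹ * ell δ) ^ k :=
        Finset.sum_le_sum fun r _ => hterm r
    _ = _ := by
        rw [Finset.sum_const, Finset.card_univ, Fintype.card_fin, nsmul_eq_mul,
          ← ENNReal.ofReal_pow (by positivity), ← ENNReal.ofReal_mul (by positivity),
          ← ENNReal.ofReal_natCast, ← ENNReal.ofReal_mul (by positivity)]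
        congr 1
        rw [hK1]
        push_cast
        rw [mul_pow, mul_pow]
        ring

end Pool.Agent.W2helper94.KC
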