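import Pool.Agent.W2helper94.KC.H

set_option autoImplicit false

/-!
Pairs of directions.
-/

open MeasureTheory Set Metric
open scoped ENNReal NNReal

namespace Pool.Agent.W2helper94.KC

theorem curry_mp {k : ℕ} (m : Fin k → ℕ) (α : Type) [MeasureSpace α]
    [SigmaFinite (volume : Measure α)] :
    MeasurePreserving (MeasurableEquiv.piCurry (fun (j : Fin k) (_ : Fin (m j)) => α)) := by
  set e := MeasurableEquiv.piCurry (fun (j : Fin k) (_ : Fin (m j)) => α) with he
  have h : MeasurePreserving e.symm := by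
    refine ⟨e.symm.measurable, ?_⟩
    symm
    rw [volume_pi]
    refine Measure.pi_eq fun s _ => ?_
    rw [MeasurableEquiv.map_apply]
    have e1 : e.symm ⁻¹' (pi univ s) =
        pi univ (fun j : Fin k => pi univ (fun i : Fin (m j) => s ⟨j, i⟩)) := by
      ext f
      simp only [mem_preimage, mem_univ_pi]
      constructor
      · intro h j i
        exact h ⟨j, i⟩
      · rintro h ⟨j, i⟩
        exact h j i
    rw [e1, volume_pi, Measure.pi_pi]
    have e2 : ∀ j : Fin k, (volume : Measure (Fin (m j) → α)) (pi univ (fun i => s ⟨j, i⟩)) =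
        ∏ i, volume (s ⟨j, i⟩) := fun j => by rw [volume_pi, Measure.pi_pi]
    rw [Finset.prod_congr rfl (fun j _ => e2 j)]
    rw [Fintype.prod_sigma]
  exact h.symm e.symm

variable {k d : ℕ} {m : Fin k → ℕ}

/-- The blocks of a vector. -/
def blk (e : (Σ j, Fin (m j)) ≃ Fin d) (v : E d) (j : Fin k) : E (m j) :=
  WithLp.toLp 2 (fun i => v (e ⟨j, i⟩))

/-- The norms of the blocks of a vector. -/
noncomputable def bn (e : (Σ j, Fin (m j)) ≃ Fin d) (v : E d) (j : Fin k) : ℝ := ‖blk e v j‖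

/-- The blocks of a pair of vectors. -/
def T (e : (Σ j, Fin (m j)) ≃ Fin d) (z : E d × E d) (j : Fin k) (i : Fin (m j)) : ℝ × ℝ :=
  (z.1 (e ⟨j, i⟩), z.2 (e ⟨j, i⟩))

theorem T_mp (e : (Σ j, Fin (m j)) ≃ Fin d) : MeasurePreserving (T e) := by
  have h1 : MeasurePreserving (fun x : E d => (WithLp.ofLp x : Fin d → ℝ)) :=
    PiLp.volume_preserving_ofLp (Fin d)
  have h2 := h1.prod h1
  have h3 := (volume_measurePreserving_arrowProdEquivProdArrow ℝ ℝ (Fin d)).symm
    (MeasurableEquiv.arrowProdEquivProdArrow ℝ ℝ (Fin d))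
  have h4 := (volume_measurePreserving_piCongrLeft (fun _ : Fin d => ℝ × ℝ) e).symm
    (MeasurableEquiv.piCongrLeft (fun _ : Fin d => ℝ × ℝ) e)
  have h5 := curry_mp m (ℝ × ℝ)
  have h6 := h5.comp (h4.comp (h3.comp h2))
  exact h6

theorem measurable_blk (e : (Σ j, Fin (m j)) ≃ Fin d) (j : Fin k) :
    Measurable (fun v => blk e v j) := by
  unfold blk
  apply (WithLp.measurable_toLp 2 (Fin (m j) → ℝ)).comp
  fun_prop

theorem measurable_bn (e : (Σ j, Fin (m j)) ≃ Fin d) : Measurable (bn e) := by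
  unfold bn
  apply measurable_pi_lambda
  intro j
  exact (measurable_blk e j).norm

theorem norm_sq_blk (e : (Σ j, Fin (m j)) ≃ Fin d) (v : E d) : ‖v‖ ^ 2 = ∑ j, ‖blk e v j‖ ^ 2 := by
  rw [EuclideanSpace.norm_sq_eq, ← e.sum_comp, Fintype.sum_sigma]
  refine Finset.sum_congr rfl fun j _ => ?_
  rw [EuclideanSpace.norm_sq_eq]
  rfl

theorem norm_blk_le (e : (Σ j, Fin (m j)) ≃ Fin d) (v : E d) (j : Fin k) : ‖blk e v j‖ ≤ ‖v‖ := by
  have h := norm_sq_blk e v
  have h2 : ‖blk e v j‖ ^ 2 ≤ ‖v‖ ^ 2 := by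
    rw [h]
    exact Finset.single_le_sum (f := fun j => ‖blk e v j‖ ^ 2) (fun _ _ => sq_nonneg _)
      (Finset.mem_univ j)
  exact (sq_le_sq₀ (norm_nonneg _) (norm_nonneg _)).1 h2

theorem dim_eq (e : (Σ j, Fin (m j)) ≃ Fin d) : d = ∑ j, m j := by
  have := Fintype.card_congr e
  simpa using this.symm

theorem ic_le_prod (e : (Σ j, Fin (m j)) ≃ Fin d) (δ : ℝ) (v : E d) :
    ic δ v ≤ ∏ j, ic δ (blk e v j) := by
  by_cases h : ‖v‖ ≤ δ
  · rw [ic_of_le h]
    apply le_of_eq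
    symm
    exact Finset.prod_eq_one fun j _ => ic_of_le ((norm_blk_le e v j).trans h)
  · rw [ic_of_not h]; exact zero_le

end Pool.Agent.W2helper94.KC
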