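import Pool.Agent.W2helper94.KC.K

set_option autoImplicit false

/-!
The weight.
-/

open MeasureTheory Set Filter Topology ENNReal NNReal Metric

namespace Pool.Agent.W2helper94.KC

open Pool.Agent.H803R2.Kak Pool.Agent.H803R2.KakFTO Pool.Agent.H805R3.Kk
open Pool.Agent.H805R3.Kk.Gen (ind JJ rad rad_pos measurable_ind_comp ind_of_le ind_of_not JJ_def'
  schur_slice cauchy one_le_JJ JJ_ne_top lintegral_rpow_le1 moll_rpow_le1 sum_ne_top)

variable {k d : ℕ} {m : Fin (k + 1) → ℕ}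

/-- The family of lines. -/
noncomputable def fam (e : (Σ j, Fin (m j)) ≃ Fin d) (x : (Fin (k + 1) → ℝ) → Vec d)
    (σ : (Fin (k + 1) → ℝ) → ℝ) (v : Vec d) : Vec d := x (bn e v) - σ (bn e v) • v

/-- The heights of the vertices. -/
noncomputable def tau (e : (Σ j, Fin (m j)) ≃ Fin d) (σ : (Fin (k + 1) → ℝ) → ℝ) (v : Vec d) : ℝ :=
  σ (bn e v)

theorem measurable_tau (e : (Σ j, Fin (m j)) ≃ Fin d) {σ : (Fin (k + 1) → ℝ) → ℝ}
    (hσ : Measurable σ) : Measurable (tau e σ) := hσ.comp (measurable_bn e)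

theorem measurable_fam (e : (Σ j, Fin (m j)) ≃ Fin d) {x : (Fin (k + 1) → ℝ) → Vec d}
    {σ : (Fin (k + 1) → ℝ) → ℝ} (hx : Measurable x) (hσ : Measurable σ) :
    Measurable (fam e x σ) := by
  unfold fam
  exact (hx.comp (measurable_bn e)).sub ((hσ.comp (measurable_bn e)).smul measurable_id)

theorem ind_eq_ic (r : ℝ) (x : Vec d) : ind r x = ic r x := by
  by_cases h : ‖x‖ ≤ r
  · rw [ind_of_le h, ic_of_le h]
  · rw [ind_of_not h, ic_of_not h]

theorem oo_mul (lam A B : ℝ) : oo lam A * oo lam B = chi lam A B := by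
  by_cases hA : lam ≤ |A|
  · by_cases hB : lam ≤ |B|
    · rw [oo_one hA, oo_one hB, chi_one hA hB, one_mul]
    · rw [oo_zero hB, mul_zero]
      by_contra h
      exact hB (chi_ne (Ne.symm h)).2
  · rw [oo_zero hA, zero_mul]
    by_contra h
    exact hA (chi_ne (Ne.symm h)).1

theorem ball_ic (f : Vec d → ℝ≥0∞) :
    ∫⁻ v in closedBall (0:Vec d) 1, f v = ∫⁻ v, ic 1 v * f v := by
  rw [← lintegral_indicator measurableSet_closedBall]
  refine lintegral_congr fun v => ?_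
  by_cases h : ‖v‖ ≤ 1
  · rw [ic_of_le h, one_mul, indicator_of_mem (by simpa using h)]
  · rw [ic_of_not h, zero_mul, indicator_of_notMem (by simpa using h)]

theorem sec_eq (e : (Σ j, Fin (m j)) ≃ Fin d) (x : (Fin (k + 1) → ℝ) → Vec d)
    (σ : (Fin (k + 1) → ℝ) → ℝ) (v : Vec d) (t : ℝ) :
    fam e x σ v + t • v = x (bn e v) + (t - σ (bn e v)) • v := by
  unfold fam
  rw [sub_smul]
  abel

/-- The mean of the multiplicity. -/
theorem mean_Mu (e : (Σ j, Fin (m j)) ≃ Fin d) (hp : PairsBd e) {H : ℝ} (hH : 0 ≤ H) :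
    ∃ K : ℝ, 0 < K ∧ ∀ (x : (Fin (k + 1) → ℝ) → Vec d) (σ : (Fin (k + 1) → ℝ) → ℝ) (lam r : ℝ),
      Measurable x → Measurable σ → 0 < lam → lam ≤ 1 → 0 < r →
      ∫⁻ v in closedBall (0:Vec d) 1, Mu (fam e x σ) (tau e σ) H lam r v ≤
        ENNReal.ofReal (K * lam⁻¹ ^ (d - 1) * ell (2 * r) ^ (k + 2)) := by
  obtain ⟨C, hC, hp⟩ := hp
  set ω : ℝ := (volume (closedBall (0:Vec d) 1)).toReal with hω
  have hω0 : 0 < ω := ENNReal.toReal_pos (vol_pos one_pos).ne' (vol_lt_top).ne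
  have hωe : volume (closedBall (0:Vec d) 1) = ENNReal.ofReal ω := by
    rw [hω, ENNReal.ofReal_toReal (vol_lt_top).ne]
  refine ⟨2 * H * ω + C * (1 + 4 * H) * 2 ^ d / ω, by positivity, ?_⟩
  intro x σ lam r hx hσ hl hl1 hr
  have hb := measurable_fam e hx hσ
  have hτ := measurable_tau e hσ
  set b := fam e x σ with hbdef
  set τ := tau e σ with hτdef
  set V := volume (closedBall (0:Vec d) r) with hV
  have hV0 : V ≠ 0 := (vol_pos hr).ne'
  have hVe : V = ENNReal.ofReal (r ^ d * ω) := by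
    rw [hV, vol_ball_scale hr, hωe, ENNReal.ofReal_mul (by positivity), ENNReal.ofReal_pow hr.le]
  have hell := one_le_ell (by positivity : 0 < 2 * r)
  have hlinv : 1 ≤ lam⁻¹ := (one_le_inv₀ hl).2 hl1
  -- joint measurability
  have m3 : Measurable (fun q : (Vec d × ℝ) × Vec d => oo lam (q.1.2 - τ q.2) *
      ind (2 * r) ((b q.1.1 + q.1.2 • q.1.1) - (b q.2 + q.1.2 • q.2))) := by
    have m1 : Measurable (fun q : (Vec d × ℝ) × Vec d => q.1.1) := measurable_fst.comp measurable_fst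
    have m2 : Measurable (fun q : (Vec d × ℝ) × Vec d => q.1.2) := measurable_snd.comp measurable_fst
    refine (measurable_oo (m2.sub (hτ.comp measurable_snd))).mul (measurable_ind_comp ?_)
    exact ((hb.comp m1).add (m2.smul m1)).sub ((hb.comp measurable_snd).add (m2.smul measurable_snd))
  have m4 : Measurable (fun q : Vec d × ℝ => ∫⁻ w in closedBall (0:Vec d) 1, oo lam (q.2 - τ w) *
      ind (2 * r) ((b q.1 + q.2 • q.1) - (b w + q.2 • w))) := m3.lintegral_prod_right'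
  have m5 : Measurable (fun q : Vec d × ℝ => oo lam (q.2 - τ q.1) *
      ∫⁻ w in closedBall (0:Vec d) 1, oo lam (q.2 - τ w) *
      ind (2 * r) ((b q.1 + q.2 • q.1) - (b w + q.2 • w))) :=
    (measurable_oo (measurable_snd.sub (hτ.comp measurable_fst))).mul m4
  have hstep1 : ∀ v, Mu b τ H lam r v ≤ ENNReal.ofReal (2 * H) + V⁻¹ * ∫⁻ t in Icc (-H) H,
      oo lam (t - τ v) * ∫⁻ w in closedBall (0:Vec d) 1, oo lam (t - τ w) *
        ind (2 * r) ((b v + t • v) - (b w + t • w)) := by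
    intro v
    unfold Mu
    rw [int_Tt]
    calc ∫⁻ t in Icc (-H) H, oo lam (t - τ v) * mult b τ lam r v t
        ≤ ∫⁻ t in Icc (-H) H, (1 + V⁻¹ * (oo lam (t - τ v) *
            ∫⁻ w in closedBall (0:Vec d) 1, oo lam (t - τ w) *
            ind (2 * r) ((b v + t • v) - (b w + t • w)))) := by
          apply lintegral_mono
          intro t
          simp only [mult_eq hτ]
          rw [mul_add, mul_one, ← hV]
          apply add_le_add (chi_le _ _ _)
          apply le_of_eq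
          ring
      _ = (∫⁻ _t in Icc (-H) H, 1) + V⁻¹ * ∫⁻ t in Icc (-H) H, (oo lam (t - τ v) *
            ∫⁻ w in closedBall (0:Vec d) 1, oo lam (t - τ w) *
            ind (2 * r) ((b v + t • v) - (b w + t • w))) := by
          rw [lintegral_add_left measurable_const,
            lintegral_const_mul' _ _ (ENNReal.inv_ne_top.2 hV0)]
      _ ≤ _ := by
          gcongr
          rw [lintegral_one, Measure.restrict_apply_univ, Real.volume_Icc]
          apply le_of_eq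
          congr 1
          ring
  have hstep2 : ∫⁻ v in closedBall (0:Vec d) 1, ∫⁻ t in Icc (-H) H,
      oo lam (t - τ v) * ∫⁻ w in closedBall (0:Vec d) 1, oo lam (t - τ w) *
        ind (2 * r) ((b v + t • v) - (b w + t • w)) ≤
      ENNReal.ofReal (C * (1 + 4 * H) * (2 * r) ^ d * lam⁻¹ ^ (d - 1) * ell (2 * r) ^ (k + 2)) := by
    rw [lintegral_lintegral_swap m5.aemeasurable]
    refine le_trans (le_of_eq ?_) (hp H (2 * r) lam x σ hx hσ hH (by positivity) hl hl1)
    refine lintegral_congr fun t => ?_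
    have mP : Measurable (PP e x σ lam (2 * r) t) := by
      unfold PP
      have c1 : Measurable (fun z : E d × E d => bn e z.1) := (measurable_bn e).comp measurable_fst
      have c2 : Measurable (fun z : E d × E d => bn e z.2) := (measurable_bn e).comp measurable_snd
      refine ((measurable_chi ((hσ.comp c1).const_sub t) ((hσ.comp c2).const_sub t)).mul
        (((measurable_ic 1).comp measurable_fst).mul ((measurable_ic 1).comp measurable_snd))).mul
        ((measurable_ic _).comp ?_)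
      exact ((hx.comp c1).add (((hσ.comp c1).const_sub t).smul measurable_fst)).sub
        ((hx.comp c2).add (((hσ.comp c2).const_sub t).smul measurable_snd))
    rw [Measure.volume_eq_prod, lintegral_prod _ mP.aemeasurable, ball_ic]
    refine lintegral_congr fun v => ?_
    rw [ball_ic, ← mul_assoc, ← lintegral_const_mul']
    · refine lintegral_congr fun w => ?_
      unfold PP
      simp only
      rw [ind_eq_ic, hbdef, sec_eq, sec_eq, ← oo_mul, hτdef]
      unfold tau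
      ring
    · apply ENNReal.mul_ne_top
      · unfold ic
        refine ne_top_of_le_ne_top one_ne_top (indicator_le_self _ _ _)
      · exact ne_top_of_le_ne_top one_ne_top (chi_le _ _ _)
  calc ∫⁻ v in closedBall (0:Vec d) 1, Mu b τ H lam r v
      ≤ ∫⁻ v in closedBall (0:Vec d) 1, (ENNReal.ofReal (2 * H) + V⁻¹ * ∫⁻ t in Icc (-H) H,
      oo lam (t - τ v) * ∫⁻ w in closedBall (0:Vec d) 1, oo lam (t - τ w) *
        ind (2 * r) ((b v + t • v) - (b w + t • w))) := lintegral_mono hstep1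
    _ = ENNReal.ofReal (2 * H) * ENNReal.ofReal ω + V⁻¹ * ∫⁻ v in closedBall (0:Vec d) 1,
        ∫⁻ t in Icc (-H) H,
        oo lam (t - τ v) * ∫⁻ w in closedBall (0:Vec d) 1, oo lam (t - τ w) *
        ind (2 * r) ((b v + t • v) - (b w + t • w)) := by
        rw [lintegral_add_left measurable_const, lintegral_const, Measure.restrict_apply_univ, hωe,
          lintegral_const_mul' _ _ (ENNReal.inv_ne_top.2 hV0)]
    _ ≤ ENNReal.ofReal (2 * H) * ENNReal.ofReal ω + V⁻¹ *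
        ENNReal.ofReal (C * (1 + 4 * H) * (2 * r) ^ d * lam⁻¹ ^ (d - 1) *
          ell (2 * r) ^ (k + 2)) := by
        gcongr
    _ = ENNReal.ofReal (2 * H * ω + C * (1 + 4 * H) * 2 ^ d / ω *
          (lam⁻¹ ^ (d - 1) * ell (2 * r) ^ (k + 2))) := by
        rw [hVe, ← ENNReal.ofReal_inv_of_pos (by positivity), ← ENNReal.ofReal_mul (by positivity),
          ← ENNReal.ofReal_mul (by positivity), ← ENNReal.ofReal_add (by positivity) (by positivity)]
        congr 2
        rw [mul_pow]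
        field_simp
    _ ≤ _ := by
        apply ENNReal.ofReal_le_ofReal
        have h1 : 1 ≤ lam⁻¹ ^ (d - 1) * ell (2 * r) ^ (k + 2) :=
          one_le_mul_of_one_le_of_one_le (one_le_pow₀ hlinv) (one_le_pow₀ hell)
        have h2 : 0 ≤ 2 * H * ω := by positivity
        nlinarith

theorem ell_rad (κ : ℕ) : ell (2 * rad κ) ≤ 2 * ((κ:ℝ) + 1) := by
  unfold ell rad
  have e1 : 1 / (2 * (2 * (1 / 2 : ℝ) ^ κ)) = 2 ^ κ / 4 := by
    rw [one_div, one_div, inv_pow]
    field_simp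
    norm_num
  rw [e1]
  have h2 : (1:ℝ) ≤ 2 ^ κ := one_le_pow₀ (by norm_num)
  have h3 : Real.log (1 + 2 ^ κ / 4) ≤ Real.log (2 ^ (κ + 1)) := by
    apply Real.log_le_log (by positivity)
    rw [pow_succ]
    linarith
  rw [Real.log_pow] at h3
  have h4 := Real.log_two_lt_d9
  have h5 : ((κ + 1 : ℕ) : ℝ) * Real.log 2 ≤ (κ:ℝ) + 1 := by
    push_cast
    nlinarith [(Nat.cast_nonneg κ : (0:ℝ) ≤ κ)]
  linarith [(Nat.cast_nonneg κ : (0:ℝ) ≤ κ)]

/-- **The weight.** -/
theorem weight (e : (Σ j, Fin (m j)) ≃ Fin d) (hp : PairsBd e) {H : ℝ} (hH : 0 ≤ H) :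
    ∃ K : ℝ≥0∞, K ≠ ∞ ∧ ∀ (x : (Fin (k + 1) → ℝ) → Vec d) (σ : (Fin (k + 1) → ℝ) → ℝ),
      Measurable x → Measurable σ → ∃ W : Vec d → ℝ≥0∞, Measurable W ∧ (∀ v, 1 ≤ W v) ∧
        ∫⁻ v in closedBall (0:Vec d) 1, W v ≤ K ∧
        ∀ (κ i : ℕ), i < κ + 2 → ∀ v, (((κ:ℝ≥0∞) + 1) ^ (k + 5))⁻¹ *
          (ENNReal.ofReal (((1/2:ℝ) ^ i) ^ (d - 1)) *
            Mu (fam e x σ) (tau e σ) H ((1/2:ℝ) ^ i) (rad κ) v) ≤ W v := by
  obtain ⟨K0, hK0, hmean⟩ := mean_Mu e hp hH
  set S2 : ℝ≥0∞ := ∑' κ : ℕ, (((κ:ℝ≥0∞)+1)^2)⁻¹ with hS2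
  refine ⟨volume (closedBall (0:Vec d) 1) + ENNReal.ofReal (K0 * 2 ^ (k + 3)) * S2,
    ENNReal.add_ne_top.2 ⟨(vol_lt_top).ne, ENNReal.mul_ne_top ENNReal.ofReal_ne_top sum_ne_top⟩, ?_⟩
  intro x σ hx hσ
  have hb := measurable_fam e hx hσ
  have hτ := measurable_tau e hσ
  set b := fam e x σ with hbdef
  set τ := tau e σ with hτdef
  set g : ℕ → Vec d → ℝ≥0∞ := fun κ v => (((κ:ℝ≥0∞) + 1) ^ (k + 5))⁻¹ *
    ∑ i ∈ Finset.range (κ + 2), (ENNReal.ofReal (((1/2:ℝ) ^ i) ^ (d - 1)) *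
      Mu b τ H ((1/2:ℝ) ^ i) (rad κ) v) with hg
  have hgm : ∀ κ, Measurable (g κ) := by
    intro κ
    refine Measurable.const_mul ?_ _
    exact Finset.measurable_sum _ (fun i _ => (measurable_Mu hb hτ _ _ _).const_mul _)
  refine ⟨fun v => 1 + ∑' κ, g κ v, (Measurable.tsum hgm).const_add 1, fun v => le_self_add, ?_, ?_⟩
  · rw [lintegral_add_left measurable_const, lintegral_one, Measure.restrict_apply_univ,
      lintegral_tsum (fun κ => (hgm κ).aemeasurable), hS2, ← ENNReal.tsum_mul_left]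
    gcongr with κ
    have hκ1 : ((κ:ℝ≥0∞)+1) = ENNReal.ofReal ((κ:ℝ)+1) := by
      rw [ENNReal.ofReal_add (by positivity) (by norm_num)]
      simp
    simp only [hg]
    rw [lintegral_const_mul]
    swap
    · exact Finset.measurable_sum _ (fun i _ => (measurable_Mu hb hτ _ _ _).const_mul _)
    rw [lintegral_finsetSum _ (fun i _ => (measurable_Mu hb hτ _ _ _).const_mul _)]
    have h1 : ∀ i ∈ Finset.range (κ + 2), ∫⁻ v in closedBall (0:Vec d) 1,
        ENNReal.ofReal (((1/2:ℝ) ^ i) ^ (d - 1)) * Mu b τ H ((1/2:ℝ) ^ i) (rad κ) v ≤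
        ENNReal.ofReal (K0 * (2 * ((κ:ℝ) + 1)) ^ (k + 2)) := by
      intro i _
      have hli : (0:ℝ) < (1/2:ℝ) ^ i := by positivity
      rw [lintegral_const_mul _ (measurable_Mu hb hτ _ _ _)]
      calc ENNReal.ofReal (((1/2:ℝ) ^ i) ^ (d - 1)) *
            ∫⁻ v in closedBall (0:Vec d) 1, Mu b τ H ((1/2:ℝ) ^ i) (rad κ) v
          ≤ ENNReal.ofReal (((1/2:ℝ) ^ i) ^ (d - 1)) * ENNReal.ofReal (K0 *
            ((1/2:ℝ) ^ i)⁻¹ ^ (d - 1) * ell (2 * rad κ) ^ (k + 2)) := by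
            gcongr
            exact hmean x σ _ _ hx hσ hli (pow_le_one₀ (by norm_num) (by norm_num)) (rad_pos κ)
        _ = ENNReal.ofReal (K0 * ell (2 * rad κ) ^ (k + 2)) := by
            rw [← ENNReal.ofReal_mul (by positivity)]
            congr 1
            rw [inv_pow]
            field_simp
        _ ≤ _ := by
            apply ENNReal.ofReal_le_ofReal
            have := ell_rad κ
            have h0 := one_le_ell (by have := rad_pos κ; positivity : 0 < 2 * rad κ)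
            gcongr
    calc (((κ:ℝ≥0∞) + 1) ^ (k + 5))⁻¹ * ∑ i ∈ Finset.range (κ + 2),
          ∫⁻ v in closedBall (0:Vec d) 1,
          ENNReal.ofReal (((1/2:ℝ) ^ i) ^ (d - 1)) * Mu b τ H ((1/2:ℝ) ^ i) (rad κ) v
        ≤ (((κ:ℝ≥0∞) + 1) ^ (k + 5))⁻¹ * ∑ _i ∈ Finset.range (κ + 2),
            ENNReal.ofReal (K0 * (2 * ((κ:ℝ) + 1)) ^ (k + 2)) := by
          gcongr with i hi
          exact h1 i hi
      _ = ENNReal.ofReal ((((κ:ℝ) + 1) ^ (k + 5))⁻¹ *
            (((κ:ℝ) + 2) * (K0 * (2 * ((κ:ℝ) + 1)) ^ (k + 2)))) := by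
          rw [Finset.sum_const, Finset.card_range, nsmul_eq_mul, hκ1,
            ← ENNReal.ofReal_pow (by positivity), ← ENNReal.ofReal_inv_of_pos (by positivity),
            ← ENNReal.ofReal_natCast, ← ENNReal.ofReal_mul (by positivity),
            ← ENNReal.ofReal_mul (by positivity)]
          push_cast
          rfl
      _ ≤ ENNReal.ofReal (K0 * 2 ^ (k + 3) * (((κ:ℝ) + 1) ^ 2)⁻¹) := by
          apply ENNReal.ofReal_le_ofReal
          have h2 : (κ:ℝ) + 2 ≤ 2 * ((κ:ℝ) + 1) := by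
            have := (Nat.cast_nonneg κ : (0:ℝ) ≤ κ)
            linarith
          calc (((κ:ℝ) + 1) ^ (k + 5))⁻¹ * (((κ:ℝ) + 2) * (K0 * (2 * ((κ:ℝ) + 1)) ^ (k + 2)))
              ≤ (((κ:ℝ) + 1) ^ (k + 5))⁻¹ * ((2 * ((κ:ℝ) + 1)) *
                (K0 * (2 * ((κ:ℝ) + 1)) ^ (k + 2))) := by gcongr
            _ = K0 * 2 ^ (k + 3) * (((κ:ℝ) + 1) ^ 2)⁻¹ := by
                have h3 : (κ:ℝ) + 1 ≠ 0 := by positivity
                rw [mul_pow]
                field_simp
                ring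
      _ = _ := by
          rw [hκ1, ← ENNReal.ofReal_pow (by positivity), ← ENNReal.ofReal_inv_of_pos (by positivity),
            ← ENNReal.ofReal_mul (by positivity)]
  · intro κ i hi v
    calc (((κ:ℝ≥0∞) + 1) ^ (k + 5))⁻¹ * (ENNReal.ofReal (((1/2:ℝ) ^ i) ^ (d - 1)) *
            Mu b τ H ((1/2:ℝ) ^ i) (rad κ) v) ≤ g κ v := by
          simp only [hg]
          gcongr
          exact Finset.single_le_sum (f := fun i => ENNReal.ofReal (((1/2:ℝ) ^ i) ^ (d - 1)) *
            Mu b τ H ((1/2:ℝ) ^ i) (rad κ) v) (fun _ _ => zero_le) (Finset.mem_range.2 hi)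
      _ ≤ ∑' κ, g κ v := ENNReal.le_tsum κ
      _ ≤ _ := le_add_self

end Pool.Agent.W2helper94.KC
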