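import Pool.Agent.W2helper94.KC.L

set_option autoImplicit false

/-!
Powers of line integrals.
-/

open MeasureTheory Set Filter Topology ENNReal NNReal Metric

namespace Pool.Agent.W2helper94.KC

open Pool.Agent.H803R2.Kak Pool.Agent.H803R2.KakFTO Pool.Agent.H805R3.Kk
open Pool.Agent.H805R3.Kk.Gen (ind JJ rad rad_pos measurable_ind_comp ind_of_le ind_of_not JJ_def'
  schur_slice cauchy one_le_JJ JJ_ne_top lintegral_rpow_le1 moll_rpow_le1 sum_ne_top moll_compare)

variable {d : ℕ}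

theorem meas_line (b : Vec d → Vec d) (v : Vec d) : Measurable (fun t : ℝ => (b v + t • v, t)) :=
  (measurable_const.add (measurable_id.smul measurable_const)).prodMk measurable_id

/-- Passing from the exponent `p` to the exponent `2`. -/
theorem pow_two_of {p : ℝ} (hp : 2 ≤ p) {r : ℝ} (hr : 0 < r) {b : Vec d → Vec d}
    {F : Vec d × ℝ → ℝ≥0∞} (hF : Measurable F) (v : Vec d) {T T' : Set ℝ} (hTT : T' ⊆ T) {L : ℝ≥0∞}
    (hL : volume T' ≤ L) :
    (∫⁻ t in T', moll r F (b v + t • v, t)) ^ p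
      ≤ L ^ (p - 2) * (∫⁻ t in T, moll r (fun z => F z ^ (p/2)) (b v + t • v, t)) ^ 2 := by
  have hq : 1 ≤ p / 2 := by linarith
  have hG : Measurable (fun t : ℝ => moll r F (b v + t • v, t)) :=
    (measurable_moll hF).comp (meas_line b v)
  have h1 := lintegral_rpow_le1 (volume.restrict T') hq hG.aemeasurable
  rw [Measure.restrict_apply_univ] at h1
  have h2 : (∫⁻ t in T', moll r F (b v + t • v, t)) ^ (p/2)
      ≤ (∫⁻ t in T, moll r (fun z => F z ^ (p/2)) (b v + t • v, t)) * L ^ (p/2 - 1) := by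
    refine h1.trans ?_
    have h3 : ∫⁻ t in T', moll r F (b v + t • v, t) ^ (p/2) ≤
        ∫⁻ t in T, moll r (fun z => F z ^ (p/2)) (b v + t • v, t) :=
      (lintegral_mono_set hTT).trans (lintegral_mono fun t => moll_rpow_le1 hq hr hF _)
    have h4 : 0 ≤ p / 2 - 1 := by linarith
    gcongr
  calc (∫⁻ t in T', moll r F (b v + t • v, t)) ^ p
      = ((∫⁻ t in T', moll r F (b v + t • v, t)) ^ (p/2)) ^ 2 := by
        rw [← ENNReal.rpow_natCast, ← ENNReal.rpow_mul]
        congr 1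
        push_cast
        ring
    _ ≤ ((∫⁻ t in T, moll r (fun z => F z ^ (p/2)) (b v + t • v, t))
          * L ^ (p/2 - 1)) ^ 2 := by gcongr
    _ = L ^ (p - 2) * (∫⁻ t in T, moll r (fun z => F z ^ (p/2)) (b v + t • v, t)) ^ 2 := by
        rw [mul_pow, mul_comm]
        congr 1
        rw [← ENNReal.rpow_natCast, ← ENNReal.rpow_mul]
        congr 1
        push_cast
        ring

theorem moll_le_int {r : ℝ} {F : Vec d × ℝ → ℝ≥0∞} (x : Vec d) (t : ℝ) :
    moll r F (x, t) ≤ (volume (closedBall (0:Vec d) r))⁻¹ * ∫⁻ y, F (y, t) := by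
  unfold moll
  refine mul_le_mul' le_rfl ?_
  refine (setLIntegral_le_lintegral _ _).trans (le_of_eq ?_)
  exact lintegral_add_left_eq_self (fun y => F (y, t)) x

/-- The part of the line near a point. -/
theorem pow_near {p : ℝ} (hp : 1 ≤ p) {r : ℝ} (hr : 0 < r) {b : Vec d → Vec d}
    {F : Vec d × ℝ → ℝ≥0∞} (hF : Measurable F) (v : Vec d) {Z : Set ℝ} {L : ℝ≥0∞}
    (hL : volume Z ≤ L) :
    (∫⁻ t in Z, moll r F (b v + t • v, t)) ^ p
      ≤ L ^ (p - 1) * ((volume (closedBall (0:Vec d) r))⁻¹ * ∫⁻ q, F q ^ p) := by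
  have hG : Measurable (fun t : ℝ => moll r F (b v + t • v, t)) :=
    (measurable_moll hF).comp (meas_line b v)
  have h1 := lintegral_rpow_le1 (volume.restrict Z) hp hG.aemeasurable
  rw [Measure.restrict_apply_univ] at h1
  refine h1.trans ?_
  rw [mul_comm]
  have h4 : 0 ≤ p - 1 := by linarith
  gcongr
  have hFp : Measurable (fun z => F z ^ p) := hF.pow_const p
  have hV : (volume (closedBall (0:Vec d) r))⁻¹ ≠ ∞ := ENNReal.inv_ne_top.2 (vol_pos hr).ne'
  calc ∫⁻ t in Z, moll r F (b v + t • v, t) ^ p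
      ≤ ∫⁻ t, moll r (fun z => F z ^ p) (b v + t • v, t) :=
        (setLIntegral_le_lintegral _ _).trans (lintegral_mono fun t => moll_rpow_le1 hp hr hF _)
    _ ≤ ∫⁻ t, (volume (closedBall (0:Vec d) r))⁻¹ * ∫⁻ y, F (y, t) ^ p :=
        lintegral_mono fun t => moll_le_int _ _
    _ = _ := by
        rw [lintegral_const_mul' _ _ hV, Measure.volume_eq_prod, lintegral_prod_symm _
          hFp.aemeasurable]

theorem moll_zero' {r : ℝ} {F : Vec d × ℝ → ℝ≥0∞} {t : ℝ} (h : ∀ y, F (y, t) = 0) (x : Vec d) :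
    moll r F (x, t) = 0 := by
  simp [moll, h]

/-- The maximal function for functions living at bounded heights. -/
theorem lineMax_le' {δ : ℝ} (hδ : 0 < δ) (hδ1 : δ < 1) {r : ℝ} (h1 : 2 * δ ≤ r) (h2 : r ≤ 4 * δ)
    (b : Vec d → Vec d) {v : Vec d} (hv : ‖v‖ ≤ 1) {f : Space d → ℝ} (hf : Measurable f) {H : ℝ}
    (hfH : ∀ (y : Vec d) (t : ℝ), H < |t| → f (WithLp.toLp 2 (y, t)) = 0) :
    lineMax δ b f v ≤ (4 * 16 ^ d) * ∫⁻ t in Icc (-H) H,
      moll r (fun q : Vec d × ℝ => ‖f (WithLp.toLp 2 q)‖ₑ) (b v + t • v, t) := by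
  set F : Vec d × ℝ → ℝ≥0∞ := fun q => ‖f (WithLp.toLp 2 q)‖ₑ with hF
  calc lineMax δ b f v ≤ (4 * 8 ^ d) * ⨆ h : ℝ, ∫⁻ t in Icc h (h + 3),
        moll (2*δ) F (b v + t • v, t) := lineMax_le hδ hδ1 b hv hf
    _ ≤ (4 * 8 ^ d) * (2 ^ d * ∫⁻ t in Icc (-H) H, moll r F (b v + t • v, t)) := by
        gcongr
        apply iSup_le
        intro h
        calc ∫⁻ t in Icc h (h + 3), moll (2*δ) F (b v + t • v, t)
            ≤ ∫⁻ t in Icc h (h + 3), 2 ^ d * moll r F (b v + t • v, t) :=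
              lintegral_mono (fun t => moll_compare hδ h1 h2 F _ t)
          _ ≤ ∫⁻ t, 2 ^ d * moll r F (b v + t • v, t) := setLIntegral_le_lintegral _ _
          _ = 2 ^ d * ∫⁻ t, moll r F (b v + t • v, t) :=
              lintegral_const_mul' _ _ (ENNReal.pow_ne_top (by simp))
          _ = 2 ^ d * ∫⁻ t in Icc (-H) H, moll r F (b v + t • v, t) := by
              congr 1
              rw [← lintegral_indicator measurableSet_Icc]
              refine lintegral_congr fun t => ?_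
              by_cases ht : t ∈ Icc (-H) H
              · rw [indicator_of_mem ht]
              · rw [indicator_of_notMem ht]
                apply moll_zero'
                intro y
                have : f (WithLp.toLp 2 (y, t)) = 0 := by
                  apply hfH
                  by_contra hcon
                  exact ht (abs_le.1 (not_lt.1 hcon))
                simp [hF, this]
    _ = _ := by
        have : (16:ℝ≥0∞) ^ d = 8 ^ d * 2 ^ d := by rw [← mul_pow]; norm_num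
        rw [this]
        ring

/-- The shells. -/
def Sh (τ : Vec d → ℝ) (H : ℝ) (v : Vec d) (i : ℕ) : Set ℝ :=
  Tt τ H ((1/2:ℝ) ^ i) v ∩ {t | i = 0 ∨ |t - τ v| ≤ 2 * (1/2:ℝ) ^ i}

theorem shell_cover (τ : Vec d → ℝ) (H : ℝ) (v : Vec d) (κ : ℕ) :
    Icc (-H) H ⊆ (⋃ i ∈ Finset.range (κ + 2), Sh τ H v i) ∪ {t | |t - τ v| < (1/2:ℝ) ^ (κ + 1)} := by
  intro t ht
  by_cases h : |t - τ v| < (1/2:ℝ) ^ (κ + 1)
  · right; exact h
  left
  push Not at h
  classical
  have hex : ∃ i : ℕ, (1/2:ℝ) ^ i ≤ |t - τ v| := ⟨κ + 1, h⟩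
  set i := Nat.find hex with hi
  have h1 : (1/2:ℝ) ^ i ≤ |t - τ v| := Nat.find_spec hex
  have h2 : i ≤ κ + 1 := Nat.find_min' hex h
  simp only [mem_iUnion, Finset.mem_range]
  refine ⟨i, by omega, ⟨ht, h1⟩, ?_⟩
  rcases Nat.eq_zero_or_pos i with h0 | h0
  · left; exact h0
  · right
    have h3 := Nat.find_min hex (m := i - 1) (by omega)
    push Not at h3
    have h4 : (1/2:ℝ) ^ (i - 1) = 2 * (1/2:ℝ) ^ i := by
      obtain ⟨j, hj⟩ : ∃ j, i = j + 1 := ⟨i - 1, by omega⟩
      rw [hj, Nat.add_sub_cancel, pow_succ]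
      ring
    rw [← h4]
    exact h3.le

theorem vol_Sh (τ : Vec d → ℝ) {H : ℝ} (hH : 0 ≤ H) (v : Vec d) (i : ℕ) :
    volume (Sh τ H v i) ≤ ENNReal.ofReal ((2 * H + 4) * (1/2:ℝ) ^ i) := by
  rcases Nat.eq_zero_or_pos i with h0 | h0
  · subst h0
    calc volume (Sh τ H v 0) ≤ volume (Icc (-H) H) :=
          measure_mono (fun t ht => ht.1.1)
      _ ≤ _ := by
          rw [Real.volume_Icc]
          apply ENNReal.ofReal_le_ofReal
          rw [pow_zero]
          linarith
  · have hp : (0:ℝ) < (1/2:ℝ) ^ i := by positivity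
    calc volume (Sh τ H v i) ≤ volume (Icc (τ v - 2 * (1/2:ℝ) ^ i) (τ v + 2 * (1/2:ℝ) ^ i)) := by
          apply measure_mono
          rintro t ⟨_, h1 | h1⟩
          · omega
          · have := abs_le.1 h1
            constructor <;> linarith [this.1, this.2]
      _ ≤ _ := by
          rw [Real.volume_Icc]
          apply ENNReal.ofReal_le_ofReal
          nlinarith

theorem vol_Z (τ : Vec d → ℝ) (v : Vec d) (lam : ℝ) :
    volume {t : ℝ | |t - τ v| < lam} ≤ ENNReal.ofReal (2 * lam) := by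
  have : {t : ℝ | |t - τ v| < lam} = ball (τ v) lam := by
    ext t
    rw [mem_ball, Real.dist_eq]
    rfl
  rw [this, Real.volume_ball]

end Pool.Agent.W2helper94.KC
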