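import Pool.Agent.W2helper94.KC.S
import Pool.Agent.W2helper94.KC.C

set_option autoImplicit false

/-!
Pairs of circles.
-/

open MeasureTheory Set Metric
open scoped ENNReal NNReal

namespace Pool.Agent.W2helper94.KC

theorem NN2_key : ∃ C : ℝ, 0 < C ∧ ∀ (y : E 2) (α β δ : ℝ), 0 < δ → δ ≤ |α| → |α| ≤ |β| →
    12 * δ ≤ ‖y‖ → NN y α β δ ≤ ENNReal.ofReal (C * δ ^ 2) *
      gs ((‖y‖ ^ 2 - (α - β) ^ 2) * (‖y‖ ^ 2 - (α + β) ^ 2)) := by
  obtain ⟨C, hC, hcap⟩ := cap_int (m := 1)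
  obtain ⟨C2, hC2, hband⟩ := band2
  refine ⟨C * (C2 * 120), by positivity, fun y α β δ hδ hδα hαβ hy => ?_⟩
  have hα' : 0 < |α| := by linarith
  have hα : α ≠ 0 := abs_pos.1 hα'
  have hβ' : 0 < |β| := by linarith
  have hβ : β ≠ 0 := abs_pos.1 hβ'
  have hn1 : ∀ θ : sphere (0 : E 2) 1, ‖(θ : E 2)‖ = 1 := fun θ => by simp
  have hy0 : 0 < ‖y‖ := by linarith
  set e : E 2 := ‖y‖⁻¹ • y with he
  have he1 : ‖e‖ = 1 := by
    rw [he, norm_smul, norm_inv, norm_norm, inv_mul_cancel₀ hy0.ne']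
  set τ : ℝ := (‖y‖ ^ 2 + β ^ 2 - α ^ 2) / (2 * β * ‖y‖) with hτ
  set ε : ℝ := 3 * δ * |α| / (2 * |β| * ‖y‖) with hε
  have hε0 : 0 < ε := by positivity
  have hε1 : ε ≤ 1 / 8 := by
    rw [hε, div_le_iff₀ (by positivity)]
    nlinarith
  have hms : MeasurableSet {φ : sphere (0 : E 2) 1 | |inner ℝ e (φ : E 2) - τ| ≤ ε} := by
    have m1 : Measurable (fun w : sphere (0 : E 2) 1 => |inner ℝ e (w : E 2) - τ|) := by
      fun_prop
    exact measurableSet_le m1 measurable_const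
  have hin : ∀ θ φ : sphere (0 : E 2) 1,
      ‖y + α • (θ : E 2) - β • (φ : E 2)‖ ≤ δ → |inner ℝ e (φ : E 2) - τ| ≤ ε := by
    intro θ φ h
    have hα1 : ‖α • (θ : E 2)‖ = |α| := by rw [norm_smul, hn1, mul_one, Real.norm_eq_abs]
    have h1 : |(‖y - β • (φ : E 2)‖ - |α|)| ≤ δ := by
      rw [← hα1, ← norm_neg (α • (θ : E 2))]
      refine (abs_norm_sub_norm_le _ _).trans ?_
      have : y - β • (φ : E 2) - -(α • (θ : E 2)) =
          y + α • (θ : E 2) - β • (φ : E 2) := by abel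
      rw [this]
      exact h
    have h2 := abs_le.1 h1
    have h3 : |‖y - β • (φ : E 2)‖ ^ 2 - α ^ 2| ≤ 3 * δ * |α| := by
      have e1 : ‖y - β • (φ : E 2)‖ ^ 2 - α ^ 2 =
          (‖y - β • (φ : E 2)‖ - |α|) * (‖y - β • (φ : E 2)‖ + |α|) := by
        rw [← sq_abs α]; ring
      rw [e1, abs_mul, abs_of_nonneg (by positivity : 0 ≤ ‖y - β • (φ : E 2)‖ + |α|)]
      calc _ ≤ δ * (3 * |α|) := by
            apply mul_le_mul h1 _ (by positivity) hδ.le
            linarith [h2.2]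
        _ = _ := by ring
    have h4 : ‖y - β • (φ : E 2)‖ ^ 2 =
        ‖y‖ ^ 2 - 2 * (β * inner ℝ y (φ : E 2)) + β ^ 2 := by
      rw [@norm_sub_sq_real, inner_smul_right, norm_smul, hn1, mul_one, Real.norm_eq_abs, sq_abs]
    have h5 : inner ℝ e (φ : E 2) = ‖y‖⁻¹ * inner ℝ y (φ : E 2) := by
      rw [he, inner_smul_left]
      simp
    rw [hε, le_div_iff₀ (by positivity)]
    have e2 : (2 * |β| * ‖y‖) = |2 * β * ‖y‖| := by
      rw [abs_mul, abs_mul, abs_of_pos (by norm_num : (0:ℝ) < 2), abs_of_pos hy0]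
    rw [e2, ← abs_mul]
    have e3 : (inner ℝ e (φ : E 2) - τ) * (2 * β * ‖y‖) =
        -(‖y - β • (φ : E 2)‖ ^ 2 - α ^ 2) := by
      rw [h4, h5, hτ]
      field_simp
      ring
    rw [e3, abs_neg]
    exact h3
  have hNN : NN y α β δ ≤ ENNReal.ofReal (C * (δ / |α|)) *
      sg 2 {φ : sphere (0 : E 2) 1 | |inner ℝ e (φ : E 2) - τ| ≤ ε} := by
    unfold NN
    rw [lintegral_prod_symm _ (meas_arg y α β δ).aemeasurable]
    calc ∫⁻ φ, ∫⁻ θ, ic δ (y + α • (θ : E 2) - β • (φ : E 2)) ∂(sg 2) ∂(sg 2)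
        ≤ ∫⁻ φ, {φ : sphere (0 : E 2) 1 | |inner ℝ e (φ : E 2) - τ| ≤ ε}.indicator
            (fun _ => ENNReal.ofReal (C * (δ / |α|))) φ ∂(sg 2) := by
          apply lintegral_mono
          intro φ
          by_cases hφ : φ ∈ {φ : sphere (0 : E 2) 1 | |inner ℝ e (φ : E 2) - τ| ≤ ε}
          · simp only
            rw [indicator_of_mem hφ]
            have e : ∀ θ : sphere (0 : E 2) 1,
                y + α • (θ : E 2) - β • (φ : E 2) =
                (y - β • (φ : E 2)) + α • (θ : E 2) := fun θ => by abel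
            simp only [e]
            have h := hcap (y - β • (φ : E 2)) α δ hα hδ
            rw [pow_one] at h
            exact h
          · simp only
            rw [indicator_of_notMem hφ]
            have hz : ∀ θ : sphere (0 : E 2) 1,
                ic δ (y + α • (θ : E 2) - β • (φ : E 2)) = 0 :=
              fun θ => ic_of_not (fun h => hφ (hin θ φ h))
            simp only [hz, lintegral_zero, le_refl]
      _ = _ := lintegral_indicator_const hms _
  have hgs : gs (1 - τ ^ 2) = ENNReal.ofReal (2 * |β| * ‖y‖) *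
      gs ((‖y‖ ^ 2 - (α - β) ^ 2) * (‖y‖ ^ 2 - (α + β) ^ 2)) := by
    have hsq : gs ((2 * β * ‖y‖) ^ 2) = (ENNReal.ofReal (2 * |β| * ‖y‖))⁻¹ := by
      unfold gs
      rw [abs_pow, Real.sqrt_sq (abs_nonneg _), abs_mul, abs_mul,
        abs_of_pos (by norm_num : (0:ℝ) < 2), abs_of_pos hy0]
    have h1 : gs ((1 - τ ^ 2) * (2 * β * ‖y‖) ^ 2) =
        gs ((‖y‖ ^ 2 - (α - β) ^ 2) * (‖y‖ ^ 2 - (α + β) ^ 2)) := by
      rw [← gs_neg]
      congr 1
      rw [hτ]
      field_simp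
      ring
    rw [← h1, gs_mul, hsq, mul_left_comm, ENNReal.mul_inv_cancel, mul_one]
    · rw [Ne, ENNReal.ofReal_eq_zero, not_le]; positivity
    · exact ENNReal.ofReal_ne_top
  calc NN y α β δ ≤ ENNReal.ofReal (C * (δ / |α|)) *
        sg 2 {φ : sphere (0 : E 2) 1 | |inner ℝ e (φ : E 2) - τ| ≤ ε} := hNN
    _ ≤ ENNReal.ofReal (C * (δ / |α|)) * (ENNReal.ofReal C2 *
        (ENNReal.ofReal (40 * ε) * (ENNReal.ofReal (2 * |β| * ‖y‖) *
        gs ((‖y‖ ^ 2 - (α - β) ^ 2) * (‖y‖ ^ 2 - (α + β) ^ 2))))) := by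
        gcongr
        refine (hband e τ ε he1 hε0).trans ?_
        gcongr
        rw [← hgs]
        exact ww_int hε0 hε1
    _ = ENNReal.ofReal (C * (δ / |α|) * (C2 * (40 * ε * (2 * |β| * ‖y‖)))) *
        gs ((‖y‖ ^ 2 - (α - β) ^ 2) * (‖y‖ ^ 2 - (α + β) ^ 2)) := by
        rw [ENNReal.ofReal_mul (by positivity : 0 ≤ C * (δ / |α|)), ENNReal.ofReal_mul hC2.le,
          ENNReal.ofReal_mul (by positivity : 0 ≤ 40 * ε)]
        ring
    _ = _ := by
        congr 2
        rw [hε]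
        field_simp
        ring

/-- **Pairs of circles.** -/
theorem NN2 : ∃ C : ℝ, 0 < C ∧ ∀ (y : E 2) (α β δ : ℝ), 0 < δ → δ ≤ |α| → δ ≤ |β| →
    12 * δ ≤ ‖y‖ → NN y α β δ ≤ ENNReal.ofReal (C * δ ^ 2) *
      gs ((‖y‖ ^ 2 - (α - β) ^ 2) * (‖y‖ ^ 2 - (α + β) ^ 2)) := by
  obtain ⟨C, hC, h⟩ := NN2_key
  refine ⟨C, hC, fun y α β δ hδ hα hβ hy => ?_⟩
  rcases le_total |α| |β| with h1 | h1
  · exact h y α β δ hδ hα h1 hy
  · rw [NN_swap]
    have h2 := h (-y) β α δ hδ hβ h1 (by rwa [norm_neg])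
    rw [norm_neg] at h2
    have e1 : (β - α) ^ 2 = (α - β) ^ 2 := by ring
    have e2 : (β + α) ^ 2 = (α + β) ^ 2 := by ring
    rw [e1, e2] at h2
    exact h2

theorem gs_sum {x α β lam a b : ℝ} (ha : 0 < a) (ha1 : a ≤ 1) (hb : 0 < b) (hb1 : b ≤ 1)
    (hl : 0 < lam) (hα : lam * a ≤ |α|) (hβ : lam * b ≤ |β|) :
    ENNReal.ofReal (a * b) * gs ((x ^ 2 - (α - β) ^ 2) * (x ^ 2 - (α + β) ^ 2)) ≤
      ENNReal.ofReal lam⁻¹ * (gs (x ^ 2 - (α - β) ^ 2) + gs (x ^ 2 - (α + β) ^ 2)) := by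
  have hα0 : 0 < |α| := lt_of_lt_of_le (by positivity) hα
  have hβ0 : 0 < |β| := lt_of_lt_of_le (by positivity) hβ
  have hr : 0 < 2 * (|α| * |β|) := by positivity
  have h1 : 2 * (|α| * |β|) ≤ |x ^ 2 - (α - β) ^ 2| ∨ 2 * (|α| * |β|) ≤ |x ^ 2 - (α + β) ^ 2| := by
    by_contra hcon
    push Not at hcon
    obtain ⟨h2, h3⟩ := hcon
    have h4 : |4 * (α * β)| ≤ |x ^ 2 - (α - β) ^ 2| + |x ^ 2 - (α + β) ^ 2| := by
      have e : 4 * (α * β) = (x ^ 2 - (α - β) ^ 2) - (x ^ 2 - (α + β) ^ 2) := by ring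
      rw [e]
      exact abs_sub _ _
    rw [abs_mul, abs_mul, abs_of_pos (by norm_num : (0:ℝ) < 4)] at h4
    linarith
  have h2 := gs_mul_le hr h1
  calc ENNReal.ofReal (a * b) * gs ((x ^ 2 - (α - β) ^ 2) * (x ^ 2 - (α + β) ^ 2))
      ≤ ENNReal.ofReal (a * b) * (ENNReal.ofReal ((√(2 * (|α| * |β|)))⁻¹) *
        (gs (x ^ 2 - (α - β) ^ 2) + gs (x ^ 2 - (α + β) ^ 2))) := by gcongr
    _ = ENNReal.ofReal (a * b * (√(2 * (|α| * |β|)))⁻¹) *
        (gs (x ^ 2 - (α - β) ^ 2) + gs (x ^ 2 - (α + β) ^ 2)) := by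
        rw [← mul_assoc, ← ENNReal.ofReal_mul (by positivity)]
    _ ≤ _ := by
        gcongr
        have h3 : lam * (a * b) ≤ √(2 * (|α| * |β|)) := by
          apply Real.le_sqrt_of_sq_le
          have h4 : (lam * a) * (lam * b) ≤ |α| * |β| := by gcongr
          have h5 : a * b ≤ 1 := by nlinarith
          have h6 : 0 < a * b := by positivity
          calc (lam * (a * b)) ^ 2 = (lam * a) * (lam * b) * (a * b) := by ring
            _ ≤ (lam * a) * (lam * b) * 1 := by gcongr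
            _ ≤ 2 * (|α| * |β|) := by
                rw [mul_one]
                have : 0 < |α| * |β| := by positivity
                linarith
        have h4 : 0 < √(2 * (|α| * |β|)) := Real.sqrt_pos.2 hr
        rw [← div_eq_mul_inv, div_le_iff₀ h4, inv_mul_eq_div, le_div_iff₀ hl]
        linarith

/-- The integral of the inverse square root over the heights. -/
theorem int_line {x κ c δ H : ℝ} (hδ : 0 < δ) (hx : 12 * δ ≤ x) (hκ : κ ≠ 0) (hκ2 : |κ| ≤ 2)
    (hH : 0 ≤ H) : ∫⁻ s in Icc (-H) H, gs (x ^ 2 - (κ * s + c) ^ 2) ≤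
      ENNReal.ofReal (30 * (1 + 4 * H) * ell δ * |κ|⁻¹) := by
  have hx0 : 0 < x := by linarith
  have hl1 := one_le_ell hδ
  have hκ0 : 0 < |κ| := abs_pos.2 hκ
  have hpt : ∀ l : ℝ, gs (x ^ 2 - l ^ 2) ≤
      ENNReal.ofReal ((√x)⁻¹) * (ft (3 * x) (l - x) + ft (3 * x) (l + x)) +
        ENNReal.ofReal (4 * (|l| + δ)⁻¹) := by
    intro l
    rcases le_or_gt |l| (2 * x) with h | h
    · have e1 : x ^ 2 - l ^ 2 = -((l - x) * (l + x)) := by ring
      have h1 := abs_le.1 h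
      have h2 : |l - x| ≤ 3 * x := by rw [abs_le]; constructor <;> linarith [h1.1, h1.2]
      have h3 : |l + x| ≤ 3 * x := by rw [abs_le]; constructor <;> linarith [h1.1, h1.2]
      rw [e1, gs_neg, ft_of_le h2, ft_of_le h3]
      refine le_trans (gs_mul_le hx0 ?_) le_self_add
      rcases le_total 0 l with h4 | h4
      · right
        rw [abs_of_nonneg (by linarith)]
        linarith
      · left
        rw [abs_of_nonpos (by linarith)]
        linarith
    · refine le_trans ?_ le_add_self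
      have h1 : |x ^ 2 - l ^ 2| = |l| ^ 2 - x ^ 2 := by
        rw [← sq_abs l, abs_sub_comm, abs_of_nonneg]
        nlinarith
      have h2 : (|l| / 2) ^ 2 ≤ |x ^ 2 - l ^ 2| := by
        rw [h1]
        nlinarith
      have hl0 : 0 < |l| := by linarith
      refine (gs_le (by positivity) h2).trans (ENNReal.ofReal_le_ofReal ?_)
      rw [Real.sqrt_sq (by positivity)]
      rw [inv_div, div_eq_mul_inv]
      have h3 : |l|⁻¹ ≤ 2 * (|l| + δ)⁻¹ := by
        rw [← div_eq_mul_inv, le_div_iff₀ (by positivity), inv_mul_le_iff₀ hl0]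
        linarith
      linarith
  have hf : ∀ z : ℝ, ∫⁻ s in Icc (-H) H, ft (3 * x) (κ * s + z) ≤
      ENNReal.ofReal (|κ|⁻¹ * (4 * √(3 * x))) := by
    intro z
    calc ∫⁻ s in Icc (-H) H, ft (3 * x) (κ * s + z) ≤ ∫⁻ s, ft (3 * x) (κ * s + z) :=
          setLIntegral_le_lintegral _ _
      _ = ENNReal.ofReal |κ|⁻¹ * ∫⁻ u, ft (3 * x) u := lint_lin (measurable_ft _) hκ _
      _ ≤ ENNReal.ofReal |κ|⁻¹ * ENNReal.ofReal (4 * √(3 * x)) := by
          gcongr
          exact int_ft (by positivity)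
      _ = _ := (ENNReal.ofReal_mul (by positivity)).symm
  have hlog : ∫⁻ s in Icc (-H) H, ENNReal.ofReal (4 * (|κ * s + c| + δ)⁻¹) ≤
      ENNReal.ofReal (8 * (1 + 4 * H) * ell δ * |κ|⁻¹) := by
    have e1 : ∀ s : ℝ, |κ * s + c| = |κ| * |s - -c / κ| := by
      intro s
      rw [← abs_mul]
      congr 1
      field_simp
      ring
    simp only [e1]
    have h3 := lint_interval hκ0 hδ (by linarith : 0 ≤ 2 * H) (-H) (-c / κ)
    have e2 : -H + 2 * H = H := by ring
    rw [e2] at h3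
    have e3 : ∀ s : ℝ, ENNReal.ofReal (4 * (|κ| * |s - -c / κ| + δ)⁻¹) =
        ENNReal.ofReal 4 * ENNReal.ofReal ((|κ| * |s - -c / κ| + δ)⁻¹) := fun s =>
      ENNReal.ofReal_mul (by norm_num)
    simp only [e3]
    rw [lintegral_const_mul' _ _ ENNReal.ofReal_ne_top]
    refine (mul_le_mul' le_rfl h3).trans ?_
    rw [← ENNReal.ofReal_mul (by norm_num)]
    apply ENNReal.ofReal_le_ofReal
    have h5 : Real.log (1 + |κ| * (2 * H) / δ) ≤ (1 + 4 * H) * ell δ := by
      have h6 : Real.log (1 + |κ| * (2 * H) / δ) ≤ Real.log ((1 + 4 * H) * (1 + 1 / δ)) := by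
        apply Real.log_le_log (by positivity)
        have : |κ| * (2 * H) / δ ≤ 4 * H / δ := by
          apply div_le_div_of_nonneg_right _ hδ.le
          nlinarith
        have e3 : (1 + 4 * H) * (1 + 1 / δ) = 1 + 4 * H + 1 / δ + 4 * H / δ := by ring
        rw [e3]
        have : 0 < 1 / δ := by positivity
        linarith
      rw [Real.log_mul (by positivity) (by positivity)] at h6
      have h7 : Real.log (1 + 4 * H) ≤ 4 * H := by
        have := Real.log_le_sub_one_of_pos (by positivity : 0 < 1 + 4 * H)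
        linarith
      unfold ell
      have h8 : 0 ≤ Real.log (1 + 1 / δ) := Real.log_nonneg (by
        have : 0 < 1 / δ := by positivity
        linarith)
      nlinarith
    calc 4 * (2 * |κ|⁻¹ * Real.log (1 + |κ| * (2 * H) / δ))
        ≤ 4 * (2 * |κ|⁻¹ * ((1 + 4 * H) * ell δ)) := by gcongr
      _ = _ := by ring
  have hm1 : ∀ z : ℝ, Measurable (fun s : ℝ => ft (3 * x) (κ * s + z)) := fun z => by
    have h := (measurable_ft (3 * x)).comp ((measurable_id.const_mul κ).add_const z)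
    simpa only [Function.comp_def, id] using h
  calc ∫⁻ s in Icc (-H) H, gs (x ^ 2 - (κ * s + c) ^ 2)
      ≤ ∫⁻ s in Icc (-H) H, (ENNReal.ofReal ((√x)⁻¹) *
        (ft (3 * x) (κ * s + (c - x)) + ft (3 * x) (κ * s + (c + x))) +
        ENNReal.ofReal (4 * (|κ * s + c| + δ)⁻¹)) := by
        apply lintegral_mono
        intro s
        have h := hpt (κ * s + c)
        have e1 : κ * s + c - x = κ * s + (c - x) := by ring
        have e2 : κ * s + c + x = κ * s + (c + x) := by ring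
        rw [e1, e2] at h
        exact h
    _ = ENNReal.ofReal ((√x)⁻¹) * ((∫⁻ s in Icc (-H) H, ft (3 * x) (κ * s + (c - x))) +
        ∫⁻ s in Icc (-H) H, ft (3 * x) (κ * s + (c + x))) +
        ∫⁻ s in Icc (-H) H, ENNReal.ofReal (4 * (|κ * s + c| + δ)⁻¹) := by
        rw [lintegral_add_left, lintegral_const_mul, lintegral_add_left (hm1 _)]
        · exact (hm1 _).add (hm1 _)
        · exact ((hm1 _).add (hm1 _)).const_mul _
    _ ≤ ENNReal.ofReal ((√x)⁻¹) * (ENNReal.ofReal (|κ|⁻¹ * (4 * √(3 * x))) +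
        ENNReal.ofReal (|κ|⁻¹ * (4 * √(3 * x)))) +
        ENNReal.ofReal (8 * (1 + 4 * H) * ell δ * |κ|⁻¹) := by
        gcongr
        · exact hf _
        · exact hf _
    _ = ENNReal.ofReal ((√x)⁻¹ * (|κ|⁻¹ * (4 * √(3 * x)) + |κ|⁻¹ * (4 * √(3 * x))) +
        8 * (1 + 4 * H) * ell δ * |κ|⁻¹) := by
        rw [← ENNReal.ofReal_add (by positivity) (by positivity),
          ← ENNReal.ofReal_mul (by positivity),
          ← ENNReal.ofReal_add (by positivity) (by positivity)]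
    _ ≤ _ := by
        apply ENNReal.ofReal_le_ofReal
        have h1 : √(3 * x) = √3 * √x := Real.sqrt_mul (by norm_num) x
        have hsx : 0 < √x := Real.sqrt_pos.2 hx0
        have h2 : (√x)⁻¹ * (|κ|⁻¹ * (4 * √(3 * x)) + |κ|⁻¹ * (4 * √(3 * x))) = 8 * √3 * |κ|⁻¹ := by
          rw [h1]
          field_simp
          ring
        have h3 : √3 ≤ 2 := by
          rw [Real.sqrt_le_iff]
          constructor <;> norm_num
        have h4 : 1 ≤ (1 + 4 * H) * ell δ := by nlinarith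
        rw [h2]
        calc 8 * √3 * |κ|⁻¹ + 8 * (1 + 4 * H) * ell δ * |κ|⁻¹
            ≤ 8 * 2 * |κ|⁻¹ + 8 * (1 + 4 * H) * ell δ * |κ|⁻¹ := by gcongr
          _ ≤ 8 * 2 * |κ|⁻¹ * ((1 + 4 * H) * ell δ) + 8 * (1 + 4 * H) * ell δ * |κ|⁻¹ := by
              exact add_le_add (le_mul_of_one_le_right (by positivity) h4) le_rfl
          _ = 24 * ((1 + 4 * H) * ell δ * |κ|⁻¹) := by ring
          _ ≤ 30 * ((1 + 4 * H) * ell δ * |κ|⁻¹) := by
              gcongr
              norm_num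
          _ = _ := by ring

end Pool.Agent.W2helper94.KC
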