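import Pool.Agent.W2helper94.KC.P3
import Pool.Agent.W2helper94.KC.H

set_option autoImplicit false

/-!
Pairs of circles: the integral over the heights.
-/

open MeasureTheory Set Metric
open scoped ENNReal NNReal

namespace Pool.Agent.W2helper94.KC

theorem NN_zero {y : E 2} {α β δ : ℝ} (h : ‖y‖ + δ < |(|α| - |β|)|) : NN y α β δ = 0 := by
  unfold NN
  have hz : ∀ p : sphere (0 : E 2) 1 × sphere (0 : E 2) 1,
      ic δ (y + α • (p.1 : E 2) - β • (p.2 : E 2)) = 0 := by
    intro p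
    apply ic_of_not
    intro h1
    have n1 : ‖(p.1 : E 2)‖ = 1 := by simp
    have n2 : ‖(p.2 : E 2)‖ = 1 := by simp
    have hα1 : ‖α • (p.1 : E 2)‖ = |α| := by rw [norm_smul, n1, mul_one, Real.norm_eq_abs]
    have hβ1 : ‖β • (p.2 : E 2)‖ = |β| := by rw [norm_smul, n2, mul_one, Real.norm_eq_abs]
    have h2 : |(|α| - |β|)| ≤ ‖α • (p.1 : E 2) - β • (p.2 : E 2)‖ := by
      rw [← hα1, ← hβ1]
      exact abs_norm_sub_norm_le _ _
    have h3 : α • (p.1 : E 2) - β • (p.2 : E 2) = (y + α • (p.1 : E 2) - β • (p.2 : E 2)) - y := by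
      abel
    rw [h3] at h2
    have h4 := norm_sub_le (y + α • (p.1 : E 2) - β • (p.2 : E 2)) y
    linarith
  simp only [hz, lintegral_zero]

theorem abs_abs_sub_cases (u v : ℝ) : |(|u| - |v|)| = |u - v| ∨ |(|u| - |v|)| = |u + v| := by
  rcases abs_choice u with h4 | h4 <;> rcases abs_choice v with h5 | h5 <;> rw [h4, h5]
  · left; rfl
  · right; congr 1; ring
  · right; rw [← abs_neg]; congr 1; ring
  · left; rw [← abs_neg]; congr 1; ring

theorem pair2 : ∃ C : ℝ, 0 < C ∧ ∀ (y : E 2) (p q a b δ lam H : ℝ),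
    0 < a → a ≤ 1 → 0 < b → b ≤ 1 → 0 < δ → δ ≤ 1 → 0 < lam → 0 ≤ H →
    ∫⁻ s in Icc (-H) H, chi lam (s - p) (s - q) *
      (ENNReal.ofReal (a * b) * NN y ((s - p) * a) ((s - q) * b) δ) ≤
      ENNReal.ofReal (C * (1 + 4 * H) * δ ^ 2 * lam⁻¹ * ell δ * (|a - b| + δ)⁻¹) := by
  obtain ⟨C1, hC1, hP1⟩ := P1 (m := 1)
  obtain ⟨C2, hC2, hP2⟩ := NN2
  refine ⟨104 * C1 + 8 * C1 + 120 * C2, by positivity, ?_⟩
  intro y p q a b δ lam H ha ha1 hb hb1 hδ hδ1 hl hH
  have hell := one_le_ell hδ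
  have hab0 := abs_nonneg (a - b)
  have hD : 0 < |a - b| + δ := by positivity
  have hHe : 1 ≤ (1 + 4 * H) * ell δ := by nlinarith
  -- trivial pointwise bounds
  have hA : ∀ s : ℝ, chi lam (s - p) (s - q) ≠ 0 →
      ENNReal.ofReal (a * b) * NN y ((s - p) * a) ((s - q) * b) δ ≤
        ENNReal.ofReal (b * (C1 * δ * lam⁻¹)) := by
    intro s hs
    obtain ⟨h1, h2⟩ := chi_ne hs
    have hsp : 0 < |s - p| := by linarith
    have hα : (s - p) * a ≠ 0 := mul_ne_zero (abs_pos.1 hsp) ha.ne'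
    refine (mul_le_mul' le_rfl (hP1 y ((s - p) * a) ((s - q) * b) δ hα hδ)).trans ?_
    rw [← ENNReal.ofReal_mul (by positivity)]
    apply ENNReal.ofReal_le_ofReal
    rw [pow_one, abs_mul, abs_of_pos ha]
    have h3 : δ / (|s - p| * a) ≤ δ / (lam * a) := by gcongr
    calc a * b * (C1 * (δ / (|s - p| * a))) ≤ a * b * (C1 * (δ / (lam * a))) := by gcongr
      _ = _ := by field_simp
  have hB : ∀ s : ℝ, chi lam (s - p) (s - q) ≠ 0 →
      ENNReal.ofReal (a * b) * NN y ((s - p) * a) ((s - q) * b) δ ≤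
        ENNReal.ofReal (a * (C1 * δ * lam⁻¹)) := by
    intro s hs
    obtain ⟨h1, h2⟩ := chi_ne hs
    have hsp : 0 < |s - q| := by linarith
    have hα : (s - q) * b ≠ 0 := mul_ne_zero (abs_pos.1 hsp) hb.ne'
    rw [NN_swap]
    refine (mul_le_mul' le_rfl (hP1 (-y) ((s - q) * b) ((s - p) * a) δ hα hδ)).trans ?_
    rw [← ENNReal.ofReal_mul (by positivity)]
    apply ENNReal.ofReal_le_ofReal
    rw [pow_one, abs_mul, abs_of_pos hb]
    have h3 : δ / (|s - q| * b) ≤ δ / (lam * b) := by gcongr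
    calc a * b * (C1 * (δ / (|s - q| * b))) ≤ a * b * (C1 * (δ / (lam * b))) := by gcongr
      _ = _ := by field_simp
  rcases le_or_gt |a - b| δ with hcase | hcase
  · -- close radii
    have hinv : δ⁻¹ ≤ 2 * (|a - b| + δ)⁻¹ := by
      rw [← div_eq_mul_inv, le_div_iff₀ hD, inv_mul_le_iff₀ hδ]
      linarith
    calc ∫⁻ s in Icc (-H) H, chi lam (s - p) (s - q) *
          (ENNReal.ofReal (a * b) * NN y ((s - p) * a) ((s - q) * b) δ)
        ≤ ∫⁻ _s in Icc (-H) H, ENNReal.ofReal (C1 * δ * lam⁻¹) := by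
          apply lintegral_mono
          intro s
          show chi lam (s - p) (s - q) *
            (ENNReal.ofReal (a * b) * NN y ((s - p) * a) ((s - q) * b) δ) ≤ _
          by_cases hs : chi lam (s - p) (s - q) = 0
          · rw [hs, zero_mul]; exact zero_le
          · refine (mul_le_mul' (chi_le _ _ _) (hA s hs)).trans ?_
            rw [one_mul]
            apply ENNReal.ofReal_le_ofReal
            calc b * (C1 * δ * lam⁻¹) ≤ 1 * (C1 * δ * lam⁻¹) := by gcongr
              _ = _ := one_mul _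
      _ = ENNReal.ofReal (C1 * δ * lam⁻¹ * (2 * H)) := by
          rw [lintegral_const, Measure.restrict_apply_univ, Real.volume_Icc,
            ← ENNReal.ofReal_mul (by positivity)]
          congr 1
          ring
      _ ≤ _ := by
          apply ENNReal.ofReal_le_ofReal
          calc C1 * δ * lam⁻¹ * (2 * H) = C1 * δ ^ 2 * lam⁻¹ * (2 * H) * δ⁻¹ := by field_simp
            _ ≤ C1 * δ ^ 2 * lam⁻¹ * (2 * H) * (2 * (|a - b| + δ)⁻¹) := by gcongr
            _ = C1 * (4 * H) * δ ^ 2 * lam⁻¹ * 1 * (|a - b| + δ)⁻¹ := by ring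
            _ ≤ _ := by
                gcongr
                · linarith
                · linarith
  -- distant radii
  have hab : 0 < |a - b| := by linarith
  have hκ1 : a - b ≠ 0 := abs_pos.1 hab
  have hκ2 : a + b ≠ 0 := by positivity
  have hκ1' : |a - b| ≤ 2 := by rw [abs_le]; constructor <;> linarith
  have hκ2' : |a + b| ≤ 2 := by rw [abs_of_pos (by positivity)]; linarith
  have hle : |a - b| ≤ |a + b| := by
    rw [abs_of_pos (by positivity : 0 < a + b), abs_le]
    constructor <;> linarith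
  have hinv : |a - b|⁻¹ ≤ 2 * (|a - b| + δ)⁻¹ := by
    rw [← div_eq_mul_inv, le_div_iff₀ hD, inv_mul_le_iff₀ hab]
    linarith
  have hinv2 : |a + b|⁻¹ ≤ 2 * (|a - b| + δ)⁻¹ := (inv_anti₀ hab hle).trans hinv
  have hone : 1 ≤ 3 * (|a - b| + δ)⁻¹ := by
    rw [← div_eq_mul_inv, le_div_iff₀ hD]
    linarith
  set c1 : ℝ := -(p * a) + q * b with hc1
  set c2 : ℝ := -(p * a) - q * b with hc2
  have el1 : ∀ s : ℝ, (s - p) * a - (s - q) * b = (a - b) * s + c1 := fun s => by rw [hc1]; ring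
  have el2 : ∀ s : ℝ, (s - p) * a + (s - q) * b = (a + b) * s + c2 := fun s => by rw [hc2]; ring
  rcases lt_or_ge ‖y‖ (12 * δ) with hy | hy
  · -- concentric circles
    set J : ℝ → ℝ≥0∞ := (Icc (-(13 * δ)) (13 * δ)).indicator (fun _ => 1) with hJ
    have hJm : Measurable J := measurable_const.indicator measurableSet_Icc
    have hJ1 : ∀ u : ℝ, |u| ≤ 13 * δ → J u = 1 := fun u hu =>
      indicator_of_mem (mem_Icc.2 (abs_le.1 hu)) _
    have hpt : ∀ s : ℝ, chi lam (s - p) (s - q) *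
        (ENNReal.ofReal (a * b) * NN y ((s - p) * a) ((s - q) * b) δ) ≤
        ENNReal.ofReal (C1 * δ * lam⁻¹) * (J ((a - b) * s + c1) + J ((a + b) * s + c2)) := by
      intro s
      by_cases hs : chi lam (s - p) (s - q) = 0
      · rw [hs, zero_mul]; exact zero_le
      by_cases h13 : |(|(s - p) * a| - |(s - q) * b|)| ≤ 13 * δ
      · have h1 : chi lam (s - p) (s - q) *
            (ENNReal.ofReal (a * b) * NN y ((s - p) * a) ((s - q) * b) δ) ≤
            ENNReal.ofReal (C1 * δ * lam⁻¹) := by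
          refine (mul_le_mul' (chi_le _ _ _) (hA s hs)).trans ?_
          rw [one_mul]
          apply ENNReal.ofReal_le_ofReal
          calc b * (C1 * δ * lam⁻¹) ≤ 1 * (C1 * δ * lam⁻¹) := by gcongr
            _ = _ := one_mul _
        refine h1.trans ?_
        have h2 : 1 ≤ J ((a - b) * s + c1) + J ((a + b) * s + c2) := by
          rcases abs_abs_sub_cases ((s - p) * a) ((s - q) * b) with h3 | h3
          · rw [h3, el1] at h13
            rw [hJ1 _ h13]
            exact le_self_add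
          · rw [h3, el2] at h13
            rw [hJ1 _ h13]
            exact le_add_self
        calc ENNReal.ofReal (C1 * δ * lam⁻¹) = ENNReal.ofReal (C1 * δ * lam⁻¹) * 1 :=
              (mul_one _).symm
          _ ≤ _ := by gcongr
      · rw [NN_zero (by linarith [not_le.1 h13]), mul_zero, mul_zero]
        exact zero_le
    have hm : ∀ κ c : ℝ, Measurable (fun s : ℝ => J (κ * s + c)) := fun κ c => by
      have h := hJm.comp ((measurable_id.const_mul κ).add_const c)
      simpa only [Function.comp_def, id] using h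
    calc ∫⁻ s in Icc (-H) H, chi lam (s - p) (s - q) *
          (ENNReal.ofReal (a * b) * NN y ((s - p) * a) ((s - q) * b) δ)
        ≤ ∫⁻ s, ENNReal.ofReal (C1 * δ * lam⁻¹) *
          (J ((a - b) * s + c1) + J ((a + b) * s + c2)) :=
          (setLIntegral_le_lintegral _ _).trans (lintegral_mono hpt)
      _ = ENNReal.ofReal (C1 * δ * lam⁻¹) * (ENNReal.ofReal (2 * (13 * δ) * |a - b|⁻¹) +
          ENNReal.ofReal (2 * (13 * δ) * |a + b|⁻¹)) := by
          rw [lintegral_const_mul' _ _ ENNReal.ofReal_ne_top, lintegral_add_left (hm _ _),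
            hJ, meas_lin hκ1, meas_lin hκ2]
      _ = ENNReal.ofReal (C1 * δ * lam⁻¹ * (2 * (13 * δ) * |a - b|⁻¹ +
          2 * (13 * δ) * |a + b|⁻¹)) := by
          rw [← ENNReal.ofReal_add (by positivity) (by positivity),
            ← ENNReal.ofReal_mul (by positivity)]
      _ ≤ _ := by
          apply ENNReal.ofReal_le_ofReal
          calc C1 * δ * lam⁻¹ * (2 * (13 * δ) * |a - b|⁻¹ + 2 * (13 * δ) * |a + b|⁻¹)
              ≤ C1 * δ * lam⁻¹ * (2 * (13 * δ) * (2 * (|a - b| + δ)⁻¹) +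
                2 * (13 * δ) * (2 * (|a - b| + δ)⁻¹)) := by gcongr
            _ = (104 * C1) * δ ^ 2 * lam⁻¹ * (|a - b| + δ)⁻¹ * 1 := by ring
            _ ≤ (104 * C1 + 8 * C1 + 120 * C2) * δ ^ 2 * lam⁻¹ * (|a - b| + δ)⁻¹ *
                ((1 + 4 * H) * ell δ) := by
                gcongr
                nlinarith
            _ = _ := by ring
  · -- distant centres
    set J : ℝ → ℝ≥0∞ := (Icc (-δ) δ).indicator (fun _ => 1) with hJ
    have hJm : Measurable J := measurable_const.indicator measurableSet_Icc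
    have hJ1 : ∀ u : ℝ, |u| ≤ δ → J u = 1 := fun u hu =>
      indicator_of_mem (mem_Icc.2 (abs_le.1 hu)) _
    have hpt : ∀ s : ℝ, chi lam (s - p) (s - q) *
        (ENNReal.ofReal (a * b) * NN y ((s - p) * a) ((s - q) * b) δ) ≤
        ENNReal.ofReal (a * (C1 * δ * lam⁻¹)) * J (a * s + -(p * a)) +
        (ENNReal.ofReal (b * (C1 * δ * lam⁻¹)) * J (b * s + -(q * b)) +
        ENNReal.ofReal (C2 * δ ^ 2 * lam⁻¹) * (gs (‖y‖ ^ 2 - ((a - b) * s + c1) ^ 2) +
          gs (‖y‖ ^ 2 - ((a + b) * s + c2) ^ 2))) := by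
      intro s
      by_cases hs : chi lam (s - p) (s - q) = 0
      · rw [hs, zero_mul]; exact zero_le
      obtain ⟨hs1, hs2⟩ := chi_ne hs
      by_cases h1 : |(s - p) * a| ≤ δ
      · have e1 : (s - p) * a = a * s + -(p * a) := by ring
        rw [e1] at h1
        refine le_trans ?_ le_self_add
        rw [hJ1 _ h1, mul_one]
        refine (mul_le_mul' (chi_le _ _ _) (hB s hs)).trans ?_
        rw [one_mul]
      by_cases h2 : |(s - q) * b| ≤ δ
      · have e1 : (s - q) * b = b * s + -(q * b) := by ring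
        rw [e1] at h2
        refine le_trans ?_ (le_self_add.trans le_add_self)
        rw [hJ1 _ h2, mul_one]
        refine (mul_le_mul' (chi_le _ _ _) (hA s hs)).trans ?_
        rw [one_mul]
      refine le_trans ?_ (le_add_self.trans le_add_self)
      have h3 := hP2 y ((s - p) * a) ((s - q) * b) δ hδ (not_le.1 h1).le (not_le.1 h2).le hy
      have h4 := gs_sum (x := ‖y‖) (α := (s - p) * a) (β := (s - q) * b) ha ha1 hb hb1 hl
        (by rw [abs_mul, abs_of_pos ha]; gcongr) (by rw [abs_mul, abs_of_pos hb]; gcongr)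
      rw [el1, el2] at h3 h4
      calc chi lam (s - p) (s - q) *
            (ENNReal.ofReal (a * b) * NN y ((s - p) * a) ((s - q) * b) δ)
          ≤ 1 * (ENNReal.ofReal (a * b) * (ENNReal.ofReal (C2 * δ ^ 2) *
            gs ((‖y‖ ^ 2 - ((a - b) * s + c1) ^ 2) * (‖y‖ ^ 2 - ((a + b) * s + c2) ^ 2)))) := by
            gcongr
            exact chi_le _ _ _
        _ = ENNReal.ofReal (C2 * δ ^ 2) * (ENNReal.ofReal (a * b) *
            gs ((‖y‖ ^ 2 - ((a - b) * s + c1) ^ 2) * (‖y‖ ^ 2 - ((a + b) * s + c2) ^ 2))) := by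
            ring
        _ ≤ ENNReal.ofReal (C2 * δ ^ 2) * (ENNReal.ofReal lam⁻¹ *
            (gs (‖y‖ ^ 2 - ((a - b) * s + c1) ^ 2) + gs (‖y‖ ^ 2 - ((a + b) * s + c2) ^ 2))) := by
            gcongr
        _ = _ := by
            rw [← mul_assoc, ← ENNReal.ofReal_mul (by positivity)]
    have hm : ∀ κ c : ℝ, Measurable (fun s : ℝ => J (κ * s + c)) := fun κ c => by
      have h := hJm.comp ((measurable_id.const_mul κ).add_const c)
      simpa only [Function.comp_def, id] using h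
    have hg : ∀ κ c : ℝ, Measurable (fun s : ℝ => gs (‖y‖ ^ 2 - (κ * s + c) ^ 2)) := fun κ c => by
      have h := measurable_gs.comp ((((measurable_id.const_mul κ).add_const c).pow_const 2).const_sub
        (‖y‖ ^ 2))
      simpa only [Function.comp_def, id] using h
    have hJi : ∀ κ c : ℝ, κ ≠ 0 → ∫⁻ s in Icc (-H) H, J (κ * s + c) ≤
        ENNReal.ofReal (2 * δ * |κ|⁻¹) := fun κ c hκ => by
      rw [← meas_lin hκ c δ]
      exact setLIntegral_le_lintegral _ _
    calc ∫⁻ s in Icc (-H) H, chi lam (s - p) (s - q) *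
          (ENNReal.ofReal (a * b) * NN y ((s - p) * a) ((s - q) * b) δ)
        ≤ ∫⁻ s in Icc (-H) H, (ENNReal.ofReal (a * (C1 * δ * lam⁻¹)) * J (a * s + -(p * a)) +
        (ENNReal.ofReal (b * (C1 * δ * lam⁻¹)) * J (b * s + -(q * b)) +
        ENNReal.ofReal (C2 * δ ^ 2 * lam⁻¹) * (gs (‖y‖ ^ 2 - ((a - b) * s + c1) ^ 2) +
          gs (‖y‖ ^ 2 - ((a + b) * s + c2) ^ 2)))) := lintegral_mono hpt
      _ = ENNReal.ofReal (a * (C1 * δ * lam⁻¹)) * (∫⁻ s in Icc (-H) H, J (a * s + -(p * a))) +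
        (ENNReal.ofReal (b * (C1 * δ * lam⁻¹)) * (∫⁻ s in Icc (-H) H, J (b * s + -(q * b))) +
        ENNReal.ofReal (C2 * δ ^ 2 * lam⁻¹) *
          ((∫⁻ s in Icc (-H) H, gs (‖y‖ ^ 2 - ((a - b) * s + c1) ^ 2)) +
          ∫⁻ s in Icc (-H) H, gs (‖y‖ ^ 2 - ((a + b) * s + c2) ^ 2))) := by
          rw [lintegral_add_left ((hm _ _).const_mul _), lintegral_const_mul _ (hm _ _),
            lintegral_add_left ((hm _ _).const_mul _), lintegral_const_mul _ (hm _ _),
            lintegral_const_mul' _ _ ENNReal.ofReal_ne_top, lintegral_add_left (hg _ _)]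
      _ ≤ ENNReal.ofReal (a * (C1 * δ * lam⁻¹)) * ENNReal.ofReal (2 * δ * |a|⁻¹) +
        (ENNReal.ofReal (b * (C1 * δ * lam⁻¹)) * ENNReal.ofReal (2 * δ * |b|⁻¹) +
        ENNReal.ofReal (C2 * δ ^ 2 * lam⁻¹) *
          (ENNReal.ofReal (30 * (1 + 4 * H) * ell δ * |a - b|⁻¹) +
          ENNReal.ofReal (30 * (1 + 4 * H) * ell δ * |a + b|⁻¹))) := by
          gcongr
          · exact hJi _ _ ha.ne'
          · exact hJi _ _ hb.ne'
          · exact int_line hδ hy hκ1 hκ1' hH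
          · exact int_line hδ hy hκ2 hκ2' hH
      _ = ENNReal.ofReal (a * (C1 * δ * lam⁻¹) * (2 * δ * |a|⁻¹) +
        (b * (C1 * δ * lam⁻¹) * (2 * δ * |b|⁻¹) + C2 * δ ^ 2 * lam⁻¹ *
          (30 * (1 + 4 * H) * ell δ * |a - b|⁻¹ + 30 * (1 + 4 * H) * ell δ * |a + b|⁻¹))) := by
          rw [← ENNReal.ofReal_mul (by positivity), ← ENNReal.ofReal_mul (by positivity),
            ← ENNReal.ofReal_add (by positivity) (by positivity),
            ← ENNReal.ofReal_mul (by positivity),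
            ← ENNReal.ofReal_add (by positivity) (by positivity),
            ← ENNReal.ofReal_add (by positivity) (by positivity)]
      _ ≤ _ := by
          apply ENNReal.ofReal_le_ofReal
          have e1 : a * (C1 * δ * lam⁻¹) * (2 * δ * |a|⁻¹) = 2 * C1 * δ ^ 2 * lam⁻¹ * 1 := by
            rw [abs_of_pos ha]; field_simp
          have e2 : b * (C1 * δ * lam⁻¹) * (2 * δ * |b|⁻¹) = 2 * C1 * δ ^ 2 * lam⁻¹ * 1 := by
            rw [abs_of_pos hb]; field_simp
          rw [e1, e2]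
          have h5 : 2 * C1 * δ ^ 2 * lam⁻¹ * 1 ≤
              6 * C1 * δ ^ 2 * lam⁻¹ * (|a - b| + δ)⁻¹ * ((1 + 4 * H) * ell δ) := by
            calc 2 * C1 * δ ^ 2 * lam⁻¹ * 1 ≤ 2 * C1 * δ ^ 2 * lam⁻¹ * (3 * (|a - b| + δ)⁻¹) := by
                  gcongr
              _ = 6 * C1 * δ ^ 2 * lam⁻¹ * (|a - b| + δ)⁻¹ * 1 := by ring
              _ ≤ _ := by gcongr
          have h6 : C2 * δ ^ 2 * lam⁻¹ *
              (30 * (1 + 4 * H) * ell δ * |a - b|⁻¹ + 30 * (1 + 4 * H) * ell δ * |a + b|⁻¹) ≤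
              120 * C2 * δ ^ 2 * lam⁻¹ * (|a - b| + δ)⁻¹ * ((1 + 4 * H) * ell δ) := by
            calc C2 * δ ^ 2 * lam⁻¹ *
              (30 * (1 + 4 * H) * ell δ * |a - b|⁻¹ + 30 * (1 + 4 * H) * ell δ * |a + b|⁻¹)
                ≤ C2 * δ ^ 2 * lam⁻¹ * (30 * (1 + 4 * H) * ell δ * (2 * (|a - b| + δ)⁻¹) +
                  30 * (1 + 4 * H) * ell δ * (2 * (|a - b| + δ)⁻¹)) := by gcongr
              _ = _ := by ring
          have h7 : 0 ≤ 96 * C1 * δ ^ 2 * lam⁻¹ * (|a - b| + δ)⁻¹ * ((1 + 4 * H) * ell δ) := by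
            positivity
          have h8 : 0 ≤ 4 * C1 * δ ^ 2 * lam⁻¹ * (|a - b| + δ)⁻¹ * ((1 + 4 * H) * ell δ) := by
            positivity
          calc 2 * C1 * δ ^ 2 * lam⁻¹ * 1 + (2 * C1 * δ ^ 2 * lam⁻¹ * 1 + C2 * δ ^ 2 * lam⁻¹ *
              (30 * (1 + 4 * H) * ell δ * |a - b|⁻¹ + 30 * (1 + 4 * H) * ell δ * |a + b|⁻¹))
              ≤ 6 * C1 * δ ^ 2 * lam⁻¹ * (|a - b| + δ)⁻¹ * ((1 + 4 * H) * ell δ) +
                (6 * C1 * δ ^ 2 * lam⁻¹ * (|a - b| + δ)⁻¹ * ((1 + 4 * H) * ell δ) +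
                120 * C2 * δ ^ 2 * lam⁻¹ * (|a - b| + δ)⁻¹ * ((1 + 4 * H) * ell δ)) := by
                gcongr
            _ ≤ _ := by linarith

end Pool.Agent.W2helper94.KC
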