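import Pool.Agent.W2helper94.KC.H

set_option autoImplicit false

/-!
Bands on the circle.
-/

open MeasureTheory Set Metric
open scoped ENNReal NNReal

namespace Pool.Agent.W2helper94.KC

/-- The density of the distribution of a coordinate on the circle. -/
noncomputable def ww (t : ℝ) : ℝ≥0∞ := ENNReal.ofReal ((√(1 - t ^ 2))⁻¹)

theorem measurable_ww : Measurable ww := by unfold ww; fun_prop

theorem sqrt_diff {A B ε : ℝ} (hA : 0 ≤ A) (hB : 0 ≤ B) (hBA : B ≤ A) (h : A - B ≤ 2 * ε) :
    √A - √B ≤ 2 * ε * (√A)⁻¹ := by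
  have hε : 0 ≤ ε := by linarith
  rcases hA.eq_or_lt with h0 | h0
  · have : B = 0 := by linarith
    rw [← h0, this]; simp
  · have hsA : 0 < √A := Real.sqrt_pos.2 h0
    have hsB : 0 ≤ √B := Real.sqrt_nonneg B
    rw [← div_eq_mul_inv, le_div_iff₀ hsA]
    have h1 : √A ^ 2 = A := Real.sq_sqrt hA
    have h2 : √B ^ 2 = B := Real.sq_sqrt hB
    have h3 : √B ≤ √A := Real.sqrt_le_sqrt hBA
    nlinarith

theorem slab2 : ∃ C : ℝ, 0 < C ∧ ∀ (τ ε : ℝ), 0 ≤ ε → ε ≤ 1 →
    volume {x : E 2 | 1 - ε ≤ ‖x‖ ∧ ‖x‖ ≤ 1 ∧ |x 0 - τ| ≤ 2 * ε} ≤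
      ENNReal.ofReal (C * ε) * ∫⁻ t in Icc (τ - 2 * ε) (τ + 2 * ε), ww t := by
  set ω : ℝ := (volume (closedBall (0 : E 1) 1)).toReal with hω
  have hω0 : 0 ≤ ω := ENNReal.toReal_nonneg
  refine ⟨2 * ω + 1, by positivity, fun τ ε hε hε1 => ?_⟩
  set Y : Set (ℝ × E 1) := {p | |p.1 - τ| ≤ 2 * ε ∧ (1 - ε) ^ 2 ≤ p.1 ^ 2 + ‖p.2‖ ^ 2 ∧
    p.1 ^ 2 + ‖p.2‖ ^ 2 ≤ 1} with hY
  have hYm : MeasurableSet Y := by
    rw [hY]
    simp only [Set.ofPred_and]
    refine MeasurableSet.inter ?_ (MeasurableSet.inter ?_ ?_)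
    · exact measurableSet_le (by fun_prop) (by fun_prop)
    · exact measurableSet_le (by fun_prop) (by fun_prop)
    · exact measurableSet_le (by fun_prop) (by fun_prop)
  have hsub : {x : E 2 | 1 - ε ≤ ‖x‖ ∧ ‖x‖ ≤ 1 ∧ |x 0 - τ| ≤ 2 * ε} ⊆ split 1 ⁻¹' Y := by
    rintro x ⟨h1, h2, h3⟩
    have h4 := split_norm 1 x
    have h6 : ‖x‖ ^ 2 ≤ 1 := by nlinarith [norm_nonneg x]
    have h7 : (1 - ε) ^ 2 ≤ ‖x‖ ^ 2 := by
      apply pow_le_pow_left₀ (by linarith) h1
    exact ⟨h3, by rw [← h4]; exact h7, by rw [← h4]; exact h6⟩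
  refine (measure_mono hsub).trans ?_
  rw [(split_mp 1).measure_preimage hYm.nullMeasurableSet]
  rw [Measure.volume_eq_prod, Measure.prod_apply hYm, ← lintegral_const_mul _ measurable_ww,
    ← lintegral_indicator measurableSet_Icc]
  apply lintegral_mono
  intro t
  show volume (Prod.mk t ⁻¹' Y) ≤ (Icc (τ - 2 * ε) (τ + 2 * ε)).indicator
    (fun t => ENNReal.ofReal ((2 * ω + 1) * ε) * ww t) t
  by_cases ht : t ∈ Icc (τ - 2 * ε) (τ + 2 * ε)
  · rw [indicator_of_mem ht]
    by_cases ht1 : 1 < t ^ 2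
    · have : Prod.mk t ⁻¹' Y = ∅ := by
        ext y
        simp only [mem_preimage, mem_empty_iff_false, iff_false]
        rintro ⟨_, _, h3⟩
        simp only at h3
        nlinarith [sq_nonneg ‖y‖]
      rw [this, measure_empty]
      exact zero_le
    push Not at ht1
    set A : ℝ := 1 - t ^ 2 with hA
    set B : ℝ := max ((1 - ε) ^ 2 - t ^ 2) 0 with hB
    have hA0 : 0 ≤ A := by linarith
    have hB0 : 0 ≤ B := le_max_right _ _
    have hε2 : (1 - ε) ^ 2 ≤ 1 := by nlinarith
    have hBA : B ≤ A := max_le (by linarith) hA0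
    have hAB : A - B ≤ 2 * ε := by
      have : (1 - ε) ^ 2 - t ^ 2 ≤ B := le_max_left _ _
      nlinarith
    have h1 := sqrt_diff hA0 hB0 hBA hAB
    have hsub2 : Prod.mk t ⁻¹' Y ⊆ closedBall (0 : E 1) (√A) \ ball (0 : E 1) (√B) := by
      rintro y ⟨_, h3, h4⟩
      simp only at h3 h4
      refine ⟨?_, ?_⟩
      · rw [mem_closedBall_zero_iff]
        apply Real.le_sqrt_of_sq_le
        linarith
      · rw [mem_ball_zero_iff, not_lt]
        apply Real.sqrt_le_iff.2 ⟨norm_nonneg y, max_le (by linarith) (sq_nonneg _)⟩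
    refine (measure_mono hsub2).trans ?_
    have hb : ball (0 : E 1) (√B) ⊆ closedBall (0 : E 1) (√A) :=
      (ball_subset_ball (Real.sqrt_le_sqrt hBA)).trans ball_subset_closedBall
    have hnt : Nontrivial (E 1) := by
      have : Nonempty (Fin 1) := ⟨0⟩
      infer_instance
    rw [measure_sdiff hb measurableSet_ball.nullMeasurableSet measure_ball_lt_top.ne,
      Measure.addHaar_closedBall _ _ (Real.sqrt_nonneg _),
      Measure.addHaar_ball _ _ (Real.sqrt_nonneg _), finrank_euclideanSpace_fin]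
    have e1 : volume (ball (0 : E 1) 1) = ENNReal.ofReal ω := by
      rw [hω, ENNReal.ofReal_toReal (measure_closedBall_lt_top.ne),
        Measure.addHaar_unitClosedBall_eq_addHaar_unitBall]
    rw [e1, ← ENNReal.ofReal_mul (by positivity), ← ENNReal.ofReal_mul (by positivity),
      ← ENNReal.ofReal_sub _ (by positivity)]
    unfold ww
    rw [← ENNReal.ofReal_mul (by positivity)]
    apply ENNReal.ofReal_le_ofReal
    rw [pow_one, pow_one, ← hA]
    have h5 : 0 ≤ (√A)⁻¹ := by positivity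
    calc √A * ω - √B * ω = (√A - √B) * ω := by ring
      _ ≤ (2 * ε * (√A)⁻¹) * ω := by gcongr
      _ = (2 * ω) * ε * (√A)⁻¹ := by ring
      _ ≤ (2 * ω + 1) * ε * (√A)⁻¹ := by gcongr; linarith
  · have : Prod.mk t ⁻¹' Y = ∅ := by
      ext y
      simp only [mem_preimage, mem_empty_iff_false, iff_false]
      rintro ⟨h1, _⟩
      apply ht
      have := abs_le.1 h1
      constructor <;> simp only at this <;> linarith [this.1, this.2]
    rw [this, measure_empty]
    exact zero_le

theorem ww_one {t : ℝ} (h1 : -1 < t) (h2 : t < 1) : 1 ≤ ww t := by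
  unfold ww
  rw [← ENNReal.ofReal_one]
  apply ENNReal.ofReal_le_ofReal
  have h3 : 0 < 1 - t ^ 2 := by nlinarith
  have h4 : 0 < √(1 - t ^ 2) := Real.sqrt_pos.2 h3
  rw [one_le_inv₀ h4]
  exact Real.sqrt_le_one.mpr (by nlinarith [sq_nonneg t])

/-- Bands on the circle. -/
theorem band2 : ∃ C : ℝ, 0 < C ∧ ∀ (e : E 2) (τ ε : ℝ), ‖e‖ = 1 → 0 < ε →
    sg 2 {φ | |inner ℝ e (φ : E 2) - τ| ≤ ε} ≤
      ENNReal.ofReal C * ∫⁻ t in Icc (τ - 2 * ε) (τ + 2 * ε), ww t := by
  obtain ⟨C, hC, hsl⟩ := slab2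
  set A : ℝ := (sg 2).real univ with hA
  have hA0 : 0 ≤ A := measureReal_nonneg
  refine ⟨2 * A + 2 * C, by positivity, fun e τ ε he hε => ?_⟩
  rcases le_total ε (1/2) with h1 | h1
  · have hms : MeasurableSet {φ : sphere (0 : E 2) 1 | |inner ℝ e (φ : E 2) - τ| ≤ ε} := by
      have m1 : Measurable (fun w : sphere (0 : E 2) 1 => |inner ℝ e (w : E 2) - τ|) := by
        fun_prop
      exact measurableSet_le m1 measurable_const
    have hX : MeasurableSet {x : E 2 | 1 - ε ≤ ‖x‖ ∧ ‖x‖ ≤ 1 ∧ |inner ℝ e x - τ| ≤ 2 * ε} := by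
      simp only [Set.ofPred_and]
      refine MeasurableSet.inter ?_ (MeasurableSet.inter ?_ ?_)
      · exact measurableSet_le (by fun_prop) (by fun_prop)
      · exact measurableSet_le (by fun_prop) (by fun_prop)
      · exact measurableSet_le (by fun_prop) (by fun_prop)
    have h2 := thicken 1 hms hX hε h1 (by
      intro φ hφ r hr0 hr1
      have hφ1 : ‖(φ : E (1 + 1))‖ = 1 := by simp
      have hφ2 : |inner ℝ e (φ : E (1 + 1)) - τ| ≤ ε := hφ
      have hr : 0 ≤ r := by linarith
      refine ⟨?_, ?_, ?_⟩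
      · rw [norm_smul, hφ1, mul_one, Real.norm_eq_abs, abs_of_nonneg hr]; exact hr0
      · rw [norm_smul, hφ1, mul_one, Real.norm_eq_abs, abs_of_nonneg hr]; exact hr1
      · rw [inner_smul_right]
        have h3 : |inner ℝ e (φ : E (1 + 1))| ≤ 1 := by
          have := abs_real_inner_le_norm e (φ : E (1 + 1))
          rwa [he, hφ1, mul_one] at this
        have e1 : r * inner ℝ e (φ : E (1 + 1)) - τ =
            (inner ℝ e (φ : E (1 + 1)) - τ) - (1 - r) * inner ℝ e (φ : E (1 + 1)) := by ring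
        rw [e1]
        calc _ ≤ |inner ℝ e (φ : E (1 + 1)) - τ| + |(1 - r) * inner ℝ e (φ : E (1 + 1))| :=
              abs_sub _ _
          _ ≤ ε + ε * 1 := by
              apply add_le_add hφ2
              rw [abs_mul, abs_of_nonneg (by linarith : 0 ≤ 1 - r)]
              apply mul_le_mul (by linarith) h3 (abs_nonneg _) hε.le
          _ = 2 * ε := by ring)
    -- rotate
    set e0 : E 2 := EuclideanSpace.single 0 1 with he0
    have hn : ‖e0‖ = ‖e‖ := by rw [he, he0]; simp
    obtain ⟨T, hT⟩ := exists_rot hn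
    have hmp := T.measurePreserving
    have h3 : volume {x : E 2 | 1 - ε ≤ ‖x‖ ∧ ‖x‖ ≤ 1 ∧ |inner ℝ e x - τ| ≤ 2 * ε} ≤
        ENNReal.ofReal (C * ε) * ∫⁻ t in Icc (τ - 2 * ε) (τ + 2 * ε), ww t := by
      rw [← hmp.measure_preimage hX.nullMeasurableSet]
      refine le_trans (measure_mono ?_) (hsl τ ε hε.le (by linarith))
      rintro x ⟨h1, h2, h3⟩
      rw [LinearIsometryEquiv.norm_map] at h1 h2
      refine ⟨h1, h2, ?_⟩
      rw [← hT, LinearIsometryEquiv.inner_map_map, he0, EuclideanSpace.inner_single_left] at h3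
      simpa using h3
    have h4 : ENNReal.ofReal (ε / 2 ^ 1) ≠ 0 := by
      rw [Ne, ENNReal.ofReal_eq_zero, not_le]; positivity
    have h5 := h2.trans h3
    rw [← ENNReal.le_div_iff_mul_le (Or.inl h4) (Or.inl ENNReal.ofReal_ne_top)] at h5
    refine h5.trans (le_of_eq_of_le ?_ (mul_le_mul' (ENNReal.ofReal_le_ofReal
      (by linarith : 2 * C ≤ 2 * A + 2 * C)) le_rfl))
    rw [ENNReal.div_eq_inv_mul, ← mul_assoc, ← ENNReal.ofReal_inv_of_pos (by positivity),
      ← ENNReal.ofReal_mul (by positivity)]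
    congr 2
    field_simp
  · by_cases hne : ∃ φ : sphere (0 : E 2) 1, |inner ℝ e (φ : E 2) - τ| ≤ ε
    · obtain ⟨φ, hφ⟩ := hne
      have hφ1 : ‖(φ : E 2)‖ = 1 := by simp
      have h3 : |inner ℝ e (φ : E 2)| ≤ 1 := by
        have := abs_real_inner_le_norm e (φ : E 2)
        rwa [he, hφ1, mul_one] at this
      have h3' := abs_le.1 h3
      have hφ' := abs_le.1 hφ
      have hint : ENNReal.ofReal (1/2) ≤ ∫⁻ t in Icc (τ - 2 * ε) (τ + 2 * ε), ww t := by
        rcases le_total 0 τ with h0 | h0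
        · calc ENNReal.ofReal (1/2) = ∫⁻ _t in Ioo (1/2:ℝ) 1, 1 := by
                rw [lintegral_one, Measure.restrict_apply_univ, Real.volume_Ioo]
                congr 1
                norm_num
            _ ≤ ∫⁻ t in Ioo (1/2:ℝ) 1, ww t := by
                refine setLIntegral_mono' measurableSet_Ioo fun t ht => ?_
                exact ww_one (by linarith [ht.1]) ht.2
            _ ≤ _ := by
                apply lintegral_mono_set
                intro t ht
                constructor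
                · linarith [ht.1]
                · linarith [ht.2]
        · calc ENNReal.ofReal (1/2) = ∫⁻ _t in Ioo (-1:ℝ) (-(1/2)), 1 := by
                rw [lintegral_one, Measure.restrict_apply_univ, Real.volume_Ioo]
                congr 1
                norm_num
            _ ≤ ∫⁻ t in Ioo (-1:ℝ) (-(1/2)), ww t := by
                refine setLIntegral_mono' measurableSet_Ioo fun t ht => ?_
                exact ww_one ht.1 (by linarith [ht.2])
            _ ≤ _ := by
                apply lintegral_mono_set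
                intro t ht
                constructor
                · linarith [ht.1]
                · linarith [ht.2]
      calc sg 2 {φ | |inner ℝ e (φ : E 2) - τ| ≤ ε} ≤ sg 2 univ := measure_mono (subset_univ _)
        _ ≤ ENNReal.ofReal A := sg_univ_le 1
        _ = ENNReal.ofReal (2 * A) * ENNReal.ofReal (1/2) := by
            rw [← ENNReal.ofReal_mul (by positivity)]
            congr 1
            ring
        _ ≤ _ := by
            gcongr
            linarith
    · have : {φ : sphere (0 : E 2) 1 | |inner ℝ e (φ : E 2) - τ| ≤ ε} = ∅ := by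
        ext φ
        simp only [mem_ofPred_eq, mem_empty_iff_false, iff_false]
        intro h
        exact hne ⟨φ, h⟩
      rw [this, measure_empty]
      exact zero_le

end Pool.Agent.W2helper94.KC
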