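import Pool.Agent.W2helper94.KC.R
import Pool.Agent.W2helper94.KC.G

set_option autoImplicit false

/-!
Inverse square roots.
-/

open MeasureTheory Set Metric
open scoped ENNReal NNReal

namespace Pool.Agent.W2helper94.KC

/-- The inverse square root of `|u|`. -/
noncomputable def gs (u : ℝ) : ℝ≥0∞ := (ENNReal.ofReal (√|u|))⁻¹

theorem measurable_gs : Measurable gs := by unfold gs; fun_prop

theorem gs_pos {u : ℝ} (h : u ≠ 0) : gs u = ENNReal.ofReal ((√|u|)⁻¹) := by
  unfold gs
  have : 0 < √|u| := Real.sqrt_pos.2 (abs_pos.2 h)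
  rw [ENNReal.ofReal_inv_of_pos this]

theorem gs_neg (u : ℝ) : gs (-u) = gs u := by unfold gs; rw [abs_neg]

theorem gs_mul (u v : ℝ) : gs (u * v) = gs u * gs v := by
  unfold gs
  rw [abs_mul, Real.sqrt_mul (abs_nonneg _), ENNReal.ofReal_mul (Real.sqrt_nonneg _),
    ENNReal.mul_inv (Or.inr ENNReal.ofReal_ne_top) (Or.inl ENNReal.ofReal_ne_top)]

theorem gs_anti {u v : ℝ} (h : |u| ≤ |v|) : gs v ≤ gs u := by
  unfold gs
  apply ENNReal.inv_le_inv.2
  exact ENNReal.ofReal_le_ofReal (Real.sqrt_le_sqrt h)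

theorem gs_le {u r : ℝ} (hr : 0 < r) (h : r ≤ |u|) : gs u ≤ ENNReal.ofReal ((√r)⁻¹) := by
  refine (gs_anti (u := r) (by rwa [abs_of_pos hr])).trans (le_of_eq ?_)
  rw [gs_pos hr.ne', abs_of_pos hr]

/-- The smaller of two factors. -/
theorem gs_mul_le {u v r : ℝ} (hr : 0 < r) (h : r ≤ |u| ∨ r ≤ |v|) :
    gs (u * v) ≤ ENNReal.ofReal ((√r)⁻¹) * (gs u + gs v) := by
  rw [gs_mul, mul_add]
  rcases h with h | h
  · exact (mul_le_mul' (gs_le hr h) le_rfl).trans le_add_self
  · rw [mul_comm]
    exact (mul_le_mul' (gs_le hr h) le_rfl).trans le_self_add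

theorem int_gs_half {r : ℝ} (hr : 0 ≤ r) :
    ∫⁻ t in Ioc 0 r, gs t = ENNReal.ofReal (2 * √r) := by
  have hint : IntegrableOn (fun t : ℝ => t ^ (-(1/2) : ℝ)) (Ioc 0 r) := by
    have h := (intervalIntegral.intervalIntegrable_rpow' (a := 0) (b := r)
      (by norm_num : (-1 : ℝ) < -(1/2))).1
    exact h
  have e1 : ∫⁻ t in Ioc 0 r, gs t = ∫⁻ t in Ioc 0 r, ENNReal.ofReal (t ^ (-(1/2) : ℝ)) := by
    refine setLIntegral_congr_fun measurableSet_Ioc fun t ht => ?_
    have ht0 : 0 < t := ht.1
    show gs t = ENNReal.ofReal (t ^ (-(1/2) : ℝ))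
    rw [gs_pos ht0.ne', abs_of_pos ht0, Real.rpow_neg ht0.le, Real.sqrt_eq_rpow]
  rw [e1, ← ofReal_integral_eq_lintegral_ofReal hint]
  · congr 1
    rw [← intervalIntegral.integral_of_le hr, integral_rpow (Or.inl (by norm_num))]
    rw [Real.zero_rpow (by norm_num), sub_zero, Real.sqrt_eq_rpow]
    norm_num
    ring
  · filter_upwards [ae_restrict_mem measurableSet_Ioc] with t ht
    exact Real.rpow_nonneg ht.1.le _

/-- The truncated inverse square root. -/
noncomputable def ft (r u : ℝ) : ℝ≥0∞ := (Icc (-r) r).indicator gs u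

theorem measurable_ft (r : ℝ) : Measurable (ft r) := measurable_gs.indicator measurableSet_Icc

theorem ft_of_le {r u : ℝ} (h : |u| ≤ r) : ft r u = gs u :=
  indicator_of_mem (mem_Icc.2 (abs_le.1 h)) _

theorem int_ft {r : ℝ} (hr : 0 ≤ r) : ∫⁻ u, ft r u ≤ ENNReal.ofReal (4 * √r) := by
  have h1 : ∫⁻ u in Ioc (-r) 0, gs u ≤ ENNReal.ofReal (2 * √r) := by
    rw [← int_gs_half hr]
    have hmp : MeasurePreserving (fun x : ℝ => -x) := Measure.measurePreserving_neg volume
    have hemb : MeasurableEmbedding (fun x : ℝ => -x) := (Homeomorph.neg ℝ).measurableEmbedding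
    rw [← hmp.setLIntegral_comp_preimage_emb hemb]
    have e : (fun x : ℝ => -x) ⁻¹' Ioc (-r) 0 = Ico 0 r := by
      ext x
      simp only [mem_preimage, mem_Ioc, mem_Ico]
      constructor <;> rintro ⟨h4, h5⟩ <;> constructor <;> linarith
    rw [e]
    simp only [gs_neg]
    rw [setLIntegral_congr Ico_ae_eq_Ioc]
  calc ∫⁻ u, ft r u = ∫⁻ u in Icc (-r) r, gs u := by
        unfold ft
        rw [lintegral_indicator measurableSet_Icc]
    _ = ∫⁻ u in Ioc (-r) r, gs u := setLIntegral_congr Ioc_ae_eq_Icc.symm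
    _ ≤ ∫⁻ u in Ioc (-r) 0 ∪ Ioc 0 r, gs u := by
        apply lintegral_mono_set
        intro u hu
        rcases le_total u 0 with h | h
        · exact Or.inl ⟨hu.1, h⟩
        · rcases h.eq_or_lt with h0 | h0
          · left
            rw [← h0]
            exact ⟨by linarith [hu.1], le_rfl⟩
          · exact Or.inr ⟨h0, hu.2⟩
    _ ≤ ENNReal.ofReal (2 * √r) + ENNReal.ofReal (2 * √r) := by
        refine (lintegral_union_le _ _ _).trans ?_
        rw [int_gs_half hr]
        gcongr
    _ = _ := by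
        rw [← ENNReal.ofReal_add (by positivity) (by positivity)]
        congr 1
        ring

/-- Linear change of variables. -/
theorem lint_lin {F : ℝ → ℝ≥0∞} (hF : Measurable F) {κ : ℝ} (hκ : κ ≠ 0) (c : ℝ) :
    ∫⁻ s, F (κ * s + c) = ENNReal.ofReal |κ|⁻¹ * ∫⁻ u, F u := by
  have h := lintegral_map (μ := (volume : Measure ℝ)) (hF.comp (measurable_id.add_const c))
    (measurable_const_smul (α := ℝ) κ)
  rw [Measure.map_addHaar_smul _ hκ, lintegral_smul_measure, Module.finrank_self] at h
  simp only [Function.comp_def, id, smul_eq_mul, pow_one] at h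
  rw [← h, lintegral_add_right_eq_self (μ := (volume : Measure ℝ)) (fun u => F u) c, abs_inv]

theorem meas_lin {κ : ℝ} (hκ : κ ≠ 0) (c r : ℝ) :
    ∫⁻ s, (Icc (-r) r).indicator (fun _ => (1 : ℝ≥0∞)) (κ * s + c) =
      ENNReal.ofReal (2 * r * |κ|⁻¹) := by
  rw [lint_lin (measurable_const.indicator measurableSet_Icc) hκ c,
    lintegral_indicator measurableSet_Icc, setLIntegral_const, one_mul, Real.volume_Icc,
    ← ENNReal.ofReal_mul (by positivity)]
  congr 1
  ring

/-- The windows of the weight on the circle. -/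
theorem ww_int {τ ε : ℝ} (hε : 0 < ε) (hε1 : ε ≤ 1 / 8) :
    ∫⁻ t in Icc (τ - 2 * ε) (τ + 2 * ε), ww t ≤ ENNReal.ofReal (40 * ε) * gs (1 - τ ^ 2) := by
  by_cases h0 : 1 - τ ^ 2 = 0
  · rw [h0]
    have : gs 0 = ∞ := by unfold gs; simp
    rw [this, ENNReal.mul_top]
    · exact le_top
    · rw [Ne, ENNReal.ofReal_eq_zero, not_le]; positivity
  have hfac : 1 - τ ^ 2 = (1 - |τ|) * (1 + |τ|) := by rw [← sq_abs τ]; ring
  have hτ0 := abs_nonneg τ
  have hwin : ∀ t ∈ Icc (τ - 2 * ε) (τ + 2 * ε), |(|t| - |τ|)| ≤ 2 * ε := by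
    intro t ht
    refine (abs_abs_sub_abs_le t τ).trans ?_
    rw [abs_le]
    constructor <;> linarith [ht.1, ht.2]
  rcases lt_or_ge (1 - |τ|) (4 * ε) with h1 | h1
  · rcases lt_or_ge (-(4 * ε)) (1 - |τ|) with h2 | h2
    · -- near the ends
      have hg : ENNReal.ofReal ((√(12 * ε))⁻¹) ≤ gs (1 - τ ^ 2) := by
        rw [gs_pos h0]
        apply ENNReal.ofReal_le_ofReal
        apply inv_anti₀ (Real.sqrt_pos.2 (abs_pos.2 h0))
        apply Real.sqrt_le_sqrt
        rw [hfac, abs_mul, abs_of_nonneg (by positivity : 0 ≤ 1 + |τ|)]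
        have h3 : |(1 - |τ|)| ≤ 4 * ε := abs_le.2 ⟨h2.le, h1.le⟩
        calc |(1 - |τ|)| * (1 + |τ|) ≤ (4 * ε) * 3 := by
              apply mul_le_mul h3 _ (by positivity) (by positivity)
              linarith
          _ = 12 * ε := by ring
      have hww : ∫⁻ t in Icc (τ - 2 * ε) (τ + 2 * ε), ww t ≤ ENNReal.ofReal (4 * √(6 * ε)) := by
        have hpt : ∀ t ∈ Icc (τ - 2 * ε) (τ + 2 * ε), ww t ≤ ft (6 * ε) (|t| - 1) := by
          intro t ht
          have h3 := abs_le.1 (hwin t ht)
          have h4 : |(|t| - 1)| ≤ 6 * ε := by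
            rw [abs_le]
            constructor <;> linarith [h3.1, h3.2]
          rw [ft_of_le h4]
          by_cases h5 : |t| < 1
          · have h6 : |t| - 1 ≠ 0 := by linarith
            rw [gs_pos h6]
            unfold ww
            apply ENNReal.ofReal_le_ofReal
            rw [abs_of_neg (by linarith : |t| - 1 < 0)]
            have h7 : 0 < -(|t| - 1) := by linarith
            apply inv_anti₀ (Real.sqrt_pos.2 h7)
            apply Real.sqrt_le_sqrt
            have : t ^ 2 = |t| ^ 2 := (sq_abs t).symm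
            rw [this]
            nlinarith [abs_nonneg t]
          · have : ww t = 0 := by
              unfold ww
              have h6 : 1 - t ^ 2 ≤ 0 := by
                rw [← sq_abs t]
                nlinarith [not_lt.1 h5]
              rw [Real.sqrt_eq_zero_of_nonpos h6]
              simp
            rw [this]
            exact zero_le
        rcases le_total 0 τ with h3 | h3
        · calc ∫⁻ t in Icc (τ - 2 * ε) (τ + 2 * ε), ww t
              ≤ ∫⁻ t in Icc (τ - 2 * ε) (τ + 2 * ε), ft (6 * ε) (1 * t + -1) := by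
                refine setLIntegral_mono' measurableSet_Icc fun t ht => ?_
                refine (hpt t ht).trans (le_of_eq ?_)
                rw [abs_of_nonneg h3] at h1
                have : 0 ≤ t := by linarith [ht.1]
                rw [abs_of_nonneg this]
                congr 1
                ring
            _ ≤ ∫⁻ t, ft (6 * ε) (1 * t + -1) := setLIntegral_le_lintegral _ _
            _ = ENNReal.ofReal |(1:ℝ)|⁻¹ * ∫⁻ u, ft (6 * ε) u :=
                lint_lin (measurable_ft _) one_ne_zero _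
            _ ≤ _ := by
                rw [abs_one, inv_one, ENNReal.ofReal_one, one_mul]
                exact int_ft (by positivity)
        · calc ∫⁻ t in Icc (τ - 2 * ε) (τ + 2 * ε), ww t
              ≤ ∫⁻ t in Icc (τ - 2 * ε) (τ + 2 * ε), ft (6 * ε) (-1 * t + -1) := by
                refine setLIntegral_mono' measurableSet_Icc fun t ht => ?_
                refine (hpt t ht).trans (le_of_eq ?_)
                rw [abs_of_nonpos h3] at h1
                have : t ≤ 0 := by linarith [ht.2]
                rw [abs_of_nonpos this]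
                congr 1
                ring
            _ ≤ ∫⁻ t, ft (6 * ε) (-1 * t + -1) := setLIntegral_le_lintegral _ _
            _ = ENNReal.ofReal |(-1:ℝ)|⁻¹ * ∫⁻ u, ft (6 * ε) u :=
                lint_lin (measurable_ft _) (by norm_num) _
            _ ≤ _ := by
                rw [abs_neg, abs_one, inv_one, ENNReal.ofReal_one, one_mul]
                exact int_ft (by positivity)
      refine hww.trans ?_
      calc ENNReal.ofReal (4 * √(6 * ε)) ≤ ENNReal.ofReal (40 * ε * (√(12 * ε))⁻¹) := by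
            apply ENNReal.ofReal_le_ofReal
            have h12 : 0 < √(12 * ε) := Real.sqrt_pos.2 (by positivity)
            rw [← div_eq_mul_inv, le_div_iff₀ h12, mul_assoc, ← Real.sqrt_mul (by positivity)]
            have e1 : 6 * ε * (12 * ε) = (9 * ε) ^ 2 - 9 * ε ^ 2 := by ring
            have h3 : √(6 * ε * (12 * ε)) ≤ 9 * ε := by
              rw [e1]
              apply Real.sqrt_le_iff.2
              constructor
              · positivity
              · nlinarith [sq_nonneg ε]
            linarith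
        _ = ENNReal.ofReal (40 * ε) * ENNReal.ofReal ((√(12 * ε))⁻¹) :=
            ENNReal.ofReal_mul (by positivity)
        _ ≤ _ := by gcongr
    · -- outside
      have : ∫⁻ t in Icc (τ - 2 * ε) (τ + 2 * ε), ww t = 0 := by
        rw [setLIntegral_eq_zero_iff measurableSet_Icc measurable_ww]
        apply Filter.Eventually.of_forall
        intro t ht
        have h3 := abs_le.1 (hwin t ht)
        unfold ww
        have h6 : 1 - t ^ 2 ≤ 0 := by
          rw [← sq_abs t]
          nlinarith [h3.1, h3.2]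
        rw [Real.sqrt_eq_zero_of_nonpos h6]
        simp
      rw [this]
      exact zero_le
  · -- inside
    have hη : 0 < 1 - |τ| := by linarith
    have hpt : ∀ t ∈ Icc (τ - 2 * ε) (τ + 2 * ε), ww t ≤ 2 * gs (1 - τ ^ 2) := by
      intro t ht
      have h3 := abs_le.1 (hwin t ht)
      have h4 : (1 - τ ^ 2) / 4 ≤ 1 - t ^ 2 := by
        rw [hfac, ← sq_abs t]
        have h5 : (1 - |τ|) / 2 ≤ 1 - |t| := by linarith [h3.2]
        have h6 : 1 + |τ| ≤ 2 := by linarith
        have h7 : 0 ≤ |t| := abs_nonneg t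
        nlinarith [mul_nonneg hη.le (by linarith : 0 ≤ 2 - (1 + |τ|))]
      have h5 : 0 < 1 - τ ^ 2 := by rw [hfac]; positivity
      rw [gs_pos h0, abs_of_pos h5]
      unfold ww
      have e2 : (2 : ℝ≥0∞) = ENNReal.ofReal 2 := by norm_num
      rw [e2, ← ENNReal.ofReal_mul (by norm_num)]
      apply ENNReal.ofReal_le_ofReal
      have h6 : 0 < (1 - τ ^ 2) / 4 := by positivity
      calc (√(1 - t ^ 2))⁻¹ ≤ (√((1 - τ ^ 2) / 4))⁻¹ := by
            apply inv_anti₀ (Real.sqrt_pos.2 h6)
            exact Real.sqrt_le_sqrt h4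
        _ = 2 * (√(1 - τ ^ 2))⁻¹ := by
            rw [Real.sqrt_div h5.le]
            have : √4 = 2 := by
              rw [show (4:ℝ) = 2 ^ 2 by norm_num]
              exact Real.sqrt_sq (by norm_num)
            rw [this, inv_div]
            ring
    calc ∫⁻ t in Icc (τ - 2 * ε) (τ + 2 * ε), ww t
        ≤ ∫⁻ _t in Icc (τ - 2 * ε) (τ + 2 * ε), 2 * gs (1 - τ ^ 2) :=
          setLIntegral_mono' measurableSet_Icc hpt
      _ = ENNReal.ofReal (8 * ε) * gs (1 - τ ^ 2) := by
          rw [setLIntegral_const, Real.volume_Icc]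
          have e1 : τ + 2 * ε - (τ - 2 * ε) = 4 * ε := by ring
          have e2 : (2 : ℝ≥0∞) = ENNReal.ofReal 2 := by norm_num
          rw [e1, mul_right_comm, e2, ← ENNReal.ofReal_mul (by norm_num)]
          congr 2
          ring
      _ ≤ _ := by
          gcongr
          linarith

end Pool.Agent.W2helper94.KC
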