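import Pool.Agent.W2helper94.KC.J

set_option autoImplicit false

/-!
Pairs of lines, without a bound for the heights.
-/

open MeasureTheory Set Metric
open scoped ENNReal NNReal

namespace Pool.Agent.W2helper94.KC

variable {k d : ℕ} {m : Fin (k + 1) → ℕ}

/-- Indicator of `|a| ≤ 1`. -/
noncomputable def nn (a : ℝ) : ℝ≥0∞ := (Icc (-1 : ℝ) 1).indicator (fun _ => 1) a

theorem nn_one {a : ℝ} (h : |a| ≤ 1) : nn a = 1 :=
  indicator_of_mem (mem_Icc.2 (abs_le.1 h)) _

theorem nn_ne {a : ℝ} (h : nn a ≠ 0) : |a| ≤ 1 := by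
  by_contra h2
  exact h (indicator_of_notMem (fun h3 => h2 (abs_le.2 (mem_Icc.1 h3))) _)

theorem nn_le (a : ℝ) : nn a ≤ 1 := indicator_le_self' (fun _ _ => zero_le_one) a

theorem measurable_nn : Measurable nn := measurable_const.indicator measurableSet_Icc

/-- Close pairs. -/
noncomputable def RR (e : (Σ j, Fin (m j)) ≃ Fin d) (x : (Fin (k + 1) → ℝ) → E d)
    (lam δ A B : ℝ) (z : E d × E d) : ℝ≥0∞ :=
  nn A * nn B * (chi lam A B * (ic 1 z.1 * ic 1 z.2) *
    ic δ ((x (bn e z.1) + A • z.1) - (x (bn e z.2) + B • z.2)))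

theorem measurable_RR (e : (Σ j, Fin (m j)) ≃ Fin d) {x : (Fin (k + 1) → ℝ) → E d}
    (hx : Measurable x) (lam δ : ℝ) {σ : (Fin (k + 1) → ℝ) → ℝ} (hσ : Measurable σ) :
    Measurable (fun q : ℝ × (E d × E d) =>
      RR e x lam δ (q.1 - σ (bn e q.2.1)) (q.1 - σ (bn e q.2.2)) q.2) := by
  unfold RR
  have m1 : Measurable (fun q : ℝ × (E d × E d) => q.2.1) := measurable_fst.comp measurable_snd
  have m2 : Measurable (fun q : ℝ × (E d × E d) => q.2.2) := measurable_snd.comp measurable_snd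
  have c1 : Measurable (fun q : ℝ × (E d × E d) => bn e q.2.1) := (measurable_bn e).comp m1
  have c2 : Measurable (fun q : ℝ × (E d × E d) => bn e q.2.2) := (measurable_bn e).comp m2
  have a1 : Measurable (fun q : ℝ × (E d × E d) => q.1 - σ (bn e q.2.1)) :=
    measurable_fst.sub (hσ.comp c1)
  have a2 : Measurable (fun q : ℝ × (E d × E d) => q.1 - σ (bn e q.2.2)) :=
    measurable_fst.sub (hσ.comp c2)
  refine ((measurable_nn.comp a1).mul (measurable_nn.comp a2)).mul
    (((measurable_chi a1 a2).mul (((measurable_ic 1).comp m1).mul ((measurable_ic 1).comp m2))).mul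
    ((measurable_ic δ).comp ?_))
  exact ((hx.comp c1).add (a1.smul m1)).sub ((hx.comp c2).add (a2.smul m2))

theorem floor_case {u w : ℝ} (h : |u - w| ≤ 1 / 3) :
    ⌊u + 0⌋ = ⌊w + 0⌋ ∨ ⌊u + 1 / 2⌋ = ⌊w + 1 / 2⌋ := by
  rw [add_zero, add_zero]
  have key : ∀ {u w : ℝ}, |u - w| ≤ 1 / 3 → ⌊u⌋ < ⌊w⌋ → ⌊u + 1 / 2⌋ = ⌊w + 1 / 2⌋ := by
    intro u w h h1
    have h2 : (⌊u⌋ : ℝ) + 1 ≤ ⌊w⌋ := by exact_mod_cast h1
    have h3 := Int.lt_floor_add_one u
    have h4 := Int.floor_le w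
    obtain ⟨h5, h6⟩ := abs_le.1 h
    have e1 : ⌊u + 1 / 2⌋ = ⌊w⌋ := by
      rw [Int.floor_eq_iff]
      constructor <;> linarith
    have e2 : ⌊w + 1 / 2⌋ = ⌊w⌋ := by
      rw [Int.floor_eq_iff]
      constructor <;> linarith
    rw [e1, e2]
  rcases lt_trichotomy ⌊u⌋ ⌊w⌋ with h1 | h1 | h1
  · exact Or.inr (key h h1)
  · exact Or.inl h1
  · exact Or.inr (key (by rwa [abs_sub_comm]) h1).symm

/-- The reduced height. -/
noncomputable def red (r s : ℝ) : ℝ := 6 * Int.fract (s / 6 + r)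

theorem red_bounds (r s : ℝ) : 0 ≤ red r s ∧ red r s < 6 := by
  unfold red
  have h1 := Int.fract_nonneg (s / 6 + r)
  have h2 := Int.fract_lt_one (s / 6 + r)
  constructor <;> linarith

theorem measurable_red (r : ℝ) : Measurable (red r) := by
  unfold red
  exact (measurable_fract.comp ((measurable_id.div_const 6).add_const r)).const_mul 6

theorem red_point (F : ℝ → ℝ → ℝ≥0∞) {s1 s2 r : ℝ} (h : ⌊s1 / 6 + r⌋ = ⌊s2 / 6 + r⌋) :
    ∫⁻ s, F (s - s1) (s - s2) = ∫⁻ s, F (s - red r s1) (s - red r s2) := by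
  have e := lintegral_add_right_eq_self (μ := (volume : Measure ℝ))
    (fun s => F (s - red r s1) (s - red r s2)) (6 * r - 6 * ⌊s1 / 6 + r⌋)
  rw [← e]
  refine lintegral_congr fun s => ?_
  have e1 : s + (6 * r - 6 * ⌊s1 / 6 + r⌋) - red r s1 = s - s1 := by
    unfold red Int.fract
    ring
  have e2 : s + (6 * r - 6 * ⌊s1 / 6 + r⌋) - red r s2 = s - s2 := by
    rw [h]
    unfold red Int.fract
    ring
  rw [e1, e2]

theorem pairs_unb {e : (Σ j, Fin (m j)) ≃ Fin d} (hp : PairsBd e) : ∃ C : ℝ, 0 < C ∧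
    ∀ (δ lam : ℝ) (x : (Fin (k + 1) → ℝ) → E d) (σ : (Fin (k + 1) → ℝ) → ℝ),
      Measurable x → Measurable σ → 0 < δ → 0 < lam → lam ≤ 1 →
      ∫⁻ s, ∫⁻ z : E d × E d, RR e x lam δ (s - σ (bn e z.1)) (s - σ (bn e z.2)) z ≤
        ENNReal.ofReal (C * δ ^ d * lam⁻¹ ^ (d - 1) * ell δ ^ (k + 2)) := by
  obtain ⟨C, hC, hp⟩ := hp
  refine ⟨58 * C, by positivity, ?_⟩
  intro δ lam x σ hx hσ hδ hl hl1
  have hell := one_le_ell hδ
  have hone : ∀ r : ℝ, ∫⁻ s, ∫⁻ z : E d × E d,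
      RR e x lam δ (s - red r (σ (bn e z.1))) (s - red r (σ (bn e z.2))) z ≤
      ENNReal.ofReal (C * (1 + 4 * 7) * δ ^ d * lam⁻¹ ^ (d - 1) * ell δ ^ (k + 2)) := by
    intro r
    refine le_trans ?_ (hp 7 δ lam x (fun a => red r (σ a)) hx ((measurable_red r).comp hσ)
      (by norm_num) hδ hl hl1)
    rw [← lintegral_indicator measurableSet_Icc]
    apply lintegral_mono
    intro s
    by_cases hs : s ∈ Icc (-7 : ℝ) 7
    · rw [indicator_of_mem hs]
      apply lintegral_mono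
      intro z
      unfold RR PP
      refine (mul_le_mul' (mul_le_mul' (nn_le _) (nn_le _)) le_rfl).trans (le_of_eq ?_)
      rw [one_mul, one_mul]
    · rw [indicator_of_notMem hs, nonpos_iff_eq_zero]
      rw [lintegral_eq_zero_iff']
      · apply Filter.Eventually.of_forall
        intro z
        show RR e x lam δ (s - red r (σ (bn e z.1))) (s - red r (σ (bn e z.2))) z = 0
        unfold RR
        have : nn (s - red r (σ (bn e z.1))) = 0 := by
          by_contra h
          have h1 := abs_le.1 (nn_ne h)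
          have h2 := red_bounds r (σ (bn e z.1))
          apply hs
          constructor <;> linarith [h1.1, h1.2, h2.1, h2.2]
        rw [this, zero_mul, zero_mul]
      · exact ((measurable_RR e hx lam δ ((measurable_red r).comp hσ)).comp
          measurable_prodMk_left).aemeasurable
  -- pointwise
  have hswap : ∀ τ : (Fin (k + 1) → ℝ) → ℝ, Measurable τ →
      ∫⁻ s, ∫⁻ z : E d × E d, RR e x lam δ (s - τ (bn e z.1)) (s - τ (bn e z.2)) z =
      ∫⁻ z : E d × E d, ∫⁻ s, RR e x lam δ (s - τ (bn e z.1)) (s - τ (bn e z.2)) z := by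
    intro τ hτ
    exact lintegral_lintegral_swap (measurable_RR e hx lam δ hτ).aemeasurable
  have hpt : ∀ z : E d × E d, ∫⁻ s, RR e x lam δ (s - σ (bn e z.1)) (s - σ (bn e z.2)) z ≤
      (∫⁻ s, RR e x lam δ (s - red 0 (σ (bn e z.1))) (s - red 0 (σ (bn e z.2))) z) +
      ∫⁻ s, RR e x lam δ (s - red (1/2) (σ (bn e z.1))) (s - red (1/2) (σ (bn e z.2))) z := by
    intro z
    by_cases h : |σ (bn e z.1) - σ (bn e z.2)| ≤ 2
    · have h' : |σ (bn e z.1) / 6 - σ (bn e z.2) / 6| ≤ 1 / 3 := by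
        rw [← sub_div, abs_div, abs_of_pos (by norm_num : (0:ℝ) < 6)]
        linarith
      rcases floor_case h' with h1 | h1
      · rw [red_point (fun A B => RR e x lam δ A B z) h1]
        exact le_self_add
      · rw [red_point (fun A B => RR e x lam δ A B z) h1]
        exact le_add_self
    · have : ∀ s, RR e x lam δ (s - σ (bn e z.1)) (s - σ (bn e z.2)) z = 0 := by
        intro s
        unfold RR
        by_contra h0
        have h1 := left_ne_zero_of_mul (left_ne_zero_of_mul h0)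
        have h2 := right_ne_zero_of_mul (left_ne_zero_of_mul h0)
        have h3 := abs_le.1 (nn_ne h1)
        have h4 := abs_le.1 (nn_ne h2)
        apply h
        rw [abs_le]
        constructor <;> linarith [h3.1, h3.2, h4.1, h4.2]
      simp only [this, lintegral_zero]
      exact zero_le
  have hm1 : ∀ r : ℝ, Measurable (fun a => red r (σ a)) := fun r => (measurable_red r).comp hσ
  calc ∫⁻ s, ∫⁻ z : E d × E d, RR e x lam δ (s - σ (bn e z.1)) (s - σ (bn e z.2)) z
      = ∫⁻ z : E d × E d, ∫⁻ s, RR e x lam δ (s - σ (bn e z.1)) (s - σ (bn e z.2)) z := hswap σ hσ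
    _ ≤ ∫⁻ z : E d × E d, ((∫⁻ s, RR e x lam δ (s - red 0 (σ (bn e z.1)))
          (s - red 0 (σ (bn e z.2))) z) +
        ∫⁻ s, RR e x lam δ (s - red (1/2) (σ (bn e z.1))) (s - red (1/2) (σ (bn e z.2))) z) :=
        lintegral_mono hpt
    _ = (∫⁻ z : E d × E d, ∫⁻ s, RR e x lam δ (s - red 0 (σ (bn e z.1)))
          (s - red 0 (σ (bn e z.2))) z) + ∫⁻ z : E d × E d, ∫⁻ s,
          RR e x lam δ (s - red (1/2) (σ (bn e z.1))) (s - red (1/2) (σ (bn e z.2))) z := by
        apply lintegral_add_left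
        exact (measurable_RR e hx lam δ (hm1 0)).lintegral_prod_left'
    _ = (∫⁻ s, ∫⁻ z : E d × E d, RR e x lam δ (s - red 0 (σ (bn e z.1)))
          (s - red 0 (σ (bn e z.2))) z) + ∫⁻ s, ∫⁻ z : E d × E d,
          RR e x lam δ (s - red (1/2) (σ (bn e z.1))) (s - red (1/2) (σ (bn e z.2))) z := by
        rw [hswap _ (hm1 0), hswap _ (hm1 (1/2))]
    _ ≤ ENNReal.ofReal (C * (1 + 4 * 7) * δ ^ d * lam⁻¹ ^ (d - 1) * ell δ ^ (k + 2)) +
        ENNReal.ofReal (C * (1 + 4 * 7) * δ ^ d * lam⁻¹ ^ (d - 1) * ell δ ^ (k + 2)) :=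
        add_le_add (hone 0) (hone (1/2))
    _ = _ := by
        rw [← ENNReal.ofReal_add (by positivity) (by positivity)]
        congr 1
        ring

end Pool.Agent.W2helper94.KC
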