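import Pool.Agent.W2helper94.KC.U
import Pool.Agent.W2helper94.KC.K
import Pool.Agent.H810R3.Tub.Lp

set_option autoImplicit false

/-!
The critical moment of the sum of the tubes of a concurrent family.
-/

open MeasureTheory Set Metric
open scoped ENNReal NNReal

namespace Pool.Agent.W2helper94.KC

open Pool.Agent.H803R2.Kak (vol_ball_scale)

variable {k d : ℕ} {m : Fin (k + 1) → ℕ}

theorem sq_int {f : E d → ℝ≥0∞} (hf : Measurable f) :
    (∫⁻ u, f u) ^ (2 : ℝ) = ∫⁻ z : E d × E d, f z.1 * f z.2 := by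
  rw [Measure.volume_eq_prod, lintegral_prod_mul hf.aemeasurable hf.aemeasurable,
    ENNReal.rpow_two, sq]

theorem int_symm {f : E d × ℝ → ℝ≥0∞} (hf : Measurable f) :
    ∫⁻ q, f q = ∫⁻ t, ∫⁻ y, f (y, t) := by
  rw [Measure.volume_eq_prod, lintegral_prod_symm _ hf.aemeasurable]

/-- Indicator of a set of heights. -/
noncomputable def sI (S : Set ℝ) (a : ℝ) : ℝ≥0∞ := S.indicator (fun _ => 1) a

theorem sI_le (S : Set ℝ) (a : ℝ) : sI S a ≤ 1 := indicator_le_self' (fun _ _ => zero_le_one) a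

theorem measurable_sI {S : Set ℝ} (hS : MeasurableSet S) : Measurable (sI S) :=
  measurable_const.indicator hS

/-- The point of height `t` of the line `u`. -/
noncomputable def zz (e : (Σ j, Fin (m j)) ≃ Fin d) (x : (Fin (k + 1) → ℝ) → E d)
    (σ : (Fin (k + 1) → ℝ) → ℝ) (t : ℝ) (u : E d) : E d :=
  x (bn e u) + (t - σ (bn e u)) • u

/-- The measure of the directions in the unit ball whose tube contains the point, at a height in
`S` relative to the vertex. -/
noncomputable def GG (e : (Σ j, Fin (m j)) ≃ Fin d) (x : (Fin (k + 1) → ℝ) → E d)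
    (σ : (Fin (k + 1) → ℝ) → ℝ) (δ : ℝ) (S : Set ℝ) (q : E d × ℝ) : ℝ≥0∞ :=
  ∫⁻ u, ic 1 u * sI S (q.2 - σ (bn e u)) * ic δ (q.1 - zz e x σ q.2 u)

theorem meas_core (e : (Σ j, Fin (m j)) ≃ Fin d) {x : (Fin (k + 1) → ℝ) → E d}
    (hx : Measurable x) {σ : (Fin (k + 1) → ℝ) → ℝ} (hσ : Measurable σ) (δ : ℝ) {S : Set ℝ}
    (hS : MeasurableSet S) : Measurable (fun w : (E d × ℝ) × E d =>
      ic 1 w.2 * sI S (w.1.2 - σ (bn e w.2)) * ic δ (w.1.1 - zz e x σ w.1.2 w.2)) := by
  have c : Measurable (fun w : (E d × ℝ) × E d => bn e w.2) := (measurable_bn e).comp measurable_snd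
  have t : Measurable (fun w : (E d × ℝ) × E d => w.1.2) := measurable_snd.comp measurable_fst
  have a : Measurable (fun w : (E d × ℝ) × E d => w.1.2 - σ (bn e w.2)) := t.sub (hσ.comp c)
  refine (((measurable_ic 1).comp measurable_snd).mul ((measurable_sI hS).comp a)).mul
    ((measurable_ic δ).comp ?_)
  unfold zz
  exact (measurable_fst.comp measurable_fst).sub ((hx.comp c).add (a.smul measurable_snd))

theorem measurable_GG (e : (Σ j, Fin (m j)) ≃ Fin d) {x : (Fin (k + 1) → ℝ) → E d}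
    (hx : Measurable x) {σ : (Fin (k + 1) → ℝ) → ℝ} (hσ : Measurable σ) (δ : ℝ) {S : Set ℝ}
    (hS : MeasurableSet S) : Measurable (GG e x σ δ S) :=
  (meas_core e hx hσ δ hS).lintegral_prod_right'

theorem meas_ic_sub (δ : ℝ) (c : E d) : Measurable (fun y : E d => ic δ (y - c)) := by
  have h := (measurable_ic (m := d) δ).comp (measurable_id.sub_const c)
  simpa only [Function.comp_def, id] using h

theorem meas_sI_sub {S : Set ℝ} (hS : MeasurableSet S) (c : ℝ) :
    Measurable (fun t : ℝ => sI S (t - c)) := by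
  have h := (measurable_sI hS).comp (measurable_id.sub_const c)
  simpa only [Function.comp_def, id] using h

theorem lint_ic (δ : ℝ) (c : E d) :
    ∫⁻ y : E d, ic δ (y - c) = volume (closedBall (0 : E d) δ) := by
  have h := lintegral_sub_right_eq_self (μ := (volume : Measure (E d))) (fun y => ic δ y) c
  rw [h]
  unfold ic
  rw [lintegral_indicator measurableSet_closedBall, setLIntegral_const, one_mul]

theorem lint_sI {S : Set ℝ} (hS : MeasurableSet S) (c : ℝ) :
    ∫⁻ t : ℝ, sI S (t - c) = volume S := by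
  have h := lintegral_sub_right_eq_self (μ := (volume : Measure ℝ)) (fun y => sI S y) c
  rw [h]
  unfold sI
  rw [lintegral_indicator hS, setLIntegral_const, one_mul]

theorem GG_le (e : (Σ j, Fin (m j)) ≃ Fin d) (x : (Fin (k + 1) → ℝ) → E d)
    (σ : (Fin (k + 1) → ℝ) → ℝ) (δ : ℝ) (S : Set ℝ) (q : E d × ℝ) :
    GG e x σ δ S q ≤ volume (closedBall (0 : E d) 1) := by
  have h := lint_ic 1 (0 : E d)
  simp only [sub_zero] at h
  rw [← h]
  unfold GG
  apply lintegral_mono
  intro u
  calc ic 1 u * sI S (q.2 - σ (bn e u)) * ic δ (q.1 - zz e x σ q.2 u) ≤ ic 1 u * 1 * 1 := by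
        gcongr
        · exact sI_le _ _
        · exact indicator_le_self' (fun _ _ => zero_le_one) _
    _ = ic 1 u := by rw [mul_one, mul_one]

theorem GG_int (e : (Σ j, Fin (m j)) ≃ Fin d) {x : (Fin (k + 1) → ℝ) → E d}
    (hx : Measurable x) {σ : (Fin (k + 1) → ℝ) → ℝ} (hσ : Measurable σ) (δ : ℝ) {S : Set ℝ}
    (hS : MeasurableSet S) : ∫⁻ q, GG e x σ δ S q =
      volume (closedBall (0 : E d) 1) * (volume (closedBall (0 : E d) δ) * volume S) := by
  have h1 := (meas_core e hx hσ δ hS)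
  unfold GG
  rw [lintegral_lintegral_swap h1.aemeasurable]
  have h2 : ∀ u : E d, ∫⁻ q : E d × ℝ, ic 1 u * sI S (q.2 - σ (bn e u)) *
      ic δ (q.1 - zz e x σ q.2 u) =
      ic 1 u * (volume (closedBall (0 : E d) δ) * volume S) := by
    intro u
    have hpm : Measurable (fun q : E d × ℝ => (q, u)) := measurable_id.prodMk measurable_const
    have h3 : Measurable (fun q : E d × ℝ => ic 1 u * sI S (q.2 - σ (bn e u)) *
      ic δ (q.1 - zz e x σ q.2 u)) := by
      have h := h1.comp hpm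
      simp only [Function.comp_def] at h
      exact h
    refine (int_symm h3).trans ?_
    have h4 : ∀ t : ℝ, ∫⁻ y : E d, ic 1 u * sI S (t - σ (bn e u)) * ic δ (y - zz e x σ t u) =
        (ic 1 u * volume (closedBall (0 : E d) δ)) * sI S (t - σ (bn e u)) := by
      intro t
      rw [lintegral_const_mul _ (meas_ic_sub δ _), lint_ic]
      ring
    simp only [h4]
    rw [lintegral_const_mul _ (meas_sI_sub hS _), lint_sI hS]
    ring
  simp only [h2]
  rw [lintegral_mul_const _ (measurable_ic 1)]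
  have h := lint_ic 1 (0 : E d)
  simp only [sub_zero] at h
  rw [h]

theorem GG_sq (e : (Σ j, Fin (m j)) ≃ Fin d) {x : (Fin (k + 1) → ℝ) → E d}
    (hx : Measurable x) {σ : (Fin (k + 1) → ℝ) → ℝ} (hσ : Measurable σ) {δ lam : ℝ}
    {S : Set ℝ} (hS : MeasurableSet S) (hS1 : ∀ s ∈ S, lam ≤ |s| ∧ |s| ≤ 1) :
    ∫⁻ q, GG e x σ δ S q ^ (2 : ℝ) ≤ volume (closedBall (0 : E d) δ) *
      ∫⁻ s, ∫⁻ z : E d × E d, RR e x lam (2 * δ) (s - σ (bn e z.1)) (s - σ (bn e z.2)) z := by
  have hG := measurable_GG e hx hσ δ hS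
  refine (le_of_eq (int_symm (hG.pow_const _))).trans ?_
  have hR := measurable_RR e hx lam (2 * δ) hσ
  rw [← lintegral_const_mul _ hR.lintegral_prod_right']
  apply lintegral_mono
  intro t
  show ∫⁻ y : E d, GG e x σ δ S (y, t) ^ (2 : ℝ) ≤ volume (closedBall (0 : E d) δ) *
    ∫⁻ z : E d × E d, RR e x lam (2 * δ) (t - σ (bn e z.1)) (t - σ (bn e z.2)) z
  have hRt : Measurable (fun z : E d × E d =>
      RR e x lam (2 * δ) (t - σ (bn e z.1)) (t - σ (bn e z.2)) z) :=
    hR.comp measurable_prodMk_left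
  have hzm : Measurable (fun u : E d => zz e x σ t u) := by
    unfold zz
    have c : Measurable (fun w : E d => bn e w) := measurable_bn e
    exact (hx.comp c).add (((hσ.comp c).const_sub t).smul measurable_id)
  have hpt : ∀ y : E d, GG e x σ δ S (y, t) ^ (2 : ℝ) ≤ ∫⁻ z : E d × E d,
      ic δ (y - zz e x σ t z.1) *
        RR e x lam (2 * δ) (t - σ (bn e z.1)) (t - σ (bn e z.2)) z := by
    intro y
    have hpm : Measurable (fun u : E d => ((y, t), u)) := measurable_const.prodMk measurable_id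
    have hm : Measurable (fun u : E d => ic 1 u * sI S (t - σ (bn e u)) *
        ic δ (y - zz e x σ t u)) := by
      have h := (meas_core e hx hσ δ hS).comp hpm
      simp only [Function.comp_def] at h
      exact h
    have e1 : GG e x σ δ S (y, t) ^ (2 : ℝ) = ∫⁻ z : E d × E d,
        (ic 1 z.1 * sI S (t - σ (bn e z.1)) * ic δ (y - zz e x σ t z.1)) *
        (ic 1 z.2 * sI S (t - σ (bn e z.2)) * ic δ (y - zz e x σ t z.2)) := by
      exact sq_int hm
    rw [e1]
    apply lintegral_mono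
    intro z
    show (ic 1 z.1 * sI S (t - σ (bn e z.1)) * ic δ (y - zz e x σ t z.1)) *
        (ic 1 z.2 * sI S (t - σ (bn e z.2)) * ic δ (y - zz e x σ t z.2)) ≤
        ic δ (y - zz e x σ t z.1) *
        RR e x lam (2 * δ) (t - σ (bn e z.1)) (t - σ (bn e z.2)) z
    by_cases h1 : t - σ (bn e z.1) ∈ S
    swap
    · have : sI S (t - σ (bn e z.1)) = 0 := indicator_of_notMem h1 _
      rw [this]; simp
    by_cases h2 : t - σ (bn e z.2) ∈ S
    swap
    · have : sI S (t - σ (bn e z.2)) = 0 := indicator_of_notMem h2 _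
      rw [this]; simp
    by_cases h3 : ‖y - zz e x σ t z.1‖ ≤ δ
    swap
    · rw [ic_of_not h3]; simp
    by_cases h4 : ‖y - zz e x σ t z.2‖ ≤ δ
    swap
    · rw [ic_of_not h4]; simp
    have e3 : sI S (t - σ (bn e z.1)) = 1 := indicator_of_mem h1 _
    have e4 : sI S (t - σ (bn e z.2)) = 1 := indicator_of_mem h2 _
    rw [e3, e4, ic_of_le h3, ic_of_le h4]
    unfold RR
    rw [nn_one (hS1 _ h1).2, nn_one (hS1 _ h2).2, chi_one (hS1 _ h1).1 (hS1 _ h2).1]
    have h5 : ‖(x (bn e z.1) + (t - σ (bn e z.1)) • z.1) -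
        (x (bn e z.2) + (t - σ (bn e z.2)) • z.2)‖ ≤ 2 * δ := by
      have : (x (bn e z.1) + (t - σ (bn e z.1)) • z.1) -
        (x (bn e z.2) + (t - σ (bn e z.2)) • z.2) =
          (y - zz e x σ t z.2) - (y - zz e x σ t z.1) := by
        unfold zz
        abel
      rw [this]
      exact (norm_sub_le _ _).trans (by linarith)
    rw [ic_of_le h5]
    apply le_of_eq
    ring
  calc ∫⁻ y : E d, GG e x σ δ S (y, t) ^ (2 : ℝ)
      ≤ ∫⁻ y : E d, ∫⁻ z : E d × E d, ic δ (y - zz e x σ t z.1) *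
        RR e x lam (2 * δ) (t - σ (bn e z.1)) (t - σ (bn e z.2)) z := lintegral_mono hpt
    _ = ∫⁻ z : E d × E d, ∫⁻ y : E d, ic δ (y - zz e x σ t z.1) *
        RR e x lam (2 * δ) (t - σ (bn e z.1)) (t - σ (bn e z.2)) z := by
        apply lintegral_lintegral_swap
        apply Measurable.aemeasurable
        refine ((measurable_ic δ).comp ?_).mul (hRt.comp measurable_snd)
        exact measurable_fst.sub (hzm.comp (measurable_fst.comp measurable_snd))
    _ = ∫⁻ z : E d × E d, volume (closedBall (0 : E d) δ) *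
        RR e x lam (2 * δ) (t - σ (bn e z.1)) (t - σ (bn e z.2)) z := by
        refine lintegral_congr fun z => ?_
        rw [lintegral_mul_const _ (meas_ic_sub δ _), lint_ic]
    _ = _ := lintegral_const_mul _ hRt

end Pool.Agent.W2helper94.KC
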