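import Pool.Agent.W2helper94.KC.W
import Pool.Agent.H810R3.Tub.Per2
import Pool.Agent.H810R3.Tub.Compare

set_option autoImplicit false

/-!
Boxes meeting common balls: comparison with the continuous family.
-/

open MeasureTheory Set Metric
open scoped ENNReal NNReal

namespace Pool.Agent.W2helper94.KC

open Pool.Agent.H810R3

variable {k d : ℕ} {m : Fin (k + 1) → ℕ}

theorem unit_dir {n : ℕ} (hn : 1 ≤ n) (w : E n) : ∃ u : E n, ‖u‖ = 1 ∧ w = ‖w‖ • u := by
  by_cases h : w = 0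
  · have : Nonempty (Fin n) := ⟨⟨0, by omega⟩⟩
    obtain ⟨u, hu⟩ := exists_norm_eq (E n) zero_le_one
    exact ⟨u, hu, by rw [h]; simp⟩
  · have h0 : ‖w‖ ≠ 0 := norm_ne_zero_iff.2 h
    refine ⟨‖w‖⁻¹ • w, ?_, ?_⟩
    · rw [norm_smul, norm_inv, norm_norm, inv_mul_cancel₀ h0]
    · rw [smul_smul, mul_inv_cancel₀ h0, one_smul]

theorem good_radius {ρ N c : ℝ} (hN : 0 < N) (hρ : 0 ≤ ρ) (hc : 0 < c) (hc2 : c ≤ 1 / 2) :
    ∃ ρ' : ℝ, |ρ' - ρ| ≤ c / N ∧ 0 ≤ ρ' ∧ ∀ r : ℝ, |r - ρ'| < c / N → ⌊N * r⌋ = ⌊N * ρ⌋ := by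
  set n : ℤ := ⌊N * ρ⌋ with hn
  have h1 : (n : ℝ) ≤ N * ρ := Int.floor_le _
  have h2 : N * ρ < n + 1 := Int.lt_floor_add_one _
  have hn0 : (0 : ℝ) ≤ n := by
    have : 0 ≤ n := Int.floor_nonneg.2 (by positivity)
    exact_mod_cast this
  have key : ∀ ρ' : ℝ, n + c ≤ N * ρ' → N * ρ' ≤ n + 1 - c →
      ∀ r : ℝ, |r - ρ'| < c / N → ⌊N * r⌋ = n := by
    intro ρ' h3 h4 r hr
    rw [lt_div_iff₀ hN] at hr
    have h5 : |N * r - N * ρ'| < c := by
      rw [← mul_sub, abs_mul, abs_of_pos hN, mul_comm]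
      exact hr
    obtain ⟨h6, h7⟩ := abs_lt.1 h5
    rw [Int.floor_eq_iff]
    constructor <;> linarith
  rcases lt_or_ge (N * ρ) (n + c) with h3 | h3
  · refine ⟨(n + c) / N, ?_, by positivity, key _ ?_ ?_⟩
    · have e : (n + c) / N - ρ = (n + c - N * ρ) / N := by field_simp
      rw [e, abs_div, abs_of_pos hN]
      apply div_le_div_of_nonneg_right _ hN.le
      rw [abs_le]
      constructor <;> linarith
    · rw [mul_div_cancel₀ _ hN.ne']
    · rw [mul_div_cancel₀ _ hN.ne']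
      linarith
  · rcases lt_or_ge (n + 1 - c) (N * ρ) with h4 | h4
    · refine ⟨(n + 1 - c) / N, ?_, div_nonneg (by linarith) hN.le, key _ ?_ ?_⟩
      · have e : (n + 1 - c) / N - ρ = (n + 1 - c - N * ρ) / N := by field_simp
        rw [e, abs_div, abs_of_pos hN]
        apply div_le_div_of_nonneg_right _ hN.le
        rw [abs_le]
        constructor <;> linarith
      · rw [mul_div_cancel₀ _ hN.ne']
        linarith
      · rw [mul_div_cancel₀ _ hN.ne']
    · refine ⟨ρ, by rw [sub_self, abs_zero]; positivity, hρ, key _ h3 h4⟩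

theorem blk_sub (e : (Σ j, Fin (m j)) ≃ Fin d) (v w : E d) (j : Fin (k + 1)) :
    blk e (v - w) j = blk e v j - blk e w j := rfl

theorem good_centre (e : (Σ j, Fin (m j)) ≃ Fin d) (hm : ∀ j, 1 ≤ m j) (ω : E d) {N c : ℝ}
    (hN : 0 < N) (hc : 0 < c) (hc2 : c ≤ 1 / 2) :
    ∃ w : E d, ‖w - ω‖ ≤ ((k : ℝ) + 1) * (c / N) ∧
      ∀ u : E d, ‖u - w‖ < c / N → ∀ j, ⌊N * bn e u j⌋ = ⌊N * bn e ω j⌋ := by
  choose u hu hu2 using fun j => unit_dir (hm j) (blk e ω j)
  choose ρ hρ hρ0 hρf using fun j => good_radius (ρ := bn e ω j) hN (norm_nonneg _) hc hc2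
  set w : E d := WithLp.toLp 2 (fun l => (ρ (e.symm l).1 • u (e.symm l).1) (e.symm l).2) with hw
  have hblk : ∀ j, blk e w j = ρ j • u j := by
    intro j
    ext i
    show (ρ (e.symm (e ⟨j, i⟩)).1 • u (e.symm (e ⟨j, i⟩)).1) (e.symm (e ⟨j, i⟩)).2 = (ρ j • u j) i
    rw [e.symm_apply_apply]
  have hbnw : ∀ j, ‖blk e w j‖ = ρ j := by
    intro j
    rw [hblk, norm_smul, hu, mul_one, Real.norm_eq_abs, abs_of_nonneg (hρ0 j)]
  refine ⟨w, ?_, ?_⟩
  · have h1 : ∀ j, ‖blk e (w - ω) j‖ ≤ c / N := by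
      intro j
      rw [blk_sub, hblk, hu2 j, ← sub_smul, norm_smul, hu, mul_one, Real.norm_eq_abs]
      exact hρ j
    have h2 : ‖w - ω‖ ^ 2 ≤ (((k : ℝ) + 1) * (c / N)) ^ 2 := by
      rw [norm_sq_blk e]
      have h3 : ∑ j : Fin (k + 1), ‖blk e (w - ω) j‖ ^ 2 ≤ ∑ _j : Fin (k + 1), (c / N) ^ 2 := by
        apply Finset.sum_le_sum
        intro j _
        exact pow_le_pow_left₀ (norm_nonneg _) (h1 j) 2
      refine h3.trans ?_
      rw [Finset.sum_const, Finset.card_univ, Fintype.card_fin, nsmul_eq_mul, mul_pow]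
      have h4 : (0 : ℝ) ≤ (c / N) ^ 2 := by positivity
      have h5 : (((k + 1 : ℕ) : ℝ)) ≤ ((k : ℝ) + 1) ^ 2 := by
        push_cast
        nlinarith [(Nat.cast_nonneg k : (0:ℝ) ≤ k)]
      exact mul_le_mul_of_nonneg_right h5 h4
    exact le_of_sq_le_sq h2 (by positivity)
  · intro v hv j
    apply hρf j
    refine lt_of_le_of_lt ?_ hv
    have h1 : |bn e v j - ρ j| = |‖blk e v j‖ - ‖blk e w j‖| := by
      rw [hbnw]
      rfl
    rw [h1]
    refine (abs_norm_sub_norm_le _ _).trans ?_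
    rw [← blk_sub]
    exact norm_blk_le e (v - w) j

/-- The cell of a vector of block norms. -/
noncomputable def cel (N : ℝ) (b : Fin (k + 1) → ℝ) (j : Fin (k + 1)) : ℤ := ⌊N * b j⌋

theorem measurable_cel (N : ℝ) : Measurable (cel (k := k) N) := by
  apply measurable_pi_lambda
  intro j
  have h : Measurable (fun b : Fin (k + 1) → ℝ => N * b j) :=
    measurable_const.mul (measurable_pi_apply j)
  exact h.floor

/-- The positions of the vertices. -/
noncomputable def xf (N M : ℝ) (z : (Fin (k + 1) → ℤ) → Tub.Space d)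
    (b : Fin (k + 1) → ℝ) : E d := M⁻¹ • (z (cel (2 * N) b)).fst

/-- The heights of the vertices. -/
noncomputable def sf (N M : ℝ) (z : (Fin (k + 1) → ℤ) → Tub.Space d)
    (b : Fin (k + 1) → ℝ) : ℝ := -4 / M * (z (cel (2 * N) b)).snd

theorem measurable_xf (N M : ℝ) (z : (Fin (k + 1) → ℤ) → Tub.Space d) :
    Measurable (xf N M z) :=
  (measurable_of_countable (fun c : Fin (k + 1) → ℤ => M⁻¹ • (z c).fst)).comp (measurable_cel _)

theorem measurable_sf (N M : ℝ) (z : (Fin (k + 1) → ℤ) → Tub.Space d) :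
    Measurable (sf N M z) :=
  (measurable_of_countable (fun c : Fin (k + 1) → ℤ => -4 / M * (z c).snd)).comp (measurable_cel _)

/-- The scale. -/
noncomputable def scal (d : ℕ) (K N : ℝ) : ℝ := 4 * (1 + d + K) * N ^ 2

/-- Points of a box that meets the ball around the vertex. -/
theorem box_vertex {N K : ℝ} (hN : 1 ≤ N) (hK : 0 ≤ K) {ω : E d} (hω : ‖ω‖ ≤ 1)
    {f : Fin d → Tub.Space d}
    (hf : Orthonormal ℝ (Fin.cons (Tub.nor ω) f : Fin (d + 1) → Tub.Space d))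
    {a Z y : Tub.Space d} (hy : y ∈ Tub.box N (Tub.nor ω) f a)
    (hZ : (Tub.box N (Tub.nor ω) f a ∩ closedBall Z (K * N)).Nonempty) :
    ‖(y - Z).fst + (2 * (y - Z).snd) • ω‖ ≤ (4 * d + 3 * K) * N ∧
      |(y - Z).snd| ≤ (1 + d + K) * N ^ 2 := by
  have hd0 : (0 : ℝ) ≤ d := Nat.cast_nonneg d
  obtain ⟨y0, hy0, hy0Z⟩ := hZ
  rw [mem_closedBall, dist_eq_norm] at hy0Z
  obtain ⟨h1, h2⟩ := Tub.box_coord hN hω hf hy
  obtain ⟨h3, h4⟩ := Tub.box_coord hN hω hf hy0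
  set w := y0 - Z with hw
  have hsq := Tub.norm_space_sq w
  have hwf : ‖w.fst‖ ≤ ‖w‖ := by
    apply le_of_sq_le_sq _ (norm_nonneg _)
    rw [hsq]
    nlinarith [sq_nonneg w.snd]
  have hws : |w.snd| ≤ ‖w‖ := by
    apply le_of_sq_le_sq _ (norm_nonneg _)
    rw [hsq, sq_abs]
    nlinarith [sq_nonneg ‖w.fst‖]
  have hNN : N ≤ N ^ 2 := by nlinarith
  constructor
  · have e : (y - Z).fst + (2 * (y - Z).snd) • ω =
        (((y - a).fst + (2 * (y - a).snd) • ω) - ((y0 - a).fst + (2 * (y0 - a).snd) • ω)) +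
          (w.fst + (2 * w.snd) • ω) := by
      rw [hw]
      simp only [WithLp.sub_fst, WithLp.sub_snd]
      module
    rw [e]
    calc _ ≤ ‖((y - a).fst + (2 * (y - a).snd) • ω)‖ + ‖((y0 - a).fst + (2 * (y0 - a).snd) • ω)‖ +
          (‖w.fst‖ + ‖(2 * w.snd) • ω‖) := by
          refine (norm_add_le _ _).trans (add_le_add (norm_sub_le _ _) (norm_add_le _ _))
      _ ≤ 2 * d * N + 2 * d * N + (K * N + 2 * (K * N) * 1) := by
          have h5 : ‖(2 * w.snd) • ω‖ ≤ 2 * (K * N) * 1 := by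
            rw [norm_smul, Real.norm_eq_abs, abs_mul, abs_of_pos (by norm_num : (0:ℝ) < 2)]
            have h6 : |w.snd| ≤ K * N := hws.trans hy0Z
            gcongr
          have h6 : ‖w.fst‖ ≤ K * N := hwf.trans hy0Z
          linarith
      _ = _ := by ring
  · have e : (y - Z).snd = (y - a).snd - (y0 - a).snd + w.snd := by
      rw [hw]
      simp only [WithLp.sub_snd]
      ring
    rw [e]
    calc _ ≤ |(y - a).snd| + |(y0 - a).snd| + |w.snd| :=
          (abs_add_le _ _).trans (add_le_add (abs_sub _ _) le_rfl)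
      _ ≤ (1 + d) * N ^ 2 / 2 + (1 + d) * N ^ 2 / 2 + K * N := by
          have h6 : |w.snd| ≤ K * N := hws.trans hy0Z
          linarith
      _ ≤ (1 + d) * N ^ 2 / 2 + (1 + d) * N ^ 2 / 2 + K * N ^ 2 := by gcongr
      _ = _ := by ring

end Pool.Agent.W2helper94.KC
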