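import Pool.Agent.W2helper94.KC.X

set_option autoImplicit false

/-!
Boxes meeting common balls: the critical moment.
-/

open MeasureTheory Set Metric
open scoped ENNReal NNReal

namespace Pool.Agent.W2helper94.KC

open Pool.Agent.H810R3

variable {k d : ℕ} {m : Fin (k + 1) → ℕ}

theorem bn_smul (e : (Σ j, Fin (m j)) ≃ Fin d) {r : ℝ} (hr : 0 ≤ r) (u : E d) (j : Fin (k + 1)) :
    bn e (r • u) j = r * bn e u j := by
  unfold bn
  have : blk e (r • u) j = r • blk e u j := rfl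
  rw [this, norm_smul, Real.norm_eq_abs, abs_of_nonneg hr]

theorem lint_scale {g : E d × ℝ → ℝ≥0∞} (hg : Measurable g) {r s : ℝ} (hr : r ≠ 0) (hs : s ≠ 0) :
    ∫⁻ q : E d × ℝ, g (r • q.1, s * q.2) =
      ENNReal.ofReal |(s ^ 1)⁻¹| * (ENNReal.ofReal |(r ^ d)⁻¹| * ∫⁻ q, g q) := by
  have hgm : Measurable (fun q : E d × ℝ => g (r • q.1, s * q.2)) :=
    hg.comp ((measurable_fst.const_smul r).prodMk (measurable_snd.const_mul s))
  rw [int_symm hgm, int_symm hg]
  have h1 : ∀ t : ℝ, ∫⁻ y : E d, g (r • y, t) =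
      ENNReal.ofReal |(r ^ d)⁻¹| * ∫⁻ y, g (y, t) := by
    intro t
    have hgt : Measurable (fun y : E d => g (y, t)) := hg.comp (measurable_id.prodMk measurable_const)
    have h := lintegral_map (μ := (volume : Measure (E d))) hgt
      (measurable_const_smul (α := E d) r)
    rw [Measure.map_addHaar_smul _ hr, lintegral_smul_measure, finrank_euclideanSpace_fin] at h
    exact h.symm
  have h2 : ∀ F : ℝ → ℝ≥0∞, Measurable F → ∫⁻ t : ℝ, F (s * t) =
      ENNReal.ofReal |(s ^ 1)⁻¹| * ∫⁻ t, F t := by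
    intro F hF
    have h := lintegral_map (μ := (volume : Measure ℝ)) hF (measurable_const_smul (α := ℝ) s)
    rw [Measure.map_addHaar_smul _ hs, lintegral_smul_measure, Module.finrank_self] at h
    exact h.symm
  simp only [h1]
  rw [h2 (fun t => ENNReal.ofReal |(r ^ d)⁻¹| * ∫⁻ y, g (y, t))
    (hg.lintegral_prod_left'.const_mul _), lintegral_const_mul _ hg.lintegral_prod_left']

/-- The radius of the balls of directions, times `4 N`. -/
noncomputable def cc (k : ℕ) (sep : ℝ) : ℝ := sep / (8 * ((k : ℝ) + 1))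

theorem point_bound {ι : Type} [Fintype ι] (e : (Σ j, Fin (m j)) ≃ Fin d) (hm : ∀ j, 1 ≤ m j)
    {N K sep : ℝ} (hN : 1 ≤ N) (hK : 0 ≤ K) (hsep : 0 < sep) (hsep1 : sep ≤ 1) (ω : ι → E d)
    (hω : ∀ i, ‖ω i‖ ≤ 1) (hsp : ∀ i j, i ≠ j → sep / N ≤ ‖ω i - ω j‖)
    (f : ι → Fin d → Tub.Space d)
    (hf : ∀ i, Orthonormal ℝ (Fin.cons (Tub.nor (ω i)) (f i) : Fin (d + 1) → Tub.Space d))
    (a : ι → Tub.Space d) (z : (Fin (k + 1) → ℤ) → Tub.Space d)
    (hz : ∀ i, (Tub.box N (Tub.nor (ω i)) (f i) (a i) ∩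
      closedBall (z (cel N (bn e (ω i)))) (K * N)).Nonempty) (y : E d) (t : ℝ) :
    Tub.Fb N ω f a (WithLp.toLp 2 (y, t)) * volume (closedBall (0 : E d) (cc k sep / (4 * N))) ≤
      GG e (xf N (scal d K N) z) (sf N (scal d K N) z) (2 / N) (Icc (-1) 1)
        ((scal d K N)⁻¹ • y, -4 / scal d K N * t) := by
  have hN0 : 0 < N := by linarith
  have hk0 : (0 : ℝ) ≤ k := Nat.cast_nonneg k
  have hd0 : (0 : ℝ) ≤ d := Nat.cast_nonneg d
  set c : ℝ := cc k sep with hc
  have hc0 : 0 < c := by rw [hc, cc]; positivity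
  have hkc : ((k : ℝ) + 1) * c = sep / 8 := by
    rw [hc, cc]
    field_simp
  have hc8 : c ≤ 1 / 8 := by
    have : 1 * c ≤ ((k : ℝ) + 1) * c := by gcongr; linarith
    linarith
  set M : ℝ := scal d K N with hM
  have hM0 : 0 < M := by rw [hM, scal]; positivity
  choose w hw1 hw2 using fun i => good_centre e hm (ω i) hN0 hc0 (by linarith : c ≤ 1 / 2)
  have hw1' : ∀ i, ‖w i - ω i‖ ≤ sep / (8 * N) := by
    intro i
    refine (hw1 i).trans (le_of_eq ?_)
    rw [← mul_div_assoc, hkc]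
    field_simp
  set D : ι → Set (E d) := fun i => closedBall ((1 / 2 : ℝ) • w i) (c / (4 * N)) with hD
  have hdis : Pairwise (Function.onFun Disjoint D) := by
    intro i j hij
    apply closedBall_disjoint_closedBall
    rw [dist_eq_norm, ← smul_sub, norm_smul, Real.norm_eq_abs, abs_of_pos (by norm_num : (0:ℝ) < 1/2)]
    have h1 := hsp i j hij
    have h2 : ‖ω i - ω j‖ ≤ ‖w i - w j‖ + (‖w i - ω i‖ + ‖w j - ω j‖) := by
      have e1 : ω i - ω j = (w i - w j) - ((w i - ω i) - (w j - ω j)) := by abel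
      rw [e1]
      exact (norm_sub_le _ _).trans (add_le_add le_rfl (norm_sub_le _ _))
    have h3 := hw1' i
    have h4 := hw1' j
    have h5 : sep / (8 * N) = (sep / N) / 8 := by field_simp
    have h6 : c / (4 * N) ≤ (sep / N) / 32 := by
      have h7 : 1 * c ≤ ((k : ℝ) + 1) * c := by gcongr; linarith
      rw [hkc, one_mul] at h7
      calc c / (4 * N) ≤ (sep / 8) / (4 * N) := by gcongr
        _ = _ := by field_simp; ring
    have h8 : 0 < sep / N := by positivity
    rw [h5] at h3 h4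
    linarith
  have hvol : ∀ i, volume (D i) = volume (closedBall (0 : E d) (c / (4 * N))) := by
    intro i
    exact Measure.addHaar_closedBall_center _ _ _
  set F : E d → ℝ≥0∞ := fun u => ic 1 u * sI (Icc (-1) 1) (-4 / M * t - sf N M z (bn e u)) *
    ic (2 / N) (M⁻¹ • y - zz e (xf N M z) (sf N M z) (-4 / M * t) u) with hF
  have hGG : GG e (xf N M z) (sf N M z) (2 / N) (Icc (-1) 1) (M⁻¹ • y, -4 / M * t) = ∫⁻ u, F u := rfl
  rw [hGG]
  have hone : ∀ i, (WithLp.toLp 2 (y, t) : Tub.Space d) ∈ Tub.box N (Tub.nor (ω i)) (f i) (a i) →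
      ∀ u ∈ D i, F u = 1 := by
    intro i hy u hu
    rw [hD, mem_closedBall, dist_eq_norm] at hu
    set Z := z (cel N (bn e (ω i))) with hZ
    obtain ⟨h1, h2⟩ := box_vertex hN hK (hω i) (hf i) hy (hz i)
    rw [← hZ] at h1 h2
    have e1 : ((WithLp.toLp 2 (y, t) : Tub.Space d) - Z).fst = y - Z.fst := rfl
    have e2 : ((WithLp.toLp 2 (y, t) : Tub.Space d) - Z).snd = t - Z.snd := rfl
    rw [e1, e2] at h1
    rw [e2] at h2
    -- the cell of `2 u`
    have h3 : ‖(2 : ℝ) • u - w i‖ < c / N := by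
      have e3 : (2 : ℝ) • u - w i = (2 : ℝ) • (u - (1 / 2 : ℝ) • w i) := by
        rw [smul_sub, smul_smul]
        norm_num
      rw [e3, norm_smul, Real.norm_eq_abs, abs_of_pos (by norm_num : (0:ℝ) < 2)]
      have h4 : 2 * (c / (4 * N)) < c / N := by
        have h5 : 2 * (c / (4 * N)) = (c / N) / 2 := by field_simp; ring
        have h6 : 0 < c / N := by positivity
        rw [h5]
        linarith
      linarith
    have h4 : cel (2 * N) (bn e u) = cel N (bn e (ω i)) := by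
      funext j
      have h5 := hw2 i _ h3 j
      rw [bn_smul e (by norm_num)] at h5
      unfold cel
      rw [← h5]
      congr 1
      ring
    have e3 : xf N M z (bn e u) = M⁻¹ • Z.fst := by
      unfold xf
      rw [h4]
    have e4 : sf N M z (bn e u) = -4 / M * Z.snd := by
      unfold sf
      rw [h4]
    set τ : ℝ := -4 / M * t - -4 / M * Z.snd with hτ
    have hτ1 : |τ| ≤ 1 := by
      have e5 : τ = -(4 / M) * (t - Z.snd) := by rw [hτ]; ring
      rw [e5, abs_mul, abs_neg, abs_of_pos (by positivity : 0 < 4 / M), div_mul_eq_mul_div,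
        div_le_one hM0]
      calc 4 * |t - Z.snd| ≤ 4 * ((1 + d + K) * N ^ 2) := by gcongr
        _ = M := by rw [hM, scal]; ring
    have hu2 : ‖u - (1 / 2 : ℝ) • ω i‖ ≤ 1 / N := by
      have e5 : u - (1 / 2 : ℝ) • ω i = (u - (1 / 2 : ℝ) • w i) + (1 / 2 : ℝ) • (w i - ω i) := by
        rw [smul_sub]; abel
      rw [e5]
      refine (norm_add_le _ _).trans ?_
      rw [norm_smul, Real.norm_eq_abs, abs_of_pos (by norm_num : (0:ℝ) < 1/2)]
      have h5 := hw1' i
      have h6 : c / (4 * N) ≤ 1 / N / 32 := by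
        calc c / (4 * N) ≤ (1 / 8) / (4 * N) := by gcongr
          _ = _ := by field_simp; ring
      have h7 : sep / (8 * N) ≤ 1 / N / 8 := by
        calc sep / (8 * N) ≤ 1 / (8 * N) := by gcongr
          _ = _ := by field_simp
      have h8 : 0 < 1 / N := by positivity
      linarith
    have hN1 : 1 / N ≤ 1 := by rw [div_le_one hN0]; exact hN
    have hu1 : ‖u‖ ≤ 1 := by
      have e5 : u = (u - (1 / 2 : ℝ) • w i) + (1 / 2 : ℝ) • ((w i - ω i) + ω i) := by
        rw [sub_add_cancel, sub_add_cancel]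
      rw [e5]
      refine (norm_add_le _ _).trans ?_
      rw [norm_smul, Real.norm_eq_abs, abs_of_pos (by norm_num : (0:ℝ) < 1/2)]
      have h5 := (norm_add_le (w i - ω i) (ω i)).trans (add_le_add (hw1' i) (hω i))
      have h6 : c / (4 * N) ≤ 1 / N / 32 := by
        calc c / (4 * N) ≤ (1 / 8) / (4 * N) := by gcongr
          _ = _ := by field_simp; ring
      have h7 : sep / (8 * N) ≤ 1 / N / 8 := by
        calc sep / (8 * N) ≤ 1 / (8 * N) := by gcongr
          _ = _ := by field_simp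
      linarith
    have hpos : ‖M⁻¹ • y - zz e (xf N M z) (sf N M z) (-4 / M * t) u‖ ≤ 2 / N := by
      unfold zz
      rw [e3, e4, ← hτ]
      have e5 : M⁻¹ • y - (M⁻¹ • Z.fst + τ • u) =
          M⁻¹ • (y - Z.fst + (2 * (t - Z.snd)) • ω i) - τ • (u - (1 / 2 : ℝ) • ω i) := by
        have e6 : τ = -(4 * M⁻¹) * (t - Z.snd) := by
          rw [hτ]; ring
        rw [e6]
        module
      rw [e5]
      refine (norm_sub_le _ _).trans ?_
      rw [norm_smul, norm_smul, Real.norm_eq_abs, Real.norm_eq_abs, abs_of_pos (inv_pos.2 hM0)]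
      have h5 : M⁻¹ * ‖y - Z.fst + (2 * (t - Z.snd)) • ω i‖ ≤ 1 / N := by
        calc M⁻¹ * ‖y - Z.fst + (2 * (t - Z.snd)) • ω i‖ ≤ M⁻¹ * ((4 * d + 3 * K) * N) := by gcongr
          _ ≤ M⁻¹ * (M / N) := by
              gcongr
              rw [hM, scal, le_div_iff₀ hN0]
              nlinarith [sq_nonneg N, mul_nonneg hK (sq_nonneg N)]
          _ = 1 / N := by field_simp
      have h6 : |τ| * ‖u - (1 / 2 : ℝ) • ω i‖ ≤ 1 * (1 / N) := by gcongr
      have h7 : 2 / N = 1 / N + 1 / N := by ring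
      linarith
    rw [hF]
    simp only
    rw [ic_of_le hu1, ic_of_le hpos, e4, ← hτ]
    have h5 : sI (Icc (-1) 1) τ = 1 := indicator_of_mem (mem_Icc.2 (abs_le.1 hτ1)) _
    rw [h5, one_mul, one_mul]
  calc Tub.Fb N ω f a (WithLp.toLp 2 (y, t)) * volume (closedBall (0 : E d) (c / (4 * N)))
      = ∑ i, (Tub.box N (Tub.nor (ω i)) (f i) (a i)).indicator (fun _ => (1 : ℝ≥0∞))
          (WithLp.toLp 2 (y, t)) * volume (D i) := by
        unfold Tub.Fb
        rw [Finset.sum_mul]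
        exact Finset.sum_congr rfl fun i _ => by rw [hvol]
    _ ≤ ∑ i, ∫⁻ u in D i, F u := by
        apply Finset.sum_le_sum
        intro i _
        by_cases hy : (WithLp.toLp 2 (y, t) : Tub.Space d) ∈ Tub.box N (Tub.nor (ω i)) (f i) (a i)
        · rw [indicator_of_mem hy, one_mul,
            setLIntegral_congr_fun measurableSet_closedBall (hone i hy), setLIntegral_one]
        · rw [indicator_of_notMem hy, zero_mul]
          exact zero_le
    _ = ∫⁻ u in ⋃ i, D i, F u := by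
        rw [lintegral_iUnion (fun i => measurableSet_closedBall) hdis, tsum_fintype]
    _ ≤ ∫⁻ u, F u := setLIntegral_le_lintegral _ _

theorem ell_N {N : ℝ} (hN : 1 ≤ N) : ell (2 / N) ≤ 2 * (1 + Real.log N) := by
  unfold ell
  have hN0 : 0 < N := by linarith
  have e1 : 1 / (2 / N) = N / 2 := by field_simp
  rw [e1]
  have h1 : Real.log (1 + N / 2) ≤ Real.log (2 * N) := Real.log_le_log (by positivity) (by linarith)
  rw [Real.log_mul (by norm_num) hN0.ne'] at h1
  have h2 := Real.log_two_lt_d9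
  have h3 := Real.log_nonneg hN
  linarith

/-- The critical moment of the sum of the boxes. -/
theorem box_moment {e : (Σ j, Fin (m j)) ≃ Fin d} (hm : ∀ j, 1 ≤ m j) (hp : PairsBd e) (hd : 1 ≤ d)
    {K sep : ℝ} (hK : 0 ≤ K) (hsep : 0 < sep) (hsep1 : sep ≤ 1) :
    ∃ C : ℝ, 0 < C ∧ ∀ N : ℝ, 1 ≤ N → ∀ (ι : Type) [Fintype ι] (ω : ι → E d)
      (f : ι → Fin d → Tub.Space d) (a : ι → Tub.Space d) (z : (Fin (k + 1) → ℤ) → Tub.Space d),
      (∀ i, ‖ω i‖ ≤ 1) → (∀ i j, i ≠ j → sep / N ≤ ‖ω i - ω j‖) →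
      (∀ i, Orthonormal ℝ (Fin.cons (Tub.nor (ω i)) (f i) : Fin (d + 1) → Tub.Space d)) →
      (∀ i, (Tub.box N (Tub.nor (ω i)) (f i) (a i) ∩
        closedBall (z (cel N (bn e (ω i)))) (K * N)).Nonempty) →
      ∫⁻ y, Tub.Fb N ω f a y ^ (1 + 1 / (d : ℝ)) ≤
        ENNReal.ofReal (C * N ^ (2 * (d + 1)) *
          ((1 + Real.log N) ^ (d + k + 3)) ^ (1 / (d : ℝ))) := by
  obtain ⟨C1, hC1, hmom⟩ := moment hp hd
  have hd0 : (0 : ℝ) < d := by exact_mod_cast hd
  have hω0 := omg_pos d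
  have hc0 : 0 < cc k sep := by unfold cc; positivity
  set q : ℝ := 1 + 1 / (d : ℝ) with hq
  have hq0 : 0 ≤ q := by positivity
  set θ : ℝ := ((d : ℝ) + k + 3) / d with hθ
  set v0 : ℝ := (cc k sep / 4) ^ d * omg d with hv0
  have hv00 : 0 < v0 := by positivity
  refine ⟨(v0⁻¹) ^ q * ((4 * (1 + d + K)) ^ (d + 1) / 4 * (C1 * 2 ^ (d + 1) * 2 ^ θ)), by positivity, ?_⟩
  intro N hN ι _ ω f a z hω hsp hf hz
  have hN0 : 0 < N := by linarith
  have hlN : 0 ≤ Real.log N := Real.log_nonneg hN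
  set M : ℝ := scal d K N with hM
  have hM0 : 0 < M := by rw [hM, scal]; positivity
  have hxm := measurable_xf (k := k) N M z
  have hsm := measurable_sf (k := k) N M z
  have hGm := measurable_GG e hxm hsm (2 / N) (measurableSet_Icc (a := (-1 : ℝ)) (b := 1))
  set G : E d × ℝ → ℝ≥0∞ := GG e (xf N M z) (sf N M z) (2 / N) (Icc (-1) 1) with hG
  have hV : volume (closedBall (0 : E d) (cc k sep / (4 * N))) =
      ENNReal.ofReal (v0 * (N ^ d)⁻¹) := by
    rw [omg_scale d (by positivity)]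
    congr 1
    rw [hv0, ← div_div, div_pow]
    ring
  have hpt : ∀ y : E d × ℝ, Tub.Fb N ω f a (WithLp.toLp 2 y) ^ q ≤
      ENNReal.ofReal ((v0⁻¹ * N ^ d) ^ q) * G (M⁻¹ • y.1, -4 / M * y.2) ^ q := by
    intro y
    have h := point_bound e hm hN hK hsep hsep1 ω hω hsp f hf a z hz y.1 y.2
    rw [hV, ← hM, ← hG] at h
    have h1 : Tub.Fb N ω f a (WithLp.toLp 2 y) ≤
        ENNReal.ofReal (v0⁻¹ * N ^ d) * G (M⁻¹ • y.1, -4 / M * y.2) := by
      have h2 : ENNReal.ofReal (v0⁻¹ * N ^ d) * ENNReal.ofReal (v0 * (N ^ d)⁻¹) = 1 := by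
        rw [← ENNReal.ofReal_mul (by positivity), ← ENNReal.ofReal_one]
        congr 1
        field_simp
      calc Tub.Fb N ω f a (WithLp.toLp 2 y)
          = ENNReal.ofReal (v0⁻¹ * N ^ d) * (Tub.Fb N ω f a (WithLp.toLp 2 y) *
            ENNReal.ofReal (v0 * (N ^ d)⁻¹)) := by
            rw [mul_left_comm, h2, mul_one]
        _ ≤ _ := by gcongr
    calc Tub.Fb N ω f a (WithLp.toLp 2 y) ^ q ≤
          (ENNReal.ofReal (v0⁻¹ * N ^ d) * G (M⁻¹ • y.1, -4 / M * y.2)) ^ q := by gcongr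
      _ = _ := by
          rw [ENNReal.mul_rpow_of_nonneg _ _ hq0, ENNReal.ofReal_rpow_of_nonneg (by positivity) hq0]
  have hmp := WithLp.volume_preserving_toLp (E d) ℝ
  have hFm : Measurable (fun y => Tub.Fb N ω f a y ^ q) := (Tub.Fb_measurable N ω f a).pow_const _
  calc ∫⁻ y, Tub.Fb N ω f a y ^ q
      = ∫⁻ y : E d × ℝ, Tub.Fb N ω f a (WithLp.toLp 2 y) ^ q :=
        (hmp.lintegral_comp hFm).symm
    _ ≤ ∫⁻ y : E d × ℝ, ENNReal.ofReal ((v0⁻¹ * N ^ d) ^ q) *
          G (M⁻¹ • y.1, -4 / M * y.2) ^ q := lintegral_mono hpt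
    _ = ENNReal.ofReal ((v0⁻¹ * N ^ d) ^ q) *
          ∫⁻ y : E d × ℝ, G (M⁻¹ • y.1, -4 / M * y.2) ^ q :=
        lintegral_const_mul' _ _ ENNReal.ofReal_ne_top
    _ = ENNReal.ofReal ((v0⁻¹ * N ^ d) ^ q) * (ENNReal.ofReal |((-4 / M) ^ 1)⁻¹| *
          (ENNReal.ofReal |((M⁻¹) ^ d)⁻¹| * ∫⁻ y, G y ^ q)) := by
        rw [lint_scale (g := fun y => G y ^ q) (hGm.pow_const _) (inv_ne_zero hM0.ne')
          (div_ne_zero (by norm_num) hM0.ne')]
    _ ≤ ENNReal.ofReal ((v0⁻¹ * N ^ d) ^ q) * (ENNReal.ofReal |((-4 / M) ^ 1)⁻¹| *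
          (ENNReal.ofReal |((M⁻¹) ^ d)⁻¹| *
          ENNReal.ofReal (C1 * (2 / N) ^ (d + 1) * ell (2 / N) ^ θ))) := by
        gcongr
        exact hmom (2 / N) _ _ hxm hsm (by positivity)
    _ = ENNReal.ofReal ((v0⁻¹ * N ^ d) ^ q * (|((-4 / M) ^ 1)⁻¹| *
          (|((M⁻¹) ^ d)⁻¹| * (C1 * (2 / N) ^ (d + 1) * ell (2 / N) ^ θ)))) := by
        rw [← ENNReal.ofReal_mul (abs_nonneg _), ← ENNReal.ofReal_mul (abs_nonneg _),
          ← ENNReal.ofReal_mul (by positivity)]
    _ ≤ _ := by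
        apply ENNReal.ofReal_le_ofReal
        have hell := one_le_ell (by positivity : 0 < 2 / N)
        have h1 : |((-4 / M) ^ 1)⁻¹| = M / 4 := by
          rw [pow_one, inv_div, abs_div, abs_of_pos hM0]
          norm_num
        have h2 : |((M⁻¹) ^ d)⁻¹| = M ^ d := by
          rw [inv_pow, inv_inv, abs_of_pos (by positivity)]
        have h3 : (v0⁻¹ * N ^ d) ^ q = v0⁻¹ ^ q * N ^ (d + 1) := by
          rw [Real.mul_rpow (by positivity) (by positivity)]
          congr 1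
          rw [← Real.rpow_natCast, ← Real.rpow_mul hN0.le, ← Real.rpow_natCast N (d + 1)]
          congr 1
          rw [hq]
          push_cast
          field_simp
        have h4 : ell (2 / N) ^ θ ≤ 2 ^ θ * (1 + Real.log N) ^ θ := by
          rw [← Real.mul_rpow (by norm_num) (by linarith)]
          exact Real.rpow_le_rpow (by linarith) (ell_N hN) (by positivity)
        have h5 : ((1 + Real.log N) ^ (d + k + 3)) ^ (1 / (d : ℝ)) = (1 + Real.log N) ^ θ := by
          rw [← Real.rpow_natCast, ← Real.rpow_mul (by linarith)]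
          congr 1
          rw [hθ]
          push_cast
          ring
        rw [h1, h2, h3, h5]
        calc v0⁻¹ ^ q * N ^ (d + 1) * (M / 4 * (M ^ d * (C1 * (2 / N) ^ (d + 1) * ell (2 / N) ^ θ)))
            ≤ v0⁻¹ ^ q * N ^ (d + 1) * (M / 4 * (M ^ d * (C1 * (2 / N) ^ (d + 1) *
              (2 ^ θ * (1 + Real.log N) ^ θ)))) := by gcongr
          _ = _ := by
              have hM1 : M = (4 * (1 + d + K)) * N ^ 2 := by rw [hM, scal]
              have hMd : M ^ d = (4 * (1 + d + K)) ^ d * N ^ (2 * d) := by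
                rw [hM1, mul_pow, ← pow_mul]
              rw [hMd, hM1, div_pow 2 N]
              generalize 4 * (1 + d + K) = L0
              field_simp
              ring

end Pool.Agent.W2helper94.KC
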